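import Mathlib
import Pool.Agent.W287.HK.Basic
import Pool.Agent.Y696.Eis
import Pool.Agent.Y692.QS.Ei

/-!
# Residue rings of the Eisenstein integers
-/

set_option autoImplicit false
set_option linter.unusedSectionVars false

namespace Pool.Agent.Y715.T.Rs

open Pool.Agent.Y696 Pool.Agent.Y692.QS

lemma wC_om : wC = om := rfl

lemma toC_eq (z : Ei) : toC z = z.re + z.im * om := toC_apply z

/-- the isomorphism -/
noncomputable def eq0 : Ei ≃+* eis :=
  RingEquiv.ofBijective (toC.codRestrict eis (fun z => ⟨z.re, z.im, toC_eq z⟩))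
    ⟨fun _ _ h => toC_inj (congrArg Subtype.val h), by
      rintro ⟨z, x, y, h⟩
      refine ⟨⟨x, y⟩, Subtype.ext ?_⟩
      show toC ⟨x, y⟩ = z
      rw [toC_eq, h]⟩

lemma eq0_coe (z : Ei) : ((eq0 z : eis) : ℂ) = toC z := rfl

instance pidEi : IsPrincipalIdealRing Ei :=
  IsPrincipalIdealRing.of_surjective (eq0.symm : eis →+* Ei) eq0.symm.surjective

/-- quotients -/
noncomputable def quo (J : Ideal Ei) :
    Ei ⧸ J ≃+* eis ⧸ (J.map (eq0 : Ei →+* eis)) :=
  Ideal.quotientEquiv J _ eq0 rfl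

lemma map_span (z : Ei) : (Ideal.span {z}).map (eq0 : Ei →+* eis) =
    Ideal.span {eq0 z} := by
  rw [Ideal.map_span, Set.image_singleton]
  rfl

theorem fin_quo {z : Ei} (hz : z ≠ 0) : Finite (Ei ⧸ Ideal.span {z}) := by
  have h1 := (Pool.Agent.W287.HK.h_basic eis om qr).1 (Ideal.span {eq0 z}) (by
    rw [Ne, Ideal.span_singleton_eq_bot]
    exact fun h => hz (eq0.injective (by rw [h, map_zero])))
  have e := quo (Ideal.span {z})
  rw [map_span] at e
  exact Finite.of_equiv _ e.symm.toEquiv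

theorem card_quo (z : Ei) : (Nat.card (Ei ⧸ Ideal.span {z}) : ℤ) = nr z := by
  have h1 := (Pool.Agent.W287.HK.h_basic eis om qr).2.2.2.2.1 (eq0 z)
  have e := quo (Ideal.span {z})
  rw [map_span] at e
  rw [Nat.card_congr e.toEquiv]
  unfold Pool.Agent.W192.HK.nm Pool.Agent.W192.HK.sp at h1
  rw [eq0_coe, toC_normSq] at h1
  exact_mod_cast h1

end Pool.Agent.Y715.T.Rs
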