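import Mathlib

/-!
# Kummer theory for cubic characters
-/

set_option autoImplicit false
set_option linter.unusedSectionVars false

namespace Pool.Agent.Y715.T.Kum

universe u

variable {K Ω : Type u} [Field K] [Field Ω] [Algebra K Ω] [IsGalois K Ω]

lemma val_mul_pow {I : Ω} (hI3 : I ^ 3 = 1) (x y : ZMod 3) :
    I ^ (x + y).val = I ^ x.val * I ^ y.val := by
  rw [← pow_add, ZMod.val_add]
  conv_rhs => rw [← Nat.div_add_mod (x.val + y.val) 3]
  rw [pow_add, pow_mul, hI3, one_pow, one_mul]

/-- A locally constant cubic character comes from a cube root. -/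
theorem exists_root (h3 : (3 : Ω) ≠ 0) {I : Ω} (hI : I ^ 2 + I + 1 = 0)
    (hfix : ∀ σ : Ω ≃ₐ[K] Ω, σ I = I) (h : (Ω ≃ₐ[K] Ω) → ZMod 3)
    (hmul : ∀ σ τ, h (σ * τ) = h σ + h τ) (hc : IsLocallyConstant h) :
    ∃ (s : Ω) (a : K), s ≠ 0 ∧ s ^ 3 = algebraMap K Ω a ∧ ∀ σ, σ s = I ^ (h σ).val * s := by
  have hI3 : I ^ 3 = 1 := by linear_combination (I - 1) * hI
  have hI0 : I ≠ 0 := by
    rintro rfl
    have : (1 : Ω) = 0 := by linear_combination hI
    exact one_ne_zero this
  have hran : ∀ s : Ω, (∀ σ, σ s = I ^ (h σ).val * s) → ∃ a : K, s ^ 3 = algebraMap K Ω a := by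
    intro s hs
    have : s ^ 3 ∈ Set.range (algebraMap K Ω) := by
      rw [InfiniteGalois.mem_range_algebraMap_iff_fixed]
      intro σ
      rw [map_pow, hs, mul_pow, ← pow_mul, mul_comm (h σ).val, pow_mul, hI3, one_pow, one_mul]
    obtain ⟨a, ha⟩ := this
    exact ⟨a, ha.symm⟩
  have hone : h 1 = 0 := by
    have := hmul 1 1
    rw [mul_one] at this
    exact left_eq_add.1 this
  by_cases htriv : ∀ σ, h σ = 0
  · have h1 : ∀ σ : Ω ≃ₐ[K] Ω, σ (1 : Ω) = I ^ (h σ).val * 1 := fun σ => by
      rw [htriv σ, map_one, ZMod.val_zero, pow_zero, one_mul]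
    obtain ⟨a, ha⟩ := hran 1 h1
    exact ⟨1, a, one_ne_zero, ha, h1⟩
  · push Not at htriv
    obtain ⟨τ, hτ⟩ : ∃ τ, h τ = 1 := by
      obtain ⟨τ, hτ⟩ := htriv
      have h01 : ∀ x : ZMod 3, x ≠ 0 → x = 1 ∨ x + x = 1 := by decide
      rcases h01 _ hτ with h2 | h2
      · exact ⟨τ, h2⟩
      · exact ⟨τ * τ, by rw [hmul, h2]⟩
    let H : Subgroup (Ω ≃ₐ[K] Ω) :=
      { carrier := {σ | h σ = 0}
        mul_mem' := by
          intro a b ha hb
          show h (a * b) = 0
          rw [hmul, show h a = 0 from ha, show h b = 0 from hb, add_zero]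
        one_mem' := hone
        inv_mem' := by
          intro a ha
          show h a⁻¹ = 0
          have := hmul a⁻¹ a
          rw [inv_mul_cancel, hone, show h a = 0 from ha, add_zero] at this
          exact this.symm }
    have hHo : IsOpen (H : Set (Ω ≃ₐ[K] Ω)) := hc.isOpen_fiber 0
    let Hc : ClosedSubgroup (Ω ≃ₐ[K] Ω) := ⟨H, H.isClosed_of_isOpen hHo⟩
    have hfx := InfiniteGalois.fixingSubgroup_fixedField Hc
    have hτn : τ ∉ (IntermediateField.fixedField (Hc : Subgroup (Ω ≃ₐ[K] Ω))).fixingSubgroup := by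
      rw [hfx]
      intro h1
      have h2 : h τ = 0 := h1
      rw [hτ] at h2
      exact one_ne_zero h2
    rw [IntermediateField.mem_fixingSubgroup_iff] at hτn
    push Not at hτn
    obtain ⟨x, hx, hx'⟩ := hτn
    have hxH : ∀ σ, h σ = 0 → σ x = x := by
      intro σ hσ
      exact hx ⟨σ, hσ⟩
    have hinv : h τ⁻¹ = -1 := by
      have := hmul τ⁻¹ τ
      rw [inv_mul_cancel, hone, hτ] at this
      linear_combination -this
    -- elements fixed by `H`
    have hcong : ∀ (t : ℕ) (σ : Ω ≃ₐ[K] Ω), h σ = 0 → σ ((τ ^ t) x) = (τ ^ t) x := by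
      intro t
      induction t with
      | zero => intro σ hσ; rw [pow_zero, AlgEquiv.one_apply]; exact hxH σ hσ
      | succ t ih =>
        intro σ hσ
        have h3 : h (τ⁻¹ * σ * τ) = 0 := by
          rw [hmul, hmul, hσ, hinv, hτ]
          ring
        have h4 := ih _ h3
        rw [AlgEquiv.mul_apply, AlgEquiv.mul_apply] at h4
        have h5 := congrArg τ h4
        rw [← AlgEquiv.mul_apply τ τ⁻¹, mul_inv_cancel, AlgEquiv.one_apply] at h5
        rw [pow_succ', AlgEquiv.mul_apply]
        exact h5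
    have hτ3 : (τ ^ 3) x = x := by
      apply hxH
      rw [pow_succ, pow_two, hmul, hmul, hτ]
      decide
    set x1 := τ x with hx1
    set x2 := τ x1 with hx2
    have hx3 : τ x2 = x := by
      have e : (τ ^ 3) x = τ (τ (τ x)) := by
        rw [pow_succ, pow_two]
        rfl
      rw [← hτ3, e]
    have hH1 : ∀ σ, h σ = 0 → σ x1 = x1 := by
      intro σ hσ
      have := hcong 1 σ hσ
      rw [pow_one] at this
      exact this
    have hH2 : ∀ σ, h σ = 0 → σ x2 = x2 := by
      intro σ hσ
      have := hcong 2 σ hσ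
      rw [pow_two] at this
      exact this
    -- eigenvectors
    obtain ⟨s, hs0, hsH, hsτ⟩ : ∃ s : Ω, s ≠ 0 ∧ (∀ σ, h σ = 0 → σ s = s) ∧ τ s = I * s := by
      by_cases h5 : x + I ^ 2 * x1 + I * x2 = 0
      · by_cases h6 : x + I * x1 + I ^ 2 * x2 = 0
        · exfalso
          apply hx'
          have h7 : (3 : Ω) * (x1 - x) = 0 := by
            have e1 : 3 * x = x + x1 + x2 := by
              linear_combination h5 + h6 - (x1 + x2) * hI
            have e2 : 3 * x1 = x + x1 + x2 := by
              have e3 := congrArg τ e1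
              rw [map_mul, map_ofNat, map_add, map_add, ← hx1, ← hx2, hx3] at e3
              rw [e3]; ring
            linear_combination e2 - e1
          exact sub_eq_zero.1 ((mul_eq_zero.1 h7).resolve_left h3)
        · refine ⟨(x + I * x1 + I ^ 2 * x2) ^ 2, pow_ne_zero 2 h6, fun σ hσ => ?_, ?_⟩
          · rw [map_pow, map_add, map_add, map_mul, map_mul, map_pow, hfix, hxH σ hσ, hH1 σ hσ,
              hH2 σ hσ]
          · rw [map_pow, map_add, map_add, map_mul, map_mul, map_pow, hfix, ← hx1, ← hx2, hx3]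
            have e : x1 + I * x2 + I ^ 2 * x = I ^ 2 * (x + I * x1 + I ^ 2 * x2) := by
              linear_combination (-(x1 + I * x2)) * hI3
            rw [e]
            linear_combination (I * (x + I * x1 + I ^ 2 * x2) ^ 2) * hI3
      · refine ⟨x + I ^ 2 * x1 + I * x2, h5, fun σ hσ => ?_, ?_⟩
        · rw [map_add, map_add, map_mul, map_mul, map_pow, hfix, hxH σ hσ, hH1 σ hσ, hH2 σ hσ]
        · rw [map_add, map_add, map_mul, map_mul, map_pow, hfix, ← hx1, ← hx2, hx3]
          linear_combination (-x1) * hI3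
    have hpow : ∀ n : ℕ, (τ ^ n) s = I ^ n * s := by
      intro n
      induction n with
      | zero => rw [pow_zero, pow_zero, AlgEquiv.one_apply, one_mul]
      | succ n ih =>
        rw [pow_succ', AlgEquiv.mul_apply, ih, map_mul, map_pow, hfix, hsτ]
        ring
    have hs : ∀ σ, σ s = I ^ (h σ).val * s := by
      intro σ
      have hn : h (τ ^ (h σ).val) = h σ := by
        have h8 : ∀ n : ℕ, h (τ ^ n) = n := by
          intro n
          induction n with
          | zero => rw [pow_zero, hone, Nat.cast_zero]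
          | succ n ih => rw [pow_succ, hmul, ih, hτ]; push_cast; ring
        rw [h8, ZMod.natCast_zmod_val]
      have hn' : h (τ ^ (h σ).val)⁻¹ = -h σ := by
        have := hmul (τ ^ (h σ).val)⁻¹ (τ ^ (h σ).val)
        rw [inv_mul_cancel, hone, hn] at this
        linear_combination -this
      have h9 := hsH ((τ ^ (h σ).val)⁻¹ * σ) (by rw [hmul, hn', neg_add_cancel])
      have h10 := congrArg (τ ^ (h σ).val) h9
      rw [← AlgEquiv.mul_apply, ← mul_assoc, mul_inv_cancel, one_mul, hpow] at h10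
      exact h10
    obtain ⟨a, ha⟩ := hran s hs
    exact ⟨s, a, hs0, ha, hs⟩

end Pool.Agent.Y715.T.Kum
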