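import Pool.Agent.Y715.T.Ell

/-!
# Reduction in residue characteristic prime to three
-/

set_option autoImplicit false
set_option linter.unusedSectionVars false
set_option linter.unusedVariables false

namespace Pool.Agent.Y715.T.Red

open WeierstrassCurve Pool.Agent.Y715.T.Ell

open scoped Classical

variable {F : Type*} [NormedField F] [IsUltrametricDist F] [CharZero F]

lemma add_le {a b : F} {r : ℝ} (ha : ‖a‖ ≤ r) (hb : ‖b‖ ≤ r) : ‖a + b‖ ≤ r :=
  (IsUltrametricDist.norm_add_le_max a b).trans (max_le ha hb)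

lemma add_lt {a b : F} {r : ℝ} (ha : ‖a‖ < r) (hb : ‖b‖ < r) : ‖a + b‖ < r :=
  (IsUltrametricDist.norm_add_le_max a b).trans_lt (max_lt ha hb)

lemma sub_le {a b : F} {r : ℝ} (ha : ‖a‖ ≤ r) (hb : ‖b‖ ≤ r) : ‖a - b‖ ≤ r := by
  rw [sub_eq_add_neg]
  exact add_le ha (by rwa [norm_neg])

lemma sub_lt {a b : F} {r : ℝ} (ha : ‖a‖ < r) (hb : ‖b‖ < r) : ‖a - b‖ < r := by
  rw [sub_eq_add_neg]
  exact add_lt ha (by rwa [norm_neg])

lemma eq_of_lt {a b : F} (h : ‖b‖ < ‖a‖) : ‖a + b‖ = ‖a‖ := by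
  refine le_antisymm (add_le le_rfl h.le) ?_
  by_contra hcon
  push Not at hcon
  have h1 : ‖a‖ < ‖a‖ := by
    have h2 : a = (a + b) - b := by ring
    nth_rw 1 [h2]
    exact sub_lt hcon h
  exact lt_irrefl _ h1

lemma mul_le {a b : F} (ha : ‖a‖ ≤ 1) (hb : ‖b‖ ≤ 1) : ‖a * b‖ ≤ 1 := by
  rw [norm_mul]
  exact mul_le_one₀ ha (norm_nonneg _) hb

lemma mul_lt {a b : F} (ha : ‖a‖ ≤ 1) (hb : ‖b‖ < 1) : ‖a * b‖ < 1 := by
  rw [norm_mul]
  calc ‖a‖ * ‖b‖ ≤ 1 * ‖b‖ := mul_le_mul_of_nonneg_right ha (norm_nonneg _)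
    _ < 1 := by rwa [one_mul]

lemma int_le (n : ℕ) : ‖(n : F)‖ ≤ 1 := IsUltrametricDist.norm_natCast_le_one F n

lemma two_le : ‖(2 : F)‖ ≤ 1 := by exact_mod_cast int_le (F := F) 2

lemma three_le : ‖(3 : F)‖ ≤ 1 := by exact_mod_cast int_le (F := F) 3

lemma pow_le {a : F} (n : ℕ) (ha : ‖a‖ ≤ 1) : ‖a ^ n‖ ≤ 1 := by
  rw [norm_pow]
  exact pow_le_one₀ (norm_nonneg _) ha

lemma le_of_pow {a : F} {n : ℕ} (hn : n ≠ 0) (h : ‖a ^ n‖ ≤ 1) : ‖a‖ ≤ 1 := by
  rw [norm_pow] at h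
  exact (pow_le_one_iff_of_nonneg (norm_nonneg _) hn).1 h

lemma lt_of_pow {a : F} {n : ℕ} (hn : n ≠ 0) (h : ‖a ^ n‖ < 1) : ‖a‖ < 1 := by
  rw [norm_pow] at h
  exact (pow_lt_one_iff_of_nonneg (norm_nonneg _) hn).1 h

lemma sq_le {a : F} (h : ‖a ^ 2‖ ≤ 1) : ‖a‖ ≤ 1 := le_of_pow two_ne_zero h

variable {V : WeierstrassCurve F} (hV : IsE V) (h3 : ‖(3 : F)‖ = 1)

/-- sums of large abscissas -/
lemma large {x1 x2 X ℓ ν : F} (h1 : 1 < ‖x1‖) (h3 : 1 < ‖x2‖) (e1 : X + x1 + x2 = ℓ ^ 2)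
    (e2 : x1 * x2 + X * (x1 + x2) = -(ℓ * (2 * ν + 1))) (e3 : x1 * x2 * X = ν ^ 2 + ν) :
    1 < ‖X‖ := by
  by_contra hX
  push Not at hX
  set A := ‖x1‖ * ‖x2‖ with hA
  set B := max ‖x1‖ ‖x2‖ with hB
  have hB1 : 1 < B := lt_max_of_lt_left h1
  have hAB : B < A := by
    rw [hB, hA, max_lt_iff]
    constructor
    · nlinarith
    · nlinarith
  have hA1 : 1 < A := hB1.trans hAB
  have hsum : ‖x1 + x2‖ ≤ B := add_le (le_max_left _ _) (le_max_right _ _)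
  have hℓ : ‖ℓ‖ ^ 2 ≤ B := by
    rw [← norm_pow, ← e1]
    have e : X + x1 + x2 = X + (x1 + x2) := by ring
    rw [e]
    exact add_le (hX.trans hB1.le) hsum
  have hν0 : ‖ν ^ 2 + ν‖ ≤ A := by
    rw [← e3, norm_mul, norm_mul]
    calc ‖x1‖ * ‖x2‖ * ‖X‖ ≤ ‖x1‖ * ‖x2‖ * 1 := by gcongr
      _ = A := mul_one _
  have hν : ‖2 * ν + 1‖ ^ 2 ≤ A := by
    by_cases hn : ‖ν‖ ≤ 1
    · have h5 : ‖2 * ν + 1‖ ≤ 1 := add_le (mul_le two_le hn) (by rw [norm_one])
      have h6 : ‖2 * ν + 1‖ ^ 2 ≤ 1 := pow_le_one₀ (norm_nonneg _) h5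
      linarith
    · push Not at hn
      have h5 : ‖ν ^ 2 + ν‖ = ‖ν‖ ^ 2 := by
        rw [eq_of_lt, norm_pow]
        rw [norm_pow]
        nlinarith
      have h6 : ‖2 * ν + 1‖ ≤ ‖ν‖ := by
        refine add_le ?_ (by rw [norm_one]; exact hn.le)
        rw [norm_mul]
        calc ‖(2 : F)‖ * ‖ν‖ ≤ 1 * ‖ν‖ := by
              exact mul_le_mul_of_nonneg_right two_le (norm_nonneg _)
          _ = ‖ν‖ := one_mul _
      calc ‖2 * ν + 1‖ ^ 2 ≤ ‖ν‖ ^ 2 := by gcongr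
        _ ≤ A := by rw [← h5]; exact hν0
  have h4 : ‖x1 * x2 + X * (x1 + x2)‖ = A := by
    rw [eq_of_lt, norm_mul]
    rw [norm_mul, norm_mul]
    calc ‖X‖ * ‖x1 + x2‖ ≤ 1 * B := by gcongr
      _ = B := one_mul B
      _ < A := hAB
  rw [e2, norm_neg, norm_mul] at h4
  have h7 : A ^ 2 ≤ B * A := by
    rw [← h4, mul_pow]
    rw [h4]
    exact mul_le_mul hℓ hν (by positivity) (by linarith)
  nlinarith

/-- the kernel of reduction -/
noncomputable def E1 : AddSubgroup V.toAffine.Point where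
  carrier := {P | P = 0 ∨ ∃ (x y : F) (h : V.toAffine.Nonsingular x y), P = .some x y h ∧ 1 < ‖x‖}
  zero_mem' := Or.inl rfl
  add_mem' := by
    rintro P Q (rfl | ⟨x1, y1, h1, rfl, hx1⟩) (rfl | ⟨x2, y2, h3, rfl, hx2⟩)
    · left
      exact add_zero 0
    · right
      exact ⟨x2, y2, h3, zero_add _, hx2⟩
    · right
      exact ⟨x1, y1, h1, add_zero _, hx1⟩
    · by_cases hxy : x1 = x2 ∧ y1 = -y2 - 1
      · left
        exact hV.add_opp h1 h3 hxy
      · right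
        obtain ⟨ℓ, X, Y, h, e, eX, eY, hs⟩ := hV.add_ex h1 h3 hxy
        obtain ⟨-, s2, s3⟩ := symm_fn hV ((hV.eqn _ _).1 h1.1) ((hV.eqn _ _).1 h3.1) eX hs
        exact ⟨X, Y, h, e, large hx1 hx2 (by rw [eX]; ring) s2 s3⟩
  neg_mem' := by
    rintro P (rfl | ⟨x, y, h, rfl, hx⟩)
    · left
      exact neg_zero
    · right
      exact ⟨x, -y - 1, hV.neg_nons h, hV.neg_eq h (hV.neg_nons h), hx⟩

lemma mem_E1 {P : V.toAffine.Point} : P ∈ E1 hV ↔
    P = 0 ∨ ∃ (x y : F) (h : V.toAffine.Nonsingular x y), P = .some x y h ∧ 1 < ‖x‖ := Iff.rfl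

lemma some_mem {x y : F} (h : V.toAffine.Nonsingular x y) :
    (Affine.Point.some x y h : V.toAffine.Point) ∈ E1 hV ↔ 1 < ‖x‖ := by
  rw [mem_E1]
  constructor
  · rintro (h1 | ⟨x', y', h', e, hx⟩)
    · exact absurd h1 (Affine.Point.some_ne_zero _)
    · rw [Affine.Point.some.injEq] at e
      rw [e.1]
      exact hx
  · intro hx
    exact Or.inr ⟨x, y, h, rfl, hx⟩

lemma T0_notMem : T0 hV ∉ E1 hV := by
  unfold T0
  rw [some_mem, norm_zero]
  norm_num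

variable {I : F} (hI : I ^ 2 + I + 1 = 0)

include hI in
lemma norm_I : ‖I‖ = 1 := by
  have h : ‖I‖ ^ 3 = 1 := by
    have h1 : I ^ 3 = 1 := by linear_combination (I - 1) * hI
    rw [← norm_pow, h1, norm_one]
  exact (pow_eq_one_iff_of_nonneg (norm_nonneg _) three_ne_zero).1 h

lemma im_mem {P : V.toAffine.Point} (hP : P ∈ E1 hV) : im hV hI P ∈ E1 hV := by
  rcases hP with rfl | ⟨x, y, h, rfl, hx⟩
  · rw [map_zero]
    exact Or.inl rfl
  · rw [im_some, some_mem, norm_mul, norm_I hI, one_mul]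
    exact hx

include h3 in
/-- `1 - ω` on the kernel of reduction -/
theorem surj_E1 [IsAlgClosed F] {Q : V.toAffine.Point} (hQ : Q ∈ E1 hV) :
    ∃ P ∈ E1 hV, P - im hV hI P = Q := by
  obtain ⟨P, hP⟩ := surj_im hV hI Q
  by_cases hQ0 : Q = 0
  · exact ⟨0, zero_mem _, by rw [map_zero, sub_zero, hQ0]⟩
  have hT : T0 hV - im hV hI (T0 hV) = 0 := by rw [im_T0, sub_self]
  rcases P with _ | ⟨x, y, h⟩
  · exfalso
    apply hQ0
    rw [← hP]
    show (0 : V.toAffine.Point) - im hV hI 0 = 0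
    rw [map_zero, sub_zero]
  have he := (hV.eqn _ _).1 h.1
  have hx : x ≠ 0 := by
    rintro rfl
    apply hQ0
    have hy : y * (y + 1) = 0 := by linear_combination he
    rcases mul_eq_zero.1 hy with hy | hy
    · subst hy
      rw [← hP]
      exact hT
    · obtain ⟨h', e'⟩ := T0_neg hV
      have e2 : (Affine.Point.some 0 y h : V.toAffine.Point) = -T0 hV := by
        rw [e', Affine.Point.some.injEq]
        exact ⟨rfl, by linear_combination hy⟩
      rw [← hP, e2, map_neg, im_T0]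
      abel
  obtain ⟨X, h', e, hX⟩ := one_sub_im hV hI h hx
  rw [hP] at e
  rw [e, some_mem] at hQ
  have h4 : ‖X‖ * ‖x‖ ^ 2 = ‖x ^ 3 + 1‖ := by
    have h5 := congrArg norm hX
    rw [norm_mul, norm_mul, h3, one_mul, norm_mul, norm_neg, norm_pow, norm_pow, norm_I hI,
      one_pow, one_mul] at h5
    exact h5
  have hx0 : 0 < ‖x‖ := norm_pos_iff.2 hx
  rcases lt_trichotomy ‖x‖ 1 with h5 | h5 | h5
  · -- translate
    have h6 : ‖y‖ ≤ 1 := by
      by_contra hcon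
      push Not at hcon
      have h7 : ‖y ^ 2 + y‖ = ‖y‖ ^ 2 := by
        rw [eq_of_lt, norm_pow]
        rw [norm_pow]
        nlinarith
      rw [he, norm_pow] at h7
      have h8 : ‖x‖ ^ 3 < 1 := pow_lt_one₀ hx0.le h5 (by norm_num)
      nlinarith
    have h7 : ‖y‖ * ‖y + 1‖ < 1 := by
      rw [← norm_mul]
      have e2 : y * (y + 1) = x ^ 3 := by linear_combination he
      rw [e2, norm_pow]
      exact pow_lt_one₀ hx0.le h5 (by norm_num)
    by_cases h8 : ‖y‖ < 1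
    · -- `P - T`
      have e3 : (Affine.Point.some x y h : V.toAffine.Point) - T0 hV =
          -((.some x (-y - 1) (hV.neg_nons h)) + T0 hV) := by
        have e4 := hV.neg_eq h (hV.neg_nons h)
        rw [← e4]
        abel
      obtain ⟨h9, e5⟩ := add_T0 hV (hV.neg_nons h) hx
      refine ⟨.some x y h - T0 hV, ?_, ?_⟩
      · rw [e3, neg_mem_iff, e5, some_mem]
        have h10 : ‖-(-y - 1)‖ = 1 := by
          have e6 : -(-y - 1) = 1 + y := by ring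
          rw [e6, eq_of_lt, norm_one]
          rwa [norm_one]
        rw [norm_div, h10, norm_pow, lt_div_iff₀ (by positivity), one_mul]
        exact pow_lt_one₀ hx0.le h5 two_ne_zero
      · rw [map_sub, im_T0, ← hP]
        abel
    · -- `P + T`
      have h9 : ‖y‖ = 1 := le_antisymm h6 (not_lt.1 h8)
      obtain ⟨h10, e5⟩ := add_T0 hV h hx
      refine ⟨.some x y h + T0 hV, ?_, ?_⟩
      · rw [e5, some_mem, norm_div, norm_neg, h9, norm_pow, lt_div_iff₀ (by positivity), one_mul]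
        exact pow_lt_one₀ hx0.le h5 two_ne_zero
      · rw [map_add, im_T0, ← hP]
        abel
  · exfalso
    rw [h5, one_pow, mul_one] at h4
    have h6 : ‖x ^ 3 + 1‖ ≤ 1 := add_le (pow_le 3 h5.le) (by rw [norm_one])
    rw [← h4] at h6
    linarith
  · exact ⟨.some x y h, (some_mem hV h).2 h5, hP⟩

include hV h3 in
/-- points with the same reduction -/
theorem diff_mem {x y x' y' : F} (h : V.toAffine.Nonsingular x y)
    (h' : V.toAffine.Nonsingular x' y') (hx : ‖x‖ ≤ 1) (hy : ‖y‖ ≤ 1) (hxx : ‖x' - x‖ < 1)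
    (hyy : ‖y' - y‖ < 1) :
    (Affine.Point.some x' y' h' : V.toAffine.Point) - .some x y h ∈ E1 hV := by
  have h0 := hV.neg_nons h
  rw [sub_eq_add_neg, hV.neg_eq h h0]
  by_cases hxy : x' = x ∧ y' = -(-y - 1) - 1
  · rw [hV.add_opp h' h0 hxy]
    exact zero_mem _
  obtain ⟨ℓ, X, Y, h4, e, eX, eY, hs⟩ := hV.add_ex h' h0 hxy
  have e1 := (hV.eqn _ _).1 h'.1
  have e2 := (hV.eqn _ _).1 h0.1
  obtain ⟨s1, -, -⟩ := symm_fn hV e1 e2 eX hs
  rw [e, some_mem]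
  by_contra hX
  push Not at hX
  have hx' : ‖x'‖ ≤ 1 := by
    have e : x' = (x' - x) + x := by ring
    rw [e]
    exact add_le hxx.le hx
  have hℓ : ‖ℓ‖ ≤ 1 := by
    apply sq_le
    have e3 : ℓ ^ 2 = X + x' + x := by rw [eX]; ring
    rw [e3]
    exact add_le (add_le hX hx') hx
  -- `2 y + 1` is small
  have hysm : ‖2 * y + 1‖ < 1 := by
    rcases hs with ⟨-, g⟩ | ⟨-, g, -⟩
    · have e4 : 2 * y + 1 = ℓ * (x' - x) - (y' - y) := by rw [g]; ring
      rw [e4]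
      exact sub_lt (mul_lt hℓ hxx) hyy
    · have e4 : 2 * y + 1 = -(y' - y) := by rw [g]; ring
      rw [e4, norm_neg]
      exact hyy
  have h6 : ‖3 * x ^ 2‖ < 1 := by
    have e4 : 3 * x ^ 2 = ℓ * (y' - y) - (x' - x) * (x' + 2 * x) := by
      linear_combination -s1
    rw [e4]
    refine sub_lt (mul_lt hℓ hyy) ?_
    rw [mul_comm]
    exact mul_lt (add_le hx' (mul_le two_le hx)) hxx
  rw [norm_mul, h3, one_mul] at h6
  have h7 : ‖x‖ < 1 := lt_of_pow two_ne_zero h6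
  have h8 : ‖(1 : F)‖ < 1 := by
    have e4 : (1 : F) = (2 * y + 1) * (2 * y + 1) - (2 * 2) * x * x ^ 2 := by
      linear_combination -4 * e2
    rw [e4]
    refine sub_lt (mul_lt hysm.le hysm) ?_
    rw [mul_assoc]
    refine mul_lt (mul_le two_le two_le) ?_
    rw [mul_comm]
    exact mul_lt (pow_le 2 hx) h7
  rw [norm_one] at h8
  exact lt_irrefl _ h8

end Pool.Agent.Y715.T.Red
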