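import Mathlib
import Pool.Agent.W327.RK.L2
import Pool.Agent.W571.RK.L3
import Pool.Agent.W902.TB.Gen
import Pool.Agent.Y715.T.Red

/-!
# Inertia groups of `ℚ_p(ω)`
-/

set_option autoImplicit false
set_option linter.unusedSectionVars false

namespace Pool.Agent.Y715.T.Nr

open Pool.Agent.W237.RK Pool.Agent.Y715.T.Red

variable {p : ℕ} [Fact p.Prime]

instance galOm : IsGalois ℚ_[p] (PadicAlgCl p) := inferInstanceAs (IsGalois ℚ_[p] (AlgebraicClosure ℚ_[p]))

abbrev Au (p : ℕ) [Fact p.Prime] : Type := PadicAlgCl p ≃ₐ[ℚ_[p]] PadicAlgCl p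

lemma nrm (τ : Au p) (x : PadicAlgCl p) : ‖τ x‖ = ‖x‖ := Pool.Agent.W902.TB.norm_alg τ x

/-- `τ` acts trivially on the residue field -/
def Inert (τ : Au p) : Prop := ∀ z : PadicAlgCl p, ‖z‖ ≤ 1 → ‖τ z - z‖ < 1

lemma inert_of_kur {τ : Au p} (h : ∀ x ∈ kur p, τ x = x) : Inert τ := by
  intro z hz
  obtain ⟨c, hc, hzc⟩ := Pool.Agent.W571.RK.l3 p z hz
  have hτc : τ c = c := by
    apply h
    rcases hc with rfl | ⟨M, hM, hcM⟩
    · exact zero_mem _
    · exact IntermediateField.subset_adjoin _ _ ⟨M, hM, hcM⟩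
  have e : τ z - z = τ (z - c) - (z - c) := by
    rw [map_sub, hτc]
    ring
  rw [e]
  refine sub_lt ?_ hzc
  rwa [nrm]

lemma mem_kur {z : PadicAlgCl p} (h : ∀ τ : Au p, (∀ x ∈ kur p, τ x = x) → τ z = z) :
    z ∈ kur p := by
  rw [← InfiniteGalois.fixedField_fixingSubgroup (kur p), IntermediateField.mem_fixedField_iff]
  intro τ hτ
  exact h τ ((IntermediateField.mem_fixingSubgroup_iff _ _).1 hτ)

lemma norm_ne {z : PadicAlgCl p} (hz : z ≠ 0) (hk : z ∈ kur p) : ∃ m : ℤ, ‖z‖ = (p : ℝ) ^ m :=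
  Pool.Agent.W327.RK.l2 p z hk hz

/-- elements fixed by the inertia group, residue characteristic prime to three -/
theorem norm_odd {I : PadicAlgCl p} (hI : I ^ 2 + I + 1 = 0) (hp : p ≠ 3) {z : PadicAlgCl p}
    (hz : z ≠ 0) (h : ∀ τ : Au p, Inert τ → τ I = I → τ z = z) : ∃ m : ℤ, ‖z‖ = (p : ℝ) ^ m := by
  have hpp : p.Prime := Fact.out
  have hIk : I ∈ kur p := by
    apply IntermediateField.subset_adjoin
    refine ⟨3, fun h4 => ?_, ?_⟩
    · exact hp ((Nat.prime_dvd_prime_iff_eq hpp Nat.prime_three).1 h4)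
    · linear_combination (I - 1) * hI
  exact norm_ne hz (mem_kur fun τ hτ => h τ (inert_of_kur hτ) (hτ I hIk))

lemma I_or {I : PadicAlgCl p} (hI : I ^ 2 + I + 1 = 0) (τ : Au p) : τ I = I ∨ τ I = -1 - I := by
  have h : (τ I) ^ 2 + τ I + 1 = 0 := by
    rw [← map_pow, ← map_add, ← map_one τ, ← map_add, hI, map_zero]
  have h2 : (τ I - I) * (τ I - (-1 - I)) = 0 := by linear_combination h - hI
  rcases mul_eq_zero.1 h2 with h3 | h3
  · exact Or.inl (sub_eq_zero.1 h3)
  · exact Or.inr (sub_eq_zero.1 h3)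

lemma map_conj {I : PadicAlgCl p} {τ : Au p} (h : τ I = -1 - I) : τ (-1 - I) = I := by
  rw [map_sub, map_neg, map_one, h]
  ring

lemma inv_conj {I : PadicAlgCl p} {t : Au p} (h : t I = -1 - I) : t⁻¹ I = -1 - I := by
  have h1 := congrArg (t⁻¹ : Au p) (map_conj h)
  rw [← AlgEquiv.mul_apply, inv_mul_cancel, AlgEquiv.one_apply] at h1
  exact h1.symm

/-- elements fixed by the inertia group, residue characteristic three -/
theorem norm_two {I : PadicAlgCl 3} (hI : I ^ 2 + I + 1 = 0) {z : PadicAlgCl 3} (hz : z ≠ 0)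
    (h : ∀ τ : Au 3, Inert τ → τ I = I → τ z = z) : ∃ m : ℤ, ‖z‖ ^ 2 = (3 : ℝ) ^ m := by
  by_cases hall : ∀ τ : Au 3, (∀ x ∈ kur 3, τ x = x) → τ z = z
  · obtain ⟨m, hm⟩ := norm_ne hz (mem_kur hall)
    refine ⟨2 * m, ?_⟩
    rw [hm, mul_comm, zpow_mul]
    norm_cast
  · push Not at hall
    obtain ⟨t, ht, htz⟩ := hall
    have htI : t I = -1 - I := by
      rcases I_or hI t with h1 | h1
      · exact absurd (h t (inert_of_kur ht) h1) htz
      · exact h1
    have hinv : ∀ x ∈ kur 3, t⁻¹ x = x := by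
      intro x hx
      have := congrArg (t⁻¹ : Au 3) (ht x hx)
      rw [← AlgEquiv.mul_apply, inv_mul_cancel, AlgEquiv.one_apply] at this
      exact this.symm
    have htI' : t⁻¹ I = -1 - I := inv_conj htI
    -- any automorphism over `kur` that moves `I` acts on `z` as `t`
    have key : ∀ τ : Au 3, (∀ x ∈ kur 3, τ x = x) → τ I = -1 - I → τ z = t z := by
      intro τ hτ hτI
      have h1 : (t⁻¹ * τ) z = z := by
        apply h
        · apply inert_of_kur
          intro x hx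
          rw [AlgEquiv.mul_apply, hτ x hx, hinv x hx]
        · rw [AlgEquiv.mul_apply, hτI, map_conj htI']
      have h2 := congrArg t h1
      rw [← AlgEquiv.mul_apply, ← mul_assoc, mul_inv_cancel, one_mul] at h2
      exact h2
    have hmem : z * t z ∈ kur 3 := by
      apply mem_kur
      intro τ hτ
      rw [map_mul]
      rcases I_or hI τ with h1 | h1
      · have h2 : τ (t z) = t z := by
          have h3 := key (τ * t) (fun x hx => by rw [AlgEquiv.mul_apply, ht x hx, hτ x hx])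
            (by rw [AlgEquiv.mul_apply, htI, map_sub, map_neg, map_one, h1])
          rwa [AlgEquiv.mul_apply] at h3
        rw [h2, h τ (inert_of_kur hτ) h1]
      · have h2 : τ (t z) = z := by
          have h3 := h (τ * t) (inert_of_kur fun x hx => by rw [AlgEquiv.mul_apply, ht x hx, hτ x hx])
            (by rw [AlgEquiv.mul_apply, htI, map_conj h1])
          rwa [AlgEquiv.mul_apply] at h3
        rw [h2, key τ hτ h1, mul_comm]
    have htz0 : t z ≠ 0 := (map_ne_zero t).2 hz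
    obtain ⟨m, hm⟩ := norm_ne (mul_ne_zero hz htz0) hmem
    refine ⟨m, ?_⟩
    rw [norm_mul, nrm] at hm
    rw [pow_two, hm]
    norm_num

lemma fix_mem {x : PadicAlgCl p} (h : ∀ τ : Au p, τ x = x) :
    ∃ y : ℚ_[p], algebraMap ℚ_[p] (PadicAlgCl p) y = x := by
  have := InfiniteGalois.mem_bot_iff_fixed (k := ℚ_[p]) (K := PadicAlgCl p) x
  rw [IntermediateField.mem_bot] at this
  exact this.2 h

lemma near {x : PadicAlgCl p} (hx : ‖x‖ ≤ 1) (h : ∀ τ : Au p, τ x = x) :
    ∃ a : ℤ, ‖x - a‖ < 1 := by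
  obtain ⟨y, rfl⟩ := fix_mem h
  have h1 : ‖y‖ ≤ 1 := by
    rw [← PadicAlgCl.norm_extends p y]
    exact hx
  let y' : ℤ_[p] := ⟨y, h1⟩
  refine ⟨(y'.zmodRepr : ℕ), ?_⟩
  have h2 : ‖y' - (y'.zmodRepr : ℤ_[p])‖ < 1 := PadicInt.norm_sub_zmodRepr_lt_one y'
  have h3 : ‖y - (y'.zmodRepr : ℚ_[p])‖ < 1 := by
    have : ((y' - (y'.zmodRepr : ℤ_[p]) : ℤ_[p]) : ℚ_[p]) = y - (y'.zmodRepr : ℚ_[p]) := by
      push_cast
      rfl
    rw [← this]
    exact h2
  rw [← PadicAlgCl.norm_extends p] at h3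
  have h4 : algebraMap ℚ_[p] (PadicAlgCl p) y - (((y'.zmodRepr : ℕ) : ℤ) : PadicAlgCl p) =
      ((y - (y'.zmodRepr : ℚ_[p]) : ℚ_[p]) : PadicAlgCl p) := by
    show _ = algebraMap ℚ_[p] (PadicAlgCl p) _
    rw [map_sub, map_natCast]
    push_cast
    rfl
  rw [h4]
  exact h3

/-- the residue field of `ℚ_p(ω)` -/
theorem residue {I : PadicAlgCl p} (hI : I ^ 2 + I + 1 = 0) (h2 : ‖(3 : PadicAlgCl p)‖ = 1)
    {y : PadicAlgCl p} (hy : ‖y‖ ≤ 1) (h : ∀ τ : Au p, τ I = I → τ y = y) :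
    ∃ a b : ℤ, ‖y - (a + b * I)‖ < 1 := by
  by_cases hall : ∀ τ : Au p, τ y = y
  · obtain ⟨a, ha⟩ := near hy hall
    refine ⟨a, 0, ?_⟩
    simpa using ha
  · push Not at hall
    obtain ⟨t, hty⟩ := hall
    have htI : t I = -1 - I := by
      rcases I_or hI t with h1 | h1
      · exact absurd (h t h1) hty
      · exact h1
    have htI' : t⁻¹ I = -1 - I := inv_conj htI
    have key : ∀ τ : Au p, τ I = -1 - I → τ y = t y := by
      intro τ hτI
      have h1 : (t⁻¹ * τ) y = y := by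
        apply h
        rw [AlgEquiv.mul_apply, hτI, map_conj htI']
      have h2 := congrArg t h1
      rw [← AlgEquiv.mul_apply, ← mul_assoc, mul_inv_cancel, one_mul] at h2
      exact h2
    have hc1 : ∀ τ : Au p, τ I = I → τ (t y) = t y := by
      intro τ h1
      have h3 := key (τ * t) (by rw [AlgEquiv.mul_apply, htI, map_sub, map_neg, map_one, h1])
      rwa [AlgEquiv.mul_apply] at h3
    have hc2 : ∀ τ : Au p, τ I = -1 - I → τ (t y) = y := by
      intro τ h1
      have h3 := h (τ * t) (by rw [AlgEquiv.mul_apply, htI, map_conj h1])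
      rwa [AlgEquiv.mul_apply] at h3
    have hI1 : ‖I‖ = 1 := norm_I hI
    -- the square root of `-3`
    have hll : (1 + 2 * I) ^ 2 = -3 := by linear_combination 4 * hI
    have hl1 : ‖1 + 2 * I‖ = 1 := by
      have h3 : ‖1 + 2 * I‖ ^ 2 = 1 := by rw [← norm_pow, hll, norm_neg, h2]
      exact (pow_eq_one_iff_of_nonneg (norm_nonneg _) two_ne_zero).1 h3
    have hl0 : 1 + 2 * I ≠ 0 := by
      intro h0
      rw [h0, norm_zero] at hl1
      exact zero_ne_one hl1
    have hty1 : ‖t y‖ ≤ 1 := by rwa [nrm]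
    have hb0 : ‖(y - t y) / (1 + 2 * I)‖ ≤ 1 := by
      rw [norm_div, hl1, div_one]
      exact sub_le hy hty1
    obtain ⟨b, hb⟩ := near (x := (y - t y) / (1 + 2 * I)) hb0 (by
      intro τ
      rw [map_div₀, map_sub, map_add, map_mul, map_one, map_ofNat]
      rcases I_or hI τ with h1 | h1
      · rw [h τ h1, hc1 τ h1, h1]
      · rw [key τ h1, hc2 τ h1, h1]
        have e : 1 + 2 * (-1 - I) = -(1 + 2 * I) := by ring
        rw [e, div_neg, ← neg_div, neg_sub])
    obtain ⟨a, ha⟩ := near (x := y - (y - t y) / (1 + 2 * I) * I) (by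
      refine sub_le hy ?_
      rw [norm_mul, hI1, mul_one]
      exact hb0) (by
      intro τ
      rw [map_sub, map_mul, map_div₀, map_sub, map_add, map_mul, map_one, map_ofNat]
      rcases I_or hI τ with h1 | h1
      · rw [h τ h1, hc1 τ h1, h1]
      · rw [key τ h1, hc2 τ h1, h1]
        have e : 1 + 2 * (-1 - I) = -(1 + 2 * I) := by ring
        rw [e]
        field_simp
        ring)
    refine ⟨a, b, ?_⟩
    have e : y - (a + b * I) = (y - (y - t y) / (1 + 2 * I) * I - a) +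
        ((y - t y) / (1 + 2 * I) - b) * I := by
      ring
    rw [e]
    refine add_lt ha ?_
    rw [norm_mul, hI1, mul_one]
    exact hb

end Pool.Agent.Y715.T.Nr
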