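import Mathlib
import Pool.Agent.Y715.T.Nr
import Pool.Agent.Y715.T.Kum
import Pool.Agent.Y715.T.Rs

/-!
# Eisenstein integers in algebraically closed fields
-/

set_option autoImplicit false
set_option linter.unusedSectionVars false
set_option linter.unusedVariables false

namespace Pool.Agent.Y715.T.Gi

open Pool.Agent.Y715.T.Red Pool.Agent.Y715.T.Nr Pool.Agent.Y715.T.Rs Pool.Agent.Y715.T.Kum
open Pool.Agent.Y692.QS

/-- the homomorphism with `ω ↦ I` -/
noncomputable def ev {L : Type*} [CommRing L] (I : L) (hI : I ^ 2 + I + 1 = 0) : Ei →+* L :=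
  hom I (by linear_combination hI)

lemma ev_apply {L : Type*} [CommRing L] (I : L) (hI : I ^ 2 + I + 1 = 0) (z : Ei) :
    ev I hI z = z.re + z.im * I := hom_apply _ _ _

lemma map_ev {L M : Type*} [CommRing L] [CommRing M] (φ : L →+* M) {I : L}
    (hI : I ^ 2 + I + 1 = 0) {I' : M} (hI' : I' ^ 2 + I' + 1 = 0) (h : φ I = I') (z : Ei) :
    φ (ev I hI z) = ev I' hI' z := by
  rw [ev_apply, ev_apply, map_add, map_mul, map_intCast, map_intCast, h]

lemma ev_inj {L : Type*} [Field L] [CharZero L] {I : L} (hI : I ^ 2 + I + 1 = 0) {z : Ei}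
    (h : ev I hI z = 0) : z = 0 := by
  have h1 : ev I hI (z * star z) = 0 := by rw [map_mul, h, zero_mul]
  rw [mul_star, map_intCast] at h1
  have h2 : nr z = 0 := by exact_mod_cast h1
  exact nr_zero_iff.1 h2

lemma ev_ne {L : Type*} [Field L] [CharZero L] {I : L} (hI : I ^ 2 + I + 1 = 0) {z : Ei}
    (h : z ≠ 0) : ev I hI z ≠ 0 := fun h0 => h (ev_inj hI h0)

lemma ev_w {L : Type*} [CommRing L] (I : L) (hI : I ^ 2 + I + 1 = 0) : ev I hI w = I := hom_w _ _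

/-- no cube of a nonunit divides -/
def CF (z : Ei) : Prop := z ≠ 0 ∧ ∀ d : Ei, d ^ 3 ∣ z → IsUnit d

section local_

variable {p : ℕ} [Fact p.Prime] {I : PadicAlgCl p} (hI : I ^ 2 + I + 1 = 0)

lemma ev_le (z : Ei) : ‖ev I hI z‖ ≤ 1 := by
  have h : ∀ a : ℤ, ‖(a : PadicAlgCl p)‖ ≤ 1 := fun a => IsUltrametricDist.norm_intCast_le_one _ a
  rw [ev_apply]
  refine add_le (h _) ?_
  rw [norm_mul, norm_I hI, mul_one]
  exact h _

lemma ev_fix {τ : Au p} (h : τ I = I) (z : Ei) : τ (ev I hI z) = ev I hI z :=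
  map_ev τ.toRingEquiv.toRingHom hI hI h z

/-- divisibility by the prime below -/
lemma dvd_iff {ρ : Ei} (hρ : Prime ρ) (h : ‖ev I hI ρ‖ < 1) (z : Ei) :
    ρ ∣ z ↔ ‖ev I hI z‖ < 1 := by
  constructor
  · rintro ⟨w, rfl⟩
    rw [map_mul, norm_mul]
    calc ‖ev I hI ρ‖ * ‖ev I hI w‖ ≤ ‖ev I hI ρ‖ * 1 :=
          mul_le_mul_of_nonneg_left (ev_le hI w) (norm_nonneg _)
      _ < 1 := by rwa [mul_one]
  · intro hz
    by_contra hcon
    obtain ⟨a, b, hab⟩ := (hρ.irreducible.coprime_iff_not_dvd).2 hcon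
    have h1 : ‖ev I hI (a * ρ + b * z)‖ < 1 := by
      rw [map_add, map_mul, map_mul]
      exact add_lt (mul_lt (ev_le hI a) h) (mul_lt (ev_le hI b) hz)
    rw [hab, map_one, norm_one] at h1
    exact lt_irrefl _ h1

lemma eq_one_of_not_lt {z : Ei} (h : ¬ ‖ev I hI z‖ < 1) : ‖ev I hI z‖ = 1 :=
  le_antisymm (ev_le hI z) (not_lt.1 h)

/-- the prime elements are uniformisers -/
lemma norm_prime (hp : p ≠ 3) {ρ : Ei} (hρ : Prime ρ) (h : ‖ev I hI ρ‖ < 1) :
    ‖ev I hI ρ‖ = (p : ℝ)⁻¹ := by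
  have hpp : p.Prime := Fact.out
  have hp1 : (1 : ℝ) < p := by exact_mod_cast hpp.one_lt
  have hρ0 : ev I hI ρ ≠ 0 := ev_ne hI hρ.ne_zero
  obtain ⟨m, hm⟩ := norm_odd hI hp hρ0 (fun τ _ hτ => ev_fix hI hτ ρ)
  have hpn : ‖ev I hI (p : Ei)‖ = (p : ℝ)⁻¹ := by
    rw [map_natCast]
    exact Pool.Agent.W571.RK.norm_p_Om
  have hpl : ‖ev I hI (p : Ei)‖ < 1 := by
    rw [hpn]
    exact inv_lt_one_of_one_lt₀ hp1
  obtain ⟨w, hw⟩ := (dvd_iff hI hρ h _).2 hpl
  have h1 : (p : ℝ)⁻¹ ≤ ‖ev I hI ρ‖ := by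
    rw [← hpn, hw, map_mul, norm_mul]
    calc ‖ev I hI ρ‖ * ‖ev I hI w‖ ≤ ‖ev I hI ρ‖ * 1 :=
          mul_le_mul_of_nonneg_left (ev_le hI w) (norm_nonneg _)
      _ = ‖ev I hI ρ‖ := mul_one _
  rw [hm] at h h1 ⊢
  have h2 : m < 0 := by
    by_contra hcon
    push Not at hcon
    exact absurd (one_le_zpow₀ hp1.le hcon) (not_le.2 h)
  have h3 : (-1 : ℤ) ≤ m := by
    rw [← zpow_neg_one] at h1
    exact (zpow_le_zpow_iff_right₀ hp1).1 h1
  have h4 : m = -1 := by omega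
  rw [h4, zpow_neg_one]

/-- valuations divisible by three -/
lemma three_of {z : PadicAlgCl p} {n : ℤ} {m : ℤ} (hm : ‖z‖ = (p : ℝ) ^ m)
    (h : ‖z ^ 3‖ = (p : ℝ) ^ n) : n = 3 * m := by
  have hpp : p.Prime := Fact.out
  have hp1 : (1 : ℝ) < p := by exact_mod_cast hpp.one_lt
  rw [norm_pow, hm] at h
  have h1 : (p : ℝ) ^ (3 * m) = (p : ℝ) ^ n := by
    rw [← h, mul_comm, zpow_mul]
    norm_cast
  exact (zpow_right_injective₀ (by linarith) hp1.ne' h1).symm

/-- a cubefree element that is a cube in an extension unramified at the prime `ρ` is prime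
to `ρ` -/
lemma not_dvd_of_fix (hp : p ≠ 3) {ρ : Ei} (hρ : Prime ρ) (h : ‖ev I hI ρ‖ < 1)
    {z : Ei} (hz : CF z) {s : PadicAlgCl p} (hs : s ^ 3 = ev I hI z)
    (hfix : ∀ τ : Au p, Inert τ → τ I = I → τ s = s) : ¬ ρ ∣ z := by
  rintro ⟨w, rfl⟩
  have hs0 : s ≠ 0 := by
    rintro rfl
    have h1 := ev_inj hI (z := ρ * w) (by rw [← hs]; ring)
    exact hz.1 h1
  obtain ⟨m, hm⟩ := norm_odd hI hp hs0 hfix
  by_cases hw : ρ ∣ w
  · obtain ⟨v, rfl⟩ := hw
    have hv : ¬ ρ ∣ v := by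
      rintro ⟨t, rfl⟩
      exact hρ.not_isUnit (hz.2 ρ ⟨t, by ring⟩)
    have h1 := eq_one_of_not_lt hI ((dvd_iff hI hρ h v).not.1 hv)
    have h2 : ‖s ^ 3‖ = (p : ℝ) ^ (-2 : ℤ) := by
      rw [hs, map_mul, map_mul, norm_mul, norm_mul, h1, mul_one, norm_prime hI hp hρ h]
      have hpp : p.Prime := Fact.out
      have hp1 : (p : ℝ) ≠ 0 := by exact_mod_cast hpp.ne_zero
      rw [← zpow_neg_one, ← zpow_add₀ hp1]
      norm_num
    have := three_of hm h2
    omega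
  · have h1 := eq_one_of_not_lt hI ((dvd_iff hI hρ h w).not.1 hw)
    have h2 : ‖s ^ 3‖ = (p : ℝ) ^ (-1 : ℤ) := by
      rw [hs, map_mul, norm_mul, h1, mul_one, norm_prime hI hp hρ h, zpow_neg_one]
    have := three_of hm h2
    omega

end local_

/-! ### Residue characteristic three -/

section three

variable {I : PadicAlgCl 3} (hI : I ^ 2 + I + 1 = 0)

lemma norm_three' : ‖(3 : PadicAlgCl 3)‖ = 3⁻¹ := by
  have := Pool.Agent.W571.RK.norm_p_Om (p := 3)
  exact_mod_cast this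

lemma norm_lam (hI : I ^ 2 + I + 1 = 0) : ‖1 + 2 * I‖ ^ 2 = 3⁻¹ := by
  have h : (1 + 2 * I) ^ 2 = -3 := by linear_combination 4 * hI
  rw [← norm_pow, h, norm_neg, norm_three']

lemma norm_lam_lt (hI : I ^ 2 + I + 1 = 0) : ‖1 + 2 * I‖ < 1 := by
  have h := norm_lam hI
  have h1 : ‖1 + 2 * I‖ ^ 2 < 1 := by rw [h]; norm_num
  exact (pow_lt_one_iff_of_nonneg (norm_nonneg _) two_ne_zero).1 h1

/-- `1 + 2 ω` -/
def lam : Ei := ⟨1, 2⟩

lemma ev_lam {L : Type*} [CommRing L] (I : L) (hI : I ^ 2 + I + 1 = 0) :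
    ev I hI lam = 1 + 2 * I := by
  rw [ev_apply]
  show ((1 : ℤ) : L) + ((2 : ℤ) : L) * I = _
  push_cast
  ring

lemma nr_lam : nr lam = 3 := by decide

lemma lam_sq : lam ^ 2 = -3 := by decide

lemma prime_lam : Prime lam := by
  rw [← irreducible_iff_prime]
  constructor
  · intro h
    have := isUnit_iff.1 h
    rw [nr_lam] at this
    norm_num at this
  · intro a b hab
    have h1 : nr a * nr b = 3 := by rw [← nr_mul, ← hab, nr_lam]
    have ha := nr_nonneg a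
    have hb := nr_nonneg b
    have h2 : nr a ∣ 3 := ⟨_, h1.symm⟩
    have h3 : nr a ≤ 3 := Int.le_of_dvd (by norm_num) h2
    rcases (by omega : nr a = 0 ∨ nr a = 1 ∨ nr a = 2 ∨ nr a = 3) with h4 | h4 | h4 | h4
    · rw [h4] at h1
      norm_num at h1
    · left
      exact isUnit_iff.2 h4
    · rw [h4] at h1
      omega
    · right
      rw [h4] at h1
      rw [isUnit_iff]
      omega

lemma lam_lt : ‖ev I hI lam‖ < 1 := by
  rw [ev_lam]
  exact norm_lam_lt hI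

end three

/-! ### The field `ℚ(ω)` -/

abbrev QB : Type := AlgebraicClosure ℚ

/-- the field `ℚ(ω)` -/
noncomputable abbrev KK (i₀ : QB) : IntermediateField ℚ QB := IntermediateField.adjoin ℚ {i₀}

/-- its absolute Galois group -/
abbrev GK (i₀ : QB) : Type := QB ≃ₐ[KK i₀] QB

instance algQB : Algebra.IsAlgebraic ℚ QB := AlgebraicClosure.isAlgebraic ℚ

instance algClosureQB : IsAlgClosure ℚ QB := ⟨inferInstance, inferInstance⟩

instance galQB : IsGalois ℚ QB where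
  to_isSeparable := inferInstance
  to_normal := IsAlgClosure.normal ℚ QB

instance galKK (i₀ : QB) : IsGalois (KK i₀) QB := inferInstance

variable {i₀ : QB} (hi : i₀ ^ 2 + i₀ + 1 = 0)

lemma i₀_mem : i₀ ∈ KK i₀ := IntermediateField.mem_adjoin_simple_self ℚ i₀

lemma gk_fix (σ : GK i₀) : σ i₀ = i₀ := σ.commutes (⟨i₀, i₀_mem⟩ : KK i₀)

lemma gk_ev (σ : GK i₀) (z : Ei) : σ (ev i₀ hi z) = ev i₀ hi z :=
  map_ev σ.toRingEquiv.toRingHom hi hi (gk_fix σ) z

include hi in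
lemma i₀_cube : i₀ ^ 3 = 1 := by linear_combination (i₀ - 1) * hi

include hi in
lemma exists_conj : ∃ c : QB ≃ₐ[ℚ] QB, c i₀ = -1 - i₀ := by
  by_contra hcon
  push Not at hcon
  have h : ∀ σ : QB ≃ₐ[ℚ] QB, σ i₀ = i₀ := by
    intro σ
    have h1 : (σ i₀) ^ 2 + σ i₀ + 1 = 0 := by
      rw [← map_pow, ← map_add, ← map_one σ, ← map_add, hi, map_zero]
    have h2 : (σ i₀ - i₀) * (σ i₀ - (-1 - i₀)) = 0 := by linear_combination h1 - hi
    rcases mul_eq_zero.1 h2 with h3 | h3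
    · exact sub_eq_zero.1 h3
    · exact absurd (sub_eq_zero.1 h3) (hcon σ)
  have h2 := InfiniteGalois.mem_bot_iff_fixed (k := ℚ) (K := QB) i₀
  rw [IntermediateField.mem_bot] at h2
  obtain ⟨q, hq⟩ := h2.2 h
  have h3 : q ^ 2 + q + 1 = 0 := by
    apply (algebraMap ℚ QB).injective
    rw [map_add, map_add, map_pow, map_one, map_zero, hq, hi]
  nlinarith [sq_nonneg (2 * q + 1)]

include hi in
/-- the elements of `ℚ(ω)` -/
lemma KK_ex {x : QB} (hx : x ∈ KK i₀) : ∃ a b : ℚ, x = a + b * i₀ := by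
  have hint : IsAlgebraic ℚ i₀ := Algebra.IsAlgebraic.isAlgebraic i₀
  have h1 : x ∈ Algebra.adjoin ℚ {i₀} := by
    rw [← IntermediateField.adjoin_simple_toSubalgebra_of_isAlgebraic hint]
    exact hx
  induction h1 using Algebra.adjoin_induction with
  | mem y hy =>
    rw [Set.mem_singleton_iff] at hy
    exact ⟨0, 1, by rw [hy]; push_cast; ring⟩
  | algebraMap r =>
    refine ⟨r, 0, ?_⟩
    push_cast
    rw [zero_mul, add_zero]
    exact (eq_ratCast (algebraMap ℚ QB) r)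
  | add y z hy hz ihy ihz =>
    obtain ⟨a, b, e⟩ := ihy (by
      rw [← IntermediateField.adjoin_simple_toSubalgebra_of_isAlgebraic hint] at hy
      exact hy)
    obtain ⟨c, d, e'⟩ := ihz (by
      rw [← IntermediateField.adjoin_simple_toSubalgebra_of_isAlgebraic hint] at hz
      exact hz)
    exact ⟨a + c, b + d, by rw [e, e']; push_cast; ring⟩
  | mul y z hy hz ihy ihz =>
    obtain ⟨a, b, e⟩ := ihy (by
      rw [← IntermediateField.adjoin_simple_toSubalgebra_of_isAlgebraic hint] at hy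
      exact hy)
    obtain ⟨c, d, e'⟩ := ihz (by
      rw [← IntermediateField.adjoin_simple_toSubalgebra_of_isAlgebraic hint] at hz
      exact hz)
    refine ⟨a * c - b * d, a * d + b * c - b * d, ?_⟩
    rw [e, e']
    push_cast
    linear_combination (b : QB) * d * hi

/-- cubefree representatives -/
lemma exists_cf {x : QB} (hx : x ∈ KK i₀) (hx0 : x ≠ 0) : ∃ z : Ei, CF z ∧
    ∃ s ∈ KK i₀, x = ev i₀ hi z * s ^ 3 := by
  classical
  have h1 : ∃ n : ℕ, ∃ z : Ei, z ≠ 0 ∧ (nr z).natAbs = n ∧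
      ∃ s ∈ KK i₀, x = ev i₀ hi z * s ^ 3 := by
    obtain ⟨a, b, e⟩ := KK_ex hi hx
    have hda : (a.den : QB) ≠ 0 := by exact_mod_cast a.den_ne_zero
    have hdb : (b.den : QB) ≠ 0 := by exact_mod_cast b.den_ne_zero
    set z : Ei := ⟨a.num * b.den * (a.den * b.den) ^ 2, b.num * a.den * (a.den * b.den) ^ 2⟩
      with hz
    have hxz : x = ev i₀ hi z * (((a.den * b.den : ℕ) : QB)⁻¹) ^ 3 := by
      rw [e, ev_apply]
      show _ = ((a.num * b.den * (a.den * b.den) ^ 2 : ℤ) +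
        ((b.num * a.den * (a.den * b.den) ^ 2 : ℤ) : QB) * i₀) * _
      have ha : (a : QB) = a.num / a.den := by
        conv_lhs => rw [← Rat.num_div_den a]
        push_cast
        rfl
      have hb : (b : QB) = b.num / b.den := by
        conv_lhs => rw [← Rat.num_div_den b]
        push_cast
        rfl
      rw [ha, hb]
      push_cast
      field_simp
    refine ⟨_, z, ?_, rfl, _, ?_, hxz⟩
    · intro h0
      rw [h0, map_zero, zero_mul] at hxz
      exact hx0 hxz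
    · exact inv_mem (natCast_mem _ _)
  obtain ⟨z, hz0, hzn, s, hs, e⟩ := Nat.find_spec h1
  refine ⟨z, ⟨hz0, ?_⟩, s, hs, e⟩
  rintro y ⟨w, hw⟩
  by_contra hy
  have hw0 : w ≠ 0 := by
    rintro rfl
    apply hz0
    rw [hw, mul_zero]
  have hy0 : y ≠ 0 := by
    rintro rfl
    apply hz0
    rw [hw]
    ring
  have hmem : ev i₀ hi y ∈ KK i₀ := by
    rw [ev_apply]
    exact add_mem (intCast_mem _ _) (mul_mem (intCast_mem _ _) i₀_mem)
  have h2 := Nat.find_min' h1 (m := (nr w).natAbs) ⟨w, hw0, rfl, ev i₀ hi y * s,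
    mul_mem hmem hs, by rw [e, hw, map_mul, map_pow]; ring⟩
  have h8 : nr z = nr y * (nr y * nr y) * nr w := by
    rw [hw, pow_succ, pow_two, nr_mul, nr_mul, nr_mul]
    ring
  rw [← hzn, h8, Int.natAbs_mul, Int.natAbs_mul, Int.natAbs_mul] at h2
  have h3 : 2 ≤ (nr y).natAbs := by
    rcases (by omega : (nr y).natAbs = 0 ∨ (nr y).natAbs = 1 ∨ 2 ≤ (nr y).natAbs) with
      h4 | h4 | h4
    · exfalso
      apply hy0
      exact nr_zero_iff.1 (Int.natAbs_eq_zero.1 h4)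
    · exfalso
      apply hy
      have h5 := nr_nonneg y
      exact isUnit_iff.2 (by omega)
    · exact h4
  have h5 : 0 < (nr w).natAbs := by
    rw [Nat.pos_iff_ne_zero]
    intro h6
    exact hw0 (nr_zero_iff.1 (Int.natAbs_eq_zero.1 h6))
  have h7 : 2 * (2 * 2) * (nr w).natAbs ≤
      (nr y).natAbs * ((nr y).natAbs * (nr y).natAbs) * (nr w).natAbs := by gcongr
  omega

/-- `σ` acts on the cube roots of `z` through the character `h` -/
def Kc (hi : i₀ ^ 2 + i₀ + 1 = 0) (z : Ei) (h : GK i₀ → ZMod 3) : Prop :=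
  ∀ s : QB, s ^ 3 = ev i₀ hi z → ∀ σ : GK i₀, σ s = i₀ ^ (h σ).val * s

/-- cube roots -/
lemma cube_eq {L : Type*} [Field L] {I : L} (hI : I ^ 2 + I + 1 = 0) {a b : L}
    (h : a ^ 3 = b ^ 3) : ∃ n : ℕ, a = I ^ n * b := by
  have h1 : (a - b) * (a - I * b) * (a - I ^ 2 * b) = 0 := by
    have hI3 : I ^ 3 = 1 := by linear_combination (I - 1) * hI
    linear_combination h + (a * b * (b * I - a)) * hI - b ^ 3 * hI3
  rcases mul_eq_zero.1 h1 with h2 | h2
  · rcases mul_eq_zero.1 h2 with h3 | h3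
    · exact ⟨0, by rw [pow_zero, one_mul]; exact sub_eq_zero.1 h3⟩
    · exact ⟨1, by rw [pow_one]; exact sub_eq_zero.1 h3⟩
  · exact ⟨2, sub_eq_zero.1 h2⟩

/-- one cube root is enough -/
lemma kc_of {z : Ei} {h : GK i₀ → ZMod 3} {s : QB} (hs0 : s ≠ 0) (hs : s ^ 3 = ev i₀ hi z)
    (h1 : ∀ σ : GK i₀, σ s = i₀ ^ (h σ).val * s) : Kc hi z h := by
  intro u hu σ
  obtain ⟨n, hn⟩ := cube_eq hi (hu.trans hs.symm)
  rw [hn, map_mul, map_pow, gk_fix, h1]
  ring

/-- cubic characters -/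
theorem kum (h : GK i₀ → ZMod 3) (hc : IsLocallyConstant h) (hm : ∀ σ τ, h (σ * τ) = h σ + h τ) :
    ∃ z : Ei, CF z ∧ Kc hi z h := by
  obtain ⟨s, a, hs0, hsa, hσ⟩ := exists_root (K := KK i₀) (Ω := QB) three_ne_zero hi gk_fix h hm hc
  have ha0 : (a : QB) ≠ 0 := by
    intro h0
    have h1 : s ^ 3 = 0 := by
      rw [hsa]
      exact h0
    exact hs0 (pow_eq_zero_iff three_ne_zero |>.1 h1)
  obtain ⟨z, hz, t, ht, e⟩ := exists_cf hi a.2 ha0
  have ht0 : t ≠ 0 := by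
    rintro rfl
    apply ha0
    rw [e]
    ring
  refine ⟨z, hz, kc_of hi (s := s / t) (div_ne_zero hs0 ht0) ?_ fun σ => ?_⟩
  · rw [div_pow, hsa]
    show (a : QB) / t ^ 3 = _
    rw [e]
    field_simp
  · have hσt : σ t = t := σ.commutes (⟨t, ht⟩ : KK i₀)
    rw [map_div₀, hσ, hσt, mul_div_assoc]

end Pool.Agent.Y715.T.Gi
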