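import Mathlib

/-!
# The module `B ⊗ ℤ[ζ]` for a module `B` over the Eisenstein integers

`mm J k` is the group of the functions `P` on `ℤ/3^k` with `P (j - 3^(k-1)) = J (P j)`; the root of
unity acts as the shift.
-/

set_option autoImplicit false
set_option linter.unusedSectionVars false

namespace Pool.Agent.Y715.T.Md

variable {B : Type*} [AddCommGroup B]

/-- `3 ^ (k - 1)` as a residue class -/
abbrev qu (k : ℕ) : ZMod (3 ^ k) := ((3 ^ (k - 1) : ℕ) : ZMod (3 ^ k))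

/-- the functions with `P (j - 3 ^ (k - 1)) = J (P j)` -/
def mm (J : B →+ B) (k : ℕ) : AddSubgroup (ZMod (3 ^ k) → B) where
  carrier := {P | ∀ j, P (j - qu k) = J (P j)}
  zero_mem' := fun j => by simp
  add_mem' := by
    intro P Q hP hQ j
    rw [Pi.add_apply, Pi.add_apply, map_add, hP j, hQ j]
  neg_mem' := by
    intro P hP j
    rw [Pi.neg_apply, Pi.neg_apply, map_neg, hP j]

lemma mem_mm {J : B →+ B} {k : ℕ} {P : ZMod (3 ^ k) → B} :
    P ∈ mm J k ↔ ∀ j, P (j - qu k) = J (P j) := Iff.rfl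

lemma emul {A : Type*} [AddCommMonoid A] (f g : AddMonoid.End A) (x : A) :
    (f * g) x = f (g x) := rfl

/-- the shift -/
def Z (B : Type*) [AddCommGroup B] (k : ℕ) : AddMonoid.End (ZMod (3 ^ k) → B) where
  toFun P := fun j => P (j - 1)
  map_zero' := rfl
  map_add' _ _ := rfl

lemma Z_apply {k : ℕ} (P : ZMod (3 ^ k) → B) (j : ZMod (3 ^ k)) : Z B k P j = P (j - 1) := rfl

lemma Z_pow {k : ℕ} (n : ℕ) (P : ZMod (3 ^ k) → B) (j : ZMod (3 ^ k)) :
    (Z B k ^ n) P j = P (j - n) := by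
  induction n generalizing P j with
  | zero => simp
  | succ n ih =>
    rw [pow_succ, emul, ih, Z_apply]
    congr 1
    push_cast
    ring

/-- `1 - Z` -/
def dl (B : Type*) [AddCommGroup B] (k : ℕ) : AddMonoid.End (ZMod (3 ^ k) → B) := 1 - Z B k

lemma dl_apply {k : ℕ} (P : ZMod (3 ^ k) → B) (j : ZMod (3 ^ k)) :
    dl B k P j = P j - P (j - 1) := rfl

lemma three_pow {k : ℕ} (hk : 1 ≤ k) : 3 * 3 ^ (k - 1) = 3 ^ k := by
  rw [← pow_succ']
  congr 1
  omega

lemma three_qu {k : ℕ} (hk : 1 ≤ k) : 3 * qu k = 0 := by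
  have h : (3 : ZMod (3 ^ k)) = ((3 : ℕ) : ZMod (3 ^ k)) := by norm_num
  rw [h, ← Nat.cast_mul, ZMod.natCast_eq_zero_iff, three_pow hk]

variable {J : B →+ B} (hJ : ∀ x, J (J x) = -x - J x)

include hJ

lemma J3 (x : B) : J (J (J x)) = x := by
  rw [hJ (J x), hJ x]
  abel

lemma mm_add {k : ℕ} (hk : 1 ≤ k) {P : ZMod (3 ^ k) → B} (hP : P ∈ mm J k) (j : ZMod (3 ^ k)) :
    P (j + qu k) = J (J (P j)) := by
  have h : j + qu k = (j - qu k) - qu k := by
    have := three_qu hk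
    linear_combination this
  rw [h, hP, hP]

omit hJ in
/-- the extension of a function on `[0, n)` -/
def ext (J : B →+ B) (n : ℕ) (c : ℕ → B) (x : ℕ) : B :=
  (fun b => J (J b))^[x / n] (c (x % n))

omit hJ in
lemma ext_add {n : ℕ} (hn : 0 < n) (c : ℕ → B) (x : ℕ) :
    ext J n c (x + n) = J (J (ext J n c x)) := by
  unfold ext
  rw [Nat.add_div_right _ hn, Nat.add_mod_right, Function.iterate_succ_apply']

lemma ext_per {n : ℕ} (hn : 0 < n) (c : ℕ → B) : Function.Periodic (ext J n c) (3 * n) := by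
  intro x
  have h : x + 3 * n = ((x + n) + n) + n := by ring
  rw [h, ext_add hn, ext_add hn, ext_add hn]
  rw [J3 hJ, J3 hJ]

/-- extension to the residue classes -/
lemma exists_ext {k : ℕ} (hk : 1 ≤ k) (c : ℕ → B) : ∃ P ∈ mm J k,
    (∀ x : ℕ, P (x : ZMod (3 ^ k)) = ext J (3 ^ (k - 1)) c x) := by
  have hn : 0 < 3 ^ (k - 1) := by positivity
  have h4 := three_pow hk
  have key : ∀ x : ℕ, ext J (3 ^ (k - 1)) c (x : ZMod (3 ^ k)).val = ext J (3 ^ (k - 1)) c x := by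
    intro x
    rw [ZMod.val_natCast, ← h4]
    exact (ext_per hJ hn c).map_mod_nat x
  refine ⟨fun j => ext J (3 ^ (k - 1)) c j.val, ?_, key⟩
  intro j
  obtain ⟨x, hx⟩ : ∃ x : ℕ, j - qu k = (x : ZMod (3 ^ k)) := ⟨_, (ZMod.natCast_zmod_val _).symm⟩
  have hj : j = ((x + 3 ^ (k - 1) : ℕ) : ZMod (3 ^ k)) := by
    rw [Nat.cast_add, ← hx]
    ring
  show ext J (3 ^ (k - 1)) c (j - qu k).val = J (ext J (3 ^ (k - 1)) c j.val)
  rw [hx, hj, key, key, ext_add hn, J3 hJ]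

/-- the values of `Q` -/
lemma mm_ext {k : ℕ} (hk : 1 ≤ k) {Q : ZMod (3 ^ k) → B} (hQ : Q ∈ mm J k) (x : ℕ) :
    Q (x : ZMod (3 ^ k)) = ext J (3 ^ (k - 1)) (fun r => Q (r : ZMod (3 ^ k))) x := by
  have hn : 0 < 3 ^ (k - 1) := by positivity
  induction x using Nat.strong_induction_on with
  | _ x ih =>
    by_cases h : x < 3 ^ (k - 1)
    · unfold ext
      rw [Nat.div_eq_of_lt h, Nat.mod_eq_of_lt h]
      rfl
    · push Not at h
      obtain ⟨y, rfl⟩ := Nat.exists_eq_add_of_le' h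
      rw [ext_add hn, ← ih y (by omega), Nat.cast_add, mm_add hJ hk hQ]

/-- **Surjectivity of `1 - Z`.** -/
theorem surj {k : ℕ} (hk : 1 ≤ k) (H : AddSubgroup B) (hHJ : ∀ b ∈ H, J b ∈ H)
    (hs : ∀ b ∈ H, ∃ c ∈ H, c - J c = b) {Q : ZMod (3 ^ k) → B} (hQ : Q ∈ mm J k)
    (hQH : ∀ j, Q j ∈ H) : ∃ P ∈ mm J k, (∀ j, P j ∈ H) ∧ dl B k P = Q := by
  have hn : 0 < 3 ^ (k - 1) := by positivity
  choose c hc1 hc2 using fun r : ℕ => hs (Q (r : ZMod (3 ^ k))) (hQH _)
  obtain ⟨P', hP', hP⟩ := exists_ext hJ hk c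
  have hH : ∀ j, P' j ∈ H := by
    intro j
    obtain ⟨x, rfl⟩ : ∃ x : ℕ, j = (x : ZMod (3 ^ k)) := ⟨_, (ZMod.natCast_zmod_val _).symm⟩
    rw [hP]
    unfold ext
    generalize x / 3 ^ (k - 1) = t
    induction t with
    | zero => exact hc1 _
    | succ t ih =>
      rw [Function.iterate_succ_apply']
      exact hHJ _ (hHJ _ ih)
  have hQ' : ∀ j, P' j - J (P' j) = Q j := by
    intro j
    obtain ⟨x, rfl⟩ : ∃ x : ℕ, j = (x : ZMod (3 ^ k)) := ⟨_, (ZMod.natCast_zmod_val _).symm⟩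
    rw [hP, mm_ext hJ hk hQ]
    unfold ext
    generalize x / 3 ^ (k - 1) = t
    induction t with
    | zero => exact hc2 _
    | succ t ih =>
      rw [Function.iterate_succ_apply', Function.iterate_succ_apply', ← ih]
      simp only [map_sub]
  refine ⟨∑ t ∈ Finset.range (3 ^ (k - 1)), (Z B k ^ t) P', ?_, ?_, ?_⟩
  · refine AddSubgroup.sum_mem _ fun t _ j => ?_
    rw [Z_pow, Z_pow, ← hP' (j - t)]
    congr 1
    ring
  · intro j
    rw [Finset.sum_apply]
    refine AddSubgroup.sum_mem _ fun t _ => ?_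
    rw [Z_pow]
    exact hH _
  · ext j
    rw [dl_apply, Finset.sum_apply, Finset.sum_apply, ← Finset.sum_sub_distrib]
    have h1 : ∀ t ∈ Finset.range (3 ^ (k - 1)), (Z B k ^ t) P' j - (Z B k ^ t) P' (j - 1) =
        P' (j - (t : ℕ)) - P' (j - ((t + 1 : ℕ))) := by
      intro t _
      rw [Z_pow, Z_pow]
      congr 2
      push_cast
      ring
    rw [Finset.sum_congr rfl h1, Finset.sum_range_sub' (fun t : ℕ => P' (j - (t : ZMod (3 ^ k))))]
    rw [Nat.cast_zero, sub_zero, ← hQ' j]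
    congr 1
    exact hP' j

omit hJ in
lemma const_of {k : ℕ} {P : ZMod (3 ^ k) → B} (h : ∀ j, P j = P (j - 1)) (j : ZMod (3 ^ k)) :
    P j = P 0 := by
  obtain ⟨x, rfl⟩ : ∃ x : ℕ, j = (x : ZMod (3 ^ k)) := ⟨_, (ZMod.natCast_zmod_val _).symm⟩
  induction x with
  | zero => simp
  | succ x ih =>
    rw [h, ← ih]
    congr 1
    push_cast
    ring

omit hJ in
/-- the kernel of `1 - Z` -/
theorem ker {k : ℕ} {P : ZMod (3 ^ k) → B} (hP : P ∈ mm J k) (h : dl B k P = 0) :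
    (∀ j, P j = P 0) ∧ P 0 - J (P 0) = 0 := by
  have h1 : ∀ j, P j = P 0 := const_of fun j => by
    have := congrFun h j
    rw [dl_apply] at this
    exact sub_eq_zero.1 this
  refine ⟨h1, ?_⟩
  rw [← hP 0, h1 (0 - qu k), sub_self]

omit hJ in
/-- the values of `J` -/
lemma sum_range {k : ℕ} {P : ZMod (3 ^ k) → B} (hP : P ∈ mm J k) (j : ZMod (3 ^ k)) :
    ∑ t ∈ Finset.range (3 ^ (k - 1)), dl B k P (j - t) = P j - J (P j) := by
  have h1 : ∀ t ∈ Finset.range (3 ^ (k - 1)), dl B k P (j - t) =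
      P (j - (t : ℕ)) - P (j - ((t + 1 : ℕ))) := by
    intro t _
    rw [dl_apply]
    congr 2
    push_cast
    ring
  rw [Finset.sum_congr rfl h1, Finset.sum_range_sub' (fun t : ℕ => P (j - (t : ZMod (3 ^ k))))]
  rw [Nat.cast_zero, sub_zero, ← hP j]

omit hJ in
/-- powers of `1 - X` -/
theorem pow_ex {R : Type*} [CommRing R] (z : R) (r : ℕ) : ∃ W : R,
    (1 - z) ^ (3 ^ r) = 1 - z ^ (3 ^ r) + 3 * W := by
  induction r with
  | zero => exact ⟨0, by simp⟩
  | succ r ih =>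
    obtain ⟨W, e⟩ := ih
    set Y := z ^ (3 ^ r) with hY
    refine ⟨-Y + Y ^ 2 + 3 * W * (1 - Y) ^ 2 + 9 * W ^ 2 * (1 - Y) + 9 * W ^ 3, ?_⟩
    rw [pow_succ, pow_mul, e, pow_mul, ← hY]
    ring

omit hJ in
/-- polynomials in an operator -/
lemma commute_aeval {R : Type*} [Ring R] {S z : R} (h : Commute S z) (p : Polynomial ℤ) :
    Commute S (Polynomial.aeval z p) := by
  induction p using Polynomial.induction_on' with
  | add p q hp hq => rw [map_add]; exact hp.add_right hq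
  | monomial n a =>
    rw [Polynomial.aeval_monomial]
    refine Commute.mul_right ?_ (h.pow_right n)
    exact (Int.commute_cast S a)

/-- `(1 - Z) ^ (2 * 3 ^ (k - 1))` is three times an operator -/
theorem exists_W (J : B →+ B) (hJ : ∀ x, J (J x) = -x - J x) {k : ℕ} (hk : 1 ≤ k) :
    ∃ W : AddMonoid.End (ZMod (3 ^ k) → B),
    (∀ S, Commute S (Z B k) → Commute S W) ∧
    (∀ P ∈ mm J k, W P ∈ mm J k) ∧
    ∀ P ∈ mm J k, (dl B k ^ (2 * 3 ^ (k - 1))) P = 3 • W P := by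
  obtain ⟨W1, h2⟩ := pow_ex (Polynomial.X : Polynomial ℤ) (k - 1)
  set n := 3 ^ (k - 1) with hn
  set Y : Polynomial ℤ := Polynomial.X ^ n with hY
  set W0 : Polynomial ℤ := -Y + 2 * W1 * (1 - Y) + 3 * W1 ^ 2 with hW0
  have h3 : (1 - Polynomial.X : Polynomial ℤ) ^ (2 * n) = (1 + Y + Y ^ 2) + 3 * W0 := by
    rw [mul_comm, pow_mul, h2, hW0]
    ring
  have h1 : ∀ S, Commute S (Z B k) → Commute S (Polynomial.aeval (Z B k) W0) :=
    fun S hS => commute_aeval hS W0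
  refine ⟨Polynomial.aeval (Z B k) W0, h1, fun P hP => ?_, fun P hP => ?_⟩
  · let JJ : AddMonoid.End (ZMod (3 ^ k) → B) :=
      { toFun := fun P j => J (P j)
        map_zero' := by ext j; simp
        map_add' := fun P Q => by ext j; simp }
    have h3 : Commute (Z B k ^ n - JJ) (Z B k) := by
      refine Commute.sub_left (Commute.pow_left rfl _) ?_
      show JJ * Z B k = Z B k * JJ
      rfl
    have h4 := h1 _ h3
    have h5 : (Z B k ^ n - JJ) P = 0 := by
      ext j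
      show (Z B k ^ n) P j - J (P j) = 0
      rw [Z_pow, ← hP j, sub_self]
    have h6 : (Z B k ^ n - JJ) (Polynomial.aeval (Z B k) W0 P) = 0 := by
      have h7 : ((Z B k ^ n - JJ) * Polynomial.aeval (Z B k) W0) P =
          (Polynomial.aeval (Z B k) W0 * (Z B k ^ n - JJ)) P := by
        rw [h4.eq]
      rw [emul, emul, h5, map_zero] at h7
      exact h7
    intro j
    have h8 := congrFun h6 j
    have h9 : (Z B k ^ n) (Polynomial.aeval (Z B k) W0 P) j -
      J (Polynomial.aeval (Z B k) W0 P j) = 0 := h8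
    rw [Z_pow] at h9
    exact sub_eq_zero.1 h9
  · have h4 := congrArg (Polynomial.aeval (Z B k)) h3
    simp only [map_pow, map_sub, map_one, Polynomial.aeval_X, map_add, map_mul, hY,
      map_ofNat] at h4
    have h6 : (3 : AddMonoid.End (ZMod (3 ^ k) → B)) * Polynomial.aeval (Z B k) W0 =
        3 • Polynomial.aeval (Z B k) W0 := by
      rw [nsmul_eq_mul]
      norm_num
    rw [h6] at h4
    have h5 : (dl B k ^ (2 * n)) P = ((1 + Z B k ^ n + (Z B k ^ n) ^ 2 +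
        3 • Polynomial.aeval (Z B k) W0 : AddMonoid.End (ZMod (3 ^ k) → B)) :
          (ZMod (3 ^ k) → B) → (ZMod (3 ^ k) → B)) P := by
      unfold dl
      rw [h4]
    rw [h5]
    show P + (Z B k ^ n) P + ((Z B k ^ n) ^ 2) P + 3 • Polynomial.aeval (Z B k) W0 P = _
    have h7 : P + (Z B k ^ n) P + ((Z B k ^ n) ^ 2) P = 0 := by
      ext j
      rw [← pow_mul]
      show P j + (Z B k ^ n) P j + (Z B k ^ (n * 2)) P j = 0
      rw [Z_pow, Z_pow]
      have e1 : j - ((n : ℕ) : ZMod (3 ^ k)) = j - qu k := rfl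
      have e2 : j - ((n * 2 : ℕ) : ZMod (3 ^ k)) = (j - (n : ZMod (3 ^ k))) - (n : ZMod (3 ^ k)) := by
        rw [mul_two, Nat.cast_add]
        ring
      have e3 : P ((j - qu k) - qu k) = -P j - J (P j) := by rw [hP, hP, hJ]
      have e4 : P (j - qu k) = J (P j) := hP j
      have e5 : ((n : ℕ) : ZMod (3 ^ k)) = qu k := rfl
      rw [e2, e5, e3, e4]
      abel
    rw [h7, zero_add]

end Pool.Agent.Y715.T.Md
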