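import Mathlib
import Pool.Agent.Y715.T.Md
import Pool.Agent.Y715.T.Ell
import Pool.Agent.Y715.T.Gi

/-!
# The twisted modules
-/

set_option autoImplicit false
set_option linter.unusedSectionVars false
set_option linter.unusedVariables false

namespace Pool.Agent.Y715.T.Df

open WeierstrassCurve Pool.Agent.Y715.T.Ell Pool.Agent.Y715.T.Md Pool.Agent.Y715.T.Gi
open Pool.Agent.Y715.T.Nr Pool.Agent.Y715.T.Red Pool.Agent.Y692.QS

open scoped Classical

/-- the curve `y² + y = x³` over `ℚ` -/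
def W0 : WeierstrassCurve ℚ := ⟨0, 0, 1, 0, 0⟩

/-- its points over the field `L` -/
abbrev Pt (L : Type) [Field L] [Algebra ℚ L] : Type := (W0.baseChange L).toAffine.Point

section

variable {F L M : Type} [Field F] [Field L] [Field M] [Algebra ℚ F] [Algebra ℚ L] [Algebra ℚ M]

/-- the map on the points -/
noncomputable def pm (φ : F →ₐ[ℚ] L) : Pt F →+ Pt L :=
  WeierstrassCurve.Affine.Point.map (W' := W0.toAffine) φ

lemma isE (L : Type) [Field L] [Algebra ℚ L] : IsE (W0.baseChange L) where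
  h1 := by
    show algebraMap ℚ L 0 = 0
    exact map_zero _
  h2 := by
    show algebraMap ℚ L 0 = 0
    exact map_zero _
  h3 := by
    show algebraMap ℚ L 1 = 1
    exact map_one _
  h4 := by
    show algebraMap ℚ L 0 = 0
    exact map_zero _
  h6 := by
    show algebraMap ℚ L 0 = 0
    exact map_zero _

lemma pm_zero (φ : F →ₐ[ℚ] L) : pm φ 0 = 0 := map_zero _

lemma pm_some (φ : F →ₐ[ℚ] L) {x y : F} (h : (W0.baseChange F).toAffine.Nonsingular x y) :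
    pm φ (.some x y h) =
      .some (φ x) (φ y) ((Affine.baseChange_nonsingular W0.toAffine φ.injective ..).mpr h) := rfl

lemma pm_inj (φ : F →ₐ[ℚ] L) : Function.Injective (pm φ) := Affine.Point.map_injective φ

lemma pm_pm (φ : F →ₐ[ℚ] L) (ψ : L →ₐ[ℚ] M) (P : Pt F) : pm ψ (pm φ P) = pm (ψ.comp φ) P :=
  Affine.Point.map_map φ ψ P

lemma pm_id (P : Pt F) : pm (AlgHom.id ℚ F) P = P := by
  rcases P with _ | ⟨x, y, h⟩
  · exact pm_zero _
  · rfl

variable [CharZero F] [CharZero L] [CharZero M]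

lemma pm_im (φ : F →ₐ[ℚ] L) {I : F} (hI : I ^ 2 + I + 1 = 0) {I' : L}
    (hI' : I' ^ 2 + I' + 1 = 0) (h : φ I = I') (P : Pt F) :
    pm φ (im (isE F) hI P) = im (isE L) hI' (pm φ P) := by
  rcases P with _ | ⟨x, y, hn⟩
  · show pm φ (im (isE F) hI 0) = im (isE L) hI' (pm φ 0)
    simp only [map_zero]
  · rw [im_some, pm_some, pm_some, im_some, Affine.Point.some.injEq]
    exact ⟨by rw [map_mul, h], rfl⟩

lemma pm_T0 (φ : F →ₐ[ℚ] L) : pm φ (T0 (isE F)) = T0 (isE L) := by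
  unfold T0
  rw [pm_some, Affine.Point.some.injEq]
  exact ⟨map_zero φ, map_zero φ⟩

/-- multiples of the point of order three -/
noncomputable def tt (L : Type) [Field L] [Algebra ℚ L] [CharZero L] (c : ZMod 3) : Pt L :=
  c.val • T0 (isE L)

lemma tt_zero : tt L 0 = 0 := by
  unfold tt
  rw [ZMod.val_zero, zero_smul]

lemma tt_one : tt L 1 = T0 (isE L) := by
  unfold tt
  rw [ZMod.val_one, one_smul]

lemma tt_add (c d : ZMod 3) : tt L (c + d) = tt L c + tt L d := by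
  unfold tt
  rw [← add_smul, ZMod.val_add]
  conv_rhs => rw [← Nat.div_add_mod (c.val + d.val) 3]
  rw [add_smul, mul_comm, mul_smul, T0_add3, smul_zero, zero_add]

lemma tt_neg (c : ZMod 3) : -tt L c = tt L (-c) := by
  rw [neg_eq_iff_add_eq_zero, ← tt_add, add_neg_cancel, tt_zero]

lemma tt_sub (c d : ZMod 3) : tt L (c - d) = tt L c - tt L d := by
  rw [sub_eq_add_neg, tt_add, ← tt_neg, ← sub_eq_add_neg]

lemma tt_neg_one : tt L (-1) = -T0 (isE L) := by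
  rw [← tt_neg, tt_one]

lemma z3 (c : ZMod 3) : c = 0 ∨ c = 1 ∨ c = -1 := by
  revert c
  decide

lemma tt_eq_zero {c : ZMod 3} : tt L c = 0 ↔ c = 0 := by
  constructor
  · intro h
    rcases z3 c with rfl | rfl | rfl
    · rfl
    · rw [tt_one] at h
      exact absurd h (T0_ne _)
    · rw [tt_neg_one, neg_eq_zero] at h
      exact absurd h (T0_ne _)
  · rintro rfl
    exact tt_zero

lemma tt_inj {c d : ZMod 3} (h : tt L c = tt L d) : c = d := by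
  have h1 : tt L (c - d) = 0 := by rw [tt_sub, h, sub_self]
  exact sub_eq_zero.1 (tt_eq_zero.1 h1)

lemma pm_tt (φ : F →ₐ[ℚ] L) (c : ZMod 3) : pm φ (tt F c) = tt L c := by
  unfold tt
  rw [map_nsmul, pm_T0]

lemma im_tt {I : F} (hI : I ^ 2 + I + 1 = 0) (c : ZMod 3) :
    im (isE F) hI (tt F c) = tt F c := by
  unfold tt
  rw [map_nsmul, im_T0]

lemma ker_tt {I : F} (hI : I ^ 2 + I + 1 = 0) {P : Pt F} (h : P - im (isE F) hI P = 0) :
    ∃ c, P = tt F c := by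
  rcases ker_im (isE F) hI h with rfl | rfl | rfl
  · exact ⟨0, tt_zero.symm⟩
  · exact ⟨1, tt_one.symm⟩
  · exact ⟨-1, tt_neg_one.symm⟩

/-- the module -/
noncomputable abbrev MM {F : Type} [Field F] [Algebra ℚ F] [CharZero F] {I : F}
    (hI : I ^ 2 + I + 1 = 0) (k : ℕ) : AddSubgroup (ZMod (3 ^ k) → Pt F) :=
  mm (im (isE F) hI) k

variable {k : ℕ}

/-- the twisted action -/
noncomputable def tw (φ : F →ₐ[ℚ] L) (s : ZMod (3 ^ k)) :
    (ZMod (3 ^ k) → Pt F) →+ (ZMod (3 ^ k) → Pt L) where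
  toFun P := fun j => pm φ (P (j - s))
  map_zero' := by
    ext j
    exact pm_zero φ
  map_add' P Q := by
    ext j
    exact map_add (pm φ) _ _

lemma tw_apply (φ : F →ₐ[ℚ] L) (s : ZMod (3 ^ k)) (P : ZMod (3 ^ k) → Pt F) (j : ZMod (3 ^ k)) :
    tw φ s P j = pm φ (P (j - s)) := rfl

lemma tw_mem (φ : F →ₐ[ℚ] L) (s : ZMod (3 ^ k)) {I : F} (hI : I ^ 2 + I + 1 = 0) {I' : L}
    (hI' : I' ^ 2 + I' + 1 = 0) (h : φ I = I') {P : ZMod (3 ^ k) → Pt F} (hP : P ∈ MM hI k) :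
    tw φ s P ∈ MM hI' k := by
  intro j
  rw [tw_apply, tw_apply, ← pm_im φ hI hI' h, ← hP (j - s)]
  congr 2
  ring

lemma tw_dl (φ : F →ₐ[ℚ] L) (s : ZMod (3 ^ k)) (P : ZMod (3 ^ k) → Pt F) :
    tw φ s (dl _ k P) = dl _ k (tw φ s P) := by
  ext j
  rw [tw_apply, dl_apply, dl_apply, tw_apply, tw_apply, map_sub]
  congr 3
  ring

lemma tw_tw (φ : F →ₐ[ℚ] L) (ψ : L →ₐ[ℚ] M) (s t : ZMod (3 ^ k)) (P : ZMod (3 ^ k) → Pt F) :
    tw ψ t (tw φ s P) = tw (ψ.comp φ) (t + s) P := by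
  ext j
  rw [tw_apply, tw_apply, tw_apply, pm_pm]
  congr 2
  ring

/-- surjectivity of `1 - Z` -/
lemma dl_surj [IsAlgClosed F] (hk : 1 ≤ k) {I : F} (hI : I ^ 2 + I + 1 = 0)
    {Q : ZMod (3 ^ k) → Pt F} (hQ : Q ∈ MM hI k) : ∃ P ∈ MM hI k, dl _ k P = Q := by
  obtain ⟨P, hP, -, e⟩ := surj (J := im (isE F) hI) (im_im (isE F) hI) hk ⊤
    (fun b _ => AddSubgroup.mem_top _)
    (fun b _ => by
      obtain ⟨c, hc⟩ := surj_im (isE F) hI b
      exact ⟨c, AddSubgroup.mem_top _, hc⟩) hQ (fun j => AddSubgroup.mem_top _)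
  exact ⟨P, hP, e⟩

/-- the kernel of `1 - Z` -/
lemma dl_ker {I : F} (hI : I ^ 2 + I + 1 = 0) {P : ZMod (3 ^ k) → Pt F}
    (hP : P ∈ MM hI k) (h : dl _ k P = 0) : ∃ c : ZMod 3, ∀ j, P j = tt F c := by
  obtain ⟨h1, h2⟩ := ker hP h
  obtain ⟨c, hc⟩ := ker_tt hI h2
  exact ⟨c, fun j => by rw [h1 j, hc]⟩

lemma const_mem {I : F} (hI : I ^ 2 + I + 1 = 0) (c : ZMod 3) :
    (fun _ => tt F c : ZMod (3 ^ k) → Pt F) ∈ MM hI k := fun j => (im_tt hI c).symm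

/-- the residue modulo three -/
def par (hk : k ≠ 0) : ZMod (3 ^ k) →+* ZMod 3 := ZMod.castHom (dvd_pow_self 3 hk) (ZMod 3)

lemma par_qu (hk : k ≠ 0) (hk3 : 2 ≤ k) : par hk (qu k) = 0 := by
  unfold qu
  rw [map_natCast, ZMod.natCast_eq_zero_iff]
  exact dvd_pow_self 3 (by omega)

/-- the function `j ↦ j T` -/
noncomputable def PT (F : Type) [Field F] [Algebra ℚ F] [CharZero F] (hk : k ≠ 0) (e : ZMod 3) :
    ZMod (3 ^ k) → Pt F := fun j => tt F (e * par hk j)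

lemma PT_mem (hk : k ≠ 0) (hk3 : 2 ≤ k) {I : F} (hI : I ^ 2 + I + 1 = 0) (e : ZMod 3) :
    PT F hk e ∈ MM hI k := by
  intro j
  unfold PT
  rw [im_tt, map_sub, par_qu hk hk3, sub_zero]

lemma PT_sub (hk : k ≠ 0) (e : ZMod 3) (j s : ZMod (3 ^ k)) :
    PT F hk e (j - s) - PT F hk e j = -tt F (e * par hk s) := by
  unfold PT
  rw [← tt_sub, tt_neg, map_sub]
  congr 1
  ring

lemma dl_PT (hk : k ≠ 0) (e : ZMod 3) (j : ZMod (3 ^ k)) :
    dl _ k (PT F hk e) j = tt F e := by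
  rw [dl_apply, ← neg_sub, PT_sub, neg_neg, map_one, mul_one]

end

/-! ### Galois groups -/

section gal

variable {p : ℕ} [Fact p.Prime]

/-- an automorphism of `QB` over `ℚ(ω)` as a homomorphism over `ℚ` -/
noncomputable def gh {i₀ : QB} (σ : GK i₀) : QB →ₐ[ℚ] QB := σ.toAlgHom.restrictScalars ℚ

lemma gh_apply {i₀ : QB} (σ : GK i₀) (x : QB) : gh σ x = σ x := rfl

lemma gh_mul {i₀ : QB} (σ τ : GK i₀) : gh (σ * τ) = (gh σ).comp (gh τ) := rfl

/-- a local automorphism as a homomorphism over `ℚ` -/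
noncomputable def lh (τ : Au p) : PadicAlgCl p →ₐ[ℚ] PadicAlgCl p := τ.toAlgHom.restrictScalars ℚ

lemma lh_apply (τ : Au p) (x : PadicAlgCl p) : lh τ x = τ x := rfl

lemma lh_mul (σ τ : Au p) : lh (σ * τ) = (lh σ).comp (lh τ) := rfl

/-- `σ` is the restriction of `τ` -/
def Cmp {i₀ : QB} (ι : QB →ₐ[ℚ] PadicAlgCl p) (τ : Au p) (σ : GK i₀) : Prop :=
  ∀ x, τ (ι x) = ι (σ x)

lemma Cmp.fix {i₀ : QB} {ι : QB →ₐ[ℚ] PadicAlgCl p} {τ : Au p} {σ : GK i₀} (h : Cmp ι τ σ) :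
    τ (ι i₀) = ι i₀ := by
  rw [h, gk_fix]

lemma Cmp.mul {i₀ : QB} {ι : QB →ₐ[ℚ] PadicAlgCl p} {τ τ' : Au p} {σ σ' : GK i₀}
    (h : Cmp ι τ σ) (h' : Cmp ι τ' σ') : Cmp ι (τ * τ') (σ * σ') := by
  intro x
  rw [AlgEquiv.mul_apply, AlgEquiv.mul_apply, h', h]

lemma exists_cmp {i₀ : QB} (ι : QB →ₐ[ℚ] PadicAlgCl p) (τ : Au p) (h : τ (ι i₀) = ι i₀) :
    ∃ σ : GK i₀, Cmp ι τ σ := by
  let _ : Algebra QB (PadicAlgCl p) := ι.toRingHom.toAlgebra
  have hst : IsScalarTower ℚ QB (PadicAlgCl p) :=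
    IsScalarTower.of_algebraMap_eq (fun x => (ι.commutes x).symm)
  let τ' : PadicAlgCl p ≃ₐ[ℚ] PadicAlgCl p := τ.restrictScalars ℚ
  let σ := τ'.restrictNormal QB
  have hσ : ∀ x, τ (ι x) = ι (σ x) := fun x => (AlgEquiv.restrictNormal_commutes τ' QB x).symm
  have hσi : σ i₀ = i₀ := by
    apply ι.injective
    show ι (σ i₀) = ι i₀
    rw [← hσ, h]
  have hfix : σ ∈ (KK i₀).fixingSubgroup := by
    rw [IntermediateField.mem_fixingSubgroup_iff]
    intro x hx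
    have hint : IsAlgebraic ℚ i₀ := Algebra.IsAlgebraic.isAlgebraic i₀
    have h1 : x ∈ Algebra.adjoin ℚ {i₀} := by
      rw [← IntermediateField.adjoin_simple_toSubalgebra_of_isAlgebraic hint]
      exact hx
    clear hx
    induction h1 using Algebra.adjoin_induction with
    | mem y hy =>
      rw [Set.mem_singleton_iff] at hy
      rw [hy, hσi]
    | algebraMap r => exact σ.commutes r
    | add y z _ _ ihy ihz => rw [map_add, ihy, ihz]
    | mul y z _ _ ihy ihz => rw [map_mul, ihy, ihz]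
  refine ⟨(IntermediateField.fixingSubgroupEquiv (KK i₀)) ⟨σ, hfix⟩, fun x => ?_⟩
  rw [hσ]
  rfl

/-- embeddings -/
theorem exists_emb {i₀ : QB} (hi : i₀ ^ 2 + i₀ + 1 = 0) {ρ : Ei} (hρ : Prime ρ) :
    ∃ (p : ℕ) (_ : Fact p.Prime) (ι : QB →ₐ[ℚ] PadicAlgCl p), ‖ι (ev i₀ hi ρ)‖ < 1 := by
  have hN0 : (nr ρ).natAbs ≠ 0 := fun h0 =>
    hρ.ne_zero (nr_zero_iff.1 (Int.natAbs_eq_zero.1 h0))
  have hN1 : (nr ρ).natAbs ≠ 1 := fun h0 => by
    have h5 := nr_nonneg ρ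
    exact hρ.not_isUnit (isUnit_iff.2 (by omega))
  obtain ⟨p, hp, hpN⟩ := Nat.exists_prime_and_dvd hN1
  have : Fact p.Prime := ⟨hp⟩
  obtain ⟨ι⟩ : Nonempty (QB →ₐ[ℚ] PadicAlgCl p) :=
    ⟨IsAlgClosed.lift (R := ℚ) (S := QB) (M := AlgebraicClosure ℚ_[p])⟩
  have hI : (ι i₀) ^ 2 + ι i₀ + 1 = 0 := by
    rw [← map_pow, ← map_add, ← map_one ι, ← map_add, hi, map_zero]
  have hιe : ∀ z, ι (ev i₀ hi z) = ev (ι i₀) hI z := fun z => map_ev ι.toRingHom hi hI rfl z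
  -- one of the two conjugates
  have hprod : ‖ι (ev i₀ hi ρ)‖ * ‖ι (ev i₀ hi (star ρ))‖ < 1 := by
    rw [← norm_mul, ← map_mul, ← map_mul, mul_star, hιe, map_intCast]
    have h1 : ((nr ρ : ℤ) : PadicAlgCl p) = (((nr ρ).natAbs : ℕ) : PadicAlgCl p) := by
      have h1 : (((nr ρ).natAbs : ℕ) : ℤ) = nr ρ :=
        Int.natAbs_of_nonneg (nr_nonneg ρ)
      have h2 := congrArg (fun a : ℤ => (a : PadicAlgCl p)) h1
      simp only [Int.cast_natCast] at h2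
      exact h2.symm
    obtain ⟨q, hq⟩ := hpN
    rw [h1, hq]
    push_cast
    rw [norm_mul]
    have h2 : ‖(q : PadicAlgCl p)‖ ≤ 1 := IsUltrametricDist.norm_natCast_le_one _ q
    have h3 : ‖(p : PadicAlgCl p)‖ < 1 := Pool.Agent.W571.RK.norm_p_lt_one
    calc ‖(p : PadicAlgCl p)‖ * ‖(q : PadicAlgCl p)‖ ≤ ‖(p : PadicAlgCl p)‖ * 1 :=
          mul_le_mul_of_nonneg_left h2 (norm_nonneg _)
      _ < 1 := by rwa [mul_one]
  by_cases h1 : ‖ι (ev i₀ hi ρ)‖ < 1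
  · exact ⟨p, inferInstance, ι, h1⟩
  · have h2 : ‖ι (ev i₀ hi ρ)‖ = 1 := by
      rw [hιe] at h1 ⊢
      exact eq_one_of_not_lt hI h1
    rw [h2, one_mul] at hprod
    obtain ⟨c, hc⟩ := exists_conj hi
    refine ⟨p, inferInstance, ι.comp c.toAlgHom, ?_⟩
    have h3 : (ι.comp c.toAlgHom) (ev i₀ hi ρ) = ι (ev i₀ hi (star ρ)) := by
      show ι (c (ev i₀ hi ρ)) = _
      congr 1
      rw [ev_apply, ev_apply, map_add, map_mul, map_intCast, map_intCast, hc, star_re,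
        star_im]
      push_cast
      ring
    rw [h3]
    exact hprod

end gal

end Pool.Agent.Y715.T.Df
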