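import Mathlib
import Pool.Agent.Y715.T.Df

/-!
# Local conditions, residue characteristic prime to three
-/

set_option autoImplicit false
set_option linter.unusedSectionVars false

namespace Pool.Agent.Y715.T.Odd

open WeierstrassCurve Pool.Agent.Y715.T.Ell Pool.Agent.Y715.T.Md Pool.Agent.Y715.T.Gi
open Pool.Agent.Y715.T.Nr Pool.Agent.Y715.T.Red Pool.Agent.Y715.T.Df

open scoped Classical

variable {p : ℕ} [Fact p.Prime] {i₀ : QB} {k : ℕ}

/-- the local equation -/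
def Star (ι : QB →ₐ[ℚ] PadicAlgCl p) (a : GK i₀ → ZMod (3 ^ k)) (h : GK i₀ → ZMod 3)
    (R : ZMod (3 ^ k) → Pt (PadicAlgCl p)) : Prop :=
  ∀ (τ : Au p) (σ : GK i₀), Cmp ι τ σ → ∀ j, pm (lh τ) (R (j - a σ)) - R j = tt _ (h σ)

section

variable (h3 : ‖(3 : PadicAlgCl p)‖ = 1)

include h3 in
/-- the inertia group acts trivially on the reduction -/
lemma inert_mem {τ : Au p} (hτ : Inert τ) (P : Pt (PadicAlgCl p)) :
    pm (lh τ) P - P ∈ E1 (isE _) := by
  rcases P with _ | ⟨x, y, hn⟩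
  · show pm (lh τ) 0 - 0 ∈ _
    rw [pm_zero, sub_zero]
    exact zero_mem _
  · have he := ((isE _).eqn x y).1 hn.1
    by_cases hx : ‖x‖ ≤ 1
    · have hy : ‖y‖ ≤ 1 := by
        by_contra hcon
        push Not at hcon
        have h7 : ‖y ^ 2 + y‖ = ‖y‖ ^ 2 := by
          rw [eq_of_lt, norm_pow]
          rw [norm_pow]
          nlinarith
        rw [he] at h7
        have h8 := pow_le 3 hx
        rw [h7] at h8
        nlinarith
      rw [pm_some]
      exact diff_mem (isE _) h3 hn _ hx hy (hτ x hx) (hτ y hy)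
    · push Not at hx
      refine sub_mem ?_ ((some_mem (isE _) hn).2 hx)
      rw [pm_some, some_mem, lh_apply, nrm]
      exact hx

lemma tt_mem {c : ZMod 3} (h : tt (PadicAlgCl p) c ∈ E1 (isE _)) : c = 0 := by
  rcases z3 c with rfl | rfl | rfl
  · rfl
  · rw [tt_one] at h
    exact absurd h (T0_notMem _)
  · rw [tt_neg_one, neg_mem_iff] at h
    exact absurd h (T0_notMem _)

include h3

/-- unramified places -/
theorem good {ι : QB →ₐ[ℚ] PadicAlgCl p} {a : GK i₀ → ZMod (3 ^ k)} {h : GK i₀ → ZMod 3}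
    {R : ZMod (3 ^ k) → Pt (PadicAlgCl p)} (hS : Star ι a h R) {τ : Au p} {σ : GK i₀}
    (hc : Cmp ι τ σ) (hτ : Inert τ) (ha : a σ = 0) : h σ = 0 := by
  apply tt_mem (p := p)
  rw [← hS τ σ hc 0, ha, sub_zero]
  exact inert_mem h3 hτ _

/-- places of total ramification -/
theorem ram (hk : k ≠ 0) (hk3 : 2 ≤ k) {ι : QB →ₐ[ℚ] PadicAlgCl p}
    (hI : (ι i₀) ^ 2 + ι i₀ + 1 = 0) {a : GK i₀ → ZMod (3 ^ k)}
    {h : GK i₀ → ZMod 3} {R : ZMod (3 ^ k) → Pt (PadicAlgCl p)} (hR : R ∈ MM hI k)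
    (hS : Star ι a h R) {τ₁ : Au p} {σ₁ : GK i₀} (hc₁ : Cmp ι τ₁ σ₁) (hτ₁ : Inert τ₁)
    (ha₁ : a σ₁ = 1) : ∃ e : ZMod 3, ∀ (τ : Au p) (σ : GK i₀), Cmp ι τ σ →
      h σ = e * par hk (a σ) := by
  set e := h σ₁ with he
  refine ⟨e, ?_⟩
  -- the differences
  set R' : ZMod (3 ^ k) → Pt (PadicAlgCl p) := R + PT _ hk e with hR'
  have hR'm : R' ∈ MM hI k := add_mem hR (PT_mem hk hk3 hI e)
  have hd : ∀ j, dl _ k R' j ∈ E1 (isE (PadicAlgCl p)) := by
    intro j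
    have h3' := hS τ₁ σ₁ hc₁ j
    rw [ha₁] at h3'
    have h4 := inert_mem h3 hτ₁ (R (j - 1))
    have h5 : dl _ k R' j = pm (lh τ₁) (R (j - 1)) - R (j - 1) := by
      have h6 : dl _ k R' j = dl _ k R j + dl _ k (PT (PadicAlgCl p) hk e) j := by
        rw [hR', map_add]
        rfl
      rw [h6, dl_PT, dl_apply]
      have h7 : R j = pm (lh τ₁) (R (j - 1)) - tt _ e := by
        rw [← h3']
        abel
      rw [h7]
      abel
    rw [h5]
    exact h4
  have hdm : dl _ k R' ∈ MM hI k := by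
    have h4 : ∀ j, dl _ k R' j = R' j - R' (j - 1) := fun j => rfl
    intro j
    rw [h4, h4, map_sub, ← hR'm j, ← hR'm (j - 1)]
    congr 2
    ring
  obtain ⟨R₁, hR₁, hR₁E, e₁⟩ := surj (J := im (isE _) hI) (im_im (isE _) hI) (by omega)
    (E1 (isE (PadicAlgCl p))) (fun b hb => im_mem _ hI hb)
    (fun b hb => surj_E1 _ h3 hI hb) hdm hd
  have hker : dl _ k (R' - R₁) = 0 := by rw [map_sub, e₁, sub_self]
  obtain ⟨c, hc⟩ := dl_ker hI (sub_mem hR'm hR₁) hker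
  have hRj : ∀ j, R j = R₁ j + tt _ c - PT _ hk e j := by
    intro j
    have h4 : R' j - R₁ j = tt _ c := hc j
    have h5 : R' j = R j + PT _ hk e j := rfl
    rw [← h4, h5]
    abel
  intro τ σ hcτ
  have h4 := hS τ σ hcτ 0
  have h5 : pm (lh τ) (PT _ hk e (0 - a σ)) = PT _ hk e (0 - a σ) := pm_tt _ _
  rw [hRj, hRj 0, map_sub, map_add, pm_tt, h5] at h4
  have h6 : (pm (lh τ) (R₁ (0 - a σ)) - R₁ 0) = tt _ (h σ - e * par hk (a σ)) := by
    have h7 := PT_sub (F := PadicAlgCl p) hk e 0 (a σ)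
    have h8 : tt (PadicAlgCl p) (e * par hk (a σ)) =
        PT (PadicAlgCl p) hk e 0 - PT _ hk e (0 - a σ) := by
      rw [← neg_sub, h7, neg_neg]
    rw [tt_sub, ← h4, h8]
    abel
  have h7 : pm (lh τ) (R₁ (0 - a σ)) - R₁ 0 ∈ E1 (isE (PadicAlgCl p)) := by
    refine sub_mem ?_ (hR₁E 0)
    have h8 := hR₁E (0 - a σ)
    rcases (mem_E1 _).1 h8 with h9 | ⟨x, y, hn, h9, hx⟩
    · rw [h9, pm_zero]
      exact zero_mem _
    · rw [h9, pm_some, some_mem, lh_apply, nrm]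
      exact hx
  rw [h6] at h7
  exact sub_eq_zero.1 (tt_mem h7)

end

end Pool.Agent.Y715.T.Odd
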