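import Mathlib
import Pool.Agent.Y715.T.Odd

/-!
# The local condition at the prime above three
-/

set_option autoImplicit false
set_option linter.unusedSectionVars false
set_option linter.unusedVariables false

namespace Pool.Agent.Y715.T.Thr

open WeierstrassCurve Pool.Agent.Y715.T.Ell Pool.Agent.Y715.T.Md Pool.Agent.Y715.T.Gi
open Pool.Agent.Y715.T.Nr Pool.Agent.Y715.T.Red Pool.Agent.Y715.T.Df Pool.Agent.Y715.T.Odd
open Pool.Agent.W237.RK Pool.Agent.Y692.QS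

open scoped Classical

/-- the field fixed by the inertia group of `ℚ₃(ω)` -/
noncomputable def Lf (I : PadicAlgCl 3) : Subfield (PadicAlgCl 3) where
  carrier := {z | ∀ τ : Au 3, Inert τ → τ I = I → τ z = z}
  mul_mem' {a b} ha hb τ h1 h2 := by rw [map_mul, ha τ h1 h2, hb τ h1 h2]
  one_mem' τ _ _ := map_one τ
  add_mem' {a b} ha hb τ h1 h2 := by rw [map_add, ha τ h1 h2, hb τ h1 h2]
  zero_mem' τ _ _ := map_zero τ
  neg_mem' {a} ha τ h1 h2 := by rw [map_neg, ha τ h1 h2]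
  inv_mem' a ha τ h1 h2 := by rw [map_inv₀, ha τ h1 h2]

lemma mem_Lf {I z : PadicAlgCl 3} :
    z ∈ Lf I ↔ ∀ τ : Au 3, Inert τ → τ I = I → τ z = z := Iff.rfl

variable {I : PadicAlgCl 3}

lemma I_mem : I ∈ Lf I := fun _ _ h => h

lemma val (hI : I ^ 2 + I + 1 = 0) {z : PadicAlgCl 3} (h : z ∈ Lf I) (hz : z ≠ 0) :
    ∃ m : ℤ, ‖z‖ ^ 2 = (3 : ℝ) ^ m := norm_two hI hz h

lemma lam_pos (hI : I ^ 2 + I + 1 = 0) : 0 < ‖1 + 2 * I‖ := by
  rw [norm_pos_iff]
  intro h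
  have := norm_lam hI
  rw [h, norm_zero] at this
  norm_num at this

lemma le_lam (hI : I ^ 2 + I + 1 = 0) {z : PadicAlgCl 3} (h : z ∈ Lf I) (hz : ‖z‖ < 1) :
    ‖z‖ ≤ ‖1 + 2 * I‖ := by
  by_cases h0 : z = 0
  · rw [h0, norm_zero]
    exact norm_nonneg _
  obtain ⟨m, hm⟩ := val hI h h0
  have h1 : ‖z‖ ^ 2 < 1 := pow_lt_one₀ (norm_nonneg _) hz two_ne_zero
  have h2 : m ≤ -1 := by
    rw [hm] at h1
    by_contra hcon
    push Not at hcon
    have : 0 ≤ m := by omega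
    exact absurd (one_le_zpow₀ (by norm_num : (1 : ℝ) ≤ 3) this) (not_le.2 h1)
  have h3 : ‖z‖ ^ 2 ≤ ‖1 + 2 * I‖ ^ 2 := by
    rw [hm, norm_lam hI, ← zpow_neg_one]
    exact zpow_le_zpow_right₀ (by norm_num) h2
  exact (pow_le_pow_iff_left₀ (norm_nonneg _) (norm_nonneg _) two_ne_zero).1 h3

lemma norm_one_add {z : PadicAlgCl 3} (hz : ‖z‖ ≤ 1) : ‖1 + 3 * z‖ = 1 := by
  rw [eq_of_lt, norm_one]
  rw [norm_one, norm_mul, norm_three']
  linarith

lemma one_add_ne {z : PadicAlgCl 3} (hz : ‖z‖ ≤ 1) : 1 + 3 * z ≠ 0 := by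
  intro h0
  have h1 := norm_one_add hz
  rw [h0, norm_zero] at h1
  exact zero_ne_one h1

lemma three_mem : (3 : PadicAlgCl 3) ∈ Lf I := ofNat_mem _ 3

/-- products -/
lemma mul_ex {z w : PadicAlgCl 3} (h : z ∈ Lf I) (hz : ‖z‖ ≤ 1) (h' : w ∈ Lf I) (hw : ‖w‖ ≤ 1) :
    ∃ t ∈ Lf I, ‖t‖ ≤ 1 ∧ (1 + 3 * z) * (1 + 3 * w) = 1 + 3 * t := by
  refine ⟨z + w + 3 * z * w, add_mem (add_mem h h') (mul_mem (mul_mem three_mem h) h'), ?_, by ring⟩
  exact add_le (add_le hz hw) (mul_le (mul_le three_le hz) hw)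

/-- inverses of the elements `1 + 3 z` -/
lemma inv_ex {z : PadicAlgCl 3} (h : z ∈ Lf I) (hz : ‖z‖ ≤ 1) : ∃ w ∈ Lf I, ‖w‖ ≤ 1 ∧
    (1 + 3 * z) * (1 + 3 * w) = 1 := by
  have h1 := norm_one_add hz
  have h0 := one_add_ne hz
  have h2 : 1 + 3 * z ∈ Lf I := add_mem (one_mem _) (mul_mem three_mem h)
  refine ⟨-z / (1 + 3 * z), div_mem (neg_mem h) h2, ?_, ?_⟩
  · rw [norm_div, h1, div_one, norm_neg]
    exact hz
  · field_simp
    ring

/-- the root of unity is not a cube up to `1 + 3 z` -/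
theorem core (hI : I ^ 2 + I + 1 = 0) {c v z : PadicAlgCl 3} (hc : c ^ 2 + c + 1 = 0)
    (hv : v ∈ Lf I) (hz : ‖z‖ ≤ 1) (h : v ^ 3 = c * (1 + 3 * z)) : False := by
  have hl := norm_lam hI
  have hlp := lam_pos hI
  have hl1 := norm_lam_lt hI
  set r := ‖1 + 2 * I‖ with hr
  have hcn := norm_I hc
  have hc1 : ‖c - 1‖ ^ 2 = r ^ 2 := by
    have e : (c - 1) ^ 2 = -(3 * c) := by linear_combination hc
    rw [← norm_pow, e, norm_neg, norm_mul, hcn, norm_three', mul_one, hl]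
  have hc1' : ‖c - 1‖ = r := (pow_left_inj₀ (norm_nonneg _) hlp.le two_ne_zero).1 hc1
  have hvn : ‖v‖ = 1 := by
    have h1 : ‖v‖ ^ 3 = 1 := by rw [← norm_pow, h, norm_mul, hcn, norm_one_add hz, one_mul]
    exact (pow_eq_one_iff_of_nonneg (norm_nonneg _) three_ne_zero).1 h1
  have h1 : ‖(v - 1) ^ 3‖ = r := by
    have e : (v - 1) ^ 3 = (c - 1) + 3 * (c * z - v ^ 2 + v) := by linear_combination h
    rw [e, eq_of_lt, hc1']
    rw [hc1', norm_mul, norm_three']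
    have h2 : ‖c * z - v ^ 2 + v‖ ≤ 1 := add_le (sub_le (mul_le hcn.le hz) (pow_le 2 hvn.le)) hvn.le
    nlinarith
  have h2 : v - 1 ≠ 0 := by
    intro h0
    rw [h0] at h1
    have : ‖(0 : PadicAlgCl 3) ^ 3‖ = 0 := by rw [zero_pow three_ne_zero, norm_zero]
    rw [this] at h1
    exact hlp.ne h1
  obtain ⟨m, hm⟩ := val hI (sub_mem hv (one_mem _)) h2
  rw [norm_pow] at h1
  have h3 : (3 : ℝ) ^ (3 * m) = (3 : ℝ) ^ (-1 : ℤ) := by
    rw [zpow_neg_one, ← hl, ← h1, mul_comm, zpow_mul, ← hm]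
    norm_cast
    ring
  have h4 := zpow_right_injective₀ (a := (3 : ℝ)) (by norm_num) (by norm_num) h3
  omega

/-- uniqueness of the exponent -/
theorem uniq (hI : I ^ 2 + I + 1 = 0) {e : ZMod 3} {s v z : PadicAlgCl 3} (hs : s ∈ Lf I)
    (hs0 : s ≠ 0) (hv : v ∈ Lf I) (hz : ‖z‖ ≤ 1) (h : v ^ 3 = I ^ e.val * s ^ 3 * (1 + 3 * z)) :
    e = 0 := by
  have h1 : (v / s) ^ 3 = I ^ e.val * (1 + 3 * z) := by
    rw [div_pow, h]
    field_simp
  have hI3 : I ^ 3 = 1 := by linear_combination (I - 1) * hI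
  rcases z3 e with rfl | rfl | rfl
  · rfl
  · exfalso
    exact core hI (c := I ^ (1 : ZMod 3).val) (by rw [ZMod.val_one, pow_one]; exact hI)
      (div_mem hv hs) hz h1
  · exfalso
    have e2 : (-1 : ZMod 3).val = 2 := by decide
    exact core hI (c := I ^ (-1 : ZMod 3).val) (by
      rw [e2]
      linear_combination hI + I * hI3) (div_mem hv hs) hz h1

/-- units -/
lemma unit_cases {u : Ei} (hu : IsUnit u) :
    ∃ (ε : Ei) (n : ZMod 3), (ε = 1 ∨ ε = -1) ∧ u = ε * w ^ n.val := by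
  have h1 := isUnit_iff.1 hu
  unfold nr at h1
  obtain ⟨a, b⟩ := u
  simp only at h1
  have ha : -1 ≤ a ∧ a ≤ 1 := by constructor <;> nlinarith [sq_nonneg (a - 2 * b), sq_nonneg a]
  have hb : -1 ≤ b ∧ b ≤ 1 := by constructor <;> nlinarith [sq_nonneg (b - 2 * a), sq_nonneg b]
  obtain ⟨ha1, ha2⟩ := ha
  obtain ⟨hb1, hb2⟩ := hb
  interval_cases a <;> interval_cases b <;> first
    | (exfalso; revert h1; decide)
    | exact ⟨1, 0, Or.inl rfl, by decide⟩
    | exact ⟨1, 1, Or.inl rfl, by decide⟩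
    | exact ⟨1, 2, Or.inl rfl, by decide⟩
    | exact ⟨-1, 0, Or.inr rfl, by decide⟩
    | exact ⟨-1, 1, Or.inr rfl, by decide⟩
    | exact ⟨-1, 2, Or.inr rfl, by decide⟩

/-- **Kummer generators unramified at three.** -/
theorem gen (hI : I ^ 2 + I + 1 = 0) {v z : PadicAlgCl 3} {u q : Ei} {g : ℕ} (hu : IsUnit u)
    (hv : v ∈ Lf I) (hz : ‖z‖ ≤ 1) (hzm : z ∈ Lf I)
    (h : v ^ 3 * (1 + 3 * z) = ev I hI (u * lam ^ g * (1 + 3 * q))) :
    3 ∣ g ∧ (u = 1 ∨ u = -1) := by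
  have hl := norm_lam hI
  have hlp := lam_pos hI
  have hqm : ev I hI q ∈ Lf I := fun τ _ hτ => ev_fix hI hτ q
  have hun : ‖ev I hI u‖ = 1 := by
    refine le_antisymm (ev_le hI u) ?_
    obtain ⟨u', hu'⟩ := hu.exists_right_inv
    have h1 : ‖ev I hI u‖ * ‖ev I hI u'‖ = 1 := by
      rw [← norm_mul, ← map_mul, hu', map_one, norm_one]
    by_contra hcon
    push Not at hcon
    have h2 := ev_le hI u'
    nlinarith [norm_nonneg (ev I hI u), norm_nonneg (ev I hI u')]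
  have hln : ‖ev I hI lam‖ = ‖1 + 2 * I‖ := by rw [ev_lam]
  have hqn : ‖ev I hI (1 + 3 * q)‖ = 1 := by
    rw [map_add, map_one, map_mul, map_ofNat]
    exact norm_one_add (ev_le hI q)
  have hn : ‖v‖ ^ 3 = ‖1 + 2 * I‖ ^ g := by
    have h1 := congrArg norm h
    rw [norm_mul, norm_pow, norm_one_add hz, mul_one, map_mul, map_mul, norm_mul, norm_mul, hun,
      hqn, map_pow, norm_pow, hln, one_mul, mul_one] at h1
    exact h1
  have hv0 : v ≠ 0 := by
    rintro rfl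
    rw [norm_zero, zero_pow three_ne_zero] at hn
    exact (pow_pos hlp g).ne hn
  obtain ⟨m, hm⟩ := val hI hv hv0
  have h3 : (3 : ℝ) ^ (3 * m) = (3 : ℝ) ^ (-(g : ℤ)) := by
    have e1 : (3 : ℝ) ^ (3 * m) = (‖v‖ ^ 3) ^ 2 := by
      rw [mul_comm, zpow_mul, ← hm]
      norm_cast
      ring
    have e2 : (3 : ℝ) ^ (-(g : ℤ)) = (‖1 + 2 * I‖ ^ g) ^ 2 := by
      rw [← pow_mul, mul_comm g, pow_mul, hl, zpow_neg, zpow_natCast, inv_pow]
    rw [e1, e2, hn]
  have h4 := zpow_right_injective₀ (a := (3 : ℝ)) (by norm_num) (by norm_num) h3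
  have hg : 3 ∣ g := by omega
  refine ⟨hg, ?_⟩
  obtain ⟨g', rfl⟩ := hg
  obtain ⟨ε, n, hε, rfl⟩ := unit_cases hu
  have hlam0 : ev I hI lam ≠ 0 := ev_ne hI prime_lam.ne_zero
  have hlm : ev I hI lam ∈ Lf I := fun τ _ hτ => ev_fix hI hτ _
  have hεm : ev I hI ε ∈ Lf I := fun τ _ hτ => ev_fix hI hτ _
  have hε2 : ε ^ 3 = ε := by
    rcases hε with rfl | rfl
    · exact one_pow 3
    · ring
  have hεε : ε * ε = 1 := by
    rcases hε with rfl | rfl
    · exact one_mul 1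
    · ring
  obtain ⟨t, ht, ht1, e⟩ := inv_ex hzm hz
  obtain ⟨t', ht', ht1', e'⟩ := mul_ex hqm (ev_le hI q) ht ht1
  have key : n = 0 := by
    refine uniq hI (s := 1) (v := ev I hI ε * v / (ev I hI lam) ^ g') (z := t') (one_mem _)
      one_ne_zero (div_mem (mul_mem hεm hv) (pow_mem hlm _)) ht1' ?_
    rw [one_pow, mul_one, ← e']
    have h5 : v ^ 3 = ev I hI (ε * w ^ n.val * lam ^ (3 * g') * (1 + 3 * q)) * (1 + 3 * t) := by
      rw [← h, mul_assoc, e, mul_one]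
    rw [div_pow, mul_pow, h5, ← map_pow, hε2]
    rw [map_mul, map_mul, map_mul, map_pow, map_pow, ev_w, map_add, map_one, map_mul, map_ofNat]
    have h6 : ev I hI ε * ev I hI ε = 1 := by rw [← map_mul, hεε, map_one]
    have h7 : ev I hI lam ^ (3 * g') = (ev I hI lam ^ g') ^ 3 := by
      rw [← pow_mul, mul_comm]
    rw [h7, div_eq_iff (pow_ne_zero 3 (pow_ne_zero g' hlam0))]
    linear_combination (I ^ n.val * (ev I hI lam ^ g') ^ 3 * (1 + 3 * ev I hI q) *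
      (1 + 3 * t)) * h6
  rw [key, ZMod.val_zero, pow_zero, mul_one]
  exact hε

/-! ### Frobenius elements -/

/-- an automorphism -/
lemma exists_t (hI : I ^ 2 + I + 1 = 0) : ∃ t : Au 3, Inert t ∧ t I = -1 - I := by
  by_contra hcon
  push Not at hcon
  have hIk : I ∈ kur 3 := by
    apply mem_kur
    intro τ hτ
    rcases I_or hI τ with h1 | h1
    · exact h1
    · exact absurd h1 (hcon τ (inert_of_kur hτ))
  have h1 : 1 + 2 * I ∈ kur 3 := add_mem (one_mem _) (mul_mem (ofNat_mem _ 2) hIk)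
  obtain ⟨m, hm⟩ := norm_ne (norm_pos_iff.1 (lam_pos hI)) h1
  have h2 := norm_lam hI
  rw [hm, ← zpow_natCast, ← zpow_mul, ← zpow_neg_one] at h2
  have h3 := zpow_right_injective₀ (a := (3 : ℝ)) (by norm_num) (by norm_num)
    (by exact_mod_cast h2 : (3 : ℝ) ^ (m * ((2 : ℕ) : ℤ)) = (3 : ℝ) ^ (-1 : ℤ))
  push_cast at h3
  omega

/-- the residue field of `ℚ₃(ω)` -/
theorem residue3 (hI : I ^ 2 + I + 1 = 0) {y : PadicAlgCl 3} (hy : ‖y‖ ≤ 1)
    (h : ∀ τ : Au 3, τ I = I → τ y = y) : ‖y‖ < 1 ∨ ‖y - 1‖ < 1 ∨ ‖y + 1‖ < 1 := by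
  obtain ⟨t, ht, htI⟩ := exists_t hI
  have htI' : t⁻¹ I = -1 - I := inv_conj htI
  have key : ∀ τ : Au 3, τ I = -1 - I → τ y = t y := by
    intro τ hτI
    have h1 : (t⁻¹ * τ) y = y := by
      apply h
      rw [AlgEquiv.mul_apply, hτI, map_conj htI']
    have h2 := congrArg t h1
    rw [← AlgEquiv.mul_apply, ← mul_assoc, mul_inv_cancel, one_mul] at h2
    exact h2
  have hfix : ∀ τ : Au 3, τ (y + t y) = y + t y := by
    intro τ
    rw [map_add]
    rcases I_or hI τ with h1 | h1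
    · have h3 := key (τ * t) (by rw [AlgEquiv.mul_apply, htI, map_sub, map_neg, map_one, h1])
      rw [AlgEquiv.mul_apply] at h3
      rw [h τ h1, h3]
    · have h3 := h (τ * t) (by rw [AlgEquiv.mul_apply, htI, map_conj h1])
      rw [AlgEquiv.mul_apply] at h3
      rw [key τ h1, h3, add_comm]
  have hty : ‖t y‖ ≤ 1 := by rwa [nrm]
  obtain ⟨a, ha⟩ := near (add_le hy hty) hfix
  have h3n := norm_three'
  have h1 : ‖y + a‖ < 1 := by
    have e : y + a = 3 * y - ((y + t y) - a) + (t y - y) := by ring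
    rw [e]
    refine add_lt (sub_lt ?_ ha) (ht y hy)
    rw [norm_mul, h3n]
    linarith
  have hint : ∀ b : ℤ, ‖(b : PadicAlgCl 3)‖ ≤ 1 := fun b =>
    IsUltrametricDist.norm_intCast_le_one _ b
  have h3b : ∀ b : ℤ, ‖3 * (b : PadicAlgCl 3)‖ < 1 := fun b => by
    rw [norm_mul, h3n]
    have := hint b
    linarith
  obtain ⟨b, hb⟩ : ∃ b, a = 3 * b ∨ a = 3 * b + 1 ∨ a = 3 * b - 1 := by
    rcases (by omega : a % 3 = 0 ∨ a % 3 = 1 ∨ a % 3 = 2) with h2 | h2 | h2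
    · exact ⟨a / 3, by omega⟩
    · exact ⟨a / 3, by omega⟩
    · exact ⟨a / 3 + 1, by omega⟩
  rcases hb with hb | hb | hb
  · left
    have e : y = (y + a) - 3 * b := by rw [hb]; push_cast; ring
    rw [e]
    exact sub_lt h1 (h3b b)
  · right; right
    have e : y + 1 = (y + a) - 3 * b := by rw [hb]; push_cast; ring
    rw [e]
    exact sub_lt h1 (h3b b)
  · right; left
    have e : y - 1 = (y + a) - 3 * b := by rw [hb]; push_cast; ring
    rw [e]
    exact sub_lt h1 (h3b b)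

/-- extensions split at the prime above three -/
lemma not_split (hI : I ^ 2 + I + 1 = 0) {c t : Ei} (hc : c = 1 + 3 * lam * t)
    {s : PadicAlgCl 3} (hs : s ^ 3 = ev I hI c) (ht : ¬ lam ∣ t) :
    ∃ τ : Au 3, τ I = I ∧ τ s ≠ s := by
  by_contra hcon
  push Not at hcon
  have hl := norm_lam hI
  have hlp := lam_pos hI
  have hl1 := norm_lam_lt hI
  have h3n := norm_three'
  have hll : (1 + 2 * I) ^ 2 = -3 := by linear_combination 4 * hI
  have hl0 : 1 + 2 * I ≠ 0 := norm_pos_iff.1 hlp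
  have hsI : s ∈ Lf I := fun τ _ hτ => hcon τ hτ
  rw [hc, map_add, map_one, map_mul, map_mul, map_ofNat, ev_lam] at hs
  have htn := ev_le hI t
  have h1 : ‖(1 + 2 * I) * ev I hI t‖ ≤ 1 := mul_le hl1.le htn
  have hsn : ‖s‖ = 1 := by
    have h2 : ‖s‖ ^ 3 = 1 := by
      rw [← norm_pow, hs, mul_assoc]
      exact norm_one_add h1
    exact (pow_eq_one_iff_of_nonneg (norm_nonneg _) three_ne_zero).1 h2
  -- `s` is close to `1`
  have h2 : ‖s - 1‖ < 1 := by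
    apply lt_of_pow three_ne_zero
    have e : (s - 1) ^ 3 = 3 * ((1 + 2 * I) * ev I hI t - s ^ 2 + s) := by
      linear_combination hs
    rw [e, norm_mul, h3n]
    have h3 : ‖(1 + 2 * I) * ev I hI t - s ^ 2 + s‖ ≤ 1 :=
      add_le (sub_le h1 (pow_le 2 hsn.le)) hsn.le
    linarith
  have h3 := le_lam hI (sub_mem hsI (one_mem _)) h2
  set v := (s - 1) / (1 + 2 * I) with hv
  have hvn : ‖v‖ ≤ 1 := by
    rw [hv, norm_div]
    exact (div_le_one hlp).2 h3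
  have hsv : s = 1 + (1 + 2 * I) * v := by
    rw [hv, mul_div_cancel₀ _ hl0]
    ring
  have hvf : ∀ τ : Au 3, τ I = I → τ v = v := by
    intro τ hτ
    rw [hv, map_div₀, map_sub, map_add, map_mul, map_one, map_ofNat, hτ, hcon τ hτ]
  clear_value v
  have hte : ev I hI t = (v - v ^ 3) + (1 + 2 * I) * v ^ 2 := by
    have h5 : (3 * (1 + 2 * I)) * ev I hI t =
        (3 * (1 + 2 * I)) * ((v - v ^ 3) + (1 + 2 * I) * v ^ 2) := by
      rw [hsv] at hs
      linear_combination -hs + (v ^ 3 * (1 + 2 * I)) * hll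
    exact mul_left_cancel₀ (mul_ne_zero three_ne_zero hl0) h5
  apply ht
  rw [dvd_iff hI prime_lam (lam_lt hI), hte]
  refine add_lt ?_ ?_
  · have e : v - v ^ 3 = -(v * ((v - 1) * (v + 1))) := by ring
    have hv1 : ‖v - 1‖ ≤ 1 := sub_le hvn (by rw [norm_one])
    have hv2 : ‖v + 1‖ ≤ 1 := add_le hvn (by rw [norm_one])
    rw [e, norm_neg]
    rcases residue3 hI hvn hvf with h5 | h5 | h5
    · rw [mul_comm]
      exact mul_lt (mul_le hv1 hv2) h5
    · refine mul_lt hvn ?_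
      rw [mul_comm]
      exact mul_lt hv2 h5
    · exact mul_lt hvn (mul_lt hv1 h5)
  · rw [mul_comm]
    exact mul_lt (pow_le 2 hvn) hl1

end Pool.Agent.Y715.T.Thr
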