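import Mathlib
import Pool.Agent.Y715.T.Thr

/-!
# The classes of the ordinates at the prime above three
-/

set_option autoImplicit false
set_option linter.unusedSectionVars false
set_option linter.unusedVariables false

namespace Pool.Agent.Y715.T.Cls

open WeierstrassCurve Pool.Agent.Y715.T.Ell Pool.Agent.Y715.T.Md Pool.Agent.Y715.T.Gi
open Pool.Agent.Y715.T.Nr Pool.Agent.Y715.T.Red Pool.Agent.Y715.T.Df Pool.Agent.Y715.T.Odd
open Pool.Agent.Y715.T.Thr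
open Pool.Agent.W237.RK Pool.Agent.Y692.QS

open scoped Classical

/-! ### Roots of unity -/

/-- roots of unity of order prime to `p` are determined by their residues -/
theorem root_eq {p : ℕ} [Fact p.Prime] {a b : PadicAlgCl p} {M : ℕ} (hM : ¬ p ∣ M)
    (ha : a ^ M = 1) (hb : b ^ M = 1) (h : ‖a - b‖ < 1) : a = b := by
  have hM0 : M ≠ 0 := fun h0 => hM (h0 ▸ dvd_zero p)
  have hb0 : b ≠ 0 := by
    rintro rfl
    rw [zero_pow hM0] at hb
    exact zero_ne_one hb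
  have hbn : ‖b‖ = 1 := by
    have h1 : ‖b‖ ^ M = 1 := by rw [← norm_pow, hb, norm_one]
    exact (pow_eq_one_iff_of_nonneg (norm_nonneg _) hM0).1 h1
  set c := a / b with hc
  have hcM : c ^ M = 1 := by rw [hc, div_pow, ha, hb, div_one]
  have hcn : ‖c‖ = 1 := by
    have h1 : ‖c‖ ^ M = 1 := by rw [← norm_pow, hcM, norm_one]
    exact (pow_eq_one_iff_of_nonneg (norm_nonneg _) hM0).1 h1
  have hc1 : ‖c - 1‖ < 1 := by
    have e : c - 1 = (a - b) / b := by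
      rw [hc]
      field_simp
    rw [e, norm_div, hbn, div_one]
    exact h
  by_contra hcon
  have hcne : c - 1 ≠ 0 := by
    intro h0
    apply hcon
    rw [sub_eq_zero, hc, div_eq_one_iff_eq hb0] at h0
    exact h0
  have hsum : ∑ i ∈ Finset.range M, c ^ i = 0 := by
    have h1 := geom_sum_mul c M
    rw [hcM, sub_self] at h1
    exact (mul_eq_zero.1 h1).resolve_right hcne
  have hpow : ∀ i : ℕ, ‖c ^ i - 1‖ < 1 := by
    intro i
    induction i with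
    | zero => rw [pow_zero, sub_self, norm_zero]; exact one_pos
    | succ i ih =>
      have e : c ^ (i + 1) - 1 = c * (c ^ i - 1) + (c - 1) := by ring
      rw [e]
      exact add_lt (mul_lt hcn.le ih) hc1
  have h2 : ∀ n : ℕ, ‖(∑ i ∈ Finset.range n, c ^ i) - n‖ < 1 := by
    intro n
    induction n with
    | zero => simp
    | succ n ih =>
      rw [Finset.sum_range_succ]
      have e : (∑ i ∈ Finset.range n, c ^ i) + c ^ n - ((n + 1 : ℕ) : PadicAlgCl p) =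
          ((∑ i ∈ Finset.range n, c ^ i) - n) + (c ^ n - 1) := by
        push_cast
        ring
      rw [e]
      exact add_lt ih (hpow n)
  have h3 := h2 M
  rw [hsum, zero_sub, norm_neg, Pool.Agent.W327.RK.norm_nat hM] at h3
  exact lt_irrefl _ h3

/-- the inertia group fixes the roots of unity of order prime to `p` -/
lemma inert_root {p : ℕ} [Fact p.Prime] {τ : Au p} (hτ : Inert τ) {c : PadicAlgCl p} {M : ℕ}
    (hM : ¬ p ∣ M) (hc : c ^ M = 1) : τ c = c := by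
  have hM0 : M ≠ 0 := fun h0 => hM (h0 ▸ dvd_zero p)
  have hcn : ‖c‖ = 1 := by
    have h1 : ‖c‖ ^ M = 1 := by rw [← norm_pow, hc, norm_one]
    exact (pow_eq_one_iff_of_nonneg (norm_nonneg _) hM0).1 h1
  exact root_eq hM (by rw [← map_pow, hc, map_one]) hc (hτ c hcn.le)

variable {I : PadicAlgCl 3}

/-- cube roots of residues -/
lemma exists_s {y : PadicAlgCl 3} (hy : ‖y‖ = 1) :
    ∃ s ∈ Lf I, ‖s‖ = 1 ∧ ‖y - s ^ 3‖ < 1 := by
  obtain ⟨c, hc, hyc⟩ := Pool.Agent.W571.RK.l3 3 y hy.le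
  have hc0 : c ≠ 0 := by
    rintro rfl
    rw [sub_zero, hy] at hyc
    exact lt_irrefl _ hyc
  rcases hc with rfl | ⟨M, hM, hcM⟩
  · exact absurd rfl hc0
  have hM0 : M ≠ 0 := fun h0 => hM (h0 ▸ dvd_zero 3)
  have hcop : IsCoprime (3 : ℤ) (M : ℤ) := by
    have h1 : Nat.Coprime 3 M := (Nat.prime_three.coprime_iff_not_dvd).2 hM
    exact_mod_cast Nat.isCoprime_iff_coprime.2 h1
  obtain ⟨a, b, hab⟩ := hcop
  have hsM : (c ^ a) ^ M = 1 := by
    rw [← zpow_natCast, ← zpow_mul, mul_comm, zpow_mul, zpow_natCast, hcM, one_zpow]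
  have hs3 : (c ^ a) ^ 3 = c := by
    have h1 : c ^ ((3 : ℤ) * a) = (c ^ a) ^ 3 := by
      rw [mul_comm, zpow_mul]
      norm_cast
    have h2 : c ^ ((M : ℤ) * b) = 1 := by rw [zpow_mul, zpow_natCast, hcM, one_zpow]
    have h3 : c ^ (a * 3 + b * (M : ℤ)) = c := by rw [hab, zpow_one]
    rw [zpow_add₀ hc0, mul_comm b, h2, mul_one, mul_comm a] at h3
    rw [← h1, h3]
  refine ⟨c ^ a, fun τ hτ _ => inert_root hτ hM hsM, ?_, by rw [hs3]; exact hyc⟩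
  have h1 : ‖c ^ a‖ ^ M = 1 := by rw [← norm_pow, hsM, norm_one]
  exact (pow_eq_one_iff_of_nonneg (norm_nonneg _) hM0).1 h1

/-! ### The classes -/

/-- the class of an ordinate -/
def Yc (I : PadicAlgCl 3) (e : ZMod 3) (y : PadicAlgCl 3) : Prop :=
  ∃ s ∈ Lf I, s ≠ 0 ∧ ∃ z ∈ Lf I, ‖z‖ ≤ 1 ∧ y = I ^ e.val * s ^ 3 * (1 + 3 * z)

lemma Yc.ne (hI : I ^ 2 + I + 1 = 0) {e : ZMod 3} {y : PadicAlgCl 3} (h : Yc I e y) : y ≠ 0 := by
  obtain ⟨s, hs, hs0, z, hz, hz1, rfl⟩ := h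
  have hI0 : I ≠ 0 := I_ne (isE (PadicAlgCl 3)) hI
  exact mul_ne_zero (mul_ne_zero (pow_ne_zero _ hI0) (pow_ne_zero 3 hs0)) (one_add_ne hz1)

lemma Yc.mul (hI : I ^ 2 + I + 1 = 0) {e e' : ZMod 3} {y y' : PadicAlgCl 3} (h : Yc I e y)
    (h' : Yc I e' y') : Yc I (e + e') (y * y') := by
  obtain ⟨s, hs, hs0, z, hz, hz1, rfl⟩ := h
  obtain ⟨t, ht, ht0, u, hu, hu1, rfl⟩ := h'
  obtain ⟨x, hx, hx1, e1⟩ := mul_ex hz hz1 hu hu1
  refine ⟨s * t, mul_mem hs ht, mul_ne_zero hs0 ht0, x, hx, hx1, ?_⟩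
  have hI3 : I ^ 3 = 1 := by linear_combination (I - 1) * hI
  rw [Kum.val_mul_pow hI3, ← e1]
  ring

lemma Yc.cube {c : PadicAlgCl 3} (hc : c ∈ Lf I) (hc0 : c ≠ 0) : Yc I 0 (c ^ 3) := by
  refine ⟨c, hc, hc0, 0, zero_mem _, ?_, ?_⟩
  · rw [norm_zero]; exact zero_le_one
  · rw [ZMod.val_zero]; ring

lemma Yc.uniq (hI : I ^ 2 + I + 1 = 0) {e : ZMod 3} {y c : PadicAlgCl 3} (h : Yc I e y)
    (hc : c ∈ Lf I) (hy : y = c ^ 3) : e = 0 := by
  obtain ⟨s, hs, hs0, z, hz, hz1, e1⟩ := h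
  exact Thr.uniq hI hs hs0 hc hz1 (hy.symm.trans e1)

lemma Yc.cube_mul (hI : I ^ 2 + I + 1 = 0) {e : ZMod 3} {y c : PadicAlgCl 3} (h : Yc I e y)
    (hc : c ∈ Lf I) (hc0 : c ≠ 0) : Yc I e (c ^ 3 * y) := by
  have := (Yc.cube hc hc0).mul hI h
  rwa [zero_add] at this

lemma inert_conj {p : ℕ} [Fact p.Prime] {τ : Au p} (h : Inert τ) (s : Au p) :
    Inert (s⁻¹ * τ * s) := by
  intro z hz
  have h1 := h (s z) (by rwa [nrm])
  have h2 : (s⁻¹ * τ * s) z - z = s⁻¹ (τ (s z) - s z) := by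
    rw [map_sub, AlgEquiv.mul_apply, AlgEquiv.mul_apply]
    congr 1
    rw [← AlgEquiv.mul_apply, inv_mul_cancel, AlgEquiv.one_apply]
  rw [h2, nrm]
  exact h1

lemma conj_mem {z : PadicAlgCl 3} (hz : z ∈ Lf I) {s : Au 3} (hs : s I = I) : s z ∈ Lf I := by
  intro τ h1 h2
  have h3 := hz (s⁻¹ * τ * s) (inert_conj h1 s) (by
    rw [AlgEquiv.mul_apply, AlgEquiv.mul_apply, hs, h2]
    conv_lhs => rw [← hs]
    rw [← AlgEquiv.mul_apply, inv_mul_cancel, AlgEquiv.one_apply])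
  rw [AlgEquiv.mul_apply, AlgEquiv.mul_apply] at h3
  have h4 := congrArg s h3
  rw [← AlgEquiv.mul_apply s, mul_inv_cancel, AlgEquiv.one_apply] at h4
  exact h4

lemma Yc.map {e : ZMod 3} {y : PadicAlgCl 3} (h : Yc I e y) {τ : Au 3} (hτ : τ I = I) :
    Yc I e (τ y) := by
  obtain ⟨s, hs, hs0, z, hz, hz1, rfl⟩ := h
  refine ⟨τ s, conj_mem hs hτ, (map_ne_zero τ).2 hs0, τ z, conj_mem hz hτ, by rwa [nrm], ?_⟩
  rw [map_mul, map_mul, map_pow, map_pow, hτ, map_add, map_one, map_mul, map_ofNat]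

section exist

variable (hI : I ^ 2 + I + 1 = 0)

include hI

lemma cube3 : ‖1 + 2 * I‖ ^ 3 ≤ 3⁻¹ := by
  have hl := norm_lam hI
  have hl1 := norm_lam_lt hI
  have hlp := lam_pos hI
  have e : ‖1 + 2 * I‖ ^ 3 = ‖1 + 2 * I‖ ^ 2 * ‖1 + 2 * I‖ := by ring
  rw [e, hl]
  nlinarith

/-- large ordinates -/
lemma y_large {x y : PadicAlgCl 3} (hx : x ∈ Lf I) (hy : y ∈ Lf I) (e : y ^ 2 + y = x ^ 3)
    (h : 1 < ‖y‖) : Yc I 0 y := by
  have hy0 : y ≠ 0 := norm_pos_iff.1 (by linarith)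
  have h1 : ‖y‖ ^ 2 = ‖x‖ ^ 3 := by
    rw [← norm_pow x, ← e, eq_of_lt, norm_pow]
    rw [norm_pow]
    nlinarith
  have hx0 : x ≠ 0 := by
    rintro rfl
    rw [norm_zero, zero_pow three_ne_zero] at h1
    exact absurd (pow_eq_zero_iff two_ne_zero |>.1 h1) (by linarith)
  obtain ⟨a, ha⟩ := val hI hx hx0
  obtain ⟨b, hb⟩ := val hI hy hy0
  have h2 : (3 : ℝ) ^ (2 * b) = (3 : ℝ) ^ (3 * a) := by
    have e1 : (3 : ℝ) ^ (2 * b) = (‖y‖ ^ 2) ^ 2 := by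
      rw [mul_comm, zpow_mul, ← hb]
      norm_cast
    have e2 : (3 : ℝ) ^ (3 * a) = (‖x‖ ^ 2) ^ 3 := by
      rw [mul_comm, zpow_mul, ← ha]
      norm_cast
    rw [e1, e2, h1]
    ring
  have h3 := zpow_right_injective₀ (a := (3 : ℝ)) (by norm_num) (by norm_num) h2
  have h3' : 2 * b = 3 * a := h3
  have hb0 : 0 < b := by
    by_contra hcon
    push Not at hcon
    have h4 : (1 : ℝ) < ‖y‖ ^ 2 := one_lt_pow₀ h two_ne_zero
    rw [hb] at h4
    exact absurd (zpow_le_one_of_nonpos₀ (by norm_num) hcon) (not_le.2 h4)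
  have hb3 : 2 ≤ b := by omega
  have h5 : (3 : ℝ) ≤ ‖y‖ := by
    have h6 : (3 : ℝ) ^ (2 : ℤ) ≤ ‖y‖ ^ 2 := by
      rw [hb]
      exact zpow_le_zpow_right₀ (by norm_num) hb3
    have h7 : (3 : ℝ) ^ 2 ≤ ‖y‖ ^ 2 := by exact_mod_cast h6
    exact (pow_le_pow_iff_left₀ (by norm_num) (norm_nonneg _) two_ne_zero).1 h7
  refine ⟨y / x, div_mem hy hx, div_ne_zero hy0 hx0, 1 / (3 * y),
    div_mem (one_mem _) (mul_mem three_mem hy), ?_, ?_⟩
  · rw [norm_div, norm_one, norm_mul, norm_three', div_le_one (by positivity)]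
    linarith
  · rw [ZMod.val_zero, pow_zero, one_mul, div_pow, ← e]
    have h8 : y ^ 2 + y ≠ 0 := by
      rw [e]
      exact pow_ne_zero 3 hx0
    have h9 : y + 1 ≠ 0 := by
      intro h10
      apply h8
      linear_combination y * h10
    field_simp

/-- small ordinates -/
lemma y_small {x y : PadicAlgCl 3} (hx : x ∈ Lf I) (hy : y ∈ Lf I) (e : y ^ 2 + y = x ^ 3)
    (hy0 : y ≠ 0) (h : ‖y‖ < 1) : Yc I 0 y := by
  have h1 : ‖1 + y‖ = 1 := by
    rw [eq_of_lt, norm_one]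
    rwa [norm_one]
  have h10 : 1 + y ≠ 0 := by
    intro h0
    rw [h0, norm_zero] at h1
    exact zero_ne_one h1
  have h2 : ‖x‖ ^ 3 = ‖y‖ := by
    have e1 : x ^ 3 = y * (1 + y) := by linear_combination -e
    rw [← norm_pow, e1, norm_mul, h1, mul_one]
  have hx1 : ‖x‖ < 1 := by
    apply lt_of_pow three_ne_zero
    rw [norm_pow, h2]
    exact h
  have hx2 := le_lam hI hx hx1
  have hx0 : x ≠ 0 := by
    rintro rfl
    rw [norm_zero, zero_pow three_ne_zero] at h2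
    exact hy0 (norm_eq_zero.1 h2.symm)
  have h3 : ‖y‖ ≤ 3⁻¹ := by
    rw [← h2]
    calc ‖x‖ ^ 3 ≤ ‖1 + 2 * I‖ ^ 3 := by gcongr
      _ ≤ 3⁻¹ := cube3 hI
  refine ⟨x, hx, hx0, -y / (3 * (1 + y)),
    div_mem (neg_mem hy) (mul_mem three_mem (add_mem (one_mem _) hy)), ?_, ?_⟩
  · rw [norm_div, norm_neg, norm_mul, norm_three', h1, mul_one, div_le_one (by norm_num)]
    exact h3
  · rw [ZMod.val_zero, pow_zero, one_mul, ← e]
    field_simp
    ring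

/-- ordinates near `-1` -/
lemma y_neg {x y : PadicAlgCl 3} (hx : x ∈ Lf I) (hy : y ∈ Lf I) (e : y ^ 2 + y = x ^ 3)
    (h : ‖y + 1‖ < 1) : Yc I 0 y := by
  have h1 : ‖y‖ = 1 := by
    have e1 : y = -(1 + -(y + 1)) := by ring
    rw [e1, norm_neg, eq_of_lt, norm_one]
    rwa [norm_neg, norm_one]
  have h2 : ‖x‖ ^ 3 = ‖y + 1‖ := by
    have e1 : x ^ 3 = y * (y + 1) := by linear_combination -e
    rw [← norm_pow, e1, norm_mul, h1, one_mul]
  have hx1 : ‖x‖ < 1 := by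
    apply lt_of_pow three_ne_zero
    rw [norm_pow, h2]
    exact h
  have hx2 := le_lam hI hx hx1
  have h3 : ‖y + 1‖ ≤ 3⁻¹ := by
    rw [← h2]
    calc ‖x‖ ^ 3 ≤ ‖1 + 2 * I‖ ^ 3 := by gcongr
      _ ≤ 3⁻¹ := cube3 hI
  refine ⟨-1, neg_mem (one_mem _), neg_ne_zero.2 one_ne_zero, -(y + 1) / 3,
    div_mem (neg_mem (add_mem hy (one_mem _))) three_mem, ?_, ?_⟩
  · rw [norm_div, norm_neg, norm_three', div_le_one (by norm_num)]
    exact h3
  · rw [ZMod.val_zero]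
    ring

/-- ordinates near `1` -/
lemma y_one {x y : PadicAlgCl 3} (hx : x ∈ Lf I) (hy : y ∈ Lf I) (e : y ^ 2 + y = x ^ 3)
    (h : ‖y - 1‖ < 1) : ∃ c, Yc I c y := by
  have hl := norm_lam hI
  have hl1 := norm_lam_lt hI
  have hlp := lam_pos hI
  have h3n := norm_three'
  have hI1 := norm_I hI
  have hI0 : I ≠ 0 := I_ne (isE (PadicAlgCl 3)) hI
  have hI3 : I ^ 3 = 1 := by linear_combination (I - 1) * hI
  have hll : (1 + 2 * I) ^ 2 = -3 := by linear_combination 4 * hI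
  have hl0 : 1 + 2 * I ≠ 0 := norm_pos_iff.1 hlp
  have hlm : 1 + 2 * I ∈ Lf I := add_mem (one_mem _) (mul_mem (ofNat_mem _ 2) I_mem)
  have hy1 : ‖y‖ = 1 := by
    have e1 : y = 1 + (y - 1) := by ring
    rw [e1, eq_of_lt, norm_one]
    rwa [norm_one]
  have hyl := le_lam hI (sub_mem hy (one_mem _)) h
  have hxn : ‖x‖ ≤ 1 := by
    apply le_of_pow three_ne_zero
    rw [← e]
    exact add_le (pow_le 2 hy1.le) hy1.le
  -- `x` is close to `-1`
  have hx1 : ‖x + 1‖ < 1 := by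
    apply lt_of_pow three_ne_zero
    have e1 : (x + 1) ^ 3 = (y - 1) ^ 2 + 3 * (y + x ^ 2 + x) := by linear_combination -e
    rw [e1]
    refine add_lt ?_ ?_
    · rw [norm_pow]
      exact pow_lt_one₀ (norm_nonneg _) h two_ne_zero
    · rw [norm_mul, h3n]
      have h2 : ‖y + x ^ 2 + x‖ ≤ 1 := add_le (add_le hy1.le (pow_le 2 hxn)) hxn
      linarith
  have hxl := le_lam hI (add_mem hx (one_mem _)) hx1
  set η := (y - 1) / (1 + 2 * I) with hη
  have hηm : η ∈ Lf I := div_mem (sub_mem hy (one_mem _)) hlm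
  have hηn : ‖η‖ ≤ 1 := by
    rw [hη, norm_div]
    exact (div_le_one hlp).2 hyl
  have hyη : y = 1 + (1 + 2 * I) * η := by
    rw [hη, mul_div_cancel₀ _ hl0]
    ring
  have h4 : ‖3 * (y - η ^ 2)‖ ≤ ‖1 + 2 * I‖ ^ 3 := by
    have e1 : 3 * (y - η ^ 2) = (x + 1) ^ 3 - 3 * x * (x + 1) := by
      have e2 : (y - 1) ^ 2 = -3 * η ^ 2 := by
        rw [hyη]
        linear_combination η ^ 2 * hll
      linear_combination e - e2
    rw [e1]
    refine sub_le ?_ ?_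
    · rw [norm_pow]
      gcongr
    · rw [norm_mul, norm_mul, h3n, ← hl]
      calc ‖1 + 2 * I‖ ^ 2 * ‖x‖ * ‖x + 1‖ ≤ ‖1 + 2 * I‖ ^ 2 * 1 * ‖1 + 2 * I‖ := by gcongr
        _ = ‖1 + 2 * I‖ ^ 3 := by ring
  have h5 : ‖y - η ^ 2‖ < 1 := by
    rw [norm_mul, h3n] at h4
    have e1 : ‖1 + 2 * I‖ ^ 3 = ‖1 + 2 * I‖ ^ 2 * ‖1 + 2 * I‖ := by ring
    rw [e1, hl] at h4
    linarith
  have h6 : ‖(η - 1) * (η + 1)‖ < 1 := by
    have e1 : (η - 1) * (η + 1) = (y - 1) - (y - η ^ 2) := by ring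
    rw [e1]
    exact sub_lt h h5
  have h7 : ‖η - 1‖ < 1 ∨ ‖η + 1‖ < 1 := by
    by_contra hcon
    push Not at hcon
    rw [norm_mul] at h6
    nlinarith [hcon.1, hcon.2]
  have hfin : ∀ c : PadicAlgCl 3, c ∈ Lf I → ‖c‖ = 1 → ‖y - c‖ ≤ 3⁻¹ →
      ∃ z ∈ Lf I, ‖z‖ ≤ 1 ∧ y = c * (1 + 3 * z) := by
    intro c hc hc1 hyc
    have hc0 : c ≠ 0 := by
      rintro rfl
      rw [norm_zero] at hc1
      exact zero_ne_one hc1
    refine ⟨(y - c) / (3 * c), div_mem (sub_mem hy hc) (mul_mem three_mem hc), ?_, ?_⟩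
    · rw [norm_div, norm_mul, h3n, hc1, mul_one, div_le_one (by norm_num)]
      exact hyc
    · field_simp
      ring
  rcases h7 with h8 | h8
  · have h9 := le_lam hI (sub_mem hηm (one_mem _)) h8
    obtain ⟨z, hz, hz1, ez⟩ := hfin (I ^ 2) (pow_mem I_mem 2) (by rw [norm_pow, hI1, one_pow]) (by
      have e1 : y - I ^ 2 = (1 + 2 * I) * (η - 1) + 3 * (1 + I) := by
        rw [hyη]
        linear_combination -hI
      rw [e1]
      refine add_le ?_ ?_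
      · rw [norm_mul, ← hl, pow_two]
        gcongr
      · rw [norm_mul, h3n]
        have h10 : ‖1 + I‖ ≤ 1 := add_le (by rw [norm_one]) hI1.le
        linarith)
    have e2 : (-1 : ZMod 3).val = 2 := by decide
    refine ⟨-1, 1, one_mem _, one_ne_zero, z, hz, hz1, ?_⟩
    rw [e2, one_pow, mul_one]
    exact ez
  · have h9 := le_lam hI (add_mem hηm (one_mem _)) h8
    obtain ⟨z, hz, hz1, ez⟩ := hfin I I_mem hI1 (by
      have e1 : y - I = (1 + 2 * I) * (η + 1) - 3 * I := by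
        rw [hyη]
        ring
      rw [e1]
      refine sub_le ?_ ?_
      · rw [norm_mul, ← hl, pow_two]
        gcongr
      · rw [norm_mul, h3n, hI1, mul_one])
    refine ⟨1, 1, one_mem _, one_ne_zero, z, hz, hz1, ?_⟩
    rw [ZMod.val_one, pow_one, one_pow, mul_one]
    exact ez

/-- the remaining ordinates -/
lemma y_unit {x y : PadicAlgCl 3} (hx : x ∈ Lf I) (hy : y ∈ Lf I) (e : y ^ 2 + y = x ^ 3)
    (h0 : ‖y‖ = 1) (h1 : ‖y - 1‖ = 1) (h2 : ‖y + 1‖ = 1) : Yc I 0 y := by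
  have hl := norm_lam hI
  have hl1 := norm_lam_lt hI
  have hlp := lam_pos hI
  have h3n := norm_three'
  obtain ⟨s, hs, hsn, hys⟩ := exists_s (I := I) h0
  have hs0 : s ≠ 0 := by
    rintro rfl
    rw [norm_zero] at hsn
    exact zero_ne_one hsn
  have h3le : ∀ z : PadicAlgCl 3, ‖z‖ ≤ 1 → ‖3 * z‖ ≤ 3⁻¹ := fun z hz => by
    rw [norm_mul, h3n]
    linarith
  have h3lt : ∀ z : PadicAlgCl 3, ‖z‖ ≤ 1 → ‖3 * z‖ < 1 := fun z hz =>
    (h3le z hz).trans_lt (by norm_num)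
  have hr : (3 : ℝ)⁻¹ ≤ ‖1 + 2 * I‖ := by
    rw [← hl]
    nlinarith
  have h1s : ‖1 + s‖ ≤ 1 := add_le (by rw [norm_one]) hsn.le
  -- `1 + s` is a unit
  have h1sn : ‖(1 + s) ^ 3‖ = 1 := by
    have e1 : (1 + s) ^ 3 = (y + 1) + (3 * (s * (1 + s)) - (y - s ^ 3)) := by ring
    rw [e1, eq_of_lt, h2]
    rw [h2]
    exact sub_lt (h3lt _ (mul_le hsn.le h1s)) hys
  have h1s0 : 1 + s ≠ 0 := by
    intro h5
    rw [h5, zero_pow three_ne_zero, norm_zero] at h1sn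
    exact zero_ne_one h1sn
  have h1sn' : ‖1 + s‖ = 1 := by
    rw [norm_pow] at h1sn
    exact (pow_eq_one_iff_of_nonneg (norm_nonneg _) three_ne_zero).1 h1sn
  set A := (y - s ^ 3) / s ^ 3 with hA
  have hAm : A ∈ Lf I := div_mem (sub_mem hy (pow_mem hs 3)) (pow_mem hs 3)
  have hyA : y = s ^ 3 * (1 + A) := by
    rw [hA]
    field_simp
    ring
  have hA1 : ‖A‖ < 1 := by
    rw [hA, norm_div, norm_pow, hsn, one_pow, div_one]
    exact hys
  have hAl := le_lam hI hAm hA1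
  clear_value A
  set B := (s ^ 3 * A - 3 * (s * (1 + s))) / (1 + s) ^ 3 with hB
  have hBm : B ∈ Lf I := div_mem (sub_mem (mul_mem (pow_mem hs 3) hAm)
    (mul_mem three_mem (mul_mem hs (add_mem (one_mem _) hs)))) (pow_mem (add_mem (one_mem _) hs) 3)
  have hyB : y + 1 = (1 + s) ^ 3 * (1 + B) := by
    rw [hB, mul_add, mul_div_cancel₀ _ (pow_ne_zero 3 h1s0), hyA]
    ring
  have hBs : (1 + s) ^ 3 * B = s ^ 3 * A - 3 * (s * (1 + s)) := by
    rw [hB, mul_div_cancel₀ _ (pow_ne_zero 3 h1s0)]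
  clear_value B
  have hBl : ‖B‖ ≤ ‖1 + 2 * I‖ := by
    have h5 : ‖(1 + s) ^ 3 * B‖ = ‖B‖ := by rw [norm_mul, h1sn, one_mul]
    rw [← h5, hBs]
    refine sub_le ?_ ?_
    · rw [norm_mul, norm_pow, hsn, one_pow, one_mul]
      exact hAl
    · exact (h3le _ (mul_le hsn.le h1s)).trans hr
  -- the cube
  set c := x / (s * (1 + s)) with hc
  have hcm : c ∈ Lf I := div_mem hx (mul_mem hs (add_mem (one_mem _) hs))
  have hc3 : c ^ 3 = (1 + A) * (1 + B) := by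
    have h5 : s ^ 3 * (1 + s) ^ 3 ≠ 0 := mul_ne_zero (pow_ne_zero 3 hs0) (pow_ne_zero 3 h1s0)
    rw [hc, div_pow, mul_pow, div_eq_iff h5, ← e]
    have e1 : y ^ 2 + y = y * (y + 1) := by ring
    rw [e1, hyB]
    nth_rw 1 [hyA]
    ring
  clear_value c
  have hAB : ‖A + B + A * B‖ ≤ ‖1 + 2 * I‖ := by
    refine add_le (add_le hAl hBl) ?_
    rw [norm_mul]
    calc ‖A‖ * ‖B‖ ≤ 1 * ‖1 + 2 * I‖ := by gcongr
      _ = ‖1 + 2 * I‖ := one_mul _
  have hc31 : c ^ 3 - 1 = A + B + A * B := by rw [hc3]; ring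
  have hcn : ‖c‖ = 1 := by
    have h5 : ‖c ^ 3‖ = 1 := by
      have e1 : c ^ 3 = 1 + (A + B + A * B) := by rw [← hc31]; ring
      rw [e1, eq_of_lt, norm_one]
      rw [norm_one]
      exact hAB.trans_lt hl1
    rw [norm_pow] at h5
    exact (pow_eq_one_iff_of_nonneg (norm_nonneg _) three_ne_zero).1 h5
  have hc1 : ‖c - 1‖ < 1 := by
    apply lt_of_pow three_ne_zero
    have e1 : (c - 1) ^ 3 = (A + B + A * B) - 3 * (c * (c - 1)) := by
      rw [← hc31]; ring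
    rw [e1]
    refine sub_lt (hAB.trans_lt hl1) (h3lt _ (mul_le hcn.le (sub_le hcn.le (by rw [norm_one]))))
  have hcl := le_lam hI (sub_mem hcm (one_mem _)) hc1
  have hAB2 : ‖A + B + A * B‖ ≤ 3⁻¹ := by
    have e1 : A + B + A * B = (c - 1) ^ 3 + 3 * (c * (c - 1)) := by rw [← hc31]; ring
    rw [e1]
    refine add_le ?_ (h3le _ (mul_le hcn.le hc1.le))
    rw [norm_pow]
    calc ‖c - 1‖ ^ 3 ≤ ‖1 + 2 * I‖ ^ 3 := by gcongr
      _ ≤ 3⁻¹ := cube3 hI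
  have hAB3 : ‖A + B‖ ≤ 3⁻¹ := by
    have e1 : A + B = (A + B + A * B) - A * B := by ring
    rw [e1]
    refine sub_le hAB2 ?_
    rw [norm_mul, ← hl, pow_two]
    gcongr
  -- the unit
  have hun : ‖(1 + s) ^ 3 + s ^ 3‖ = 1 := by
    have e1 : (1 + s) ^ 3 + s ^ 3 = -(y - 1) + (3 * (y + s * (1 + s)) - 2 * (y - s ^ 3)) := by ring
    rw [e1, eq_of_lt, norm_neg, h1]
    rw [norm_neg, h1]
    exact sub_lt (h3lt _ (add_le h0.le (mul_le hsn.le h1s))) (mul_lt two_le hys)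
  have hA3 : ‖A‖ ≤ 3⁻¹ := by
    have h5 : ‖((1 + s) ^ 3 + s ^ 3) * A‖ = ‖A‖ := by rw [norm_mul, hun, one_mul]
    have e1 : ((1 + s) ^ 3 + s ^ 3) * A = (1 + s) ^ 3 * (A + B) + 3 * (s * (1 + s)) := by
      linear_combination -hBs
    rw [← h5, e1]
    refine add_le ?_ (h3le _ (mul_le hsn.le h1s))
    rw [norm_mul, h1sn, one_mul]
    exact hAB3
  refine ⟨s, hs, hs0, A / 3, div_mem hAm three_mem, ?_, ?_⟩
  · rw [norm_div, h3n, div_le_one (by norm_num)]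
    exact hA3
  · rw [ZMod.val_zero, hyA]
    ring

/-- **The classes of the ordinates.** -/
theorem ycl {x y : PadicAlgCl 3} (hx : x ∈ Lf I) (hy : y ∈ Lf I) (e : y ^ 2 + y = x ^ 3)
    (hy0 : y ≠ 0) : ∃ c, Yc I c y := by
  rcases lt_trichotomy ‖y‖ 1 with h | h | h
  · exact ⟨0, y_small hI hx hy e hy0 h⟩
  · have h1 : ‖y - 1‖ ≤ 1 := sub_le h.le (by rw [norm_one])
    have h2 : ‖y + 1‖ ≤ 1 := add_le h.le (by rw [norm_one])
    rcases lt_or_eq_of_le h1 with h3 | h3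
    · exact y_one hI hx hy e h3
    · rcases lt_or_eq_of_le h2 with h4 | h4
      · exact ⟨0, y_neg hI hx hy e h4⟩
      · exact ⟨0, y_unit hI hx hy e h h3 h4⟩
  · exact ⟨0, y_large hI hx hy e h⟩

end exist

end Pool.Agent.Y715.T.Cls
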