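import Mathlib
import Pool.Agent.Y715.T.Cls

/-!
# The classes of the points at the prime above three
-/

set_option autoImplicit false
set_option linter.unusedSectionVars false
set_option linter.unusedVariables false

namespace Pool.Agent.Y715.T.Clp

open WeierstrassCurve Pool.Agent.Y715.T.Ell Pool.Agent.Y715.T.Md Pool.Agent.Y715.T.Gi
open Pool.Agent.Y715.T.Nr Pool.Agent.Y715.T.Red Pool.Agent.Y715.T.Df Pool.Agent.Y715.T.Odd
open Pool.Agent.Y715.T.Thr Pool.Agent.Y715.T.Cls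
open Pool.Agent.W237.RK Pool.Agent.Y692.QS

open scoped Classical

variable {I : PadicAlgCl 3}

/-- the class of a point over the field fixed by the inertia group -/
def Cl (I : PadicAlgCl 3) (e : ZMod 3) (P : Pt (PadicAlgCl 3)) : Prop :=
  (e = 0 ∧ P = 0) ∨ (e = 0 ∧ P = T0 (isE _)) ∨
    ∃ (x y : PadicAlgCl 3) (h : (W0.baseChange (PadicAlgCl 3)).toAffine.Nonsingular x y),
      P = .some x y h ∧ x ∈ Lf I ∧ y ∈ Lf I ∧ Yc I e y

lemma cl_zero : Cl I 0 0 := Or.inl ⟨rfl, rfl⟩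

/-- existence -/
theorem cl_ex (hI : I ^ 2 + I + 1 = 0) {P : Pt (PadicAlgCl 3)}
    (h : ∀ τ : Au 3, Inert τ → τ I = I → pm (lh τ) P = P) : ∃ e, Cl I e P := by
  rcases P with _ | ⟨x, y, hn⟩
  · exact ⟨0, cl_zero⟩
  · have he := ((isE _).eqn x y).1 hn.1
    have hx : x ∈ Lf I := fun τ h1 h2 => by
      have := h τ h1 h2
      rw [pm_some, Affine.Point.some.injEq] at this
      exact this.1
    have hy : y ∈ Lf I := fun τ h1 h2 => by
      have := h τ h1 h2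
      rw [pm_some, Affine.Point.some.injEq] at this
      exact this.2
    by_cases hy0 : y = 0
    · subst hy0
      have hx3 : x ^ 3 = 0 := by linear_combination -he
      have hx0 : x = 0 := pow_eq_zero_iff three_ne_zero |>.1 hx3
      subst hx0
      exact ⟨0, Or.inr (Or.inl ⟨rfl, rfl⟩)⟩
    · obtain ⟨c, hc⟩ := ycl hI hx hy he hy0
      exact ⟨c, Or.inr (Or.inr ⟨x, y, hn, rfl, hx, hy, hc⟩)⟩

lemma yc_neg_one {I : PadicAlgCl 3} : Yc I 0 (-1) := by
  have h := Yc.cube (I := I) (c := -1) (neg_mem (one_mem _)) (neg_ne_zero.2 one_ne_zero)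
  have e : (-1 : PadicAlgCl 3) ^ 3 = -1 := by ring
  rwa [e] at h

/-- adding `T` -/
lemma cl_add_T (hI : I ^ 2 + I + 1 = 0) {e : ZMod 3} {P : Pt (PadicAlgCl 3)} (h : Cl I e P) :
    Cl I e (P + T0 (isE _)) := by
  rcases h with ⟨rfl, rfl⟩ | ⟨rfl, rfl⟩ | ⟨x, y, hn, rfl, hx, hy, hc⟩
  · rw [zero_add]
    exact Or.inr (Or.inl ⟨rfl, rfl⟩)
  · obtain ⟨h1, e1⟩ := T0_neg (isE (PadicAlgCl 3))
    have e2 : T0 (isE (PadicAlgCl 3)) + T0 (isE _) = -T0 (isE _) := by
      have := T0_add3 (isE (PadicAlgCl 3))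
      rw [succ_nsmul, two_nsmul] at this
      exact eq_neg_of_add_eq_zero_left this
    rw [e2, e1]
    exact Or.inr (Or.inr ⟨0, -1, h1, rfl, zero_mem _, neg_mem (one_mem _), yc_neg_one⟩)
  · have he := ((isE _).eqn x y).1 hn.1
    by_cases hx0 : x = 0
    · subst hx0
      have hy1 : y * (y + 1) = 0 := by linear_combination he
      have hy2 : y = -1 := by
        have := (mul_eq_zero.1 hy1).resolve_left (hc.ne hI)
        linear_combination this
      subst hy2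
      have he0 : e = 0 := hc.uniq hI (neg_mem (one_mem _)) (by ring : (-1 : PadicAlgCl 3) = (-1) ^ 3)
      obtain ⟨h1, e1⟩ := T0_neg (isE (PadicAlgCl 3))
      rw [← e1, neg_add_cancel, he0]
      exact cl_zero
    · obtain ⟨h1, e1⟩ := add_T0 (isE (PadicAlgCl 3)) hn hx0
      rw [e1]
      refine Or.inr (Or.inr ⟨_, _, h1, rfl, div_mem (neg_mem hy) (pow_mem hx 2),
        div_mem (neg_mem hy) (pow_mem hx 3), ?_⟩)
      have h2 := hc.cube_mul hI (c := -1 / x) (div_mem (neg_mem (one_mem _)) hx)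
        (div_ne_zero (neg_ne_zero.2 one_ne_zero) hx0)
      have e2 : (-1 / x) ^ 3 * y = -y / x ^ 3 := by
        field_simp
      rwa [e2] at h2

/-- additivity -/
theorem cl_add (hI : I ^ 2 + I + 1 = 0) {e e' : ZMod 3} {P Q : Pt (PadicAlgCl 3)} (h : Cl I e P)
    (h' : Cl I e' Q) : Cl I (e + e') (P + Q) := by
  rcases h with ⟨rfl, rfl⟩ | ⟨rfl, rfl⟩ | ⟨x1, y1, h1, rfl, hx1, hy1, hc1⟩
  · rw [zero_add, zero_add]
    exact h'
  · rw [zero_add, add_comm]
    exact cl_add_T hI h'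
  rcases h' with ⟨rfl, rfl⟩ | ⟨rfl, rfl⟩ | ⟨x2, y2, h2, rfl, hx2, hy2, hc2⟩
  · rw [add_zero, add_zero]
    exact Or.inr (Or.inr ⟨x1, y1, h1, rfl, hx1, hy1, hc1⟩)
  · rw [add_zero]
    exact cl_add_T hI (Or.inr (Or.inr ⟨x1, y1, h1, rfl, hx1, hy1, hc1⟩))
  have e1 := ((isE _).eqn x1 y1).1 h1.1
  have e2 := ((isE _).eqn x2 y2).1 h2.1
  have hm := hc1.mul hI hc2
  by_cases hxy : x1 = x2 ∧ y1 = -y2 - 1
  · rw [(isE _).add_opp h1 h2 hxy]
    have h3 : e + e' = 0 := by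
      refine hm.uniq hI (c := -x1) (neg_mem hx1) ?_
      obtain ⟨rfl, rfl⟩ := hxy
      linear_combination -e1
    rw [h3]
    exact cl_zero
  · obtain ⟨ℓ, X, Y, h3, e3, eX, eY, hs⟩ := (isE _).add_ex h1 h2 hxy
    have hℓm : ℓ ∈ Lf I := by
      rcases hs with ⟨k1, k2⟩ | ⟨k1, k2, k3, k4⟩
      · have h6 : ℓ = (y1 - y2) / (x1 - x2) := by
          rw [eq_div_iff (sub_ne_zero.2 k1), k2]
        rw [h6]
        exact div_mem (sub_mem hy1 hy2) (sub_mem hx1 hx2)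
      · have h6 : ℓ = (3 * x1 ^ 2) / (2 * y1 + 1) := by
          rw [eq_div_iff k3, k4]
        rw [h6]
        exact div_mem (mul_mem three_mem (pow_mem hx1 2))
          (add_mem (mul_mem (ofNat_mem _ 2) hy1) (one_mem _))
    have hℓ2 : ℓ * (x1 - x2) = y1 - y2 := by
      rcases hs with ⟨k1, k2⟩ | ⟨k1, k2, k3, k4⟩
      · exact k2
      · rw [k1, k2]; ring
    obtain ⟨-, s2, s3⟩ := symm_fn (isE (PadicAlgCl 3)) e1 e2 eX hs
    obtain ⟨ν, hν⟩ : ∃ ν, ν = y1 - ℓ * x1 := ⟨_, rfl⟩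
    rw [← hν] at s2 s3
    have hνm : ν ∈ Lf I := by
      rw [hν]
      exact sub_mem hy1 (mul_mem hℓm hx1)
    have hXm : X ∈ Lf I := by
      rw [eX]
      exact sub_mem (sub_mem (pow_mem hℓm 2) hx1) hx2
    have hYm : Y ∈ Lf I := by
      rw [eY]
      exact sub_mem (neg_mem (add_mem (mul_mem hℓm (sub_mem hXm hx1)) hy1)) (one_mem _)
    have hy1' : y1 = ℓ * x1 + ν := by rw [hν]; ring
    have hy2' : y2 = ℓ * x2 + ν := by rw [hν]; linear_combination hℓ2
    have hY' : -Y - 1 = ℓ * X + ν := by rw [eY, hν]; ring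
    have key : y1 * y2 * (-Y - 1) = ν ^ 3 := by
      rw [hY', hy1', hy2']
      linear_combination ℓ ^ 3 * s3 + ℓ ^ 2 * ν * s2 + ℓ * ν ^ 2 * eX
    have e4 := ((isE _).eqn X Y).1 h3.1
    have hp0 : y1 * y2 ≠ 0 := mul_ne_zero (hc1.ne hI) (hc2.ne hI)
    rw [e3]
    by_cases hY0 : Y = 0
    · subst hY0
      have hX3 : X ^ 3 = 0 := by linear_combination -e4
      have hX0 : X = 0 := pow_eq_zero_iff three_ne_zero |>.1 hX3
      subst hX0
      refine Or.inr (Or.inl ⟨hm.uniq hI (c := -ν) (neg_mem hνm) ?_, rfl⟩)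
      linear_combination -key
    · refine Or.inr (Or.inr ⟨X, Y, h3, rfl, hXm, hYm, ?_⟩)
      by_cases hY1 : Y = -1
      · subst hY1
        have hX3 : X ^ 3 = 0 := by linear_combination -e4
        have hX0 : X = 0 := pow_eq_zero_iff three_ne_zero |>.1 hX3
        subst hX0
        have hν0 : ν = 0 := by
          have h5 : ν ^ 3 = 0 := by rw [← key]; ring
          exact pow_eq_zero_iff three_ne_zero |>.1 h5
        subst hν0
        have h6 : e + e' = 0 := by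
          refine hm.uniq hI (c := -ℓ) (neg_mem hℓm) ?_
          rw [hy1', hy2']
          linear_combination ℓ ^ 2 * s2
        rw [h6]
        exact yc_neg_one
      · have hY2 : -Y - 1 ≠ 0 := by
          intro h5
          apply hY1
          linear_combination -h5
        have hν0 : ν ≠ 0 := by
          rintro rfl
          rw [zero_pow three_ne_zero] at key
          exact mul_ne_zero hp0 hY2 key
        have hX0 : X ≠ 0 := by
          rintro rfl
          have h5 : Y * (-Y - 1) = 0 := by linear_combination -e4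
          exact mul_ne_zero hY0 hY2 h5
        have h5 := hm.cube_mul hI (c := -X / ν) (div_mem (neg_mem hXm) hνm)
          (div_ne_zero (neg_ne_zero.2 hX0) hν0)
        have e5 : (-X / ν) ^ 3 * (y1 * y2) = Y := by
          rw [div_pow, div_mul_eq_mul_div, div_eq_iff (pow_ne_zero 3 hν0), ← key]
          linear_combination (y1 * y2) * e4
        rwa [e5] at h5

lemma cl_map {e : ZMod 3} {P : Pt (PadicAlgCl 3)} (h : Cl I e P) {τ : Au 3} (hτ : τ I = I) :
    Cl I e (pm (lh τ) P) := by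
  rcases h with ⟨rfl, rfl⟩ | ⟨rfl, rfl⟩ | ⟨x, y, hn, rfl, hx, hy, hc⟩
  · rw [pm_zero]
    exact cl_zero
  · rw [pm_T0]
    exact Or.inr (Or.inl ⟨rfl, rfl⟩)
  · rw [pm_some]
    exact Or.inr (Or.inr ⟨_, _, _, rfl, conj_mem hx hτ, conj_mem hy hτ, hc.map hτ⟩)

lemma cl_sum (hI : I ^ 2 + I + 1 = 0) {e : ZMod 3} {Q : ℕ → Pt (PadicAlgCl 3)}
    (h : ∀ t, Cl I e (Q t)) (n : ℕ) : Cl I (n * e) (∑ t ∈ Finset.range n, Q t) := by
  induction n with
  | zero =>
    rw [Finset.sum_range_zero, Nat.cast_zero, zero_mul]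
    exact cl_zero
  | succ n ih =>
    rw [Finset.sum_range_succ, Nat.cast_succ, add_mul, one_mul]
    exact cl_add hI ih (h n)

/-- units modulo `3 ^ k` -/
lemma unit_of_par {k : ℕ} (hk : k ≠ 0) {s : ZMod (3 ^ k)} (h : par hk s ≠ 0) :
    ∃ t : ℕ, (t : ZMod (3 ^ k)) * s = 1 := by
  have hnz : NeZero (3 ^ k) := ⟨by positivity⟩
  obtain ⟨x, rfl⟩ : ∃ x : ℕ, s = (x : ZMod (3 ^ k)) := ⟨_, (ZMod.natCast_zmod_val _).symm⟩
  rw [map_natCast, Ne, ZMod.natCast_eq_zero_iff] at h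
  have hcop : Nat.Coprime x (3 ^ k) :=
    (Nat.Coprime.pow_left k ((Nat.prime_three.coprime_iff_not_dvd).2 h)).symm
  have h1 := ZMod.coe_mul_inv_eq_one x hcop
  refine ⟨((x : ZMod (3 ^ k))⁻¹).val, ?_⟩
  rw [ZMod.natCast_zmod_val, mul_comm]
  exact h1

/-- **The local condition at the prime above three.** -/
theorem thr {k : ℕ} (hk : k ≠ 0) (hk3 : 2 ≤ k) {i₀ : QB} (hi : i₀ ^ 2 + i₀ + 1 = 0)
    {ι : QB →ₐ[ℚ] PadicAlgCl 3}
    (hI : (ι i₀) ^ 2 + ι i₀ + 1 = 0) {a : GK i₀ → ZMod (3 ^ k)} {h : GK i₀ → ZMod 3}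
    {R : ZMod (3 ^ k) → Pt (PadicAlgCl 3)} (hR : R ∈ MM hI k) (hS : Star ι a h R)
    (hun : ∀ (τ : Au 3) (σ : GK i₀), Cmp ι τ σ → Inert τ → a σ = 0)
    {τ₀ : Au 3} {σ₀ : GK i₀} (hc₀ : Cmp ι τ₀ σ₀) (ha₀ : par hk (a σ₀) ≠ 0)
    {z : Ei} (hz0 : z ≠ 0) (hz : Kc hi z h) :
    ∃ v ∈ Lf (ι i₀), ∃ t ∈ Lf (ι i₀), ‖t‖ ≤ 1 ∧ v ^ 3 * (1 + 3 * t) = ev (ι i₀) hI z := by
  set I := ι i₀ with hIdef
  have hI0 : I ≠ 0 := I_ne (isE (PadicAlgCl 3)) hI
  have hI3 : I ^ 3 = 1 := by linear_combination (I - 1) * hI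
  have hτ₀I : τ₀ I = I := hc₀.fix
  -- the inertia group
  have hin : ∀ (τ : Au 3) (σ : GK i₀), Cmp ι τ σ → Inert τ → ∀ j,
      pm (lh τ) (R j) = R j + tt _ (h σ) := by
    intro τ σ hc hτ j
    rw [← hS τ σ hc j, hun τ σ hc hτ, sub_zero]
    abel
  have hQfix : ∀ j, ∀ τ : Au 3, Inert τ → τ I = I → pm (lh τ) (dl _ k R j) = dl _ k R j := by
    intro j τ hτ hτI
    obtain ⟨σ, hc⟩ := exists_cmp ι τ hτI
    rw [dl_apply, map_sub, hin τ σ hc hτ, hin τ σ hc hτ]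
    abel
  have hQτ : ∀ j, pm (lh τ₀) (dl _ k R (j - a σ₀)) = dl _ k R j := by
    intro j
    have h1 := hS τ₀ σ₀ hc₀ j
    have h2 := hS τ₀ σ₀ hc₀ (j - 1)
    have e1 : j - a σ₀ - 1 = j - 1 - a σ₀ := by ring
    rw [dl_apply, dl_apply, map_sub, e1]
    have h3 : pm (lh τ₀) (R (j - a σ₀)) = R j + tt _ (h σ₀) := by rw [← h1]; abel
    have h4 : pm (lh τ₀) (R (j - 1 - a σ₀)) = R (j - 1) + tt _ (h σ₀) := by rw [← h2]; abel
    rw [h3, h4]
    abel
  -- all differences have the same class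
  obtain ⟨e, he⟩ := cl_ex hI (hQfix 0)
  have hall : ∀ n : ℕ, Cl I e (dl _ k R (n * a σ₀)) := by
    intro n
    induction n with
    | zero => rw [Nat.cast_zero, zero_mul]; exact he
    | succ n ih =>
      have h1 := cl_map ih hτ₀I
      have h2 := hQτ (((n + 1 : ℕ) : ZMod (3 ^ k)) * a σ₀)
      have e1 : ((n + 1 : ℕ) : ZMod (3 ^ k)) * a σ₀ - a σ₀ = (n : ZMod (3 ^ k)) * a σ₀ := by
        push_cast
        ring
      rw [e1] at h2
      rwa [h2] at h1
  obtain ⟨t₀, ht₀⟩ := unit_of_par hk ha₀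
  have hnz : NeZero (3 ^ k) := ⟨by positivity⟩
  have hall' : ∀ j, Cl I e (dl _ k R j) := by
    intro j
    have h1 := hall (j * (t₀ : ZMod (3 ^ k))).val
    rw [ZMod.natCast_zmod_val, mul_assoc, ht₀, mul_one] at h1
    exact h1
  have hcl : Cl I 0 (R 0 - im (isE _) hI (R 0)) := by
    have h1 := cl_sum hI (Q := fun t => dl _ k R (0 - (t : ZMod (3 ^ k)))) (fun t => hall' _)
      (3 ^ (k - 1))
    rw [sum_range hR 0] at h1
    have h2 : ((3 ^ (k - 1) : ℕ) : ZMod 3) = 0 := by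
      rw [ZMod.natCast_eq_zero_iff]
      exact dvd_pow_self 3 (by omega)
    rw [h2, zero_mul] at h1
    exact h1
  -- the cube root
  obtain ⟨s, hs⟩ := IsAlgClosed.exists_pow_nat_eq (ev i₀ hi z) (n := 3) (by norm_num)
  have hs0 : s ≠ 0 := by
    rintro rfl
    rw [zero_pow three_ne_zero] at hs
    exact hz0 (ev_inj hi hs.symm)
  have hιs0 : ι s ≠ 0 := (map_ne_zero ι).2 hs0
  have hιs : (ι s) ^ 3 = ev I hI z := by
    rw [← map_pow, hs]
    exact map_ev ι.toRingHom hi hI rfl z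
  have hτs : ∀ (τ : Au 3) (σ : GK i₀), Cmp ι τ σ → τ (ι s) = I ^ (h σ).val * ι s := by
    intro τ σ hc
    rw [hc, hz s hs σ, map_mul, map_pow]
  have hunn : ‖(0 : PadicAlgCl 3)‖ ≤ 1 := by rw [norm_zero]; exact zero_le_one
  -- the case of a trivial character
  have htriv : (∀ τ : Au 3, Inert τ → τ I = I → pm (lh τ) (R 0) = R 0) →
      ∃ v ∈ Lf I, ∃ t ∈ Lf I, ‖t‖ ≤ 1 ∧ v ^ 3 * (1 + 3 * t) = ev I hI z := by
    intro hf
    refine ⟨ι s, fun τ hτ hτI => ?_, 0, zero_mem _, hunn, by rw [hιs]; ring⟩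
    obtain ⟨σ, hc⟩ := exists_cmp ι τ hτI
    have h1 := hin τ σ hc hτ 0
    rw [hf τ hτ hτI] at h1
    have h2 : tt (PadicAlgCl 3) (h σ) = 0 := by
      exact left_eq_add.1 h1
    rw [hτs τ σ hc, tt_eq_zero.1 h2, ZMod.val_zero, pow_zero, one_mul]
  rcases hQ : R 0 with _ | ⟨x, y, hn⟩
  · apply htriv
    intro τ _ _
    rw [hQ]
    exact pm_zero _
  have hEq := ((isE _).eqn x y).1 hn.1
  by_cases hx0 : x = 0
  · subst hx0
    apply htriv
    intro τ _ _
    rw [hQ, pm_some, Affine.Point.some.injEq]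
    refine ⟨map_zero _, ?_⟩
    have hy1 : y * (y + 1) = 0 := by linear_combination hEq
    rcases mul_eq_zero.1 hy1 with h5 | h5
    · rw [h5, map_zero]
    · rw [eq_neg_of_add_eq_zero_left h5, map_neg, map_one]
  have hy0 : y ≠ 0 := by
    rintro rfl
    apply hx0
    have hx3 : x ^ 3 = 0 := by linear_combination -hEq
    exact pow_eq_zero_iff three_ne_zero |>.1 hx3
  obtain ⟨X, hX, e1, -⟩ := one_sub_im (isE _) hI hn hx0
  set g := gg I (Affine.Point.some x y hn : Pt (PadicAlgCl 3)) with hg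
  -- the action on `g`
  have hggn : ∀ c : ZMod 3, gg I ((Affine.Point.some x y hn : Pt (PadicAlgCl 3)) + tt _ c) =
      I ^ (2 * c.val) * g := by
    intro c
    rcases z3 c with rfl | rfl | rfl
    · rw [tt_zero, add_zero, ZMod.val_zero, mul_zero, pow_zero, one_mul]
    · rw [tt_one, gg_add_T0 (isE _) hI hn hx0 hy0, ZMod.val_one, mul_one]
    · have e2 : (-1 : ZMod 3).val = 2 := by decide
      have e3 : tt (PadicAlgCl 3) (-1) = T0 (isE _) + T0 (isE _) := by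
        rw [← tt_one, ← tt_add]
        congr 1
      obtain ⟨h5, e5⟩ := add_T0 (isE (PadicAlgCl 3)) hn hx0
      have hx' : -y / x ^ 2 ≠ 0 := div_ne_zero (neg_ne_zero.2 hy0) (pow_ne_zero 2 hx0)
      have hy' : -y / x ^ 3 ≠ 0 := div_ne_zero (neg_ne_zero.2 hy0) (pow_ne_zero 3 hx0)
      have h6 := gg_add_T0 (isE _) hI hn hx0 hy0
      rw [e2, e3, ← add_assoc]
      rw [e5] at h6 ⊢
      rw [gg_add_T0 (isE _) hI h5 hx' hy', h6]
      ring
  have hτg : ∀ (τ : Au 3) (σ : GK i₀), Cmp ι τ σ → Inert τ → τ g = I ^ (2 * (h σ).val) * g := by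
    intro τ σ hc hτ
    have hτI : τ I = I := hc.fix
    have h1 : τ g = gg I (pm (lh τ) (Affine.Point.some x y hn : Pt (PadicAlgCl 3))) := by
      rw [pm_some, hg, gg_some, gg_some]
      simp only [map_div₀, map_mul, map_add, map_sub, map_pow, map_one, map_ofNat, hτI, lh_apply]
    have h2 : pm (lh τ) (Affine.Point.some x y hn : Pt (PadicAlgCl 3)) =
        .some x y hn + tt _ (h σ) := by
      rw [← hQ]
      exact hin τ σ hc hτ 0
    rw [h1, h2, hggn]
  have hgs : g * ι s ∈ Lf I := by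
    intro τ hτ hτI
    obtain ⟨σ, hc⟩ := exists_cmp ι τ hτI
    rw [map_mul, hτg τ σ hc hτ, hτs τ σ hc]
    have e2 : I ^ (2 * (h σ).val) * g * (I ^ (h σ).val * ι s) =
        (I ^ 3) ^ (h σ).val * (g * ι s) := by
      rw [← pow_mul]
      have e3 : I ^ (3 * (h σ).val) = I ^ (2 * (h σ).val) * I ^ (h σ).val := by
        rw [← pow_add]
        congr 1
        ring
      rw [e3]
      ring
    rw [e2, hI3, one_pow, one_mul]
  -- the class
  have hyc : g = 0 ∨ Yc I 0 (g ^ 3) := by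
    rw [hQ, e1] at hcl
    rcases hcl with ⟨-, h1⟩ | ⟨-, h1⟩ | ⟨x', y', h1, h2, hx', hy', hc⟩
    · exact absurd h1 (Affine.Point.some_ne_zero _)
    · left
      unfold T0 at h1
      rw [Affine.Point.some.injEq] at h1
      exact pow_eq_zero_iff three_ne_zero |>.1 h1.2
    · right
      rw [Affine.Point.some.injEq] at h2
      rw [h2.2]
      exact hc
  rcases hyc with hg0 | hyc
  · -- then the point is fixed
    refine ⟨ι s, fun τ hτ hτI => ?_, 0, zero_mem _, hunn, by rw [hιs]; ring⟩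
    obtain ⟨σ, hc⟩ := exists_cmp ι τ hτI
    have hyI : y = I ^ 2 := by
      rw [hg, gg_some, div_eq_zero_iff] at hg0
      rcases hg0 with h1 | h1
      · exact sub_eq_zero.1 h1
      · exact absurd h1 (mul_ne_zero (lam_ne (isE (PadicAlgCl 3)) hI) hx0)
    have hx3 : x ^ 3 = -1 := by
      rw [← hEq, hyI]
      linear_combination hI + I * hI3
    have hfixP : pm (lh τ) (R 0) = R 0 := by
      -- the abscissa is a root of unity times `-1`
      have hxI : ∃ n : ℕ, x = I ^ n * (-1) := by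
        apply cube_eq hI
        rw [hx3]; ring
      obtain ⟨n, hxn⟩ := hxI
      rw [hQ, pm_some, Affine.Point.some.injEq]
      refine ⟨?_, ?_⟩
      · rw [hxn, lh_apply, map_mul, map_pow, hτI, map_neg, map_one]
      · rw [hyI, lh_apply, map_pow, hτI]
    have h1 := hin τ σ hc hτ 0
    rw [hfixP] at h1
    have h2 : tt (PadicAlgCl 3) (h σ) = 0 := left_eq_add.1 h1
    rw [hτs τ σ hc, tt_eq_zero.1 h2, ZMod.val_zero, pow_zero, one_mul]
  · obtain ⟨r, hr, hr0, u, hu, hu1, e2⟩ := hyc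
    obtain ⟨w, hw, hw1, e3⟩ := inv_ex hu hu1
    refine ⟨g * ι s / r, div_mem hgs hr, w, hw, hw1, ?_⟩
    rw [div_pow, mul_pow, hιs, e2, ZMod.val_zero, pow_zero, one_mul]
    have hr3 : r ^ 3 ≠ 0 := pow_ne_zero 3 hr0
    rw [div_mul_eq_mul_div, div_eq_iff hr3]
    linear_combination (r ^ 3 * ev I hI z) * e3

end Pool.Agent.Y715.T.Clp
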