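import Mathlib
import Pool.Agent.Y692.QS.Chi

/-!
# Cubic residue characters of finite fields and their Gauss sums
-/

set_option autoImplicit false
set_option linter.unusedSectionVars false

namespace Pool.Agent.Y715.T.Cub

open Pool.Agent.Y692.QS
open scoped Classical

section fld

variable {k : Type} [Field k] [Fintype k] {z : k} (hz : z * z = -1 - z) (h3 : (3 : k) ≠ 0)

include hz h3

lemma card_mod : 3 ∣ Fintype.card k - 1 := by
  obtain ⟨n1, -, -⟩ := z_ne hz h3
  have hc := z_cube hz
  have h0 : z ≠ 0 := by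
    intro h
    rw [h] at hc
    norm_num at hc
  have h1 : orderOf z = 3 := orderOf_eq_prime hc n1
  rw [← h1]
  exact orderOf_dvd_of_pow_eq_one (FiniteField.pow_card_sub_one_eq_one z h0)

lemma pow_third {t : k} (ht : t ≠ 0) : (t ^ ((Fintype.card k - 1) / 3)) ^ 3 = 1 := by
  rw [← pow_mul, Nat.div_mul_cancel (card_mod hz h3)]
  exact FiniteField.pow_card_sub_one_eq_one t ht

lemma third_pos : 0 < (Fintype.card k - 1) / 3 := by
  have h1 := card_mod hz h3
  have h2 : 1 < Fintype.card k := Fintype.one_lt_card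
  exact Nat.div_pos (Nat.le_of_dvd (by omega) h1) (by norm_num)

omit hz h3 in
/-- the cubic residue character -/
noncomputable def chi (hz : z * z = -1 - z) (h3 : (3 : k) ≠ 0) : MulChar k Ei where
  toFun t := if t = 0 then 0 else cu z (t ^ ((Fintype.card k - 1) / 3))
  map_one' := by
    rw [if_neg one_ne_zero, one_pow, cu_one]
  map_mul' s t := by
    by_cases hs : s = 0
    · rw [hs, zero_mul, if_pos rfl, zero_mul]
    by_cases ht : t = 0
    · rw [ht, mul_zero, if_pos rfl, mul_zero]
    rw [if_neg (mul_ne_zero hs ht), if_neg hs, if_neg ht, mul_pow,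
      cu_mul hz h3 (pow_third hz h3 hs) (pow_third hz h3 ht)]
  map_nonunit' t ht := by
    have : t = 0 := by
      by_contra h
      exact ht (isUnit_iff_ne_zero.2 h)
    show (if t = 0 then (0 : Ei) else cu z (t ^ ((Fintype.card k - 1) / 3))) = 0
    rw [if_pos this]

lemma chi_apply {t : k} (ht : t ≠ 0) :
    chi hz h3 t = cu z (t ^ ((Fintype.card k - 1) / 3)) := by
  show (if t = 0 then (0 : Ei) else cu z (t ^ ((Fintype.card k - 1) / 3))) = _
  rw [if_neg ht]

lemma chi_red (t : k) : hom z hz (chi hz h3 t) = t ^ ((Fintype.card k - 1) / 3) := by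
  by_cases ht : t = 0
  · rw [ht, MulChar.map_zero, map_zero, zero_pow (third_pos hz h3).ne']
  · rw [chi_apply hz h3 ht]
    exact (cu_spec hz (pow_third hz h3 ht)).2

lemma chi_cube {t : k} (ht : t ≠ 0) : chi hz h3 t ^ 3 = 1 := by
  rw [chi_apply hz h3 ht]
  exact (cu_spec hz (pow_third hz h3 ht)).1

lemma chi_of_cube {t : k} (ht : t ≠ 0) : chi hz h3 (t ^ 3) = 1 := by
  rw [map_pow, chi_cube hz h3 ht]

lemma chi_neg_one : chi hz h3 (-1) = 1 := by
  have := chi_of_cube hz h3 (t := -1) (neg_ne_zero.2 one_ne_zero)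
  rwa [show ((-1 : k)) ^ 3 = -1 by ring] at this

lemma chi_ne_one : chi hz h3 ≠ 1 := by
  intro h
  have hcyc : IsCyclic kˣ := inferInstance
  obtain ⟨g, hg⟩ := hcyc.exists_generator
  have ho : orderOf g = Fintype.card k - 1 := by
    rw [orderOf_eq_card_of_forall_mem_zpowers hg, Nat.card_eq_fintype_card, Fintype.card_units]
  have h1 : chi hz h3 (g : k) = 1 := by
    rw [h, MulChar.one_apply g.isUnit]
  have h2 := chi_red hz h3 (g : k)
  rw [h1, map_one] at h2
  have h3' : g ^ ((Fintype.card k - 1) / 3) = 1 := by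
    apply Units.ext
    rw [Units.val_pow_eq_pow_val, ← h2, Units.val_one]
  have h4 := orderOf_dvd_of_pow_eq_one h3'
  rw [ho] at h4
  have h5 := third_pos hz h3
  have h6 := Nat.le_of_dvd h5 h4
  omega

lemma chi_pow_three : chi hz h3 ^ 3 = 1 := by
  refine MulChar.ext fun t => ?_
  rw [MulChar.pow_apply_coe, chi_cube hz h3 t.ne_zero, MulChar.one_apply_coe]

lemma chi_sq_ne_one : chi hz h3 * chi hz h3 ≠ 1 := by
  intro h
  apply chi_ne_one hz h3
  have := chi_pow_three hz h3
  rwa [pow_succ, pow_two, h, one_mul] at this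

lemma chi_inv : (chi hz h3)⁻¹ = (chi hz h3).ringHomComp (starRingEnd Ei) := by
  refine MulChar.ext fun t => ?_
  rw [MulChar.ringHomComp_apply]
  have h1 : chi hz h3 (t : k) * (chi hz h3)⁻¹ (t : k) = 1 := by
    rw [← MulChar.mul_apply, mul_inv_cancel, MulChar.one_apply_coe]
  have h2 := (star_cube (chi_cube hz h3 t.ne_zero)).1
  have h3' : (starRingEnd Ei) (chi hz h3 (t : k)) = star (chi hz h3 (t : k)) := rfl
  rw [h3']
  calc (chi hz h3)⁻¹ (t : k) =
        (chi hz h3 (t : k) * star (chi hz h3 (t : k))) * (chi hz h3)⁻¹ (t : k) := by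
        rw [h2, one_mul]
    _ = star (chi hz h3 (t : k)) * (chi hz h3 (t : k) * (chi hz h3)⁻¹ (t : k)) := by
        ring
    _ = _ := by rw [h1, mul_one]

omit hz h3 in
/-- the Jacobi sum -/
noncomputable def Jc (hz : z * z = -1 - z) (h3 : (3 : k) ≠ 0) : Ei :=
  jacobiSum (chi hz h3) (chi hz h3)

lemma comp_ne_one {k' : Type*} [CommRing k'] (r : Ei →+* k')
    (hr : ∀ u v : Ei, u ^ 3 = 1 → v ^ 3 = 1 → r u = r v → u = v) :
    (chi hz h3).ringHomComp r ≠ 1 := by
  intro h
  apply chi_ne_one hz h3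
  refine MulChar.ext fun t => ?_
  apply hr _ _ (chi_cube hz h3 t.ne_zero) (by rw [MulChar.one_apply_coe, one_pow])
  rw [← MulChar.ringHomComp_apply, h, MulChar.one_apply_coe, MulChar.one_apply_coe, map_one]

lemma card_ne : ringChar ℂ ≠ ringChar k := by
  rw [ringChar.eq_zero (R := ℂ)]
  intro h
  have h1 : CharZero k := (CharP.ringChar_zero_iff_CharZero k).1 h.symm
  have h2 : Infinite k := CharZero.infinite k
  exact h2.false

lemma Jc_mul_star : Jc hz h3 * star (Jc hz h3) = (Fintype.card k : Ei) := by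
  apply toC_inj
  rw [map_mul]
  have h1 : star (Jc hz h3) = jacobiSum (chi hz h3)⁻¹ (chi hz h3)⁻¹ := by
    rw [chi_inv, jacobiSum_ringHomComp]
    rfl
  have hne : (chi hz h3).ringHomComp toC ≠ 1 :=
    comp_ne_one hz h3 toC (fun u v _ _ h => toC_inj h)
  have hsq : (chi hz h3).ringHomComp toC * (chi hz h3).ringHomComp toC ≠ 1 := by
    rw [← MulChar.ringHomComp_mul]
    intro h
    apply chi_sq_ne_one hz h3
    refine MulChar.ext fun t => ?_
    apply toC_inj
    rw [← MulChar.ringHomComp_apply, h, MulChar.one_apply_coe, MulChar.one_apply_coe, map_one]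
  have hinv : ((chi hz h3)⁻¹).ringHomComp toC = ((chi hz h3).ringHomComp toC)⁻¹ := by
    rw [eq_inv_iff_mul_eq_one, ← MulChar.ringHomComp_mul, inv_mul_cancel]
    exact MulChar.ringHomComp_one _
  have h2 := jacobiSum_mul_jacobiSum_inv (F := k) (F' := ℂ) (card_ne hz h3) hne hne hsq
  rw [h1, Jc, ← jacobiSum_ringHomComp, ← jacobiSum_ringHomComp, hinv, h2, map_natCast]

lemma Jc_nr : nr (Jc hz h3) = Fintype.card k := by
  have h := Jc_mul_star hz h3
  rw [mul_star] at h
  exact_mod_cast h

lemma red_J : hom z hz (Jc hz h3) = 0 := by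
  set n := (Fintype.card k - 1) / 3 with hn
  have h3n : n * 3 = Fintype.card k - 1 := Nat.div_mul_cancel (card_mod hz h3)
  have hn0 : 0 < n := third_pos hz h3
  unfold Jc jacobiSum
  rw [map_sum]
  have e1 : ∀ x : k, hom z hz (chi hz h3 x * chi hz h3 (1 - x)) =
      ∑ m ∈ Finset.range (n + 1), ((-1) ^ m * (n.choose m : k)) * x ^ (n + m) := by
    intro x
    rw [map_mul, chi_red, chi_red, ← hn]
    have : (1 - x) ^ n = (-x + 1) ^ n := by ring
    rw [this, add_pow, Finset.mul_sum]
    refine Finset.sum_congr rfl fun m _ => ?_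
    rw [one_pow, neg_pow, pow_add]
    ring
  rw [Finset.sum_congr rfl fun x _ => e1 x, Finset.sum_comm]
  refine Finset.sum_eq_zero fun m hm => ?_
  rw [← Finset.mul_sum, FiniteField.sum_pow_lt_card_sub_one, mul_zero]
  have := Finset.mem_range.1 hm
  omega

lemma Jc_mod : (3 : Ei) ∣ Jc hz h3 + 1 := by
  have hw : IsPrimitiveRoot (w : Ei) 3 :=
    IsPrimitiveRoot.mk_of_lt w (by norm_num) w_cube (by
      intro l hl hl3
      interval_cases l <;> decide)
  obtain ⟨a, -, ha⟩ := exists_jacobiSum_eq_neg_one_add (n := 3) (by norm_num)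
    (chi_pow_three hz h3) (chi_pow_three hz h3) (card_mod hz h3) hw
  refine ⟨-w * a, ?_⟩
  unfold Jc
  have e : ((w : Ei) - 1) ^ 2 = 3 * -w := by decide
  rw [ha, e]
  ring

end fld

/-! ### Gauss sums -/

section gauss

variable {k : Type} [Field k] [Fintype k] {z : k} (hz : z * z = -1 - z) (h3 : (3 : k) ≠ 0)
  {k' : Type} [Field k'] [Fintype k'] {z' : k'} (hz' : z' * z' = -1 - z') (h3' : (3 : k') ≠ 0)

/-- iterated Frobenius -/
lemma frob_iter {L : Type*} [Field L] (p : ℕ) [Fact p.Prime] [CharP L p] (χ : MulChar k L)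
    (ψ : AddChar k L) (n : ℕ) :
    gaussSum χ ψ ^ p ^ n = gaussSum (χ ^ p ^ n) (ψ ^ p ^ n) := by
  induction n with
  | zero => rw [pow_zero, pow_one, pow_one, pow_one]
  | succ n ih => rw [pow_succ, pow_mul, ih, gaussSum_frob, ← pow_mul, ← pow_mul]

include h3' in
/-- reciprocity for Gauss sums -/
theorem recip (hne : ringChar k' ≠ ringChar k) :
    chi hz h3 (Fintype.card k' : k) *
      chi hz' h3' ((Fintype.card k : k') * hom z' hz' (Jc hz h3)) = 1 := by
  obtain ⟨n', hp', hc'⟩ := FiniteField.card k' (ringChar k')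
  obtain ⟨n, hp, hc⟩ := FiniteField.card k (ringChar k)
  let ψ := AddChar.FiniteField.primitiveChar k k' hne
  let L := CyclotomicField ψ.n k'
  have hinj : Function.Injective (algebraMap k' L) := (algebraMap k' L).injective
  let r : Ei →+* L := (algebraMap k' L).comp (hom z' hz')
  have hr : ∀ u v : Ei, u ^ 3 = 1 → v ^ 3 = 1 → r u = r v → u = v := fun u v hu hv h =>
    hom_inj hz' h3' hu hv (hinj h)
  let χ : MulChar k L := (chi hz h3).ringHomComp r
  have hχ1 : χ ≠ 1 := comp_ne_one hz h3 r hr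
  have hχ3 : χ ^ 3 = 1 := by
    refine MulChar.ext fun t => ?_
    rw [MulChar.pow_apply_coe, MulChar.ringHomComp_apply, ← map_pow, chi_cube hz h3 t.ne_zero,
      map_one, MulChar.one_apply_coe]
  have hord : orderOf χ = 3 := orderOf_eq_prime hχ3 hχ1
  have hchar : ringChar k' = ringChar L := Algebra.ringChar_eq k' L
  have : Fact (ringChar k').Prime := ⟨hp'⟩
  have : CharP L (ringChar k') := by
    rw [hchar]
    infer_instance
  have hcard : (Fintype.card k : L) ≠ 0 := by
    intro H
    rw [hc] at H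
    push_cast at H
    have H1 := eq_zero_of_pow_eq_zero H
    exact hne (hchar.trans (CharP.ringChar_of_prime_eq_zero hp H1))
  set G := gaussSum χ ψ.char with hG
  have hG0 : G ≠ 0 := gaussSum_ne_zero_of_nontrivial hcard hχ1 ψ.prim
  have hG3 : G ^ 3 = (Fintype.card k : L) * r (Jc hz h3) := by
    have h1 := gaussSum_pow_eq_prod_jacobiSum (χ := χ) (ψ := ψ.char) (by rw [hord]; norm_num)
      ψ.prim
    rw [hord, show Finset.Ico 1 (3 - 1) = {1} from rfl, Finset.prod_singleton, pow_one] at h1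
    rw [hG, h1]
    have h2 : χ (-1) = 1 := by
      show r (chi hz h3 (-1)) = 1
      rw [chi_neg_one hz h3, map_one]
    have h4 : jacobiSum χ χ = r (Jc hz h3) := jacobiSum_ringHomComp _ _ r
    rw [h2, h4, one_mul]
  obtain ⟨d, hd⟩ := card_mod hz' h3'
  have hq1 : Fintype.card k' = 3 * d + 1 := by
    have : 1 < Fintype.card k' := Fintype.one_lt_card
    omega
  have hpow : χ ^ Fintype.card k' = χ := by
    rw [hq1, pow_succ, pow_mul, hχ3, one_pow, one_mul]
  have hunit : IsUnit ((Fintype.card k' : ℕ) : k) := by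
    rw [isUnit_iff_ne_zero]
    intro H
    rw [hc'] at H
    push_cast at H
    have H1 := eq_zero_of_pow_eq_zero H
    exact hne (CharP.ringChar_of_prime_eq_zero hp' H1).symm
  have hfrob : χ (Fintype.card k' : k) * G ^ Fintype.card k' = G := by
    have h1 := frob_iter (ringChar k') χ ψ.char n'
    rw [← hc', hpow] at h1
    have h2 : ψ.char ^ Fintype.card k' = ψ.char.mulShift ((Fintype.card k' : ℕ) : k) :=
      AddChar.pow_mulShift _ _
    rw [hG, h1, h2]
    have h5 := gaussSum_mulShift χ ψ.char hunit.unit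
    rwa [hunit.unit_spec] at h5
  have hfin : χ (Fintype.card k' : k) * (G ^ 3) ^ d = 1 := by
    have : χ (Fintype.card k' : k) * (G ^ 3) ^ d * G = 1 * G := by
      have e : (G ^ 3) ^ d * G = G ^ Fintype.card k' := by
        rw [hq1, pow_succ G (3 * d), pow_mul]
      rw [one_mul, mul_assoc, e, hfrob]
    exact mul_right_cancel₀ hG0 this
  have hJ0 : (Fintype.card k : k') * hom z' hz' (Jc hz h3) ≠ 0 := by
    intro H
    have H1 := congrArg (algebraMap k' L) H
    rw [map_mul, map_natCast, map_zero] at H1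
    have H2 : G ^ 3 = 0 := by rw [hG3]; exact H1
    exact hG0 (eq_zero_of_pow_eq_zero H2)
  have hun : (Fintype.card k' : k) ≠ 0 := hunit.ne_zero
  apply hr
  · rw [mul_pow, chi_cube hz h3 hun, chi_cube hz' h3' hJ0, one_mul]
  · exact one_pow 3
  · rw [map_mul, map_one, ← hfin]
    congr 1
    show algebraMap k' L (hom z' hz' _) = _
    rw [chi_red hz' h3', map_pow, map_mul, map_natCast, hG3]
    congr 1
    omega

end gauss

end Pool.Agent.Y715.T.Cub
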