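import Mathlib
import Pool.Agent.Y715.T.Cub
import Pool.Agent.Y715.T.Rs

/-!
# Cubic residue symbols of the Eisenstein integers
-/

set_option autoImplicit false
set_option linter.unusedSectionVars false

namespace Pool.Agent.Y715.T.Rec

open Pool.Agent.Y692.QS Pool.Agent.Y715.T.Rs Pool.Agent.Y715.T.Cub
open scoped Classical

/-- the element `1 + 2 w` -/
def la : Ei := ⟨1, 2⟩

lemma la_sq : la * la = -3 := by decide

/-- the residue ring -/
abbrev FF (π : Ei) : Type := Ei ⧸ Ideal.span {π}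

abbrev mk (π : Ei) : Ei →+* FF π := Ideal.Quotient.mk (Ideal.span {π})

variable {π : Ei}

lemma mk_eq_zero (x : Ei) : mk π x = 0 ↔ π ∣ x := by
  rw [Ideal.Quotient.eq_zero_iff_mem, Ideal.mem_span_singleton]

lemma mk_eq (x y : Ei) : mk π x = mk π y ↔ π ∣ x - y := by
  rw [← sub_eq_zero, ← map_sub, mk_eq_zero]

/-- the exponent -/
def nn (π : Ei) : ℕ := ((nr π).natAbs - 1) / 3

/-- the additive cubic residue symbol -/
noncomputable def cs (π x : Ei) : ZMod 3 :=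
  if h : ∃ c : ZMod 3, π ∣ x ^ nn π - w ^ c.val then h.choose else 0

/-- the primes -/
structure Pr (π : Ei) : Prop where
  prime : Prime π
  three : (3 * la) ∣ π - 1
  norm : (9 : ℤ) ∣ nr π - 1

noncomputable abbrev fld (hπ : Prime π) : Field (FF π) :=
  have : (Ideal.span {π}).IsMaximal := PrincipalIdealRing.isMaximal_of_irreducible hπ.irreducible
  Ideal.Quotient.field _

noncomputable abbrev ftp (hπ : Prime π) : Fintype (FF π) :=
  @Fintype.ofFinite _ (fin_quo hπ.ne_zero)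

lemma card_FF (hπ : Prime π) : letI := ftp hπ; (Fintype.card (FF π) : ℤ) = nr π := by
  let _ := ftp hπ
  rw [← Nat.card_eq_fintype_card, card_quo]

lemma card_FF' (hπ : Prime π) : letI := ftp hπ; Fintype.card (FF π) = (nr π).natAbs := by
  let _ := ftp hπ
  have h := card_FF hπ
  show Fintype.card (FF π) = (nr π).natAbs
  have h' : (Fintype.card (FF π) : ℤ) = nr π := h
  omega

lemma mw (π : Ei) : mk π w * mk π w = -1 - mk π w := by
  rw [← map_mul, w_sq, map_sub, map_neg, map_one]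

lemma hom_mk (π : Ei) : hom (mk π w) (mw π) = mk π := by
  apply RingHom.ext
  intro x
  rw [hom_apply]
  conv_rhs => rw [eta x]
  rw [map_add, map_mul, map_intCast, map_intCast]

lemma not_unit (hπ : Prime π) : nr π ≠ 1 := fun h => hπ.not_isUnit (isUnit_iff.2 h)

lemma three_ne (hπ : Prime π) (h9 : (9 : ℤ) ∣ nr π - 1) : ¬ π ∣ 3 := by
  rintro ⟨x, hx⟩
  have h1 : nr π * nr x = 9 := by
    rw [← nr_mul, ← hx]
    decide
  have h2 := nr_nonneg π
  have h3 := nr_nonneg x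
  have h4 := not_unit hπ
  have h5 : nr π ∣ 9 := ⟨_, h1.symm⟩
  have h6 : nr π ≤ 9 := Int.le_of_dvd (by norm_num) h5
  interval_cases h : nr π <;> omega

lemma mk_three (hπ : Prime π) (h9 : (9 : ℤ) ∣ nr π - 1) : (3 : FF π) ≠ 0 := by
  intro h
  apply three_ne hπ h9
  rw [← mk_eq_zero]
  rw [map_ofNat]
  exact h

lemma w_pow_ex {u : Ei} (h : u ^ 3 = 1) : ∃ c : ZMod 3, u = w ^ c.val := by
  rcases cube_cases h with rfl | rfl | rfl
  · exact ⟨0, rfl⟩
  · exact ⟨1, by decide⟩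
  · exact ⟨2, by decide⟩

lemma w_pow_cube (n : ℕ) : ((w : Ei) ^ n) ^ 3 = 1 := by
  rw [← pow_mul, mul_comm, pow_mul, w_cube, one_pow]

lemma w_inj {c d : ZMod 3} (h : (w : Ei) ^ c.val = w ^ d.val) : c = d := by
  revert c d
  decide

lemma w_add (c d : ZMod 3) : (w : Ei) ^ (c + d).val = w ^ c.val * w ^ d.val := by
  revert c d
  decide

section one

variable (hπ : Prime π) (h9 : (9 : ℤ) ∣ nr π - 1)

include hπ h9

/-- comparison with the character -/
lemma chi_iff {x : Ei} (hx : ¬ π ∣ x) (c : ZMod 3) : letI := fld hπ; letI := ftp hπ;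
    π ∣ x ^ nn π - w ^ c.val ↔ chi (mw π) (mk_three hπ h9) (mk π x) = w ^ c.val := by
  let _ := fld hπ
  let _ := ftp hπ
  have hx0 : mk π x ≠ 0 := fun h => hx ((mk_eq_zero x).1 h)
  have h1 := chi_red (mw π) (mk_three hπ h9) (mk π x)
  have hc : Fintype.card (FF π) = (nr π).natAbs := card_FF' hπ
  rw [hom_mk] at h1
  rw [← mk_eq, map_pow]
  show mk π x ^ (((nr π).natAbs - 1) / 3) = _ ↔ _
  have h1' : mk π (chi (mw π) (mk_three hπ h9) (mk π x)) =
      mk π x ^ (((nr π).natAbs - 1) / 3) := by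
    rw [h1, hc]
  rw [← h1']
  constructor
  · intro h
    apply hom_inj (mw π) (mk_three hπ h9) (chi_cube _ _ hx0) (w_pow_cube _)
    rw [hom_mk]
    exact h
  · intro h
    rw [h]

lemma ex_cs {x : Ei} (hx : ¬ π ∣ x) : ∃ c : ZMod 3, π ∣ x ^ nn π - w ^ c.val := by
  let _ := fld hπ
  let _ := ftp hπ
  have hx0 : mk π x ≠ 0 := fun h => hx ((mk_eq_zero x).1 h)
  obtain ⟨c, hc⟩ := w_pow_ex (chi_cube (mw π) (mk_three hπ h9) hx0)
  exact ⟨c, (chi_iff hπ h9 hx c).2 hc⟩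

lemma cs_spec {x : Ei} (hx : ¬ π ∣ x) : π ∣ x ^ nn π - w ^ (cs π x).val := by
  have h := ex_cs hπ h9 hx
  unfold cs
  rw [dif_pos h]
  exact h.choose_spec

lemma cs_uniq {x : Ei} {c d : ZMod 3} (h : π ∣ x ^ nn π - w ^ c.val)
    (h' : π ∣ x ^ nn π - w ^ d.val) : c = d := by
  let _ := fld hπ
  let _ := ftp hπ
  by_cases hx : π ∣ x
  · exfalso
    have hn : nn π ≠ 0 := by
      have := third_pos (mw π) (mk_three hπ h9)
      have hc : Fintype.card (FF π) = (nr π).natAbs := card_FF' hπ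
      rw [hc] at this
      exact this.ne'
    have h1 : π ∣ w ^ c.val := (dvd_sub_right (dvd_pow hx hn)).1 h
    have h2 : π ∣ 1 := by
      rw [← w_pow_cube c.val]
      exact dvd_pow h1 (by norm_num)
    exact hπ.not_isUnit (isUnit_of_dvd_one h2)
  · have h1 := (chi_iff hπ h9 hx c).1 h
    have h2 := (chi_iff hπ h9 hx d).1 h'
    exact w_inj (h1.symm.trans h2)

lemma cs_of {x : Ei} {c : ZMod 3} (h : π ∣ x ^ nn π - w ^ c.val) : cs π x = c := by
  have h' : ∃ c : ZMod 3, π ∣ x ^ nn π - w ^ c.val := ⟨c, h⟩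
  unfold cs
  rw [dif_pos h']
  exact cs_uniq hπ h9 h'.choose_spec h

lemma cs_chi {x : Ei} (hx : ¬ π ∣ x) : letI := fld hπ; letI := ftp hπ;
    chi (mw π) (mk_three hπ h9) (mk π x) = w ^ (cs π x).val :=
  (chi_iff hπ h9 hx _).1 (cs_spec hπ h9 hx)

lemma cs_congr {x y : Ei} (hx : ¬ π ∣ x) (h : π ∣ x - y) : cs π x = cs π y := by
  refine (cs_of hπ h9 ?_).symm
  have h1 := cs_spec hπ h9 hx
  have h2 : π ∣ x ^ nn π - y ^ nn π := dvd_trans h (sub_dvd_pow_sub_pow x y _)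
  have e : y ^ nn π - w ^ (cs π x).val =
      (x ^ nn π - w ^ (cs π x).val) - (x ^ nn π - y ^ nn π) := by ring
  rw [e]
  exact dvd_sub h1 h2

lemma cs_mul {x y : Ei} (hx : ¬ π ∣ x) (hy : ¬ π ∣ y) : cs π (x * y) = cs π x + cs π y := by
  apply cs_of hπ h9
  rw [mul_pow, w_add]
  have h1 := cs_spec hπ h9 hx
  have h2 := cs_spec hπ h9 hy
  have e : x ^ nn π * y ^ nn π - w ^ (cs π x).val * w ^ (cs π y).val =
      (x ^ nn π - w ^ (cs π x).val) * y ^ nn π +
        w ^ (cs π x).val * (y ^ nn π - w ^ (cs π y).val) := by ring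
  rw [e]
  exact dvd_add (Dvd.dvd.mul_right h1 _) (Dvd.dvd.mul_left h2 _)

lemma cs_one : cs π 1 = 0 := by
  apply cs_of hπ h9
  rw [one_pow, ZMod.val_zero, pow_zero, sub_self]
  exact dvd_zero _

lemma cs_pow {x : Ei} (hx : ¬ π ∣ x) (n : ℕ) : cs π (x ^ n) = n * cs π x := by
  induction n with
  | zero => rw [pow_zero, cs_one hπ h9, Nat.cast_zero, zero_mul]
  | succ n ih =>
    rw [pow_succ, cs_mul hπ h9 (fun h => hx (hπ.dvd_of_dvd_pow h)) hx, ih]
    push_cast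
    ring

lemma cs_prod {ι : Type*} (S : Finset ι) (f : ι → Ei) (h : ∀ i ∈ S, ¬ π ∣ f i) :
    cs π (∏ i ∈ S, f i) = ∑ i ∈ S, cs π (f i) := by
  induction S using Finset.induction_on with
  | empty =>
    rw [Finset.prod_empty, Finset.sum_empty]
    exact cs_one hπ h9
  | insert i S hi ih =>
    rw [Finset.prod_insert hi, Finset.sum_insert hi, cs_mul hπ h9, ih]
    · exact fun j hj => h j (Finset.mem_insert_of_mem hj)
    · exact h i (Finset.mem_insert_self _ _)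
    · intro h1
      obtain ⟨j, hj, h2⟩ := (hπ.dvd_finsetProd_iff _).1 h1
      exact h j (Finset.mem_insert_of_mem hj) h2

/-- cubes -/
lemma cs_zero_iff {x : Ei} (hx : ¬ π ∣ x) : cs π x = 0 ↔ ∃ y, π ∣ x - y ^ 3 := by
  constructor
  · intro h
    let _ := fld hπ
    let _ := ftp hπ
    have hc : Fintype.card (FF π) = (nr π).natAbs := card_FF' hπ
    have hx0 : mk π x ≠ 0 := fun h => hx ((mk_eq_zero x).1 h)
    have h1 := cs_spec hπ h9 hx
    rw [h, ZMod.val_zero, pow_zero, ← mk_eq, map_pow, map_one] at h1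
    have hd := card_mod (mw π) (mk_three hπ h9)
    obtain ⟨d, hd⟩ := hd
    have hnn : nn π = d := by
      unfold nn
      rw [← hc, hd]
      omega
    rw [hnn] at h1
    obtain ⟨g, hg⟩ := (inferInstance : IsCyclic (FF π)ˣ).exists_generator
    have ho : orderOf g = 3 * d := by
      rw [orderOf_eq_card_of_forall_mem_zpowers hg, Nat.card_eq_fintype_card,
        Fintype.card_units, hd]
    obtain ⟨n, hn⟩ := (mem_powers_iff_mem_zpowers.2 (hg (Units.mk0 _ hx0)))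
    have hn : g ^ n = Units.mk0 _ hx0 := hn
    have h2 : g ^ (n * d) = 1 := by
      rw [pow_mul, hn]
      apply Units.ext
      rw [Units.val_pow_eq_pow_val, Units.val_mk0, h1, Units.val_one]
    have h3 : 3 * d ∣ n * d := by
      rw [← ho]
      exact orderOf_dvd_of_pow_eq_one h2
    have hd0 : 0 < d := by
      have := third_pos (mw π) (mk_three hπ h9)
      rw [hd] at this
      omega
    have h4 : 3 ∣ n := Nat.dvd_of_mul_dvd_mul_right hd0 h3
    obtain ⟨l, rfl⟩ := h4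
    obtain ⟨y, hy⟩ := Ideal.Quotient.mk_surjective ((g ^ l : (FF π)ˣ) : FF π)
    refine ⟨y, ?_⟩
    rw [← mk_eq, map_pow]
    have h5 := congrArg (fun u : (FF π)ˣ => (u : FF π)) hn
    simp only [Units.val_mk0] at h5
    rw [← h5, mul_comm, pow_mul, Units.val_pow_eq_pow_val]
    congr 1
    exact hy.symm
  · rintro ⟨y, hy⟩
    have hy0 : ¬ π ∣ y := fun h => hx (by
      have : x = (x - y ^ 3) + y ^ 3 := by ring
      rw [this]
      exact dvd_add hy (dvd_pow h (by norm_num)))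
    rw [cs_congr hπ h9 hx hy, cs_pow hπ h9 hy0]
    have h3 : ((3 : ℕ) : ZMod 3) = 0 := rfl
    rw [h3, zero_mul]

lemma cs_w : cs π w = 0 := by
  apply cs_of hπ h9
  rw [ZMod.val_zero, pow_zero]
  have h1 : 3 ∣ nn π := by
    unfold nn
    have := nr_nonneg π
    omega
  obtain ⟨d, hd⟩ := h1
  rw [hd, pow_mul, w_cube, one_pow, sub_self]
  exact dvd_zero _

lemma cs_neg_one : cs π (-1) = 0 := by
  have h0 : ¬ π ∣ -1 := fun h => hπ.not_isUnit (isUnit_of_dvd_unit h isUnit_one.neg)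
  rw [cs_zero_iff hπ h9 h0]
  exact ⟨-1, by ring_nf; exact dvd_zero _⟩

lemma cs_neg {x : Ei} (hx : ¬ π ∣ x) : cs π (-x) = cs π x := by
  have h0 : ¬ π ∣ -1 := fun h => hπ.not_isUnit (isUnit_of_dvd_unit h isUnit_one.neg)
  rw [← neg_one_mul, cs_mul hπ h9 h0 hx, cs_neg_one hπ h9, zero_add]

end one

/-! ### Reciprocity -/

lemma three_dvd_la : (3 : Ei) ∣ 3 * la := dvd_mul_right _ _

/-- the Jacobi sum -/
lemma jac (h : Pr π) : letI := fld h.prime; letI := ftp h.prime;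
    Jc (mw π) (mk_three h.prime h.norm) = -π := by
  let _ := fld h.prime
  let _ := ftp h.prime
  set J := Jc (mw π) (mk_three h.prime h.norm) with hJ
  have h1 : hom (mk π w) (mw π) J = 0 := red_J (mw π) (mk_three h.prime h.norm)
  rw [hom_mk, mk_eq_zero] at h1
  have h2 : nr J = Fintype.card (FF π) := Jc_nr (mw π) (mk_three h.prime h.norm)
  have hc : (Fintype.card (FF π) : ℤ) = nr π := card_FF h.prime
  rw [hc] at h2
  have h3 : (3 : Ei) ∣ J + 1 := Jc_mod (mw π) (mk_three h.prime h.norm)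
  obtain ⟨u, hu⟩ := h1
  have hn0 : nr π ≠ 0 := fun h' => h.prime.ne_zero (nr_zero_iff.1 h')
  have hu1 : nr u = 1 := by
    rw [hu, nr_mul] at h2
    exact mul_left_cancel₀ hn0 (by rw [h2, mul_one])
  have h4 : (3 : Ei) ∣ π - 1 := dvd_trans three_dvd_la h.three
  have h5 : (3 : Ei) ∣ u + 1 := by
    have e : u + 1 = (J + 1) - (π - 1) * u := by rw [hu]; ring
    rw [e]
    exact dvd_sub h3 (Dvd.dvd.mul_right h4 _)
  have h6 : u = -1 := by
    have h7 : ep u = ep (-1) := ep_per (by rwa [sub_neg_eq_add])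
    have hu' : IsUnit u := isUnit_iff.2 hu1
    have h8 : (3 : ℤ) ∣ (u + 1).re ∧ (3 : ℤ) ∣ (u + 1).im := by
      have : (((3 : ℤ) : Ei)) ∣ u + 1 := by exact_mod_cast h5
      exact int_dvd.1 this
    rw [QuadraticAlgebra.re_add, QuadraticAlgebra.im_add] at h8
    have e1 : (1 : Ei).re = 1 := rfl
    have e2 : (1 : Ei).im = 0 := rfl
    rw [e1, e2, add_zero] at h8
    unfold nr at hu1
    obtain ⟨⟨a, ha⟩, ⟨b, hb⟩⟩ := h8
    have hre : u.re = 3 * a - 1 := by omega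
    rw [hre, hb] at hu1
    have hb0 : b = 0 := by
      by_contra hb0
      have : 1 ≤ b ^ 2 := by
        have : 0 < b ^ 2 := by positivity
        omega
      nlinarith [sq_nonneg (2 * (3 * a - 1) - 3 * b)]
    subst hb0
    have ha0 : a = 0 := by
      by_contra ha0
      rcases lt_or_gt_of_ne ha0 with h' | h'
      · nlinarith
      · nlinarith
    subst ha0
    ext
    · rw [hre]
      rfl
    · rw [hb]
      rfl
  rw [hu, h6]
  ring

/-- the characteristic -/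
lemma exists_p (hπ : Prime π) : ∃ l : ℕ, l.Prime ∧ π ∣ (l : Ei) ∧ (nr π = l ∨ nr π = (l : ℤ) ^ 2) := by
  have hN : π ∣ (((nr π).natAbs : ℕ) : Ei) := by
    refine ⟨star π, ?_⟩
    rw [mul_star]
    have h1 : (((nr π).natAbs : ℕ) : ℤ) = nr π := Int.natAbs_of_nonneg (nr_nonneg π)
    have h2 := congrArg (fun a : ℤ => (a : Ei)) h1
    simp only [Int.cast_natCast] at h2
    exact h2
  have hN0 : (nr π).natAbs ≠ 0 := fun h0 =>
    hπ.ne_zero (nr_zero_iff.1 (Int.natAbs_eq_zero.1 h0))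
  rw [← Nat.prod_primeFactorsList hN0, Nat.cast_list_prod, hπ.dvd_prod_iff] at hN
  obtain ⟨a, ha, hd⟩ := hN
  rw [List.mem_map] at ha
  obtain ⟨l, hl, rfl⟩ := ha
  have hlp := Nat.prime_of_mem_primeFactorsList hl
  refine ⟨l, hlp, hd, ?_⟩
  obtain ⟨x, hx⟩ := hd
  have hn : nr π * nr x = (l : ℤ) ^ 2 := by
    rw [← nr_mul, ← hx, nr_nat]
  have hn' : (nr π).natAbs * (nr x).natAbs = l ^ 2 := by
    rw [← Int.natAbs_mul, hn, Int.natAbs_pow, Int.natAbs_natCast]
  have hN1 : (nr π).natAbs ≠ 1 := fun h0 => not_unit hπ (by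
    have := nr_nonneg π
    omega)
  have hnn : (((nr π).natAbs : ℕ) : ℤ) = nr π := Int.natAbs_of_nonneg (nr_nonneg π)
  obtain ⟨e, he, hπe⟩ := (Nat.dvd_prime_pow hlp).1 (⟨_, hn'.symm⟩ : (nr π).natAbs ∣ l ^ 2)
  rcases (by omega : e = 0 ∨ e = 1 ∨ e = 2) with rfl | rfl | rfl
  · exact absurd hπe hN1
  · left
    rw [← hnn, hπe, pow_one]
  · right
    rw [← hnn, hπe]
    push_cast
    rfl

lemma char_FF (hπ : Prime π) {l : ℕ} (hl : l.Prime) (hd : π ∣ (l : Ei)) :
    letI := fld hπ; ringChar (FF π) = l := by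
  let _ := fld hπ
  apply CharP.ringChar_of_prime_eq_zero hl
  rw [← mk_eq_zero, map_natCast] at hd
  exact hd

lemma nr_of_assoc {ρ : Ei} (hπ : Prime π) (hρ : Prime ρ) (h : π ∣ ρ) : nr π = nr ρ := by
  obtain ⟨x, hx⟩ := h
  have hu : IsUnit x := by
    rcases hρ.irreducible.isUnit_or_isUnit hx with h | h
    · exact absurd h hπ.not_isUnit
    · exact h
  rw [hx, nr_mul, isUnit_iff.1 hu, mul_one]

lemma char_ne {ρ : Ei} (hπ : Prime π) (hρ : Prime ρ) (hne : nr π ≠ nr ρ) :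
    (@ringChar (FF π) (fld hπ).toNonAssocRing.toNonAssocSemiring) ≠
      (@ringChar (FF ρ) (fld hρ).toNonAssocRing.toNonAssocSemiring) := by
  obtain ⟨l, hl, hd, hc⟩ := exists_p hπ
  obtain ⟨l', hl', hd', hc'⟩ := exists_p hρ
  have h1 := char_FF hπ hl hd
  have h2 := char_FF hρ hl' hd'
  intro h
  have h3 : l = l' := by
    rw [← h1, ← h2]
    exact h
  subst h3
  rcases hc with hc | hc <;> rcases hc' with hc' | hc'
  · exact hne (hc.trans hc'.symm)
  · obtain ⟨x, hx⟩ := hd'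
    have h4 : nr x = 1 := by
      have h5 := congrArg nr hx
      rw [nr_nat, nr_mul, hc'] at h5
      have h6 : (l : ℤ) ^ 2 ≠ 0 := pow_ne_zero _ (by exact_mod_cast hl.ne_zero)
      exact mul_left_cancel₀ h6 (by rw [← h5, mul_one])
    have h5 : π ∣ ρ := by
      rw [hx] at hd
      rcases hπ.dvd_or_dvd hd with h | h
      · exact h
      · exact absurd (isUnit_of_dvd_unit h (isUnit_iff.2 h4)) hπ.not_isUnit
    exact hne (nr_of_assoc hπ hρ h5)
  · obtain ⟨x, hx⟩ := hd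
    have h4 : nr x = 1 := by
      have h5 := congrArg nr hx
      rw [nr_nat, nr_mul, hc] at h5
      have h6 : (l : ℤ) ^ 2 ≠ 0 := pow_ne_zero _ (by exact_mod_cast hl.ne_zero)
      exact mul_left_cancel₀ h6 (by rw [← h5, mul_one])
    have h5 : ρ ∣ π := by
      rw [hx] at hd'
      rcases hρ.dvd_or_dvd hd' with h | h
      · exact h
      · exact absurd (isUnit_of_dvd_unit h (isUnit_iff.2 h4)) hρ.not_isUnit
    exact hne (nr_of_assoc hρ hπ h5).symm
  · exact hne (hc.trans hc'.symm)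

lemma half {ρ : Ei} (h : Pr π) (h' : Pr ρ) (hne : nr π ≠ nr ρ) :
    cs π ((nr ρ : ℤ) : Ei) + (cs ρ ((nr π : ℤ) : Ei) + cs ρ π) = 0 ∧
      ¬ ρ ∣ ((nr π : ℤ) : Ei) ∧ ¬ ρ ∣ π := by
  let i1 := fld h.prime
  let i2 := ftp h.prime
  let i3 := fld h'.prime
  let i4 := ftp h'.prime
  have h1 := recip (mw π) (mk_three h.prime h.norm) (mw ρ) (mk_three h'.prime h'.norm)
    (char_ne h'.prime h.prime hne.symm)
  have hJ : Jc (mw π) (mk_three h.prime h.norm) = -π := jac h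
  have hc : ((Fintype.card (FF π) : ℕ) : ℤ) = nr π := card_FF h.prime
  have hc' : ((Fintype.card (FF ρ) : ℕ) : ℤ) = nr ρ := card_FF h'.prime
  rw [hJ, hom_mk] at h1
  have e1 : ((Fintype.card (FF ρ) : ℕ) : FF π) = mk π ((nr ρ : ℤ) : Ei) := by
    rw [← hc', map_intCast, Int.cast_natCast]
  have e2 : ((Fintype.card (FF π) : ℕ) : FF ρ) = mk ρ ((nr π : ℤ) : Ei) := by
    rw [← hc, map_intCast, Int.cast_natCast]
  rw [e1, e2, ← map_mul] at h1
  have hA : ¬ π ∣ ((nr ρ : ℤ) : Ei) := by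
    intro h2
    rw [(mk_eq_zero _).2 h2, MulChar.map_zero, zero_mul] at h1
    exact zero_ne_one h1
  have hB : ¬ ρ ∣ ((nr π : ℤ) : Ei) * -π := by
    intro h2
    rw [(mk_eq_zero _).2 h2, MulChar.map_zero, mul_zero] at h1
    exact zero_ne_one h1
  have hB1 : ¬ ρ ∣ ((nr π : ℤ) : Ei) := fun h2 => hB (Dvd.dvd.mul_right h2 _)
  have hB2 : ¬ ρ ∣ π := fun h2 => hB (Dvd.dvd.mul_left ((dvd_neg).2 h2) _)
  have hB3 : ¬ ρ ∣ -π := fun h2 => hB2 ((dvd_neg).1 h2)
  have c1 : chi (mw π) (mk_three h.prime h.norm) (mk π ((nr ρ : ℤ) : Ei)) =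
    w ^ (cs π ((nr ρ : ℤ) : Ei)).val := cs_chi h.prime h.norm hA
  have c2 : chi (mw ρ) (mk_three h'.prime h'.norm) (mk ρ (((nr π : ℤ) : Ei) * -π)) =
    w ^ (cs ρ (((nr π : ℤ) : Ei) * -π)).val := cs_chi h'.prime h'.norm hB
  rw [c1, c2, ← w_add] at h1
  have h2 := w_inj (d := 0) (h1.trans rfl)
  rw [cs_mul h'.prime h'.norm hB1 hB3, cs_neg h'.prime h'.norm hB2] at h2
  exact ⟨h2, hB1, hB2⟩

/-- cubic reciprocity -/
theorem cs_comm {ρ : Ei} (h : Pr π) (h' : Pr ρ) (hne : nr π ≠ nr ρ) : cs ρ π = cs π ρ := by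
  have h1 := (half h h' hne).1
  have h2 := (half h' h hne.symm).1
  linear_combination h1 - h2

lemma not_dvd {ρ : Ei} (h : Pr π) (h' : Pr ρ) (hne : nr π ≠ nr ρ) : ¬ ρ ∣ π :=
  (half h h' hne).2.2

end Pool.Agent.Y715.T.Rec
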