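import Mathlib
import Pool.Agent.Y715.T.Clp
import Pool.Agent.Y715.T.RecC

/-!
# Kummer characters and the local analysis
-/

set_option autoImplicit false
set_option linter.unusedSectionVars false

namespace Pool.Agent.Y715.T.Sel

open Pool.Agent.Y692.QS
open Pool.Agent.Y715.T.Gi Pool.Agent.Y715.T.Nr Pool.Agent.Y715.T.Red Pool.Agent.Y715.T.Df
open Pool.Agent.Y715.T.Odd Pool.Agent.Y715.T.Thr Pool.Agent.Y715.T.Rec
open Pool.Agent.Y715.T.Clp Pool.Agent.Y715.T.Md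

/-! ### Factorisations -/

lemma la_lam : la = lam := rfl

section fac

variable {J : Type} [Fintype J] [DecidableEq J] {π : J → Ei}

/-- the factorisation of elements with support in `lam` and the `π j` -/
theorem fac (z : Ei) (hz : z ≠ 0)
    (hs : ∀ ρ : Ei, Prime ρ → ρ ∣ z → Associated ρ lam ∨ ∃ j, Associated ρ (π j)) :
    ∃ (u : Ei) (g : ℕ) (x : J → ℕ), IsUnit u ∧ z = u * lam ^ g * ∏ j, π j ^ x j := by
  induction z using UniqueFactorizationMonoid.induction_on_prime with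
  | h₁ => exact absurd rfl hz
  | h₂ u hu =>
    exact ⟨u, 0, fun _ => 0, hu, by simp⟩
  | h₃ a ρ ha hρ ih =>
    have ha0 : a ≠ 0 := ha
    obtain ⟨u, g, x, hu, e⟩ := ih ha0 (fun r hr hd => hs r hr (Dvd.dvd.mul_left hd _))
    rcases hs ρ hρ (dvd_mul_right _ _) with ⟨v, hv⟩ | ⟨j, v, hv⟩
    · have hv' : ρ = lam * ((v⁻¹ : Eiˣ) : Ei) := by
        rw [← hv, mul_assoc, Units.mul_inv, mul_one]
      refine ⟨((v⁻¹ : Eiˣ) : Ei) * u, g + 1, x, (Units.isUnit _).mul hu, ?_⟩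
      rw [e, hv']
      ring
    · have hv' : ρ = π j * ((v⁻¹ : Eiˣ) : Ei) := by
        rw [← hv, mul_assoc, Units.mul_inv, mul_one]
      refine ⟨((v⁻¹ : Eiˣ) : Ei) * u, g, fun i => x i + if i = j then 1 else 0,
        (Units.isUnit _).mul hu, ?_⟩
      have h1 : ∏ i, π i ^ (x i + if i = j then 1 else 0) = (∏ i, π i ^ x i) * π j := by
        simp only [pow_add, Finset.prod_mul_distrib]
        congr 1
        rw [Finset.prod_eq_single j]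
        · rw [if_pos rfl, pow_one]
        · intro b _ hb
          rw [if_neg hb, pow_zero]
        · intro h
          exact absurd (Finset.mem_univ j) h
      rw [e, hv', h1]
      ring

end fac

/-! ### Kummer characters -/

section kummer

variable {i₀ : QB} {hi : i₀ ^ 2 + i₀ + 1 = 0}

include hi in
lemma i₀_ne_one : i₀ ≠ 1 := by
  rintro rfl
  norm_num at hi

include hi in
lemma i₀_prim : IsPrimitiveRoot i₀ 3 := by
  rw [← orderOf_eq_prime (i₀_cube hi) (i₀_ne_one (hi := hi))]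
  exact IsPrimitiveRoot.orderOf i₀

include hi in
lemma i₀_mod (n : ℕ) : i₀ ^ n = i₀ ^ ((n : ZMod 3)).val := by
  rw [ZMod.val_natCast]
  conv_lhs => rw [← Nat.div_add_mod n 3]
  rw [pow_add, pow_mul, i₀_cube hi, one_pow, one_mul]

include hi in
lemma i₀_add (c d : ZMod 3) : i₀ ^ (c + d).val = i₀ ^ c.val * i₀ ^ d.val := by
  rw [← pow_add, i₀_mod (hi := hi) (c.val + d.val), ZMod.val_natCast, ZMod.val_add]

include hi in
lemma i₀_inj {c d : ZMod 3} (h : i₀ ^ c.val = i₀ ^ d.val) : c = d := by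
  have h1 := (i₀_prim (hi := hi)).pow_inj (ZMod.val_lt c) (ZMod.val_lt d) h
  exact ZMod.val_injective 3 h1

lemma ex_root (x : QB) : ∃ s : QB, s ^ 3 = x := IsAlgClosed.exists_pow_nat_eq x (by norm_num)

lemma root_ne {z : Ei} (hz : z ≠ 0) {s : QB} (hs : s ^ 3 = ev i₀ hi z) : s ≠ 0 := by
  rintro rfl
  exact ev_ne hi hz (by rw [← hs]; ring)

lemma kc_mul {z z' : Ei} {h h' : GK i₀ → ZMod 3} (hz0 : z ≠ 0) (hz0' : z' ≠ 0)
    (hz : Kc hi z h) (hz' : Kc hi z' h') : Kc hi (z * z') (fun σ => h σ + h' σ) := by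
  obtain ⟨s, hs⟩ := ex_root (ev i₀ hi z)
  obtain ⟨s', hs'⟩ := ex_root (ev i₀ hi z')
  refine kc_of hi (s := s * s') (mul_ne_zero (root_ne hz0 hs) (root_ne hz0' hs')) ?_ fun σ => ?_
  · rw [mul_pow, hs, hs', map_mul]
  · rw [map_mul, hz s hs σ, hz' s' hs' σ, i₀_add (hi := hi)]
    ring

lemma kc_one : Kc hi 1 (fun _ => 0) := by
  refine kc_of hi (s := 1) one_ne_zero ?_ fun σ => ?_
  · rw [map_one, one_pow]
  · rw [map_one, ZMod.val_zero, pow_zero, mul_one]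

lemma kc_congr {z : Ei} {h h' : GK i₀ → ZMod 3} (hz : Kc hi z h) (e : ∀ σ, h' σ = h σ) :
    Kc hi z h' := by
  have : h' = h := funext e
  rw [this]
  exact hz

lemma kc_pow {z : Ei} {h : GK i₀ → ZMod 3} (hz0 : z ≠ 0) (hz : Kc hi z h) (n : ℕ) :
    Kc hi (z ^ n) (fun σ => n * h σ) := by
  induction n with
  | zero =>
    rw [pow_zero]
    exact kc_congr kc_one fun σ => by rw [Nat.cast_zero, zero_mul]
  | succ n ih =>
    rw [pow_succ]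
    refine kc_congr (kc_mul (pow_ne_zero n hz0) hz0 ih hz) fun σ => ?_
    push_cast
    ring

lemma kc_cube {z : Ei} (hz0 : z ≠ 0) : Kc hi (z ^ 3) (fun _ => 0) := by
  refine kc_of hi (s := ev i₀ hi z) (ev_ne hi hz0) ?_ fun σ => ?_
  · rw [map_pow]
  · rw [gk_ev, ZMod.val_zero, pow_zero, one_mul]

lemma kc_uniq {z : Ei} {h h' : GK i₀ → ZMod 3} (hz0 : z ≠ 0) (hz : Kc hi z h) (hz' : Kc hi z h')
    (σ : GK i₀) : h σ = h' σ := by
  obtain ⟨s, hs⟩ := ex_root (ev i₀ hi z)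
  apply i₀_inj (hi := hi)
  exact mul_right_cancel₀ (root_ne hz0 hs) ((hz s hs σ).symm.trans (hz' s hs σ))

lemma kc_cancel {z z' : Ei} {h : GK i₀ → ZMod 3} (hz0 : z ≠ 0) (hz0' : z' ≠ 0)
    (hz : Kc hi (z * z' ^ 3) h) : Kc hi z h := by
  obtain ⟨s, hs⟩ := ex_root (ev i₀ hi z)
  refine kc_of hi (root_ne hz0 hs) hs fun σ => ?_
  have h1 := hz (s * ev i₀ hi z') (by rw [mul_pow, hs, map_mul, map_pow]) σ
  rw [map_mul, gk_ev] at h1
  exact mul_right_cancel₀ (ev_ne hi hz0') (by rw [h1]; ring)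

lemma kc_unit {z u : Ei} {h : GK i₀ → ZMod 3} (hz0 : z ≠ 0) (hu : u = 1 ∨ u = -1)
    (hz : Kc hi (u * z) h) : Kc hi z h := by
  have hu3 : u ^ 3 = u := by
    rcases hu with rfl | rfl
    · exact one_pow 3
    · ring
  have hu0 : u ≠ 0 := by
    rcases hu with rfl | rfl
    · exact one_ne_zero
    · exact neg_ne_zero.2 one_ne_zero
  refine kc_cancel hz0 hu0 ?_
  rw [hu3, mul_comm]
  exact hz

variable {J : Type} [Fintype J] [DecidableEq J] {π : J → Ei}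

/-- the character only depends on the exponents modulo three -/
lemma kc_exp (hπ : ∀ j, π j ≠ 0) {h : GK i₀ → ZMod 3} {x y : J → ℕ}
    (hxy : ∀ j, (x j : ZMod 3) = y j) (hz : Kc hi (∏ j, π j ^ x j) h) :
    Kc hi (∏ j, π j ^ y j) h := by
  have h0 : ∀ f : J → ℕ, ∏ j, π j ^ f j ≠ 0 := fun f =>
    Finset.prod_ne_zero_iff.2 fun j _ => pow_ne_zero _ (hπ j)
  have hd : ∀ j, 3 ∣ x j + 2 * y j := by
    intro j
    rw [← ZMod.natCast_eq_zero_iff]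
    push_cast
    rw [hxy j]
    generalize (y j : ZMod 3) = c
    revert c
    decide
  have h1 := kc_mul (h0 x) (pow_ne_zero 3 (h0 y)) hz (kc_cube (hi := hi) (h0 y))
  have e : (∏ j, π j ^ x j) * (∏ j, π j ^ y j) ^ 3 =
      (∏ j, π j ^ y j) * (∏ j, π j ^ ((x j + 2 * y j) / 3)) ^ 3 := by
    rw [← Finset.prod_pow, ← Finset.prod_pow, ← Finset.prod_mul_distrib,
      ← Finset.prod_mul_distrib]
    refine Finset.prod_congr rfl fun j _ => ?_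
    rw [← pow_mul, ← pow_mul, ← pow_add, ← pow_add, Nat.div_mul_cancel (hd j)]
    congr 1
    ring
  rw [e] at h1
  exact kc_congr (kc_cancel (h0 y) (h0 _) h1) fun σ => by rw [add_zero]

end kummer

/-! ### The data -/

variable {J : Type} [Fintype J] [DecidableEq J] {π : J → Ei} {e : J → ZMod 3}
variable {k : ℕ} {i₀ : QB}

/-- the character attached to the primes, weak form -/
structure Dat0 (k : ℕ) {i₀ : QB} (hi : i₀ ^ 2 + i₀ + 1 = 0) {J : Type} (π : J → Ei)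
    (a : GK i₀ → ZMod (3 ^ k)) : Prop where
  pr : ∀ j, Pr (π j)
  nd : ∀ i j, i ≠ j → ¬ π j ∣ π i
  mul : ∀ σ τ, a (σ * τ) = a σ + a τ
  cont : IsLocallyConstant a
  unr : ∀ (p : ℕ) [Fact p.Prime] (ι : QB →ₐ[ℚ] PadicAlgCl p),
    (∀ j, ¬ ‖ι (ev i₀ hi (π j))‖ < 1) → ∀ (τ : Au p) (σ : GK i₀), Cmp ι τ σ → Inert τ → a σ = 0

/-- the character attached to the primes -/
structure Dat (k : ℕ) {i₀ : QB} (hi : i₀ ^ 2 + i₀ + 1 = 0) {J : Type} (π : J → Ei)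
    (e : J → ZMod 3) (a : GK i₀ → ZMod (3 ^ k)) : Prop extends Dat0 k hi π a where
  ne : ∀ j, e j ≠ 0
  ram : ∀ (j : J) (p : ℕ) [Fact p.Prime] (ι : QB →ₐ[ℚ] PadicAlgCl p),
    ‖ι (ev i₀ hi (π j))‖ < 1 → ∃ (τ : Au p) (σ : GK i₀), Cmp ι τ σ ∧ Inert τ ∧ a σ = 1 ∧
      ∀ s : QB, s ^ 3 = ev i₀ hi (π j) → σ s = i₀ ^ (e j).val * s

variable {hi : i₀ ^ 2 + i₀ + 1 = 0} {a : GK i₀ → ZMod (3 ^ k)}

lemma Dat0.p0 (hD : Dat0 k hi π a) (j : J) : π j ≠ 0 := (hD.pr j).prime.ne_zero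

lemma Dat.esq (hD : Dat k hi π e a) (j : J) : e j * e j = 1 := by
  have h := hD.ne j
  generalize e j = c at *
  revert c
  decide

lemma iota_sq {p : ℕ} [Fact p.Prime] (hi : i₀ ^ 2 + i₀ + 1 = 0) (ι : QB →ₐ[ℚ] PadicAlgCl p) :
    (ι i₀) ^ 2 + ι i₀ + 1 = 0 := by
  rw [← map_pow, ← map_add, ← map_one ι, ← map_add, hi, map_zero]

lemma iota_ev {p : ℕ} [Fact p.Prime] (hi : i₀ ^ 2 + i₀ + 1 = 0) (ι : QB →ₐ[ℚ] PadicAlgCl p)
    (z : Ei) : ι (ev i₀ hi z) = ev (ι i₀) (iota_sq hi ι) z :=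
  map_ev ι.toRingHom hi (iota_sq hi ι) rfl z

lemma not_lam {ρ : Ei} (h : Pr ρ) : ¬ ρ ∣ lam := by
  intro h1
  apply three_ne h.prime h.norm
  have e : (3 : Ei) = -(lam * lam) := by
    have := lam_sq
    rw [pow_two] at this
    rw [this, neg_neg]
  rw [e]
  exact (dvd_neg).2 (Dvd.dvd.mul_right h1 _)

lemma at_three {ρ : Ei} (hρ : Pr ρ) (hi : i₀ ^ 2 + i₀ + 1 = 0) (ι : QB →ₐ[ℚ] PadicAlgCl 3) :
    ¬ ‖ι (ev i₀ hi ρ)‖ < 1 := by
  intro h
  rw [iota_ev] at h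
  exact not_lam hρ ((dvd_iff (iota_sq hi ι) hρ.prime h _).2 (lam_lt (iota_sq hi ι)))

/-- the places with residue characteristic prime to three -/
lemma odd_of {p : ℕ} [Fact p.Prime] (hi : i₀ ^ 2 + i₀ + 1 = 0) (ι : QB →ₐ[ℚ] PadicAlgCl p)
    {ρ : Ei} (hρ : Prime ρ) (hl : ‖ι (ev i₀ hi ρ)‖ < 1) (hn : ¬ Associated ρ lam) :
    p ≠ 3 := by
  rintro rfl
  rw [iota_ev] at hl
  have h1 := (dvd_iff (iota_sq hi ι) hρ hl lam).2 (lam_lt (iota_sq hi ι))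
  exact hn ((hρ.dvd_prime_iff_associated prime_lam).1 h1)

lemma not_assoc_lam {ρ : Ei} (h : Pr ρ) : ¬ Associated ρ lam :=
  fun h1 => not_lam h h1.dvd

lemma norm_three_one {p : ℕ} [Fact p.Prime] (hp : p ≠ 3) : ‖(3 : PadicAlgCl p)‖ = 1 := by
  have hpp : p.Prime := Fact.out
  have h : ¬ p ∣ 3 := fun h => hp ((Nat.prime_dvd_prime_iff_eq hpp Nat.prime_three).1 h)
  have := Pool.Agent.W327.RK.norm_nat h
  exact_mod_cast this

/-- unramified at the prime `ρ` -/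
lemma not_dvd_of_unr {h : GK i₀ → ZMod 3} {z : Ei} (hz : CF z) (hzh : Kc hi z h)
    {p : ℕ} [Fact p.Prime] (hp : p ≠ 3) (ι : QB →ₐ[ℚ] PadicAlgCl p) {ρ : Ei}
    (hρ : Prime ρ) (hl : ‖ι (ev i₀ hi ρ)‖ < 1)
    (hun : ∀ (τ : Au p) (σ : GK i₀), Cmp ι τ σ → Inert τ → h σ = 0) : ¬ ρ ∣ z := by
  obtain ⟨s, hs⟩ := ex_root (ev i₀ hi z)
  rw [iota_ev] at hl
  refine not_dvd_of_fix (iota_sq hi ι) hp hρ hl hz (s := ι s) ?_ ?_
  · rw [← map_pow, hs, iota_ev]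
  · intro τ hτ hτI
    obtain ⟨σ, hc⟩ := exists_cmp ι τ hτI
    rw [hc, hzh s hs σ, hun τ σ hc hτ, ZMod.val_zero, pow_zero, one_mul]

/-- cube roots of units -/
lemma fix_of_unit {p : ℕ} [Fact p.Prime] {I : PadicAlgCl p} (hI : I ^ 2 + I + 1 = 0)
    (hp : p ≠ 3) {z : Ei} {s : PadicAlgCl p} (hs : s ^ 3 = ev I hI z)
    (hz : ¬ ‖ev I hI z‖ < 1) {τ : Au p} (hτ : Inert τ) (hτI : τ I = I) : τ s = s := by
  have h1 := eq_one_of_not_lt hI hz
  have h2 : ‖s‖ = 1 := by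
    rw [← hs, norm_pow] at h1
    exact (pow_eq_one_iff_of_nonneg (norm_nonneg _) three_ne_zero).1 h1
  have h3 : (τ s) ^ 3 = s ^ 3 := by
    rw [← map_pow, hs, ev_fix hI hτI]
  obtain ⟨n, hn⟩ := cube_eq hI h3
  have h4 := hτ s h2.le
  have h5 : ‖I ^ n - 1‖ < 1 := by
    have e1 : τ s - s = (I ^ n - 1) * s := by rw [hn]; ring
    rwa [e1, norm_mul, h2, mul_one] at h4
  have hI3 : I ^ 3 = 1 := by linear_combination (I - 1) * hI
  have hIn := norm_I hI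
  have h6 : I ^ n = I ^ (n % 3) := by
    conv_lhs => rw [← Nat.div_add_mod n 3]
    rw [pow_add, pow_mul, hI3, one_pow, one_mul]
  have h7 : n % 3 = 0 ∨ n % 3 = 1 ∨ n % 3 = 2 := by omega
  rcases h7 with h7 | h7 | h7
  · rw [hn, h6, h7, pow_zero, one_mul]
  · exfalso
    rw [h6, h7, pow_one] at h5
    have e2 : (3 : PadicAlgCl p) = (I - 1) * (I ^ 2 - 1) := by
      linear_combination (2 - I) * hI
    have h8 : ‖(3 : PadicAlgCl p)‖ < 1 := by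
      rw [e2, norm_mul]
      have h9 : ‖I ^ 2 - 1‖ ≤ 1 := by
        refine sub_le ?_ (by rw [norm_one])
        rw [norm_pow, hIn, one_pow]
      calc ‖I - 1‖ * ‖I ^ 2 - 1‖ ≤ ‖I - 1‖ * 1 := by gcongr
        _ < 1 := by rwa [mul_one]
    rw [norm_three_one hp] at h8
    exact lt_irrefl _ h8
  · exfalso
    rw [h6, h7] at h5
    have e2 : (3 : PadicAlgCl p) = (I - 1) * (I ^ 2 - 1) := by
      linear_combination (2 - I) * hI
    have h8 : ‖(3 : PadicAlgCl p)‖ < 1 := by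
      rw [e2, norm_mul]
      have h9 : ‖I - 1‖ ≤ 1 := by
        refine sub_le ?_ (by rw [norm_one])
        rw [hIn]
      calc ‖I - 1‖ * ‖I ^ 2 - 1‖ ≤ 1 * ‖I ^ 2 - 1‖ := by gcongr
        _ < 1 := by rwa [one_mul]
    rw [norm_three_one hp] at h8
    exact lt_irrefl _ h8

/-- cubes in the completion -/
lemma resid {p : ℕ} [Fact p.Prime] {I : PadicAlgCl p} (hI : I ^ 2 + I + 1 = 0)
    (hp : p ≠ 3) {ρ : Ei} (hρ : Prime ρ) (hl : ‖ev I hI ρ‖ < 1) {x : Ei}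
    {y : PadicAlgCl p} (hy : y ^ 3 = ev I hI x) (hfix : ∀ τ : Au p, τ I = I → τ y = y) :
    ∃ y', ρ ∣ x - y' ^ 3 := by
  have hy1 : ‖y‖ ≤ 1 := by
    have h1 := ev_le hI x
    rw [← hy, norm_pow] at h1
    exact (pow_le_one_iff_of_nonneg (norm_nonneg _) three_ne_zero).1 h1
  obtain ⟨a, b, hab⟩ := residue hI (norm_three_one hp) hy1 hfix
  refine ⟨⟨a, b⟩, (dvd_iff hI hρ hl _).2 ?_⟩
  have h1 : ev I hI (⟨a, b⟩ : Ei) = a + b * I := ev_apply _ _ _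
  have h2 : ‖(a + b * I : PadicAlgCl p)‖ ≤ 1 := by
    rw [← h1]
    exact ev_le hI _
  rw [map_sub, map_pow, h1, ← hy]
  have e : y ^ 3 - (a + b * I) ^ 3 =
      (y - (a + b * I)) * (y ^ 2 + y * (a + b * I) + (a + b * I) ^ 2) := by ring
  rw [e, norm_mul]
  calc ‖y - (a + b * I)‖ * ‖y ^ 2 + y * (a + b * I) + (a + b * I) ^ 2‖ ≤
        ‖y - (a + b * I)‖ * 1 := by
        refine mul_le_mul_of_nonneg_left ?_ (norm_nonneg _)
        refine add_le (add_le ?_ (mul_le hy1 h2)) ?_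
        · rw [norm_pow]
          exact pow_le_one₀ (norm_nonneg _) hy1
        · rw [norm_pow]
          exact pow_le_one₀ (norm_nonneg _) h2
    _ < 1 := by rwa [mul_one]

/-- the symbol at a place where the character is trivial -/
lemma resid_kc {h : GK i₀ → ZMod 3} {z : Ei} (hzh : Kc hi z h)
    {p : ℕ} [Fact p.Prime] (hp : p ≠ 3) (ι : QB →ₐ[ℚ] PadicAlgCl p) {ρ : Ei}
    (hρ : Prime ρ) (hl : ‖ι (ev i₀ hi ρ)‖ < 1)
    (h0 : ∀ (τ : Au p) (σ : GK i₀), Cmp ι τ σ → h σ = 0) : ∃ y, ρ ∣ z - y ^ 3 := by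
  obtain ⟨s, hs⟩ := ex_root (ev i₀ hi z)
  rw [iota_ev] at hl
  refine resid (iota_sq hi ι) hp hρ hl (y := ι s) ?_ fun τ hτ => ?_
  · rw [← map_pow, hs, iota_ev]
  · obtain ⟨σ, hc⟩ := exists_cmp ι τ hτ
    rw [hc, hzh s hs σ, h0 τ σ hc, ZMod.val_zero, pow_zero, one_mul]

/-- the value on the inertia group -/
lemma ram_exp (hD : Dat0 k hi π a) {j : J} {h : GK i₀ → ZMod 3} {w : Ei} {x : ℕ}
    (hw : ¬ π j ∣ w) (hzh : Kc hi (w * π j ^ x) h) {p : ℕ} [Fact p.Prime]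
    (ι : QB →ₐ[ℚ] PadicAlgCl p) (hl : ‖ι (ev i₀ hi (π j))‖ < 1) {τ : Au p} {σ : GK i₀}
    (hc : Cmp ι τ σ) (hτ : Inert τ)
    {c : ZMod 3} (hs : ∀ s : QB, s ^ 3 = ev i₀ hi (π j) → σ s = i₀ ^ c.val * s) :
    h σ = x * c := by
  have hp3 := odd_of hi ι (hD.pr j).prime hl (not_assoc_lam (hD.pr j))
  rw [iota_ev] at hl
  have hw0 : w ≠ 0 := by
    rintro rfl
    exact hw (dvd_zero _)
  obtain ⟨r, hr⟩ := ex_root (ev i₀ hi w)
  obtain ⟨t, ht⟩ := ex_root (ev i₀ hi (π j))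
  have h1 : τ (ι r) = ι r := by
    refine fix_of_unit (iota_sq hi ι) hp3 (z := w) (by rw [← map_pow, hr, iota_ev]) ?_ hτ hc.fix
    rwa [← dvd_iff (iota_sq hi ι) (hD.pr j).prime hl]
  rw [hc] at h1
  have h2 : σ r = r := ι.injective h1
  have h3 := hzh (r * t ^ x) (by
    rw [mul_pow, hr, ← pow_mul, mul_comm x 3, pow_mul, ht, map_mul, map_pow]) σ
  rw [map_mul, h2, map_pow, hs t ht, mul_pow, ← pow_mul] at h3
  have h0 : r * t ^ x ≠ 0 := mul_ne_zero (root_ne hw0 hr)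
    (pow_ne_zero _ (root_ne (hD.p0 j) ht))
  have h4 : i₀ ^ (c.val * x) = i₀ ^ (h σ).val :=
    mul_right_cancel₀ h0 (by rw [← h3]; ring)
  rw [i₀_mod (hi := hi)] at h4
  have h5 := i₀_inj (hi := hi) h4
  rw [← h5]
  push_cast
  rw [ZMod.natCast_zmod_val]
  ring

/-- other primes are unramified -/
lemma unr_of (hD : Dat0 k hi π a) {p : ℕ} [Fact p.Prime] (ι : QB →ₐ[ℚ] PadicAlgCl p)
    {ρ : Ei} (hρ : Prime ρ) (hl : ‖ι (ev i₀ hi ρ)‖ < 1) (hn : ∀ j, ¬ Associated ρ (π j))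
    {τ : Au p} {σ : GK i₀} (hc : Cmp ι τ σ) (hτ : Inert τ) : a σ = 0 := by
  refine hD.unr p ι (fun j hj => hn j ?_) τ σ hc hτ
  rw [iota_ev] at hl hj
  exact (hρ.dvd_prime_iff_associated (hD.pr j).prime).1 ((dvd_iff (iota_sq hi ι) hρ hl _).2 hj)

lemma unr_three (hD : Dat0 k hi π a) (ι : QB →ₐ[ℚ] PadicAlgCl 3)
    {τ : Au 3} {σ : GK i₀} (hc : Cmp ι τ σ) (hτ : Inert τ) : a σ = 0 :=
  hD.unr 3 ι (fun j => at_three (hD.pr j) hi ι) τ σ hc hτ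

lemma exists_emb3 : Nonempty (QB →ₐ[ℚ] PadicAlgCl 3) :=
  ⟨IsAlgClosed.lift (R := ℚ) (S := QB) (M := AlgebraicClosure ℚ_[3])⟩

lemma not_dvd_prod (hD : Dat0 k hi π a) (j : J) (x : J → ℕ) :
    ¬ π j ∣ ∏ i ∈ Finset.univ.erase j, π i ^ x i := by
  rw [(hD.pr j).prime.dvd_finsetProd_iff]
  rintro ⟨i, hij, hd⟩
  exact hD.nd i j (Finset.ne_of_mem_erase hij)
    ((hD.pr j).prime.dvd_of_dvd_pow hd)

lemma not_dvd_unit (hD : Dat0 k hi π a) (j : J) {u : Ei} (hu : IsUnit u) (g : ℕ) :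
    ¬ π j ∣ u * lam ^ g := by
  intro h
  rcases (hD.pr j).prime.dvd_or_dvd h with h | h
  · exact (hD.pr j).prime.not_isUnit (isUnit_of_dvd_unit h hu)
  · exact not_lam (hD.pr j) ((hD.pr j).prime.dvd_of_dvd_pow h)

lemma prod_form (hD : Dat0 k hi π a) (x : J → ℕ) : ∃ q : Ei, ∏ j, π j ^ x j = 1 + 3 * q := by
  have h1 : ∀ S : Finset J, (3 : Ei) ∣ ∏ j ∈ S, π j ^ x j - 1 := by
    intro S
    induction S using Finset.induction_on with
    | empty => simp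
    | insert i S his ih =>
      rw [Finset.prod_insert his]
      have h2 : (3 : Ei) ∣ π i ^ x i - 1 := by
        have h3 : (3 : Ei) ∣ π i - 1 := dvd_trans three_dvd_la (hD.pr i).three
        have h4 := sub_dvd_pow_sub_pow (π i) 1 (x i)
        rw [one_pow] at h4
        exact dvd_trans h3 h4
      have e1 : π i ^ x i * ∏ j ∈ S, π j ^ x j - 1 =
          (π i ^ x i - 1) * ∏ j ∈ S, π j ^ x j + (∏ j ∈ S, π j ^ x j - 1) := by ring
      rw [e1]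
      exact dvd_add (Dvd.dvd.mul_right h2 _) ih
  obtain ⟨q, hq⟩ := h1 Finset.univ
  exact ⟨q, by rw [← hq]; ring⟩

/-- the condition at the prime above three -/
lemma loc_three (hk : k ≠ 0) (hk3 : 2 ≤ k) (hD : Dat0 k hi π a) (ι : QB →ₐ[ℚ] PadicAlgCl 3)
    {h : GK i₀ → ZMod 3} {z : Ei} (hz0 : z ≠ 0) (hzh : Kc hi z h)
    (hcase : (∀ (τ : Au 3) (σ : GK i₀), Cmp ι τ σ → h σ = 0) ∨
      ((∃ R ∈ MM (iota_sq hi ι) k, Star ι a h R) ∧
        ∃ (τ : Au 3) (σ : GK i₀), Cmp ι τ σ ∧ par hk (a σ) ≠ 0)) :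
    ∃ v ∈ Lf (ι i₀), ∃ t ∈ Lf (ι i₀), ‖t‖ ≤ 1 ∧ v ^ 3 * (1 + 3 * t) =
      ev (ι i₀) (iota_sq hi ι) z := by
  rcases hcase with h0 | ⟨⟨R, hR, hS⟩, τ₀, σ₀, hc₀, ha₀⟩
  · obtain ⟨s, hs⟩ := ex_root (ev i₀ hi z)
    refine ⟨ι s, ?_, 0, zero_mem _, by rw [norm_zero]; exact zero_le_one, ?_⟩
    · intro τ _ hτI
      obtain ⟨σ, hc⟩ := exists_cmp ι τ hτI
      rw [hc, hzh s hs σ, h0 τ σ hc, ZMod.val_zero, pow_zero, one_mul]
    · rw [mul_zero, add_zero, mul_one, ← map_pow, hs, iota_ev]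
  · exact thr hk hk3 hi (iota_sq hi ι) hR hS (fun τ σ hc hτ => unr_three hD ι hc hτ) hc₀ ha₀
      hz0 hzh

end Pool.Agent.Y715.T.Sel
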