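import Mathlib
import Pool.Agent.Y715.T.Sel

/-!
# The Selmer group
-/

set_option autoImplicit false
set_option linter.unusedSectionVars false

namespace Pool.Agent.Y715.T.Sel

open Pool.Agent.Y692.QS
open Pool.Agent.Y715.T.Gi Pool.Agent.Y715.T.Nr Pool.Agent.Y715.T.Red Pool.Agent.Y715.T.Df
open Pool.Agent.Y715.T.Odd Pool.Agent.Y715.T.Thr Pool.Agent.Y715.T.Rec
open Pool.Agent.Y715.T.Clp Pool.Agent.Y715.T.Md

variable {J : Type} [Fintype J] [DecidableEq J] {π : J → Ei} {e : J → ZMod 3}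
variable {k : ℕ} {i₀ : QB} {hi : i₀ ^ 2 + i₀ + 1 = 0} {a : GK i₀ → ZMod (3 ^ k)}

/-- the local point of the constant cocycle -/
lemma star_PT (hk : k ≠ 0) (ι : QB →ₐ[ℚ] PadicAlgCl 3) (c : ZMod 3) :
    Star ι a (fun σ => c * par hk (a σ)) (PT (PadicAlgCl 3) hk (-c)) := by
  intro τ σ _ j
  have h4 : pm (lh τ) (PT (PadicAlgCl 3) hk (-c) (j - a σ)) =
      PT (PadicAlgCl 3) hk (-c) (j - a σ) := pm_tt _ _
  rw [h4, PT_sub, tt_neg]
  congr 1
  ring

/-- the support of the Kummer generator at three -/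
lemma no_lam (hk : k ≠ 0) (hk3 : 2 ≤ k) (hD : Dat0 k hi π a) (ι : QB →ₐ[ℚ] PadicAlgCl 3)
    {h : GK i₀ → ZMod 3} {u : Ei} {g : ℕ} {x : J → ℕ} (hu : IsUnit u)
    (hzh : Kc hi (u * lam ^ g * ∏ j, π j ^ x j) h)
    (hcase : (∀ (τ : Au 3) (σ : GK i₀), Cmp ι τ σ → h σ = 0) ∨
      ((∃ R ∈ MM (iota_sq hi ι) k, Star ι a h R) ∧
        ∃ (τ : Au 3) (σ : GK i₀), Cmp ι τ σ ∧ par hk (a σ) ≠ 0)) :
    Kc hi (∏ j, π j ^ x j) h := by
  have h0 : ∏ j, π j ^ x j ≠ 0 :=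
    Finset.prod_ne_zero_iff.2 fun j _ => pow_ne_zero _ (hD.p0 j)
  have hl0 : lam ^ g ≠ 0 := pow_ne_zero _ prime_lam.ne_zero
  obtain ⟨q, hq⟩ := prod_form hD x
  obtain ⟨v, hv, t, ht, ht1, hvt⟩ := loc_three hk hk3 hD ι
    (mul_ne_zero (mul_ne_zero hu.ne_zero hl0) h0) hzh hcase
  rw [hq] at hvt
  obtain ⟨⟨g', hg'⟩, hu1⟩ := gen (iota_sq hi ι) hu hv ht1 ht hvt
  refine kc_unit h0 hu1 (kc_cancel (z' := lam ^ g') ?_ (pow_ne_zero _ prime_lam.ne_zero) ?_)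
  · exact mul_ne_zero hu.ne_zero h0
  · have e1 : u * (∏ j, π j ^ x j) * (lam ^ g') ^ 3 = u * lam ^ g * ∏ j, π j ^ x j := by
      rw [hg', ← pow_mul, mul_comm g' 3]
      ring
    rw [e1]
    exact hzh

/-- the exponents from the inertia groups -/
lemma exp_at (hD : Dat0 k hi π a) {h : GK i₀ → ZMod 3} {u : Ei} {g : ℕ} {x : J → ℕ}
    (hu : IsUnit u) (hzh : Kc hi (u * lam ^ g * ∏ j, π j ^ x j) h) (j : J) {p : ℕ}
    [Fact p.Prime] (ι : QB →ₐ[ℚ] PadicAlgCl p) (hl : ‖ι (ev i₀ hi (π j))‖ < 1) {τ : Au p}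
    {σ : GK i₀} (hc : Cmp ι τ σ) (hτ : Inert τ)
    {c : ZMod 3} (hs : ∀ s : QB, s ^ 3 = ev i₀ hi (π j) → σ s = i₀ ^ c.val * s) :
    h σ = x j * c := by
  refine ram_exp hD (w := u * lam ^ g * ∏ i ∈ Finset.univ.erase j, π i ^ x i) ?_ ?_ ι hl hc hτ hs
  · intro h1
    rcases (hD.pr j).prime.dvd_or_dvd h1 with h2 | h2
    · exact not_dvd_unit hD j hu g h2
    · exact not_dvd_prod hD j x h2
  · have e1 : u * lam ^ g * (∏ i ∈ Finset.univ.erase j, π i ^ x i) * π j ^ x j =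
        u * lam ^ g * ∏ j, π j ^ x j := by
      rw [← Finset.mul_prod_erase Finset.univ (fun i => π i ^ x i) (Finset.mem_univ j)]
      ring
    rw [e1]
    exact hzh

/-- the support -/
lemma support (hD : Dat0 k hi π a) {h : GK i₀ → ZMod 3} {z : Ei} (hz : CF z) (hzh : Kc hi z h)
    (hun : ∀ (p : ℕ) [Fact p.Prime] (ι : QB →ₐ[ℚ] PadicAlgCl p), p ≠ 3 →
      ∀ (τ : Au p) (σ : GK i₀), Cmp ι τ σ → Inert τ → a σ = 0 → h σ = 0) (ρ : Ei)
    (hρ : Prime ρ) (hd : ρ ∣ z) : Associated ρ lam ∨ ∃ j, Associated ρ (π j) := by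
  by_contra hcon
  push Not at hcon
  obtain ⟨p, hp, ι, hl⟩ := exists_emb hi hρ
  have hp3 := odd_of hi ι hρ hl hcon.1
  exact not_dvd_of_unr hz hzh hp3 ι hρ hl (fun τ σ hc hτ =>
    hun p ι hp3 τ σ hc hτ (unr_of hD ι hρ hl hcon.2 hc hτ)) hd

/-- **The cubic character `a` modulo three.** -/
theorem char_a (hk : k ≠ 0) (hk3 : 2 ≤ k) (hD : Dat k hi π e a) :
    Kc hi (∏ j, π j ^ (e j).val) (fun σ => par hk (a σ)) := by
  obtain ⟨z, hz, hzh⟩ := kum hi (fun σ => par hk (a σ)) (hD.cont.comp (par hk))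
    (fun σ τ => by rw [hD.mul, map_add])
  obtain ⟨u, g, x, hu, ez⟩ := fac (π := π) z hz.1 (support hD.toDat0 hz hzh
    (fun p _ ι _ τ σ _ _ h0 => by rw [h0, map_zero]))
  rw [ez] at hzh
  have hx : ∀ j, (x j : ZMod 3) = ((e j).val : ℕ) := by
    intro j
    obtain ⟨p, hp, ι, hl⟩ := exists_emb hi (hD.pr j).prime
    obtain ⟨τ, σ, hc, hτ, haσ, hs⟩ := hD.ram j p ι hl
    have h1 := exp_at hD.toDat0 hu hzh j ι hl hc hτ hs
    have h1' : par hk (a σ) = x j * e j := h1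
    rw [haσ, map_one] at h1'
    have h2 := hD.esq j
    rw [ZMod.natCast_zmod_val]
    calc (x j : ZMod 3) = (x j * e j) * e j := by rw [mul_assoc, h2, mul_one]
      _ = e j := by rw [← h1', one_mul]
  obtain ⟨ι⟩ := exists_emb3
  have hcase : (∀ (τ : Au 3) (σ : GK i₀), Cmp ι τ σ → par hk (a σ) = 0) ∨
      ((∃ R ∈ MM (iota_sq hi ι) k, Star ι a (fun σ => par hk (a σ)) R) ∧
        ∃ (τ : Au 3) (σ : GK i₀), Cmp ι τ σ ∧ par hk (a σ) ≠ 0) := by
    by_cases h0 : ∀ (τ : Au 3) (σ : GK i₀), Cmp ι τ σ → par hk (a σ) = 0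
    · exact Or.inl h0
    · right
      push Not at h0
      obtain ⟨τ, σ, h1, h2⟩ := h0
      refine ⟨⟨PT _ hk (-1), PT_mem hk hk3 _ _, ?_⟩, τ, σ, h1, h2⟩
      have h3 := star_PT (a := a) hk ι 1
      simpa only [one_mul] using h3
  exact kc_exp hD.p0 hx (no_lam hk hk3 hD.toDat0 ι hu hzh hcase)

/-- a Frobenius element at `1 + 2 ω` -/
lemma exists_frob (hk : k ≠ 0) (hk3 : 2 ≤ k) (hD : Dat k hi π e a)
    (hodd : ¬ (9 : Ei) ∣ ∏ j, π j ^ (e j).val - 1) (ι : QB →ₐ[ℚ] PadicAlgCl 3) :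
    ∃ (τ : Au 3) (σ : GK i₀), Cmp ι τ σ ∧ par hk (a σ) ≠ 0 := by
  have hform : (3 * lam) ∣ ∏ j, π j ^ (e j).val - 1 := by
    have h1 : ∀ S : Finset J, (3 * lam) ∣ ∏ j ∈ S, π j ^ (e j).val - 1 := by
      intro S
      induction S using Finset.induction_on with
      | empty => simp
      | insert i S his ih =>
        rw [Finset.prod_insert his]
        have h2 : (3 * lam) ∣ π i ^ (e i).val - 1 := by
          have h3 : (3 * lam) ∣ π i - 1 := (hD.pr i).three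
          have h4 := sub_dvd_pow_sub_pow (π i) 1 (e i).val
          rw [one_pow] at h4
          exact dvd_trans h3 h4
        have e1 : π i ^ (e i).val * ∏ j ∈ S, π j ^ (e j).val - 1 =
            (π i ^ (e i).val - 1) * ∏ j ∈ S, π j ^ (e j).val +
              (∏ j ∈ S, π j ^ (e j).val - 1) := by ring
        rw [e1]
        exact dvd_add (Dvd.dvd.mul_right h2 _) ih
    exact h1 Finset.univ
  obtain ⟨T, hT⟩ := hform
  have hT1 : ∏ j, π j ^ (e j).val = 1 + 3 * lam * T := by rw [← hT]; ring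
  have h2 : ¬ lam ∣ T := by
    rintro ⟨T', rfl⟩
    apply hodd
    refine ⟨-T', ?_⟩
    rw [hT]
    have := lam_sq
    calc 3 * lam * (lam * T') = 3 * lam ^ 2 * T' := by ring
      _ = 9 * -T' := by rw [this]; ring
  obtain ⟨s, hs⟩ := ex_root (ev i₀ hi (∏ j, π j ^ (e j).val))
  obtain ⟨τ, hτ, hτs⟩ := not_split (iota_sq hi ι) hT1 (s := ι s)
    (by rw [← map_pow, hs, iota_ev]) h2
  obtain ⟨σ, hc⟩ := exists_cmp ι τ hτ
  refine ⟨τ, σ, hc, fun h3 => hτs ?_⟩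
  have h4 : σ s = i₀ ^ (par hk (a σ)).val * s := char_a hk hk3 hD s hs σ
  rw [hc, h4, h3, ZMod.val_zero, pow_zero, one_mul]

/-- the symbols -/
noncomputable def aij (π : J → Ei) (e : J → ZMod 3) (i j : J) : ZMod 3 := e i * cs (π j) (π i)

/-- **The Selmer group.** -/
theorem sel (hk : k ≠ 0) (hk3 : 2 ≤ k) (hD : Dat k hi π e a)
    (hker : ∀ v : J → ZMod 3, (∀ j, ∑ i, aij π e i j * (v i - v j) = 0) → ∀ i j, v i = v j)
    (hodd : ¬ (9 : Ei) ∣ ∏ j, π j ^ (e j).val - 1)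
    (h : GK i₀ → ZMod 3) (hc : IsLocallyConstant h)
    (hm : ∀ σ τ, h (σ * τ) = h σ + h τ)
    (hloc : ∀ (p : ℕ) [Fact p.Prime] (ι : QB →ₐ[ℚ] PadicAlgCl p),
      ∃ R ∈ MM (iota_sq hi ι) k, Star ι a h R) :
    ∃ c : ZMod 3, ∀ σ, h σ = c * par hk (a σ) := by
  obtain ⟨z, hz, hzh⟩ := kum hi h hc hm
  obtain ⟨u, g, x, hu, ez⟩ := fac (π := π) z hz.1 (support hD.toDat0 hz hzh
    (fun p _ ι hp3 τ σ hcc hτ h0 => by
      obtain ⟨R, -, hS⟩ := hloc p ι
      exact good (norm_three_one hp3) hS hcc hτ h0))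
  rw [ez] at hzh
  obtain ⟨ι⟩ := exists_emb3
  have hx := no_lam hk hk3 hD.toDat0 ι hu hzh (Or.inr ⟨hloc 3 ι, exists_frob hk hk3 hD hodd ι⟩)
  have ha := char_a hk hk3 hD
  have h0 : ∀ f : J → ℕ, ∏ j, π j ^ f j ≠ 0 := fun f =>
    Finset.prod_ne_zero_iff.2 fun j _ => pow_ne_zero _ (hD.p0 j)
  set v : J → ZMod 3 := fun j => x j * e j with hv
  have hxv : ∀ j, (x j : ZMod 3) = e j * v j := by
    intro j
    have := hD.esq j
    calc (x j : ZMod 3) = x j * (e j * e j) := by rw [this, mul_one]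
      _ = _ := by rw [hv]; ring
  have heq : ∀ j, ∑ i, aij π e i j * (v i - v j) = 0 := by
    intro j
    obtain ⟨p, hp, ι, hl⟩ := exists_emb hi (hD.pr j).prime
    have hp3 := odd_of hi ι (hD.pr j).prime hl (not_assoc_lam (hD.pr j))
    obtain ⟨R, hR, hS⟩ := hloc p ι
    obtain ⟨τ₁, σ₁, hc₁, hτ₁, ha₁, hs₁⟩ := hD.ram j p ι hl
    obtain ⟨ε, hε⟩ := ram (norm_three_one hp3) hk hk3 (iota_sq hi ι) hR hS hc₁ hτ₁ ha₁
    have hεv : ε = v j := by
      have h1 := hε τ₁ σ₁ hc₁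
      rw [ha₁, map_one, mul_one, exp_at hD.toDat0 hu hzh j ι hl hc₁ hτ₁ hs₁] at h1
      exact h1.symm
    -- the character that is trivial at `π j`
    set n : ℕ := (-v j).val with hn
    have hn3 : (n : ZMod 3) = -v j := ZMod.natCast_zmod_val _
    have hy := kc_mul (h0 x) (pow_ne_zero n (h0 _)) hx (kc_pow (h0 _) ha n)
    have hy1 : ∀ (τ : Au p) (σ : GK i₀), Cmp ι τ σ → h σ + n * par hk (a σ) = 0 := by
      intro τ σ hcc
      rw [hε τ σ hcc, hεv, hn3]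
      ring
    set y : J → ℕ := fun i => x i + (e i).val * n with hydef
    have ey : (∏ i, π i ^ x i) * (∏ i, π i ^ (e i).val) ^ n = ∏ i, π i ^ y i := by
      rw [← Finset.prod_pow, ← Finset.prod_mul_distrib]
      refine Finset.prod_congr rfl fun i _ => ?_
      rw [← pow_mul, ← pow_add]
    rw [ey] at hy
    have hycast : ∀ i, (y i : ZMod 3) = e i * (v i - v j) := by
      intro i
      rw [hydef]
      push_cast
      rw [hn3, hxv i, ZMod.natCast_zmod_val]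
      ring
    obtain ⟨l, hl3⟩ : 3 ∣ y j := by
      rw [← ZMod.natCast_eq_zero_iff, hycast j, sub_self, mul_zero]
    have hW0 : ∏ i ∈ Finset.univ.erase j, π i ^ y i ≠ 0 :=
      Finset.prod_ne_zero_iff.2 fun i _ => pow_ne_zero _ (hD.p0 i)
    have hW : Kc hi (∏ i ∈ Finset.univ.erase j, π i ^ y i)
        (fun σ => h σ + n * par hk (a σ)) := by
      refine kc_cancel (z' := π j ^ l) hW0 (pow_ne_zero _ (hD.p0 j)) ?_
      have e1 : (∏ i ∈ Finset.univ.erase j, π i ^ y i) * (π j ^ l) ^ 3 = ∏ i, π i ^ y i := by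
        rw [← Finset.mul_prod_erase Finset.univ (fun i => π i ^ y i) (Finset.mem_univ j),
          ← pow_mul, mul_comm l 3, ← hl3]
        ring
      rw [e1]
      exact hy
    have hcube := resid_kc hW hp3 ι (hD.pr j).prime hl hy1
    have hnd := not_dvd_prod hD.toDat0 j y
    have h9 := (hD.pr j).norm
    have hpj := (hD.pr j).prime
    have hcs := (cs_zero_iff hpj h9 hnd).2 hcube
    have hnd1 : ∀ i ∈ Finset.univ.erase j, ¬ π j ∣ π i := fun i hij =>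
      hD.nd i j (Finset.ne_of_mem_erase hij)
    rw [cs_prod hpj h9 _ _ (fun i hij h1 => hnd1 i hij (hpj.dvd_of_dvd_pow h1))] at hcs
    rw [← Finset.add_sum_erase Finset.univ _ (Finset.mem_univ j), sub_self, mul_zero, zero_add,
      ← hcs]
    refine Finset.sum_congr rfl fun i hij => ?_
    rw [cs_pow hpj h9 (hnd1 i hij), hycast i]
    unfold aij
    ring
  have hconst := hker v heq
  -- conclusion
  rcases isEmpty_or_nonempty J with hJ | ⟨⟨j₀⟩⟩
  · refine ⟨0, fun σ => ?_⟩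
    rw [zero_mul]
    rw [Finset.univ_eq_empty, Finset.prod_empty] at hx
    exact kc_uniq one_ne_zero hx kc_one σ
  · refine ⟨v j₀, fun σ => ?_⟩
    have h1 : Kc hi (∏ j, π j ^ ((e j).val * (v j₀).val)) h := by
      refine kc_exp hD.p0 (fun j => ?_) hx
      rw [hxv j, hconst j j₀]
      push_cast
      rw [ZMod.natCast_zmod_val, ZMod.natCast_zmod_val]
    have h2 := kc_pow (h0 _) ha (v j₀).val
    have e1 : (∏ i, π i ^ (e i).val) ^ (v j₀).val = ∏ j, π j ^ ((e j).val * (v j₀).val) := by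
      rw [← Finset.prod_pow]
      refine Finset.prod_congr rfl fun i _ => ?_
      rw [← pow_mul]
    rw [e1] at h2
    have h3 := kc_uniq (h0 _) h1 h2 σ
    rw [h3, ZMod.natCast_zmod_val]

end Pool.Agent.Y715.T.Sel
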