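import Mathlib
import Pool.Agent.Y715.T.Sel2

/-!
# The Tate-Shafarevich group and the group of points
-/

set_option autoImplicit false
set_option linter.unusedSectionVars false

namespace Pool.Agent.Y715.T.Ar

open WeierstrassCurve
open Pool.Agent.Y692.QS
open Pool.Agent.Y715.T.Gi Pool.Agent.Y715.T.Nr Pool.Agent.Y715.T.Df Pool.Agent.Y715.T.Ell
open Pool.Agent.Y715.T.Odd Pool.Agent.Y715.T.Sel Pool.Agent.Y715.T.Md

open scoped Classical

variable {k : ℕ} {i₀ : QB}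

/-- the twisted action of the absolute Galois group of `ℚ(i)` -/
noncomputable def act (a : GK i₀ → ZMod (3 ^ k)) (σ : GK i₀) :
    (ZMod (3 ^ k) → Pt QB) →+ (ZMod (3 ^ k) → Pt QB) := tw (gh σ) (a σ)

lemma act_apply (a : GK i₀ → ZMod (3 ^ k)) (σ : GK i₀) (P : ZMod (3 ^ k) → Pt QB)
    (j : ZMod (3 ^ k)) : act a σ P j = pm (gh σ) (P (j - a σ)) := rfl

/-- the points over `ℚ(i)` -/
noncomputable def AK (hi : i₀ ^ 2 + i₀ + 1 = 0) (a : GK i₀ → ZMod (3 ^ k)) :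
    AddSubgroup (ZMod (3 ^ k) → Pt QB) where
  carrier := {P | P ∈ MM hi k ∧ ∀ σ, act a σ P = P}
  zero_mem' := ⟨zero_mem _, fun σ => map_zero _⟩
  add_mem' := fun h h' => ⟨add_mem h.1 h'.1, fun σ => by rw [map_add, h.2, h'.2]⟩
  neg_mem' := fun h => ⟨neg_mem h.1, fun σ => by rw [map_neg, h.2]⟩

/-- continuous cocycles -/
def Coc (hi : i₀ ^ 2 + i₀ + 1 = 0) (a : GK i₀ → ZMod (3 ^ k)) (f : GK i₀ → ZMod (3 ^ k) → Pt QB) : Prop :=
  IsLocallyConstant f ∧ (∀ σ, f σ ∈ MM hi k) ∧ ∀ σ τ, f (σ * τ) = f σ + act a σ (f τ)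

/-- coboundaries -/
def Cob (hi : i₀ ^ 2 + i₀ + 1 = 0) (a : GK i₀ → ZMod (3 ^ k)) (f : GK i₀ → ZMod (3 ^ k) → Pt QB) : Prop :=
  ∃ P ∈ MM hi k, ∀ σ, f σ = act a σ P - P

/-- locally trivial -/
def LocT (hi : i₀ ^ 2 + i₀ + 1 = 0) (a : GK i₀ → ZMod (3 ^ k)) (f : GK i₀ → ZMod (3 ^ k) → Pt QB) :
    Prop :=
  ∀ (p : ℕ) [Fact p.Prime] (ι : QB →ₐ[ℚ] PadicAlgCl p), ∃ R ∈ MM (iota_sq hi ι) k,
    ∀ (τ : Au p) (σ : GK i₀), Cmp ι τ σ → tw ι 0 (f σ) = tw (lh τ) (a σ) R - R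

variable {J : Type} [Fintype J] [DecidableEq J] {π : J → Ei} {e : J → ZMod 3}
variable {hi : i₀ ^ 2 + i₀ + 1 = 0} {a : GK i₀ → ZMod (3 ^ k)}

lemma a_one (hD : Dat k hi π e a) : a 1 = 0 := by
  have h := hD.mul 1 1
  rw [mul_one] at h
  exact (left_eq_add.1 h)

lemma act_mul (hD : Dat k hi π e a) (σ τ : GK i₀) (P : ZMod (3 ^ k) → Pt QB) :
    act a (σ * τ) P = act a σ (act a τ P) := by
  unfold act
  rw [tw_tw, hD.mul, gh_mul]

lemma act_mem (σ : GK i₀) {P : ZMod (3 ^ k) → Pt QB} (hP : P ∈ MM hi k) : act a σ P ∈ MM hi k :=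
  tw_mem _ _ hi hi (gk_fix σ) hP

lemma act_dl (σ : GK i₀) (P : ZMod (3 ^ k) → Pt QB) : act a σ (dl _ k P) = dl _ k (act a σ P) :=
  tw_dl _ _ _

lemma dl_mem {F : Type} [Field F] [Algebra ℚ F] [CharZero F] {I : F} {hI : I ^ 2 + I + 1 = 0}
    {P : ZMod (3 ^ k) → Pt F} (hP : P ∈ MM hI k) : dl _ k P ∈ MM hI k := by
  intro j
  rw [dl_apply, dl_apply, map_sub, ← hP j, ← hP (j - 1)]
  congr 2
  ring

/-- the vector of multiples of `T` -/
noncomputable def ct (F : Type) [Field F] [Algebra ℚ F] [CharZero F] (k : ℕ) (c : ZMod 3) :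
    ZMod (3 ^ k) → Pt F := fun _ => tt F c

lemma act_ct (σ : GK i₀) (c : ZMod 3) : act a σ (ct QB k c) = ct QB k c := by
  ext j
  exact pm_tt _ _

lemma ct_add (c d : ZMod 3) : ct QB k (c + d) = ct QB k c + ct QB k d := by
  ext j
  exact tt_add _ _

/-- cocycles with values in the kernel of `1 - Z` -/
theorem step (hk : k ≠ 0) (hk3 : 2 ≤ k) (hD : Dat k hi π e a)
    (hker : ∀ v : J → ZMod 3, (∀ j, ∑ i, aij π e i j * (v i - v j) = 0) → ∀ i j, v i = v j)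
    (hodd : ¬ (9 : Ei) ∣ ∏ j, π j ^ (e j).val - 1) {f : GK i₀ → ZMod (3 ^ k) → Pt QB} (hf : Coc hi a f)
    (hl : LocT hi a f) (h0 : ∀ σ, dl _ k (f σ) = 0) :
    ∃ e : ZMod 3, ∀ σ, f σ = act a σ (PT QB hk e) - PT QB hk e := by
  have hex : ∀ σ, ∃ c : ZMod 3, f σ = ct QB k c := by
    intro σ
    obtain ⟨c, hc⟩ := dl_ker hi (hf.2.1 σ) (h0 σ)
    exact ⟨c, funext hc⟩
  choose h hh using hex
  have hinj : ∀ c d : ZMod 3, ct QB k c = ct QB k d → c = d := fun c d h => tt_inj (congrFun h 0)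
  have hcont : IsLocallyConstant h := by
    have e : h = (fun P : ZMod (3 ^ k) → Pt QB =>
        if hx : ∃ c : ZMod 3, P = ct QB k c then hx.choose else 0) ∘ f := by
      ext1 σ
      show h σ = if hx : ∃ c : ZMod 3, f σ = ct QB k c then hx.choose else 0
      have hx : ∃ c : ZMod 3, f σ = ct QB k c := ⟨h σ, hh σ⟩
      rw [dif_pos hx]
      exact hinj _ _ ((hh σ).symm.trans hx.choose_spec)
    rw [e]
    exact hf.1.comp _
  have hmul : ∀ σ τ, h (σ * τ) = h σ + h τ := by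
    intro σ τ
    apply hinj
    rw [← hh, hf.2.2, hh σ, hh τ, act_ct, ct_add]
  obtain ⟨e, he⟩ := sel hk hk3 hD hker hodd h hcont hmul (by
    intro p _ ι
    obtain ⟨R, hR, hRl⟩ := hl p ι
    refine ⟨R, hR, fun τ σ hc j => ?_⟩
    have h1 := congrFun (hRl τ σ hc) j
    have h2 : tw ι 0 (f σ) j = tt (PadicAlgCl p) (h σ) := by
      rw [hh σ]
      exact pm_tt _ _
    rw [h2] at h1
    exact h1.symm)
  refine ⟨-e, fun σ => ?_⟩
  ext1 j
  have h1 : f σ j = tt QB (h σ) := congrFun (hh σ) j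
  have h2 : act a σ (PT QB hk (-e)) j = PT QB hk (-e) (j - a σ) := pm_tt _ _
  rw [h1, he, Pi.sub_apply, h2, PT_sub, tt_neg]
  congr 1
  ring

/-- the map on the modules given by an embedding -/
lemma iota_act {p : ℕ} [Fact p.Prime] {ι : QB →ₐ[ℚ] PadicAlgCl p} {τ : Au p} {σ : GK i₀}
    (hc : Cmp ι τ σ) (P : ZMod (3 ^ k) → Pt QB) :
    tw ι 0 (act a σ P) = tw (lh τ) (a σ) (tw ι 0 P) := by
  unfold act
  have h : ι.comp (gh σ) = (lh τ).comp ι := AlgHom.ext fun x => (hc x).symm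
  rw [tw_tw, tw_tw, zero_add, add_zero, h]

lemma cob_loc {P : ZMod (3 ^ k) → Pt QB} (hP : P ∈ MM hi k) :
    LocT hi a (fun σ => act a σ P - P) := by
  intro p _ ι
  refine ⟨tw ι 0 P, tw_mem _ _ hi (iota_sq hi ι) rfl hP, fun τ σ hc => ?_⟩
  rw [map_sub, iota_act hc]

/-- the action is locally constant -/
lemma act_cont (hD : Dat k hi π e a) (P : ZMod (3 ^ k) → Pt QB) :
    IsLocallyConstant (fun σ : GK i₀ => act a σ P) := by
  rw [IsLocallyConstant.iff_exists_open]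
  intro σ
  -- the coordinates
  let xs : Set QB := {x | ∃ j, ∃ (x' y' : QB) (h : (W0.baseChange QB).toAffine.Nonsingular x' y'),
    P j = .some x' y' h ∧ (x = x' ∨ x = y')}
  have hfin : xs.Finite := by
    have h1 : xs ⊆ Set.range (fun q : ZMod (3 ^ k) × Bool => match P q.1 with
      | 0 => (0 : QB)
      | .some x' y' _ => if q.2 then x' else y') := by
      rintro x ⟨j, x', y', h, e, hx⟩
      rcases hx with rfl | rfl
      · refine ⟨(j, true), ?_⟩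
        simp only [e, if_true]
      · refine ⟨(j, false), ?_⟩
        simp only [e]
        simp
    have : NeZero (3 ^ k) := ⟨by positivity⟩
    exact (Set.finite_range _).subset h1
  let E : IntermediateField (KK i₀) QB := IntermediateField.adjoin (KK i₀) xs
  have : Finite xs := hfin
  have hE : FiniteDimensional (KK i₀) E :=
    IntermediateField.finiteDimensional_adjoin (fun x _ => Algebra.IsIntegral.isIntegral x)
  have ho := IntermediateField.fixingSubgroup_isOpen E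
  refine ⟨(fun t : GK i₀ => σ⁻¹ * t) ⁻¹' (E.fixingSubgroup : Set (GK i₀)) ∩ a ⁻¹' {a σ},
    (ho.preimage (continuous_const_mul _)).inter (hD.cont.isOpen_fiber _), ⟨?_, rfl⟩, ?_⟩
  · show σ⁻¹ * σ ∈ E.fixingSubgroup
    rw [inv_mul_cancel]
    exact one_mem _
  · rintro t ⟨ht1, ht2⟩
    have ht2' : a t = a σ := ht2
    have ht1' : σ⁻¹ * t ∈ E.fixingSubgroup := ht1
    rw [IntermediateField.mem_fixingSubgroup_iff] at ht1'
    have hfix : ∀ x ∈ xs, t x = σ x := by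
      intro x hx
      have h1 := ht1' x (IntermediateField.subset_adjoin _ _ hx)
      have h2 := congrArg σ h1
      rw [← AlgEquiv.mul_apply, ← mul_assoc, mul_inv_cancel, one_mul] at h2
      exact h2
    ext1 j
    rw [act_apply, act_apply, ht2']
    rcases hP : P (j - a σ) with _ | ⟨x, y, h⟩
    · exact (pm_zero _).trans (pm_zero _).symm
    · rw [pm_some, pm_some, Affine.Point.some.injEq]
      exact ⟨hfix x ⟨_, x, y, h, hP, Or.inl rfl⟩, hfix y ⟨_, x, y, h, hP, Or.inr rfl⟩⟩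

lemma cob_coc (hD : Dat k hi π e a) {P : ZMod (3 ^ k) → Pt QB} (hP : P ∈ MM hi k) :
    Coc hi a (fun σ => act a σ P - P) := by
  refine ⟨(act_cont hD P).comp (fun Q => Q - P), fun σ => sub_mem (act_mem σ hP) hP, ?_⟩
  intro σ τ
  show act a (σ * τ) P - P = act a σ P - P + act a σ (act a τ P - P)
  rw [act_mul hD, map_sub]
  abel

lemma coc_sub {f g : GK i₀ → ZMod (3 ^ k) → Pt QB} (hf : Coc hi a f) (hg : Coc hi a g) :
    Coc hi a (fun σ => f σ - g σ) := by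
  refine ⟨hf.1.sub hg.1, fun σ => sub_mem (hf.2.1 σ) (hg.2.1 σ), fun σ τ => ?_⟩
  show f (σ * τ) - g (σ * τ) = f σ - g σ + act a σ (f τ - g τ)
  rw [hf.2.2, hg.2.2, map_sub]
  abel

lemma loc_sub {f g : GK i₀ → ZMod (3 ^ k) → Pt QB} (hf : LocT hi a f) (hg : LocT hi a g) :
    LocT hi a (fun σ => f σ - g σ) := by
  intro p _ ι
  obtain ⟨R, hR, h1⟩ := hf p ι
  obtain ⟨R', hR', h2⟩ := hg p ι
  refine ⟨R - R', sub_mem hR hR', fun τ σ hc => ?_⟩
  rw [map_sub, h1 τ σ hc, h2 τ σ hc, map_sub]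
  abel

lemma coc_dl {f : GK i₀ → ZMod (3 ^ k) → Pt QB} (hf : Coc hi a f) :
    Coc hi a (fun σ => dl _ k (f σ)) := by
  refine ⟨hf.1.comp (dl _ k), fun σ => dl_mem (hf.2.1 σ), fun σ τ => ?_⟩
  show dl _ k (f (σ * τ)) = dl _ k (f σ) + act a σ (dl _ k (f τ))
  rw [hf.2.2, map_add, act_dl]

lemma loc_dl {f : GK i₀ → ZMod (3 ^ k) → Pt QB} (hf : LocT hi a f) :
    LocT hi a (fun σ => dl _ k (f σ)) := by
  intro p _ ι
  obtain ⟨R, hR, h1⟩ := hf p ι
  refine ⟨dl _ k R, dl_mem hR, fun τ σ hc => ?_⟩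
  rw [tw_dl, h1 τ σ hc, map_sub, tw_dl]

section main

variable (hk : k ≠ 0) (hk3 : 2 ≤ k) (hD : Dat k hi π e a)
  (hker : ∀ v : J → ZMod 3, (∀ j, ∑ i, aij π e i j * (v i - v j) = 0) → ∀ i j, v i = v j)
  (hodd : ¬ (9 : Ei) ∣ ∏ j, π j ^ (e j).val - 1)

include hk hk3 hD hker hodd

theorem sha_pow (n : ℕ) {f : GK i₀ → ZMod (3 ^ k) → Pt QB} (hf : Coc hi a f)
    (hl : LocT hi a f) (hc : Cob hi a (fun σ => (dl _ k ^ n) (f σ))) : Cob hi a f := by
  induction n generalizing f with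
  | zero => exact hc
  | succ n ih =>
    have h1 : Cob hi a (fun σ => dl _ k (f σ)) := by
      apply ih (coc_dl hf) (loc_dl hl)
      obtain ⟨P, hP, h2⟩ := hc
      refine ⟨P, hP, fun σ => ?_⟩
      rw [← h2 σ, pow_succ]
      rfl
    obtain ⟨Q, hQ, h2⟩ := h1
    obtain ⟨R, hR, rfl⟩ := dl_surj (by omega) hi hQ
    obtain ⟨e, he⟩ := step hk hk3 hD hker hodd (coc_sub hf (cob_coc hD hR))
      (loc_sub hl (cob_loc hR)) (fun σ => by
        have h4 : dl _ k (f σ) = act a σ (dl _ k R) - dl _ k R := h2 σ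
        rw [map_sub, h4, map_sub, act_dl, sub_self])
    refine ⟨R + PT QB hk e, add_mem hR (PT_mem hk hk3 hi e), fun σ => ?_⟩
    have h3 : f σ = (act a σ R - R) + (act a σ (PT QB hk e) - PT QB hk e) := by
      rw [← he σ]
      abel
    rw [h3, map_add]
    abel

/-- **The 3-primary part of the Tate-Shafarevich group vanishes.** -/
theorem sha_zero (n : ℕ) {f : GK i₀ → ZMod (3 ^ k) → Pt QB} (hf : Coc hi a f)
    (hl : LocT hi a f) (hc : Cob hi a (fun σ => (3 ^ n) • f σ)) : Cob hi a f := by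
  obtain ⟨W, hW1, hW2, hW3⟩ := exists_W (im_im (isE QB) hi) (im (isE QB) hi) (im_im (isE QB) hi)
    (k := k) (by omega)
  have hact : ∀ σ P, W (act a σ P) = act a σ (W P) := by
    intro σ P
    let S : AddMonoid.End (ZMod (3 ^ k) → Pt QB) := act a σ
    have h1 : Commute S (Z (Pt QB) k) := by
      show S * Z (Pt QB) k = Z (Pt QB) k * S
      ext Q j
      show pm (gh σ) (Q (j - a σ - 1)) = pm (gh σ) (Q (j - 1 - a σ))
      congr 2
      ring
    have h2 := hW1 _ h1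
    have h3 : (S * W) P = (W * S) P := by
      rw [h2.eq]
    exact h3.symm
  have hpow : ∀ n : ℕ, ∀ P ∈ MM hi k, (W ^ n) P ∈ MM hi k ∧
      (dl _ k ^ (2 * 3 ^ (k - 1) * n)) P = (3 ^ n) • (W ^ n) P := by
    intro n
    induction n with
    | zero => intro P hP; exact ⟨hP, by simp⟩
    | succ n ih =>
      intro P hP
      obtain ⟨h1, h2⟩ := ih (W P) (hW2 P hP)
      refine ⟨by rw [pow_succ]; exact h1, ?_⟩
      rw [mul_add, mul_one, pow_add]
      show (dl _ k ^ (2 * 3 ^ (k - 1) * n)) ((dl _ k ^ (2 * 3 ^ (k - 1))) P) = _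
      rw [hW3 P hP, map_nsmul, h2, pow_succ W n, pow_succ 3 n]
      show _ = (3 ^ n * 3) • (W ^ n) (W P)
      rw [mul_comm (3 ^ n) 3, mul_smul]
  have hactn : ∀ n : ℕ, ∀ σ P, (W ^ n) (act a σ P) = act a σ ((W ^ n) P) := by
    intro n
    induction n with
    | zero => intro σ P; rfl
    | succ n ih =>
      intro σ P
      rw [pow_succ]
      show (W ^ n) (W (act a σ P)) = act a σ ((W ^ n) (W P))
      rw [hact, ih]
  apply sha_pow hk hk3 hD hker hodd (2 * 3 ^ (k - 1) * n) hf hl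
  obtain ⟨P, hP, h1⟩ := hc
  refine ⟨(W ^ n) P, (hpow n P hP).1, fun σ => ?_⟩
  show (dl _ k ^ (2 * 3 ^ (k - 1) * n)) (f σ) = _
  rw [(hpow n (f σ) (hf.2.1 σ)).2, ← map_nsmul]
  have h2 : (3 ^ n) • f σ = act a σ P - P := h1 σ
  rw [h2, map_sub, hactn]

/-- `A(K) = (1 - Z) A(K) + {0, T}` -/
theorem AK_dl {P : ZMod (3 ^ k) → Pt QB} (hP : P ∈ AK hi a) :
    ∃ P' ∈ AK hi a, ∃ c, P = dl _ k P' + ct QB k c := by
  obtain ⟨R, hR, rfl⟩ := dl_surj (by omega) hi hP.1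
  obtain ⟨e, he⟩ := step hk hk3 hD hker hodd (cob_coc hD hR) (cob_loc hR) (fun σ => by
    rw [map_sub, ← act_dl, hP.2, sub_self])
  refine ⟨R - PT QB hk e, ⟨sub_mem hR (PT_mem hk hk3 hi e), fun σ => ?_⟩, e, ?_⟩
  · have h1 : act a σ R - R = act a σ (PT QB hk e) - PT QB hk e := he σ
    rw [map_sub]
    have h2 : act a σ R - act a σ (PT QB hk e) =
      (act a σ R - R) - (act a σ (PT QB hk e) - PT QB hk e) + (R - PT QB hk e) := by abel
    rw [h2, h1, sub_self, zero_add]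
  · rw [map_sub]
    have h1 : dl _ k (PT QB hk e) = ct QB k e := by
      ext1 j
      exact dl_PT hk e j
    rw [h1, sub_add_cancel]

omit hk3 hker in
/-- `T` is not in `(1 - Z) A(K)` -/
theorem ct_notMem {P : ZMod (3 ^ k) → Pt QB} (hP : P ∈ AK hi a) {c₀ : ZMod 3}
    (h : dl _ k P = ct QB k c₀) (hk3 : 2 ≤ k) : c₀ = 0 := by
  have h1 : dl _ k (P - PT QB hk c₀) = 0 := by
    rw [map_sub, h]
    ext1 j
    show ct QB k c₀ j - dl _ k (PT QB hk c₀) j = 0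
    rw [dl_PT]
    exact sub_self _
  obtain ⟨c, hc⟩ := dl_ker hi (sub_mem hP.1 (PT_mem hk hk3 hi c₀)) h1
  have hPe : P = PT QB hk c₀ + ct QB k c := by
    ext1 j
    have h2 : P j - PT QB hk c₀ j = tt QB c := hc j
    show P j = PT QB hk c₀ j + tt QB c
    rw [← h2]
    abel
  obtain ⟨ι⟩ := exists_emb3
  obtain ⟨τ, σ, -, hσ⟩ := exists_frob hk hk3 hD hodd ι
  have h2 := congrFun (hP.2 σ) 0
  rw [hPe, map_add, act_ct] at h2
  have h3 : act a σ (PT QB hk c₀) 0 = PT QB hk c₀ (0 - a σ) := pm_tt _ _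
  rw [Pi.add_apply, Pi.add_apply, h3] at h2
  have h4 := add_right_cancel h2
  have h5 := PT_sub (F := QB) hk c₀ 0 (a σ)
  rw [h4, sub_self, tt_neg] at h5
  have h6 := tt_eq_zero.1 h5.symm
  rw [neg_eq_zero] at h6
  exact (mul_eq_zero.1 h6).resolve_right hσ

end main

end Pool.Agent.Y715.T.Ar
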