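import Mathlib
import Pool.Agent.Y715.T.Ar
import Pool.Agent.TH942.FG
import Pool.Agent.Y700.VC

/-!
# Finiteness of the group of points
-/

set_option autoImplicit false
set_option linter.unusedSectionVars false

namespace Pool.Agent.Y715.T.Mw

open WeierstrassCurve
open Pool.Agent.Y692.QS
open Pool.Agent.Y715.T.Gi Pool.Agent.Y715.T.Nr Pool.Agent.Y715.T.Df Pool.Agent.Y715.T.Ell
open Pool.Agent.Y715.T.Odd Pool.Agent.Y715.T.Sel Pool.Agent.Y715.T.Md Pool.Agent.Y715.T.Ar

open scoped Classical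

variable {k : ℕ} {i₀ : QB}

/-- the theorem of Mordell and Weil for `y² + y = x³` -/
theorem mw (F : Type) [Field F] [NumberField F] : AddGroup.FG (Pt F) := by
  have hΔ : (4 * (0 : F) ^ 3 + 27 * (1 / 4 : F) ^ 2) ≠ 0 := by norm_num
  have h := Pool.Agent.TH942.sfg (F := F) (a := 0) (b := 1 / 4) hΔ
  have hE := isE F
  have hv : Pool.Agent.Y700.VR (W0.baseChange F) (Pool.Agent.TH942.sw (0 : F) (1 / 4)) 1 0 0
      (-1 / 2) := by
    refine ⟨one_ne_zero, ?_, ?_, ?_, ?_, ?_⟩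
    · rw [hE.h1]
      show (1 : F) * 0 = _
      ring
    · rw [hE.h1, hE.h2]
      show (1 : F) ^ 2 * 0 = _
      ring
    · rw [hE.h1, hE.h3]
      show (1 : F) ^ 3 * 0 = _
      ring
    · rw [hE.h1, hE.h2, hE.h3, hE.h4]
      show (1 : F) ^ 4 * 0 = _
      ring
    · rw [hE.h1, hE.h2, hE.h3, hE.h4, hE.h6]
      show (1 : F) ^ 6 * (1 / 4) = _
      ring
  have hD : (Pool.Agent.TH942.sw (0 : F) (1 / 4)).Δ ≠ 0 := by
    rw [Pool.Agent.TH942.sw_Δ]
    exact mul_ne_zero (by norm_num) hΔ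
  exact Pool.Agent.TH942.fg_of_inj ((hv.equiv hD).symm : Pt F →+ _) (hv.equiv hD).symm.injective h

variable {J : Type} [Fintype J] [DecidableEq J] {π : J → Ei} {e : J → ZMod 3}
variable {hi : i₀ ^ 2 + i₀ + 1 = 0} {a : GK i₀ → ZMod (3 ^ k)}

/-- subgroups of finitely generated abelian groups -/
lemma fg_sub {A : Type} [AddCommGroup A] (hA : AddGroup.FG A) (H : AddSubgroup A) :
    Module.Finite ℤ H := by
  have h1 : Module.Finite ℤ A := Module.Finite.iff_addGroup_fg.2 hA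
  have : IsNoetherian ℤ A := inferInstance
  exact Module.Finite.of_injective H.subtype.toIntLinearMap Subtype.val_injective

/-- groups of vectors with coordinates in a number field -/
lemma fg_of_incl (F : Type) [Field F] [NumberField F] (incl : F →+* QB)
    (H : AddSubgroup (ZMod (3 ^ k) → Pt QB))
    (h : ∀ P ∈ H, ∀ j, P j = 0 ∨ ∃ (x y : F)
      (hn : (W0.baseChange QB).toAffine.Nonsingular (incl x) (incl y)), P j = .some _ _ hn) :
    Module.Finite ℤ H := by
  have hnz : NeZero (3 ^ k) := ⟨by positivity⟩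
  let φ : F →ₐ[ℚ] QB := incl.toRatAlgHom
  let Φ : (ZMod (3 ^ k) → Pt F) →+ (ZMod (3 ^ k) → Pt QB) :=
    { toFun := fun P j => pm φ (P j)
      map_zero' := by ext j; exact pm_zero _
      map_add' := fun P Q => by ext j; exact map_add _ _ _ }
  have hfgE : AddGroup.FG (Pt F) := mw F
  have h2 : Module.Finite ℤ (Pt F) := Module.Finite.iff_addGroup_fg.2 hfgE
  have h3 : Module.Finite ℤ (ZMod (3 ^ k) → Pt F) := inferInstance
  have h4 : AddGroup.FG Φ.range := by
    rw [← Module.Finite.iff_addGroup_fg]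
    exact Module.Finite.of_surjective Φ.rangeRestrict.toIntLinearMap Φ.rangeRestrict_surjective
  have h5 : Module.Finite ℤ (H.addSubgroupOf Φ.range) := fg_sub h4 _
  have h6 : H ≤ Φ.range := by
    intro P hP
    have h7 : ∀ j, ∃ Q : Pt F, pm φ Q = P j := by
      intro j
      rcases h P hP j with h8 | ⟨x, y, hn, h8⟩
      · exact ⟨0, by rw [h8]; exact pm_zero _⟩
      · have hn' : (W0.baseChange F).toAffine.Nonsingular x y := by
          apply (isE F).nons
          have he := ((isE QB).eqn _ _).1 hn.1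
          apply incl.injective
          rw [map_add, map_pow, map_pow]
          exact he
        exact ⟨.some x y hn', by rw [h8]; rfl⟩
    choose Q hQ using h7
    exact ⟨Q, funext hQ⟩
  exact Module.Finite.of_surjective
    (AddSubgroup.addSubgroupOfEquivOfLe h6).toAddMonoidHom.toIntLinearMap
    (AddSubgroup.addSubgroupOfEquivOfLe h6).surjective

theorem AK_fg (hD : Dat k hi π e a) : Module.Finite ℤ (AK hi a) := by
  -- a finite extension
  have h1 : a ⁻¹' {0} ∈ nhds (1 : GK i₀) :=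
    (hD.cont.isOpen_fiber 0).mem_nhds (by show a 1 = 0; exact a_one hD)
  rw [krullTopology_mem_nhds_one_iff] at h1
  obtain ⟨E, hE, hEa⟩ := h1
  have hfd : FiniteDimensional ℚ (KK i₀) :=
    IntermediateField.adjoin.finiteDimensional (Algebra.IsIntegral.isIntegral i₀)
  have hfdE : FiniteDimensional ℚ E := FiniteDimensional.trans ℚ (KK i₀) E
  have : CharZero E := charZero_of_injective_algebraMap (algebraMap (KK i₀) E).injective
  have hnf : @NumberField E _ :=
    { to_charZero := inferInstance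
      to_finiteDimensional := by convert! hfdE }
  refine fg_of_incl E E.val.toRingHom (AK hi a) ?_
  intro P hP j
  have hfix : ∀ σ : GK i₀, σ ∈ E.fixingSubgroup → pm (gh σ) (P j) = P j := by
    intro σ hσ
    have haσ : a σ = 0 := hEa hσ
    have h3 := congrFun (hP.2 σ) j
    rwa [act_apply, haσ, sub_zero] at h3
  rcases hPj : P j with _ | ⟨x, y, h⟩
  · exact Or.inl rfl
  · right
    rw [hPj] at hfix
    have hmem : ∀ w : QB, (∀ σ : GK i₀, σ ∈ E.fixingSubgroup → σ w = w) → w ∈ E := by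
      intro w hw
      rw [← InfiniteGalois.fixedField_fixingSubgroup E, IntermediateField.mem_fixedField_iff]
      exact hw
    have hx : x ∈ E := hmem x fun σ hσ => by
      have h3 := hfix σ hσ
      rw [pm_some, Affine.Point.some.injEq] at h3
      exact h3.1
    have hy : y ∈ E := hmem y fun σ hσ => by
      have h3 := hfix σ hσ
      rw [pm_some, Affine.Point.some.injEq] at h3
      exact h3.2
    exact ⟨⟨x, hx⟩, ⟨y, hy⟩, h, rfl⟩

section main

variable (hk : k ≠ 0) (hk3 : 2 ≤ k) (hD : Dat k hi π e a)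
  (hker : ∀ v : J → ZMod 3, (∀ j, ∑ i, aij π e i j * (v i - v j) = 0) → ∀ i j, v i = v j)
  (hodd : ¬ (9 : Ei) ∣ ∏ j, π j ^ (e j).val - 1)

include hk hk3 hD hker hodd

/-- the group `C = (1 - Z) A(K)` is killed by a number prime to three -/
theorem odd_kill : ∃ r : ℤ, IsCoprime 3 r ∧ ∀ P ∈ AK hi a, r • dl _ k P = 0 := by
  have hfg := AK_fg hD
  -- the group `C`
  let C : AddSubgroup (ZMod (3 ^ k) → Pt QB) := (AK hi a).map (dl (Pt QB) k)
  have hCA : C ≤ AK hi a := by
    rintro _ ⟨P, hP, rfl⟩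
    exact ⟨dl_mem hP.1, fun σ => (act_dl σ P).trans (congrArg _ (hP.2 σ))⟩
  have hCdl : ∀ Q ∈ C, ∃ Q' ∈ C, dl _ k Q' = Q := by
    rintro _ ⟨P, hP, rfl⟩
    obtain ⟨P', hP', c, e⟩ := AK_dl hk hk3 hD hker hodd hP
    refine ⟨dl _ k P', ⟨P', hP', rfl⟩, ?_⟩
    have h1 : dl _ k (ct QB k c) = 0 := by
      ext1 j
      show tt QB c - tt QB c = 0
      exact sub_self _
    have h2 : dl _ k P = dl _ k (dl _ k P' + ct QB k c) := congrArg _ e
    rw [map_add, h1, add_zero] at h2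
    exact h2.symm
  obtain ⟨W, hW1, hW2, hW3⟩ := exists_W (im_im (isE QB) hi) (im (isE QB) hi) (im_im (isE QB) hi)
    (k := k) (by omega)
  have hWA : ∀ P ∈ AK hi a, W P ∈ AK hi a := by
    intro P hP
    refine ⟨hW2 P hP.1, fun σ => ?_⟩
    let S : AddMonoid.End (ZMod (3 ^ k) → Pt QB) := act a σ
    have h1 : Commute S (Z (Pt QB) k) := by
      show S * Z (Pt QB) k = Z (Pt QB) k * S
      ext Q j
      show pm (gh σ) (Q (j - a σ - 1)) = pm (gh σ) (Q (j - 1 - a σ))
      congr 2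
      ring
    have h2 := hW1 _ h1
    have h3 : (S * W) P = (W * S) P := by
      rw [h2.eq]
    have h4 : act a σ (W P) = W (act a σ P) := h3
    rw [h4, hP.2]
  have hWC : ∀ Q ∈ C, W Q ∈ C := by
    rintro _ ⟨P, hP, rfl⟩
    refine ⟨W P, hWA P hP, ?_⟩
    have h1 : Commute (dl (Pt QB) k) (Z (Pt QB) k) :=
      Commute.sub_left (Commute.one_left _) (Commute.refl _)
    have h2 := hW1 _ h1
    have h3 : (dl (Pt QB) k * W) P = (W * dl (Pt QB) k) P := by
      rw [h2.eq]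
    exact h3
  have hpow : ∀ n : ℕ, ∀ Q ∈ C, ∃ Q' ∈ C, (dl _ k ^ n) Q' = Q := by
    intro n
    induction n with
    | zero => intro Q hQ; exact ⟨Q, hQ, rfl⟩
    | succ n ih =>
      intro Q hQ
      obtain ⟨Q₁, hQ₁, e₁⟩ := ih Q hQ
      obtain ⟨Q₂, hQ₂, e₂⟩ := hCdl Q₁ hQ₁
      refine ⟨Q₂, hQ₂, ?_⟩
      rw [pow_succ]
      show (dl _ k ^ n) (dl _ k Q₂) = Q
      rw [e₂, e₁]
  have htwo : ∀ Q ∈ C, ∃ Q' ∈ C, Q = 3 • Q' := by
    intro Q hQ
    obtain ⟨Q', hQ', e⟩ := hpow (2 * 3 ^ (k - 1)) Q hQ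
    refine ⟨W Q', hWC Q' hQ', ?_⟩
    rw [← e, hW3 Q' (hCA hQ').1]
  have hCfg : Module.Finite ℤ C := by
    let f : AK hi a →+ C :=
      { toFun := fun P => ⟨dl _ k P.1, P.1, P.2, rfl⟩
        map_zero' := Subtype.ext (map_zero _)
        map_add' := fun P Q => Subtype.ext (map_add _ _ _) }
    refine Module.Finite.of_surjective f.toIntLinearMap ?_
    rintro ⟨_, P, hP, rfl⟩
    exact ⟨⟨P, hP⟩, rfl⟩
  obtain ⟨r, hr1, hr2⟩ := Submodule.exists_sub_one_mem_and_smul_eq_zero_of_fg_of_le_smul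
    (Ideal.span {(3 : ℤ)}) (⊤ : Submodule ℤ C) (Module.finite_def.1 hCfg) (by
      rintro ⟨Q, hQ⟩ -
      obtain ⟨Q', hQ', e⟩ := htwo Q hQ
      have h1 : (⟨Q, hQ⟩ : C) = (3 : ℤ) • ⟨Q', hQ'⟩ := by
        apply Subtype.ext
        show Q = (3 : ℤ) • Q'
        rw [e]
        norm_cast
      rw [h1]
      exact Submodule.smul_mem_smul (Ideal.mem_span_singleton_self _) Submodule.mem_top)
  refine ⟨r, ?_, fun P hP => ?_⟩
  · rw [Ideal.mem_span_singleton] at hr1
    obtain ⟨m, hm⟩ := hr1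
    exact ⟨-m, 1, by linarith⟩
  · have h1 := hr2 (⟨dl _ k P, P, hP, rfl⟩ : C) Submodule.mem_top
    exact congrArg Subtype.val h1

omit hk hk3 hD hker hodd in
lemma ct_three (c : ZMod 3) : (3 : ℤ) • ct QB k c = 0 := by
  have h : (3 : ℤ) • ct QB k c = ct QB k c + ct QB k c + ct QB k c := by
    have e : (3 : ℤ) = 1 + 1 + 1 := by norm_num
    rw [e, add_smul, add_smul, one_smul]
  have h3 : ∀ d : ZMod 3, d + d + d = 0 := by decide
  rw [h, ← ct_add, ← ct_add, h3 c]
  ext1 j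
  exact tt_zero

/-- **`A(K)` is finite.** -/
theorem AK_finite : Finite (AK hi a) := by
  have hfg := AK_fg hD
  obtain ⟨r, hr, h1⟩ := odd_kill hk hk3 hD hker hodd
  have hr0 : r ≠ 0 := by
    rintro rfl
    rw [isCoprime_zero_right] at hr
    exact absurd hr (by decide)
  have htor : Module.IsTorsion ℤ (AK hi a) := by
    rintro ⟨P, hP⟩
    refine ⟨⟨3 * r, mem_nonZeroDivisors_of_ne_zero (mul_ne_zero three_ne_zero hr0)⟩, ?_⟩
    apply Subtype.ext
    show (3 * r) • P = 0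
    obtain ⟨P', hP', c, e⟩ := AK_dl hk hk3 hD hker hodd hP
    rw [mul_comm, mul_smul]
    have h2 : (3 : ℤ) • P = dl _ k ((3 : ℤ) • P') := by
      rw [map_zsmul]
      nth_rw 1 [e]
      rw [smul_add, ct_three, add_zero]
    rw [h2]
    exact h1 _ (zsmul_mem hP' 3)
  exact Module.finite_of_fg_torsion (AK hi a) htor

/-- **The 3-primary part of `A(K)`.** -/
theorem AK_two {P : ZMod (3 ^ k) → Pt QB} (hP : P ∈ AK hi a) (n : ℕ) (hn : (3 ^ n) • P = 0) :
    ∃ c, P = ct QB k c := by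
  obtain ⟨r, hr, h1⟩ := odd_kill hk hk3 hD hker hodd
  obtain ⟨P', hP', c, e⟩ := AK_dl hk hk3 hD hker hodd hP
  refine ⟨c, ?_⟩
  have h2 : (3 ^ (n + 1) : ℤ) • dl _ k P' = 0 := by
    have h4 : (3 ^ (n + 1) : ℤ) • P = 0 := by
      have h5 : (3 ^ (n + 1) : ℤ) • P = (3 : ℤ) • ((3 ^ n : ℕ) • P) := by
        rw [pow_succ', mul_smul]
        congr 1
      rw [h5, hn, smul_zero]
    have h5 : (3 ^ (n + 1) : ℤ) • ct QB k c = 0 := by
      rw [pow_succ, mul_smul, ct_three, smul_zero]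
    have h6 : dl _ k P' = P - ct QB k c := by rw [e]; abel
    rw [h6, smul_sub, h4, h5, sub_zero]
  have h3 := h1 P' hP'
  have hcop : IsCoprime (3 ^ (n + 1) : ℤ) r := IsCoprime.pow_left hr
  obtain ⟨x, y, hxy⟩ := hcop
  have h4 : dl _ k P' = 0 := by
    rw [← one_smul ℤ (dl _ k P'), ← hxy, add_smul, mul_smul, mul_smul, h2, h3, smul_zero, smul_zero,
      add_zero]
  have h5 : P = 0 + ct QB k c := by
    rw [← h4]
    exact e
  rw [zero_add] at h5
  exact h5

end main

/-- `T` is a point over `K` -/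
theorem ct_mem (c : ZMod 3) : ct QB k c ∈ AK hi a :=
  ⟨const_mem hi c, fun σ => act_ct σ c⟩

end Pool.Agent.Y715.T.Mw
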