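import Mathlib
import Pool.Agent.Y715.T.Rs

/-!
# Hecke characters on the ideals of the Eisenstein integers
-/

set_option autoImplicit false
set_option linter.unusedSectionVars false

namespace Pool.Agent.Y715.T.Tf

open Pool.Agent.Y715.T.Rs Pool.Agent.W192.HK Pool.Agent.Y696 Pool.Agent.Y692.QS

/-- primitive Hecke characters -/
structure Hk (n : ℕ) (f : Ideal Ei) (ψ : Ideal Ei → ℂ) : Prop where
  ne : f ≠ ⊥
  mul : ∀ I J, ψ (I * J) = ψ I * ψ J
  zero : ∀ I, ψ I = 0 ↔ (I = ⊥ ∨ ¬ IsCoprime I f)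
  princ : ∀ α : Ei, α ≠ 0 → α - 1 ∈ f →
    ψ (Ideal.span {α}) = (toC α) ^ n
  prim : ∀ f' : Ideal Ei, f < f' → ∃ α : Ei, α ≠ 0 ∧ α - 1 ∈ f' ∧
    IsCoprime (Ideal.span {α}) f ∧ ψ (Ideal.span {α}) ≠ (toC α) ^ n

/-- ideals of the image -/
noncomputable def up (I : Ideal Ei) : Ideal eis := I.map (eq0 : Ei →+* eis)

/-- ideals of the source -/
noncomputable def dn (I : Ideal eis) : Ideal Ei := I.map (eq0.symm : eis →+* Ei)

lemma up_dn (I : Ideal eis) : up (dn I) = I := by
  unfold up dn
  rw [Ideal.map_map]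
  have : (eq0 : Ei →+* eis).comp (eq0.symm : eis →+* Ei) = RingHom.id _ := by
    ext x
    simp
  rw [this, Ideal.map_id]

lemma dn_up (I : Ideal Ei) : dn (up I) = I := by
  unfold up dn
  rw [Ideal.map_map]
  have : (eq0.symm : eis →+* Ei).comp (eq0 : Ei →+* eis) = RingHom.id _ := by
    refine RingHom.ext fun x => ?_
    simp
  rw [this, Ideal.map_id]

/-- the bijection -/
noncomputable def ue : Ideal Ei ≃ Ideal eis := ⟨up, dn, dn_up, up_dn⟩

lemma dn_sp (α : eis) : dn (sp α) = Ideal.span {eq0.symm α} := by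
  unfold dn
  rw [Ideal.map_span, Set.image_singleton]
  rfl

lemma up_sp (α : Ei) : up (Ideal.span {α}) = sp (eq0 α) := by
  unfold up
  rw [Ideal.map_span, Set.image_singleton]
  rfl

lemma dn_bot {I : Ideal eis} : dn I = ⊥ ↔ I = ⊥ := by
  constructor
  · intro h
    rw [← up_dn I, h]
    exact Ideal.map_bot
  · rintro rfl
    exact Ideal.map_bot

lemma cop_up {I J : Ideal Ei} (h : IsCoprime I J) : IsCoprime (up I) (up J) :=
  h.map (Ideal.mapHom (eq0 : Ei →+* eis))

lemma cop_dn {I J : Ideal eis} (h : IsCoprime I J) : IsCoprime (dn I) (dn J) :=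
  h.map (Ideal.mapHom (eq0.symm : eis →+* Ei))

lemma cop_iff {I : Ideal eis} {f : Ideal Ei} : IsCoprime (dn I) f ↔ IsCoprime I (up f) := by
  constructor
  · intro h
    have := cop_up h
    rwa [up_dn] at this
  · intro h
    have := cop_dn h
    rwa [dn_up] at this

lemma symm_coe (α : eis) : toC (eq0.symm α) = (α : ℂ) := by
  rw [← eq0_coe, RingEquiv.apply_symm_apply]

lemma mem_up {f : Ideal Ei} {α : eis} : α ∈ up f ↔ eq0.symm α ∈ f := by
  constructor
  · intro h
    have := Ideal.mem_map_of_mem (eq0.symm : eis →+* Ei) h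
    have h2 : (up f).map (eq0.symm : eis →+* Ei) = f := dn_up f
    rw [h2] at this
    exact this
  · intro h
    have := Ideal.mem_map_of_mem (eq0 : Ei →+* eis) h
    have h2 : (eq0 : Ei →+* eis) (eq0.symm α) = α := eq0.apply_symm_apply α
    rw [h2] at this
    exact this

theorem Hk.hc {n : ℕ} {f : Ideal Ei} {ψ : Ideal Ei → ℂ} (h : Hk n f ψ) :
    HC n (up f) (fun I => ψ (dn I)) where
  ne := by
    intro h0
    apply h.ne
    rw [← dn_up f, h0]
    exact Ideal.map_bot
  mul := by
    intro I J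
    rw [← h.mul]
    congr 1
    exact Ideal.map_mul _ _ _
  zero := by
    intro I
    show ψ (dn I) = 0 ↔ _
    rw [h.zero, dn_bot, cop_iff]
  princ := by
    intro α hα h1
    show ψ (dn (sp α)) = _
    rw [dn_sp, h.princ, symm_coe]
    · intro h0
      apply hα
      rw [← eq0.apply_symm_apply α, h0, map_zero]
    · rw [mem_up, map_sub, map_one] at h1
      exact h1
  prim := by
    intro q' hq
    have hlt : f < dn q' := by
      refine lt_of_le_of_ne ?_ ?_
      · intro x hx
        have h1 : eq0 x ∈ up f := by rw [mem_up, RingEquiv.symm_apply_apply]; exact hx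
        have h2 := hq.le h1
        rw [← up_dn q', mem_up, RingEquiv.symm_apply_apply] at h2
        exact h2
      · intro h1
        apply hq.ne
        rw [h1, up_dn]
    obtain ⟨α, h1, h2, h3, h4⟩ := h.prim (dn q') hlt
    refine ⟨eq0 α, ?_, ?_, ?_, ?_⟩
    · intro h0
      exact h1 (eq0.injective (by rw [h0, map_zero]))
    · rw [← up_dn q', mem_up, map_sub, map_one, RingEquiv.symm_apply_apply]
      exact h2
    · have := cop_up h3
      rwa [up_sp] at this
    · show ψ (dn (sp (eq0 α))) ≠ _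
      rw [← up_sp, dn_up]
      exact h4

lemma card_up (I : Ideal Ei) : Nat.card (eis ⧸ up I) = Nat.card (Ei ⧸ I) :=
  (Nat.card_congr (quo I).toEquiv).symm

end Pool.Agent.Y715.T.Tf
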