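import Mathlib
import Pool.Agent.Y715.T.Tf
import Pool.Agent.Y715.T.Rec
import Pool.Agent.Y696.Psi

/-!
# Explicit Hecke characters
-/

set_option autoImplicit false
set_option linter.unusedSectionVars false

namespace Pool.Agent.Y715.T.Ex

open Pool.Agent.Y692.QS Pool.Agent.Y696
open Pool.Agent.Y715.T.Tf Pool.Agent.Y715.T.Rs Pool.Agent.Y715.T.Rec
open Pool.Agent.W192.HK

/-! ### Generators -/

/-- a generator -/
noncomputable def gen (I : Ideal Ei) : Ei := Submodule.IsPrincipal.generator I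

lemma span_gen (I : Ideal Ei) : Ideal.span {gen I} = I :=
  Ideal.span_singleton_generator I

lemma gen_assoc (α : Ei) : Associated (gen (Ideal.span {α})) α := by
  rw [← Ideal.span_singleton_eq_span_singleton, span_gen]

lemma gen_mul (I J : Ideal Ei) : Associated (gen (I * J)) (gen I * gen J) := by
  rw [← Ideal.span_singleton_eq_span_singleton, span_gen, ← Ideal.span_singleton_mul_span_singleton,
    span_gen, span_gen]

lemma gen_eq_zero {I : Ideal Ei} : gen I = 0 ↔ I = ⊥ := by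
  rw [← Ideal.span_singleton_eq_bot, span_gen]

/-! ### Characters of finite order -/

section chi

variable {k : ℕ} {π : Ei}

/-- the Hecke character -/
noncomputable def hc (lam : MulChar (Ei ⧸ Ideal.span {π}) ℂ) (I : Ideal Ei) : ℂ :=
  lam (Ideal.Quotient.mk _ (gen I))

lemma unit_six {u : Ei} (hu : IsUnit u) : u ^ 6 = 1 := by
  have h1 := isUnit_iff.1 hu
  unfold nr at h1
  obtain ⟨a, b⟩ := u
  simp only at h1
  have ha : -1 ≤ a ∧ a ≤ 1 := by constructor <;> nlinarith [sq_nonneg (a - 2 * b), sq_nonneg a]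
  have hb : -1 ≤ b ∧ b ≤ 1 := by constructor <;> nlinarith [sq_nonneg (b - 2 * a), sq_nonneg b]
  obtain ⟨ha1, ha2⟩ := ha
  obtain ⟨hb1, hb2⟩ := hb
  interval_cases a <;> interval_cases b <;> (first | (exfalso; omega) | decide)

variable (hπ : Prime π) (hN : (3 : ℤ) ^ (k + 1) ∣ nr π - 1)

include hπ hN

lemma lam_unit (hk : k ≠ 0) {lam : MulChar (Ei ⧸ Ideal.span {π}) ℂ} (hl : lam ^ (3 ^ k) = 1)
    {u : Ei} (hu : IsUnit u) : lam (Ideal.Quotient.mk _ u) = 1 := by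
  let _ := fld hπ
  let _ := ftp hπ
  have hcard : (Fintype.card (FF π) : ℤ) = nr π := card_FF hπ
  have hpos : 0 < Fintype.card (FF π) := Fintype.card_pos
  obtain ⟨c, hc⟩ := hN
  have hc1 : (Fintype.card (FF π) : ℤ) - 1 = 3 ^ (k + 1) * c := by rw [hcard, hc]
  obtain ⟨g, hg⟩ := IsCyclic.exists_generator (α := (FF π)ˣ)
  have hu' : IsUnit (Ideal.Quotient.mk (Ideal.span {π}) u) := hu.map _
  obtain ⟨v, hv⟩ := hu'
  obtain ⟨n, hn⟩ := (Subgroup.mem_zpowers_iff).1 (hg v)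
  -- `v` has order dividing six; its square has order dividing three
  have hv6 : v ^ 6 = 1 := by
    apply Units.ext
    rw [Units.val_pow_eq_pow_val, hv, ← map_pow, unit_six hu, map_one, Units.val_one]
  have horder : orderOf g = Fintype.card (FF π) - 1 := by
    rw [orderOf_eq_card_of_forall_mem_zpowers hg, Nat.card_units, Nat.card_eq_fintype_card]
  have h1 : ((orderOf g : ℕ) : ℤ) ∣ n * 6 := by
    rw [orderOf_dvd_iff_zpow_eq_one, zpow_mul, hn]
    exact_mod_cast hv6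
  have h2 : (3 : ℤ) ^ (k + 1) ∣ n * 6 := by
    refine dvd_trans ?_ h1
    rw [horder, Nat.cast_sub hpos]
    exact ⟨c, by push_cast; exact hc1⟩
  have h3 : (3 : ℤ) ^ k ∣ n := by
    obtain ⟨d, hd⟩ := h2
    have h4 : (3 : ℤ) ^ k ∣ n * 2 := by
      refine ⟨d, ?_⟩
      have h5 : (3 : ℤ) ^ (k + 1) = 3 ^ k * 3 := by ring
      rw [h5] at hd
      linarith
    exact (IsCoprime.pow_left (by exact ⟨1, -1, by norm_num⟩)).dvd_of_dvd_mul_right h4
  obtain ⟨m, rfl⟩ := h3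
  have h5 : v = (g ^ m) ^ (3 ^ k) := by
    rw [← hn, ← zpow_natCast (g ^ m), ← zpow_mul]
    congr 1
    push_cast
    ring
  have h6 : lam ((v : (FF π)ˣ) : FF π) = (lam ^ (3 ^ k)) ((g ^ m : (FF π)ˣ) : FF π) := by
    rw [MulChar.pow_apply_coe, h5, Units.val_pow_eq_pow_val, map_pow]
  rw [← hv, h6, hl]
  exact MulChar.one_apply_coe _

lemma hc_eq (hk : k ≠ 0) {lam : MulChar (Ei ⧸ Ideal.span {π}) ℂ} (hl : lam ^ (3 ^ k) = 1)
    {I : Ideal Ei} {α : Ei} (h : Associated (gen I) α) :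
    hc lam I = lam (Ideal.Quotient.mk _ α) := by
  obtain ⟨u, rfl⟩ := h
  rw [map_mul, map_mul, lam_unit hπ hN hk hl u.isUnit, mul_one]
  rfl

lemma hc_span (hk : k ≠ 0) {lam : MulChar (Ei ⧸ Ideal.span {π}) ℂ} (hl : lam ^ (3 ^ k) = 1)
    (α : Ei) : hc lam (Ideal.span {α}) = lam (Ideal.Quotient.mk _ α) :=
  hc_eq hπ hN hk hl (gen_assoc α)

omit hN in
lemma lam_zero {lam : MulChar (Ei ⧸ Ideal.span {π}) ℂ} {x : Ei} :
    lam (Ideal.Quotient.mk _ x) = 0 ↔ π ∣ x := by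
  let _ := fld hπ
  constructor
  · intro h
    by_contra h1
    have h2 : (Ideal.Quotient.mk (Ideal.span {π}) x) ≠ 0 := fun h => h1 ((mk_eq_zero x).1 h)
    exact (h2.isUnit.map lam).ne_zero h
  · intro h
    have h1 : (Ideal.Quotient.mk (Ideal.span {π}) x) = 0 := (mk_eq_zero x).2 h
    rw [h1]
    exact lam.map_nonunit not_isUnit_zero

omit hN in
lemma exists_ne {lam : MulChar (Ei ⧸ Ideal.span {π}) ℂ} {n : ℕ} (h : lam ^ n ≠ 1) :
    ∃ x : Ei, ¬ π ∣ x ∧ lam (Ideal.Quotient.mk _ x) ^ n ≠ 1 := by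
  let _ := fld hπ
  rw [MulChar.ne_one_iff] at h
  obtain ⟨a, ha⟩ := h
  obtain ⟨x, hx⟩ := Ideal.Quotient.mk_surjective (a : Ei ⧸ Ideal.span {π})
  refine ⟨x, ?_, ?_⟩
  · intro h1
    have h2 := a.isUnit
    have h3 : (Ideal.Quotient.mk (Ideal.span {π}) x) = 0 := (mk_eq_zero x).2 h1
    rw [← hx, h3] at h2
    exact not_isUnit_zero h2
  · rw [hx, ← MulChar.pow_apply_coe]
    exact ha

theorem hk_of {lam : MulChar (Ei ⧸ Ideal.span {π}) ℂ} (hk : k ≠ 0)
    (hl : orderOf lam = 3 ^ k) : Hk 0 (Ideal.span {π}) (hc lam) := by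
  have hl1 : lam ^ (3 ^ k) = 1 := by rw [← hl]; exact pow_orderOf_eq_one lam
  have hcop : ∀ α : Ei, IsCoprime (Ideal.span {α}) (Ideal.span {π}) ↔ ¬ π ∣ α := by
    intro α
    rw [Ideal.isCoprime_span_singleton_iff, isCoprime_comm]
    exact hπ.irreducible.coprime_iff_not_dvd
  refine ⟨?_, ?_, ?_, ?_, ?_⟩
  · rw [Ne, Ideal.span_singleton_eq_bot]
    exact hπ.ne_zero
  · intro I J
    rw [hc_eq hπ hN hk hl1 (gen_mul I J), map_mul, map_mul]
    rfl
  · intro I
    have h1 : hc lam I = 0 ↔ π ∣ gen I := lam_zero hπ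
    have h2 : IsCoprime I (Ideal.span {π}) ↔ ¬ π ∣ gen I := by
      rw [← hcop, span_gen]
    rw [h1, h2, not_not, ← gen_eq_zero]
    constructor
    · exact Or.inr
    · rintro (h | h)
      · rw [h]
        exact dvd_zero _
      · exact h
  · intro α _ hα1
    rw [hc_span hπ hN hk hl1, pow_zero]
    have h1 : Ideal.Quotient.mk (Ideal.span {π}) α = 1 := by
      rw [← map_one (Ideal.Quotient.mk (Ideal.span {π})), Ideal.Quotient.eq]
      exact hα1
    rw [h1, map_one]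
  · intro f' hf'
    have hmax : (Ideal.span {π}).IsMaximal :=
      PrincipalIdealRing.isMaximal_of_irreducible hπ.irreducible
    have htop : f' = ⊤ := hmax.1.2 f' hf'
    have h1 : lam ^ 1 ≠ 1 := by
      intro h
      rw [pow_one, ← orderOf_eq_one_iff, hl] at h
      exact (Nat.one_lt_pow hk (by norm_num)).ne' h
    obtain ⟨x, hx, hx1⟩ := exists_ne hπ h1
    refine ⟨x, ?_, ?_, (hcop x).2 hx, ?_⟩
    · rintro rfl
      exact hx (dvd_zero _)
    · rw [htop]
      exact Submodule.mem_top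
    · rw [hc_span hπ hN hk hl1, pow_zero]
      rw [pow_one] at hx1
      exact hx1

lemma hc_pow {lam : MulChar (Ei ⧸ Ideal.span {π}) ℂ} (hl1 : lam ^ (3 ^ k) = 1)
    {I : Ideal Ei} (h : hc lam I ≠ 0) : hc lam I ^ (3 ^ k) = 1 := by
  let _ := fld hπ
  have h1 : ¬ π ∣ gen I := fun h2 => h ((lam_zero hπ).2 h2)
  have h2 : (Ideal.Quotient.mk (Ideal.span {π}) (gen I)) ≠ 0 := fun h => h1 ((mk_eq_zero _).1 h)
  obtain ⟨u, hu⟩ := h2.isUnit
  unfold hc
  rw [← hu, ← MulChar.pow_apply_coe, hl1]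
  exact MulChar.one_apply_coe _

end chi

/-! ### The series -/

section series

variable {J : Type} [Fintype J] {k : ℕ} {π : J → Ei}

lemma three_mem {α : Ei} : eq0 α - 1 ∈ (sp 3 : Ideal eis) ↔ (3 : Ei) ∣ α - 1 := by
  have h1 : eq0 α - 1 = eq0 (α - 1) := by rw [map_sub, map_one]
  have h3 : (3 : eis) = eq0 3 := by rw [map_ofNat]
  rw [h1, h3, Ideal.mem_span_singleton]
  exact map_dvd_iff eq0

lemma sum_iff (hk : k ≠ 0) (hπ : ∀ j, Prime (π j))
    (hN : ∀ j, (3 : ℤ) ^ (k + 1) ∣ nr (π j) - 1)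
    {lam : ∀ j, MulChar (Ei ⧸ Ideal.span {π j}) ℂ} (hl : ∀ j, lam j ^ (3 ^ k) = 1)
    {s F : ℂ} :
    HasSum (fun I : Ideal eis =>
      psi I * (∏ j, hc (lam j) (dn I)) * (nm I : ℂ) ^ (-s)) F ↔
    HasSum (fun α : {α : Ei // (3 : Ei) ∣ α - 1} => toC α *
      (∏ j, lam j (Ideal.Quotient.mk _ α)) * ((nr α : ℤ) : ℂ) ^ (-s)) F := by
  have hinj : Function.Injective
      (fun α : {α : Ei // (3 : Ei) ∣ α - 1} => (sp (eq0 (α : Ei)) : Ideal eis)) := by
    intro α β h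
    apply Subtype.ext
    apply eq0.injective
    exact prim_unique (three_mem.2 α.2) (three_mem.2 β.2) h
  rw [← hinj.hasSum_iff]
  · refine iff_of_eq ?_
    congr 1
    funext α
    have h1 : psi (sp (eq0 (α : Ei))) = toC α := psi_prim (three_mem.2 α.2)
    have h0 : dn (sp (eq0 (α : Ei))) = Ideal.span {(α : Ei)} := by
      rw [dn_sp, RingEquiv.symm_apply_apply]
    have h2 : ((nm (sp (eq0 (α : Ei)) : Ideal eis) : ℝ) : ℂ) = ((nr (α : Ei) : ℤ) : ℂ) := by
      have h3 := card_quo (α : Ei)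
      have h4 : Nat.card (eis ⧸ (sp (eq0 (α : Ei)) : Ideal eis)) =
          Nat.card (Ei ⧸ Ideal.span {(α : Ei)}) := by
        rw [← up_sp, card_up]
      have h5 : nm (sp (eq0 (α : Ei)) : Ideal eis) =
          ((Nat.card (Ei ⧸ Ideal.span {(α : Ei)}) : ℕ) : ℝ) := by
        rw [← h4]
        rfl
      rw [h5]
      exact_mod_cast congrArg (fun n : ℤ => (n : ℂ)) h3
    show psi (sp (eq0 (α : Ei))) * (∏ j, hc (lam j) (dn (sp (eq0 (α : Ei))))) *
      ((nm (sp (eq0 (α : Ei)) : Ideal eis) : ℝ) : ℂ) ^ (-s) = _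
    rw [h1, h2, h0, Finset.prod_congr rfl (fun j _ => hc_span (hπ j) (hN j) hk (hl j) _)]
  · intro I hI
    have h1 : psi I = 0 := by
      rw [psi_zero_iff]
      intro h2
      obtain ⟨α, h3, h4⟩ := exists_prim h2
      apply hI
      refine ⟨⟨eq0.symm α, ?_⟩, ?_⟩
      · rw [← three_mem, RingEquiv.apply_symm_apply]
        exact h4
      · show (sp (eq0 (eq0.symm α)) : Ideal eis) = I
        rw [RingEquiv.apply_symm_apply, h3]
    rw [h1, zero_mul, zero_mul]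

end series

end Pool.Agent.Y715.T.Ex
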