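import Pool.Agent.Y715.T.Ana
import Pool.Agent.TH936.PU.Fin

/-!
# The values of the `L`-functions
-/

set_option autoImplicit false

open Filter
open scoped Topology PeriodPair

namespace Pool.Agent.Y715.T.LF

open H667R3 Pool.Agent.W192.HK Pool.Agent.TH936.CM Pool.Agent.TH936.PU
open Pool.Agent.W192.CM (nu)
open Pool.Agent.Y715.Dist Pool.Agent.Y715.Idn Pool.Agent.Y715.T.Lat Pool.Agent.Y696
open Pool.Agent.Y715
open Pool.Agent.Y715.Two (v_unit v_mul_le_of)
open Pool.Agent.Y715.T.Three Pool.Agent.Y715.T.Cg Pool.Agent.Y715.T.Comb Pool.Agent.Y715.T.Ana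

variable {ι : Type*}

/-- the sum of the coordinates modulo three -/
noncomputable def rdf (r : eis) : ZMod 3 :=
  (((ez_ex r).choose + (ez_ex r).choose_spec.choose : ℤ) : ZMod 3)

lemma rdf_ez (a b : ℤ) : rdf (ez a b) = ((a + b : ℤ) : ZMod 3) := by
  have h := (ez_ex (ez a b)).choose_spec.choose_spec
  obtain ⟨h1, h2⟩ := ez_inj h
  unfold rdf
  exact congrArg (Int.cast) (congrArg₂ (· + ·) h1.symm h2.symm)

/-- reduction modulo the square root of `-3` -/
noncomputable def rd : eis →+* ZMod 3 where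
  toFun := rdf
  map_one' := by
    rw [← ez_one, rdf_ez]
    decide
  map_mul' r s := by
    obtain ⟨a, b, rfl⟩ := ez_ex r
    obtain ⟨c, d, rfl⟩ := ez_ex s
    rw [ez_mul, rdf_ez, rdf_ez, rdf_ez, ← Int.cast_mul, ← sub_eq_zero, ← Int.cast_sub,
      ZMod.intCast_zmod_eq_zero_iff_dvd]
    exact ⟨-(b * d), by push_cast; ring⟩
  map_zero' := by
    rw [← ez_zero, rdf_ez]
    decide
  map_add' r s := by
    obtain ⟨a, b, rfl⟩ := ez_ex r
    obtain ⟨c, d, rfl⟩ := ez_ex s
    rw [ez_add, rdf_ez, rdf_ez, rdf_ez, ← Int.cast_add]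
    congr 1
    ring

lemma rd_ez (a b : ℤ) : rd (ez a b) = ((a + b : ℤ) : ZMod 3) := rdf_ez a b

lemma rd_unit {a : eis} (h : a - 1 ∈ (sp 3 : Ideal eis)) : rd a = 1 := by
  obtain ⟨t, ht⟩ := Ideal.mem_span_singleton'.1 h
  have h1 : a = t * 3 + 1 := by linear_combination -ht
  have h3 : (3 : ZMod 3) = 0 := by decide
  rw [h1, map_add, map_mul, map_ofNat, h3, mul_zero, map_one, zero_add]

lemma rd_eq_zero {r : eis} (h : rd r = 0) : ∃ t : eis, r = la * t := by
  obtain ⟨a, b, rfl⟩ := ez_ex r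
  rw [rd_ez, ZMod.intCast_zmod_eq_zero_iff_dvd] at h
  obtain ⟨c, hc⟩ := h
  push_cast at hc
  have hb : b = 3 * c - a := by linarith
  subst hb
  -- `(1 + 2 ω) (x + y ω) = (x - 2 y) + (2 x - y) ω`
  refine ⟨ez (2 * c - a) (c - a), ?_⟩
  unfold la
  rw [ez_mul]
  congr 1 <;> ring

/-- the hypotheses on the primes and the characters -/
structure Ch (k : ℕ) (π q : ι → eis) (χ : ι → Ideal eis → ℂ) : Prop where
  eq : ∀ i, π i = 1 + 3 * la * q i
  prime : ∀ i, Prime (π i)
  inj : Function.Injective π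
  card : ∀ i, 3 ^ (k + 1) ∣ Nat.card (eis ⧸ sp (π i)) - 1
  hc : ∀ i, HC 0 (sp (π i)) (χ i)
  pow : ∀ i J, χ i J ≠ 0 → χ i J ^ (3 ^ k) = 1

/-- the exponent modulo three -/
noncomputable def lg (z x : ℂ) : ZMod 3 :=
  open Classical in if h : ∃ n : ℕ, x = z ^ n then ((h.choose : ℕ) : ZMod 3) else 0

lemma lg_pow {z : ℂ} {k : ℕ} (hk : 0 < k) (hz : IsPrimitiveRoot z (3 ^ k)) (n : ℕ) :
    lg z (z ^ n) = (n : ZMod 3) := by
  have h : ∃ m : ℕ, z ^ n = z ^ m := ⟨n, rfl⟩
  unfold lg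
  rw [dif_pos h]
  have h1 := h.choose_spec
  set m := h.choose
  have key : ∀ a b : ℕ, a ≤ b → z ^ a = z ^ b → a ≡ b [MOD 3 ^ k] := by
    intro a b hab h4
    rw [Nat.modEq_iff_dvd' hab]
    apply hz.dvd_of_pow_eq_one
    have hz0 : z ≠ 0 := hz.ne_zero (pow_pos (by norm_num) k).ne'
    have h5 : z ^ a * z ^ (b - a) = z ^ a * 1 := by
      rw [← pow_add, mul_one, h4]
      congr 1
      omega
    exact mul_left_cancel₀ (pow_ne_zero _ hz0) h5
  have h2 : n ≡ m [MOD 3 ^ k] := by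
    rcases le_total n m with h4 | h4
    · exact key n m h4 h1
    · exact (key m n h4 h1.symm).symm
  have h3 : n ≡ m [MOD 3] := h2.of_dvd (dvd_pow_self 3 hk.ne')
  exact ((ZMod.natCast_eq_natCast_iff n m 3).2 h3).symm

variable {k : ℕ} {π q : ι → eis} {χ : ι → Ideal eis → ℂ}

lemma three_coe : ((3 : eis) : ℂ) = 3 := rfl

lemma Ch.mem_three (h : Ch k π q χ) (i : ι) : π i - 1 ∈ (sp 3 : Ideal eis) := by
  rw [Ideal.mem_span_singleton', h.eq i]
  exact ⟨la * q i, by ring⟩

lemma Ch.cop_three (h : Ch k π q χ) (i : ι) : IsCoprime (3 : eis) (π i) :=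
  ⟨-la * q i, 1, by rw [h.eq i]; ring⟩

lemma Ch.max (h : Ch k π q χ) (i : ι) : (sp (π i)).IsMaximal :=
  PrincipalIdealRing.isMaximal_of_irreducible (h.prime i).irreducible

lemma Ch.cop (h : Ch k π q χ) {i j : ι} (hij : i ≠ j) : IsCoprime (π i) (π j) := by
  rw [(h.prime i).irreducible.coprime_iff_not_dvd]
  intro hd
  obtain ⟨u, hu⟩ := (h.prime i).associated_of_dvd (h.prime j) hd
  apply hij
  apply h.inj
  have h1 : (u : eis) = 1 := by
    refine unit_mod u.isUnit isUnit_one ?_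
    obtain ⟨s, hs⟩ := Ideal.mem_span_singleton'.1 (h.mem_three i)
    obtain ⟨t, ht⟩ := Ideal.mem_span_singleton'.1 (h.mem_three j)
    rw [Ideal.mem_span_singleton']
    exact ⟨t - s * u, by linear_combination ht - u * hs - hu⟩
  rw [← hu, h1, mul_one]

lemma fin_quot (p : eis) (hp : p ≠ 0) : Finite (eis ⧸ (sp p : Ideal eis)) :=
  (lbasic eis om qr).1 _ (by
    rw [Ne, Ideal.span_singleton_eq_bot]
    exact hp)

/-- the primes are prime to two -/
lemma Ch.cop_two (h : Ch k π q χ) (hk : 1 ≤ k) (i : ι) : IsCoprime (2 : eis) (π i) := by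
  -- otherwise the residue field would have at most four elements
  have h1 := h.prime i
  rw [isCoprime_comm, h1.irreducible.coprime_iff_not_dvd]
  intro hd
  obtain ⟨t, ht⟩ := hd
  have hfin := fin_quot _ h1.ne_zero
  have hcard := h.card i
  have h2 : Nat.card (eis ⧸ sp (π i)) ≤ 4 := by
    have hsurj : Function.Surjective (fun p : Fin 2 × Fin 2 =>
        Ideal.Quotient.mk (sp (π i)) (ez (p.1 : ℕ) (p.2 : ℕ))) := by
      intro y
      obtain ⟨r, rfl⟩ := Ideal.Quotient.mk_surjective y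
      obtain ⟨a, b, rfl⟩ := ez_ex r
      refine ⟨(⟨(a % 2).toNat, by omega⟩, ⟨(b % 2).toNat, by omega⟩), ?_⟩
      show Ideal.Quotient.mk _ _ = _
      rw [Ideal.Quotient.mk_eq_mk_iff_sub_mem, ez_sub, Ideal.mem_span_singleton']
      refine ⟨-(ez (a / 2) (b / 2) * t), ?_⟩
      have h3 : -(ez (a / 2) (b / 2) * t) * π i = -(2 * ez (a / 2) (b / 2)) := by
        rw [ht]
        ring
      rw [h3]
      have h4 : (2 : eis) = ez 2 0 := by
        rw [ez_int]
        norm_num
      have h5 : ((a % 2).toNat : ℤ) = a % 2 := Int.toNat_of_nonneg (by omega)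
      have h6 : ((b % 2).toNat : ℤ) = b % 2 := Int.toNat_of_nonneg (by omega)
      have h7 : -(2 * ez (a / 2) (b / 2)) = ez (-(2 * (a / 2))) (-(2 * (b / 2))) := by
        unfold ez
        push_cast
        ring
      rw [h7]
      congr 1
      · show _ = ((a % 2).toNat : ℤ) - a
        rw [h5]
        omega
      · show _ = ((b % 2).toNat : ℤ) - b
        rw [h6]
        omega
    have h3 := Nat.card_le_card_of_surjective _ hsurj
    rw [Nat.card_eq_fintype_card (α := Fin 2 × Fin 2), Fintype.card_prod, Fintype.card_fin] at h3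
    exact h3
  have h3 : 2 ≤ Nat.card (eis ⧸ sp (π i)) := by
    have : Nontrivial (eis ⧸ sp (π i)) := Ideal.Quotient.nontrivial_iff.2 (h.max i).ne_top
    exact Finite.one_lt_card
  have h4 : 9 ∣ Nat.card (eis ⧸ sp (π i)) - 1 :=
    (pow_dvd_pow 3 (by omega : 2 ≤ k + 1)).trans hcard
  omega

section fx

variable {Γ : Type*} [LinearOrderedCommGroupWithZero Γ] {v : Valuation ℂ Γ} {z : ℂ}

/-- the functions attached to the characters -/
noncomputable def Xf (χ : ι → Ideal eis → ℂ) (i : ι) : eis → ℂ := xb (χ i)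

lemma sp_unit {u : eis} (hu : IsUnit u) : sp u = (sp 1 : Ideal eis) := by
  rw [Ideal.span_singleton_eq_span_singleton]
  exact associated_one_iff_isUnit.2 hu

lemma chi_one {c : Ideal eis} {θ : Ideal eis → ℂ} (h : HC 0 c θ) : θ (sp 1) = 1 := by
  rw [h.princ 1 one_ne_zero (by rw [sub_self]; exact Submodule.zero_mem _)]
  simp

/-- the cubic symbols, as exponents of the root of unity -/
noncomputable def aa (z : ℂ) (π : ι → eis) (χ : ι → Ideal eis → ℂ) (i j : ι) : ZMod 3 :=
  lg z (Xf χ j (π i))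

theorem fx (hv : v 3 < 1) (hk : 2 ≤ k) (hz : IsPrimitiveRoot z (3 ^ k))
    (h : Ch k π q χ) : Fx v π (Xf χ) z (aa z π χ) (fun i => rd (q i)) := by
  classical
  have hne : ∀ i, π i ≠ 0 := fun i => (h.prime i).ne_zero
  have hX : ∀ i, ∀ [Fintype (eis ⧸ sp (π i))], Xo (π i) (xb (χ i)) := fun i _ =>
    xb_xo lfp qr (h.hc i) (h.max i).ne_top
  have hper : ∀ i x y, x - y ∈ sp (π i) → Xf χ i x = Xf χ i y := by
    intro i x y hxy
    have : Fintype (eis ⧸ sp (π i)) := @Fintype.ofFinite _ (fin_quot _ (hne i))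
    exact (hX i).per x y hxy
  have hmul : ∀ i x y, Xf χ i (x * y) = Xf χ i x * Xf χ i y := by
    intro i x y
    have : Fintype (eis ⧸ sp (π i)) := @Fintype.ofFinite _ (fin_quot _ (hne i))
    exact (hX i).mul x y
  have hcopm : ∀ i x, x ∉ sp (π i) → IsCoprime x (π i) := by
    intro i x hx
    obtain ⟨y, t, ht, hyt⟩ := (h.max i).exists_inv hx
    obtain ⟨w, hw⟩ := Ideal.mem_span_singleton'.1 ht
    exact ⟨y, w, by rw [hw]; exact hyt⟩
  have hXne : ∀ i x, x ∉ sp (π i) → χ i (sp x) ≠ 0 := by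
    intro i x hx h0
    rw [(h.hc i).zero] at h0
    rcases h0 with h0 | h0
    · rw [Ideal.span_singleton_eq_bot] at h0
      rw [h0] at hx
      exact hx (Submodule.zero_mem _)
    · exact h0 ((Ideal.isCoprime_span_singleton_iff x (π i)).2 (hcopm i x hx))
  have hval : ∀ i x, x ∉ sp (π i) → ∃ n : ℕ, Xf χ i x = z ^ n := by
    intro i x hx
    have h3 : Xf χ i x ^ 3 ^ k = 1 := by
      unfold Xf xb
      rw [← map_pow, h.pow i _ (hXne i x hx), map_one]
    obtain ⟨n, -, hn⟩ := hz.eq_pow_of_pow_eq_one h3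
    exact ⟨n, hn.symm⟩
  have hnotmem : ∀ i j, i ≠ j → π i ∉ sp (π j) := fun i j hij =>
    notMem_of_cop (h.max j).ne_top (h.cop hij)
  refine ⟨⟨hne, fun i j hij => h.cop hij, hper, hmul, ?_, ?_⟩, h.cop_two (by omega), h.cop_three,
    h.max, hval, ?_, ?_, ?_, ?_⟩
  · intro i x hx
    have : Fintype (eis ⧸ sp (π i)) := @Fintype.ofFinite _ (fin_quot _ (hne i))
    exact (hX i).zero x hx
  · intro i
    have : Fintype (eis ⧸ sp (π i)) := @Fintype.ofFinite _ (fin_quot _ (hne i))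
    rw [Sm_eq]
    exact (hX i).sum
  · intro i
    unfold Xf xb
    rw [sp_unit omr_unit, chi_one (h.hc i), map_one]
  · -- the cubic symbols
    intro i j hij
    obtain ⟨n, hn⟩ := hval j (π i) (hnotmem i j hij)
    refine ⟨n, hn, ?_⟩
    unfold aa
    rw [hn, lg_pow (by omega) hz]
  · -- the linear terms
    intro i
    obtain ⟨a, b, hab⟩ := ez_ex (q i)
    have h3 : ((π i : ℂ) - 1) / (3 * lam) = a + b * om := by
      rw [h.eq i, hab]
      push_cast
      rw [three_coe, la_coe, ez_coe, div_eq_iff (mul_ne_zero (by norm_num) lam_ne')]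
      ring
    rw [h3]
    have h4 : v ((a + b * om : ℂ) - ((a + b : ℤ) : ℂ)) < 1 := by
      have h5 : (a + b * om : ℂ) - ((a + b : ℤ) : ℂ) = (1 - om) * (-(b : ℤ) : ℤ) := by
        push_cast
        ring
      rw [h5]
      refine (v_mul_le_of le_rfl (Two.v_int _)).trans_lt ?_
      refine cube_lt hv ?_ (z_pow (k := 3) (by norm_num) om_cube)
      rw [om_cube, sub_self, map_zero]
      exact zero_lt_one
    refine Cg.of_sub h4 ?_
    show Cg v _ (rd (q i))
    rw [hab, rd_ez]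
    exact Cg.int hv _
  · -- the norm
    intro i
    obtain ⟨t, ht⟩ := h.card i
    have h4 : 0 < Nat.card (eis ⧸ sp (π i)) := by
      have := fin_quot _ (hne i)
      exact Nat.card_pos
    have h5 : (Nat.card (eis ⧸ sp (π i)) : ℂ) - 1 = 3 ^ 3 * (3 ^ (k - 2) * t : ℕ) := by
      have h6 : Nat.card (eis ⧸ sp (π i)) = 1 + 3 ^ 3 * (3 ^ (k - 2) * t) := by
        have h7 : 3 ^ 3 * (3 ^ (k - 2) * t) = 3 ^ (k + 1) * t := by
          rw [← mul_assoc, ← pow_add]
          congr 2
          omega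
        omega
      rw [h6]
      push_cast
      ring
    rw [h5, ← map_pow]
    exact v_mul_le_of le_rfl (Two.v_nat _)

variable [Fintype ι] [DecidableEq ι]

/-- the product of the characters -/
noncomputable def pr (χ : ι → Ideal eis → ℂ) (S : Finset ι) (J : Ideal eis) : ℂ := ∏ i ∈ S, χ i J

omit [Fintype ι] in
lemma hc_prod (h : Ch k π q χ) (S : Finset ι)
    (hS : S.Nonempty) : HC 0 (sp (cc π S)) (pr χ S) := by
  classical
  induction hS using Finset.Nonempty.cons_induction with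
  | singleton i =>
    have e1 : cc π {i} = π i := Finset.prod_singleton _ _
    have e2 : pr χ {i} = χ i := by
      funext J
      exact Finset.prod_singleton _ _
    rw [e1, e2]
    exact h.hc i
  | cons i S hi hS ih =>
    have e1 : sp (cc π (Finset.cons i S hi)) = sp (π i) * sp (cc π S) := by
      rw [Finset.cons_eq_insert, cc_insert hi]
      exact (Ideal.span_singleton_mul_span_singleton _ _).symm
    have e2 : pr χ (Finset.cons i S hi) = fun J => χ i J * pr χ S J := by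
      funext J
      unfold pr
      rw [Finset.prod_cons]
    rw [e1, e2]
    refine lprod eis om qr 0 _ _ _ _ (h.hc i) ih ?_
    rw [Ideal.isCoprime_span_singleton_iff]
    exact IsCoprime.prod_right fun j hj => h.cop fun e => hi (e ▸ hj)

omit [Fintype ι] [DecidableEq ι] in
lemma nu_eq : nu eis = 6 := by
  unfold nu
  have h1 : Nat.card eisˣ = Nat.card {u : eis // IsUnit u} :=
    Nat.card_congr ⟨fun u => ⟨u, u.isUnit⟩, fun u => u.2.unit, fun u => by ext; simp,
      fun u => by ext; simp⟩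
  rw [h1]
  have h2 : Nat.card {u : eis // IsUnit u} = Set.ncard {u : eis | IsUnit u} := rfl
  rw [h2]
  set f : ℤ × ℤ → eis := fun p => ez p.1 p.2 with hf
  have hinj : Function.Injective f := by
    intro p q hpq
    obtain ⟨h4, h5⟩ := ez_inj hpq
    exact Prod.ext h4 h5
  set S : Finset (ℤ × ℤ) := {(1, 0), (-1, 0), (0, 1), (0, -1), (-1, -1), (1, 1)} with hS
  have h3 : {u : eis | IsUnit u} = f '' (S : Set (ℤ × ℤ)) := by
    have e1 : f (1, 0) = 1 := by simp [hf, ez]
    have e2 : f (-1, 0) = -1 := by simp [hf, ez]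
    have e3 : f (0, 1) = omr := by simp [hf, ez]
    have e4 : f (0, -1) = -omr := by simp [hf, ez]
    have e5 : f (-1, -1) = omr ^ 2 := by
      simp only [hf, ez]
      push_cast
      linear_combination (-1 : eis) * omr_sq
    have e6 : f (1, 1) = -omr ^ 2 := by
      simp only [hf, ez]
      push_cast
      linear_combination omr_sq
    ext u
    rw [Set.mem_ofPred_eq, unit_list, hS]
    push_cast
    simp only [Set.image_insert_eq, Set.image_singleton, e1, e2, e3, e4, e5, e6]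
  rw [h3, Set.ncard_image_of_injective _ hinj, Set.ncard_coe_finset]
  decide

set_option maxHeartbeats 1600000 in
/-- **The valuation of the normalized central values.** -/
theorem val_eq (hk : 2 ≤ k) (hz : IsPrimitiveRoot z (3 ^ k)) (h : Ch k π q χ)
    {S : Finset ι} (hS : S.Nonempty) :
    ∃ F : ℂ → ℂ, Differentiable ℂ F ∧
      (∀ z : ℂ, 3 / 2 < z.re →
        HasSum (fun J : Ideal eis => psi J * pr χ S J * (nm J : ℂ) ^ (-z)) (F z)) ∧
      ∀ {Γ : Type} [LinearOrderedCommGroupWithZero Γ] (v : Valuation ℂ Γ), v 3 < 1 →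
      ∀ (L : PeriodPair) (Ω : ℂ), Cur L Ω →
        ∃ s : ℂ, Cg v s (D (aa z π χ) (fun i => rd (q i)) S) ∧
          v ((starRingEnd ℂ) (F 1) / Ω) = v (1 - z) ^ (S.card - 1) * v s := by
  classical
  have hne : ∀ i, π i ≠ 0 := fun i => (h.prime i).ne_zero
  have hcS : cc π S ≠ 0 := Finset.prod_ne_zero_iff.2 fun i _ => hne i
  have hprod := hc_prod h S hS
  have hcop : IsCoprime (3 : eis) (cc π S) := Fm.cop_f h.cop_three S
  obtain ⟨F, g1, g2, g3⟩ := val lbasic lfp lcnt ldec lafe lprod qr hc_psi hprod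
    ((Ideal.isCoprime_span_singleton_iff _ _).2 hcop)
  refine ⟨F, g1, g2, ?_⟩
  intro Γ _ v hv L Ω hC
  have hF := fx (v := v) hv hk hz h
  have hzt := zt_of_prim hv (by omega) hz
  have : Fintype (eis ⧸ (sp 3 : Ideal eis)) := @Fintype.ofFinite _ (fin_quot _ three_ne)
  have : Fintype (eis ⧸ sp (cc π S)) := @Fintype.ofFinite _ (fin_quot _ hcS)
  have hct := hF.cc_top hS
  have g4 := g3 hct L Ω hC.lat
  have hcg := sT_cg hv hC fin_quot hF hzt h.mem_three S hS
  refine ⟨_, hcg, ?_⟩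
  have hκ := kap_ne hC
  have hΩ := hC.lat.ne
  -- the sum
  have hXo := xb_xo lfp qr hprod hct
  have hXT : ∀ x : eis, XT (Xf χ) S x = xb (pr χ S) x := by
    intro x
    unfold XT Xf xb pr
    rw [map_prod]
  have hSP : SP L Ω 3 (ee psi) (kap L Ω) π (Xf χ) S =
      ∑ x : eis ⧸ sp (cc π S), xb (pr χ S) x.out * HH L Ω 3 (ee psi) (Ω * x.out / cc π S) := by
    unfold SP
    rw [Sm_eq]
    have h8 : ∀ x : eis ⧸ sp (cc π S), XT (Xf χ) S x.out *
        Ph L Ω 3 (ee psi) (kap L Ω) (cc π S) x.out =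
        xb (pr χ S) x.out * HH L Ω 3 (ee psi) (Ω * x.out / cc π S) +
          xb (pr χ S) x.out * kap L Ω := by
      intro x
      rw [hXT]
      by_cases hx : x.out ∈ sp (cc π S)
      · rw [hXo.zero _ hx]
        ring
      · rw [Ph_of_notMem hx]
        ring
    rw [Finset.sum_congr rfl fun x _ => h8 x, Finset.sum_add_distrib, ← Finset.sum_mul, hXo.sum,
      zero_mul, add_zero]
  rw [← hSP, nu_eq] at g4
  -- the valuations
  have he1 : ee psi 1 = 1 := by
    rw [ee_u isUnit_one]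
    rfl
  obtain ⟨-, -, f3, -, -⟩ := lfp eis om qr 1 (sp 3) psi hc_psi (by
    exact three_top)
  have v1 : v (ee psi (cc π S)) = 1 := by
    refine eo.unit he1 ?_
    intro h0
    have h8 : fp 1 psi (cc π S) = 0 := by
      unfold ee at h0
      rwa [map_eq_zero] at h0
    rw [f3] at h8
    exact h8 ((Ideal.isCoprime_span_singleton_iff _ _).2 hcop.symm)
  have v2 : v (xb (pr χ S) 3) = 1 := by
    refine mper_unit hXo.per hXo.mul ?_ ?_
    · unfold xb
      rw [chi_one hprod, map_one]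
    · intro h0
      unfold xb at h0
      rw [map_eq_zero, hprod.zero] at h0
      rcases h0 with h0 | h0
      · rw [Ideal.span_singleton_eq_bot] at h0
        exact Pool.Agent.Y696.three_ne h0
      · exact h0 ((Ideal.isCoprime_span_singleton_iff _ _).2 hcop)
  have hl1 := lam_lt hv
  have v3 : v (cc π S : eis) = 1 := by
    unfold cc
    push_cast
    rw [map_prod]
    refine Finset.prod_eq_one fun i _ => ?_
    apply v_unit
    have h8 : ((π i : ℂ) - 1) = 3 * lam * (((π i : ℂ) - 1) / (3 * lam)) := by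
      have := lam_ne'
      field_simp
    rw [h8]
    refine (v_mul_le_of le_rfl (hF.lin i).le).trans_lt ?_
    rw [map_mul]
    exact (mul_le_mul' hv.le le_rfl).trans_lt (by rwa [one_mul])
  have v4 : v (kap L Ω) = v lam := by
    unfold kap
    have h8 : v (℘[L] (Ω / 3)) = 1 := by
      refine z_pow (k := 6) (by norm_num) ?_
      have := hC.x0
      linear_combination (℘[L] (Ω / 3) ^ 3 - 1) * this
    have h9 : v (℘'[L] (Ω / 3)) ^ 2 = v lam ^ 2 := by
      rw [← map_pow, hC.y0, v.map_neg, pow_two, sq_three]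
    rw [map_mul, map_mul, map_pow, h8, one_pow, mul_one, v_two hv, one_mul]
    exact (pow_left_inj₀ zero_le zero_le two_ne_zero).1 h9
  have hf0 : ((3 : eis) : ℂ) ≠ 0 := coe_ne Pool.Agent.Y696.three_ne
  have hc0 : ((cc π S : eis) : ℂ) ≠ 0 := coe_ne hcS
  have e1 : (starRingEnd ℂ) (F 1) / Ω = (6 : ℂ)⁻¹ * (((3 : eis) : ℂ)⁻¹ *
      ((cc π S : eis) : ℂ)⁻¹ * (ee psi (cc π S) * xb (pr χ S) 3)) *
      SP L Ω 3 (ee psi) (kap L Ω) π (Xf χ) S := by
    have e2 : (starRingEnd ℂ) (F 1) = (6 : ℂ)⁻¹ * (((6 : ℕ) : ℂ) * (starRingEnd ℂ) (F 1)) := by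
      push_cast
      ring
    rw [e2, g4]
    field_simp
  have hz1 := hzt.ne
  have e3 : SP L Ω 3 (ee psi) (kap L Ω) π (Xf χ) S =
      kap L Ω * (3 * lam * (1 - z) ^ (S.card - 1)) * sT L Ω π (Xf χ) z S := by
    unfold sT
    rw [mul_div_cancel₀]
    exact mul_ne_zero hκ (mul_ne_zero (mul_ne_zero (by norm_num) lam_ne') (pow_ne_zero _ hz1))
  have hv3 : v 3 ≠ 0 := Three.three_ne
  have hvl : v lam ≠ 0 := lam_ne
  rw [e1, e3, three_coe]
  simp only [map_mul, map_inv₀, v1, v2, v3, v4, v_six hv, inv_one, mul_one, map_pow]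
  have h10 : v 3 = v lam * v lam := sq_three.symm
  rw [h10]
  field_simp

end fx

end Pool.Agent.Y715.T.LF
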