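import Mathlib
import Pool.Agent.Y715.T.LF
import Pool.Agent.Y715.T.Ex
import Pool.Agent.Y715.T.Sel2
import Pool.Agent.Y696.Hex

/-!
# The values of the `L`-functions, final form
-/

set_option autoImplicit false
set_option linter.unusedSectionVars false

namespace Pool.Agent.Y715.T.Fin

open Pool.Agent.Y692.QS Pool.Agent.Y696
open Pool.Agent.Y715.T.Rs Pool.Agent.Y715.T.Tf Pool.Agent.Y715.T.LF Pool.Agent.Y715.T.Ex
open Pool.Agent.Y715.T.Comb Pool.Agent.Y715.T.Rec Pool.Agent.Y715.T.Cg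
open Pool.Agent.W192.HK Pool.Agent.TH936.CM

variable {J : Type} [Fintype J] [DecidableEq J] {π : J → Ei} {e : J → ZMod 3}

/-! ### Roots of unity -/

lemma toC_w_ne : toC w ≠ 1 := by
  intro h
  have h1 : (w : Ei) = 1 := toC_inj (by rw [h, map_one])
  exact absurd h1 (by decide)

lemma toC_w_cube : toC w ^ 3 = 1 := by rw [← map_pow, w_cube, map_one]

lemma prim_w : IsPrimitiveRoot (toC w) 3 := by
  rw [← orderOf_eq_prime toC_w_cube toC_w_ne]
  exact IsPrimitiveRoot.orderOf _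

lemma prim_of {k : ℕ} (hk : 1 ≤ k) {z : ℂ} (hz : z ^ 3 ^ (k - 1) = toC w) :
    IsPrimitiveRoot z (3 ^ k) := by
  obtain ⟨j, rfl⟩ : ∃ j, k = j + 1 := ⟨k - 1, by omega⟩
  rw [Nat.add_sub_cancel] at hz
  have h1 : orderOf z = 3 ^ (j + 1) := by
    have : Fact (Nat.Prime 3) := ⟨Nat.prime_three⟩
    apply orderOf_eq_prime_pow
    · rw [hz]
      exact toC_w_ne
    · rw [pow_succ, pow_mul, hz, toC_w_cube]
  rw [← h1]
  exact IsPrimitiveRoot.orderOf z

lemma w_pow_mod {m n : ℕ} (h : toC w ^ m = toC w ^ n) : (m : ZMod 3) = n := by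
  have h1 : ∀ n : ℕ, toC w ^ n = toC w ^ (n % 3) := by
    intro n
    conv_lhs => rw [← Nat.div_add_mod n 3]
    rw [pow_add, pow_mul, toC_w_cube, one_pow, one_mul]
  rw [h1 m, h1 n] at h
  have h2 := prim_w.pow_inj (Nat.mod_lt m (by norm_num)) (Nat.mod_lt n (by norm_num)) h
  rw [ZMod.natCast_eq_natCast_iff]
  exact h2

lemma norm_root {z : ℂ} {n : ℕ} (hn : n ≠ 0) (h : z ^ n = 1) : (starRingEnd ℂ) z = z⁻¹ := by
  have h1 : ‖z‖ = 1 := Complex.norm_eq_one_of_pow_eq_one h hn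
  rw [Complex.inv_def, Complex.normSq_eq_norm_sq, h1]
  simp

lemma star_fix {Γ : Type} [LinearOrderedCommGroupWithZero Γ] (v : Valuation ℂ Γ) {n : ℕ} {z : ℂ}
    (hn : n ≠ 0) (hz : z ^ n = 1) : v (1 - (starRingEnd ℂ) z) = v (1 - z) := by
  have hz0 : z ≠ 0 := by
    rintro rfl
    rw [zero_pow hn] at hz
    exact zero_ne_one hz
  have hv : v z = 1 := z_pow (by omega : 0 < n) hz
  have h2 : 1 - z⁻¹ = -(1 - z) * z⁻¹ := by
    field_simp
    ring
  rw [norm_root hn hz, h2, map_mul, Valuation.map_neg, map_inv₀, hv, inv_one, mul_one]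

/-- there is a place over three -/
lemma exists_over_three : ∃ V : ValuationSubring ℂ, V.valuation (3 : ℂ) < 1 := by
  have h1 : (3 : ℂ)⁻¹ ∉ (integralClosure ℤ ℂ).toSubring := by
    intro h
    have h2 : IsIntegral ℤ ((3 : ℂ)⁻¹) := h
    have h5 : IsIntegral ℤ ((3 : ℚ)⁻¹) := by
      rw [← isIntegral_algebraMap_iff (algebraMap ℚ ℂ).injective]
      simpa using h2
    obtain ⟨y, hy⟩ := IsIntegrallyClosed.isIntegral_iff.mp h5
    have h6 : (y : ℚ) * 3 = 1 := by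
      have : (y : ℚ) = (3 : ℚ)⁻¹ := hy
      rw [this, inv_mul_cancel₀ (by norm_num)]
    have h7 : y * 3 = 1 := by exact_mod_cast h6
    omega
  obtain ⟨V, -, hV⟩ := Subring.exists_le_valuationSubring_of_isIntegrallyClosedIn h1
  refine ⟨V, ?_⟩
  rw [← ValuationSubring.valuation_le_one_iff, not_le, map_inv₀] at hV
  exact (one_lt_inv₀ (zero_lt_iff.mpr ((Valuation.ne_zero_iff _).mpr (by norm_num)))).mp hV

/-! ### Transfer -/

lemma eq0_ez (a b : ℤ) : eq0 (⟨a, b⟩ : Ei) = Lat.ez a b := by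
  apply Subtype.ext
  rw [eq0_coe, toC_eq, Lat.ez_coe]

lemma eq0_la : eq0 Rec.la = Lat.la := eq0_ez 1 2

/-- the linear terms -/
lemma exists_q (hpr : ∀ j, Pr (π j)) : ∃ q : J → eis, ∀ j, eq0 (π j) = 1 + 3 * Lat.la * q j := by
  have h : ∀ j, ∃ q : eis, eq0 (π j) = 1 + 3 * Lat.la * q := by
    intro j
    obtain ⟨t, ht⟩ := (hpr j).three
    refine ⟨eq0 t, ?_⟩
    have h1 : π j = 1 + 3 * Rec.la * t := by rw [← ht]; ring
    rw [h1, map_add, map_mul, map_mul, map_one, map_ofNat, eq0_la]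
  choose q hq using h
  exact ⟨q, hq⟩

lemma pow_form (q : eis) (n : ℕ) : ∃ T : eis, (1 + 3 * Lat.la * q) ^ n = 1 + 3 * Lat.la * T ∧
    rd T = n * rd q := by
  have h3 : rd 3 = 0 := by
    rw [map_ofNat]
    rfl
  induction n with
  | zero => exact ⟨0, by simp, by simp⟩
  | succ n ih =>
    obtain ⟨T, h1, h2⟩ := ih
    refine ⟨T + q + 3 * (Lat.la * T * q), ?_, ?_⟩
    · rw [pow_succ, h1]
      ring
    · rw [map_add, map_add, map_mul, h3, h2]
      push_cast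
      ring

lemma prod_form (q : J → eis) (n : J → ℕ) (S : Finset J) :
    ∃ T : eis, ∏ j ∈ S, (1 + 3 * Lat.la * q j) ^ n j = 1 + 3 * Lat.la * T ∧
      rd T = ∑ j ∈ S, n j * rd (q j) := by
  have h3 : rd 3 = 0 := by
    rw [map_ofNat]
    rfl
  induction S using Finset.induction_on with
  | empty => exact ⟨0, by simp, by simp⟩
  | insert i S hi ih =>
    obtain ⟨T, h1, h2⟩ := ih
    obtain ⟨U, h4, h5⟩ := pow_form (q i) (n i)
    refine ⟨T + U + 3 * (Lat.la * T * U), ?_, ?_⟩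
    · rw [Finset.prod_insert hi, h1, h4]
      ring
    · rw [Finset.sum_insert hi, map_add, map_add, map_mul, h3, h2, h5]
      ring

/-- the linear condition -/
lemma sum_ne (hodd : ¬ (9 : Ei) ∣ ∏ j, π j ^ (e j).val - 1) {q : J → eis}
    (hq : ∀ j, eq0 (π j) = 1 + 3 * Lat.la * q j) : ∑ j, e j * rd (q j) ≠ 0 := by
  intro h0
  obtain ⟨T, h1, h2⟩ := prod_form q (fun j => (e j).val) Finset.univ
  have h3 : rd T = 0 := by
    rw [h2, ← h0]
    refine Finset.sum_congr rfl fun j _ => ?_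
    rw [ZMod.natCast_zmod_val]
  obtain ⟨t, ht⟩ := rd_eq_zero h3
  apply hodd
  refine ⟨eq0.symm (-t), ?_⟩
  apply eq0.injective
  rw [map_sub, map_prod, map_one, map_mul, RingEquiv.apply_symm_apply, map_ofNat]
  have h4 : ∏ j, eq0 (π j ^ (e j).val) = ∏ j, (1 + 3 * Lat.la * q j) ^ (e j).val :=
    Finset.prod_congr rfl fun j _ => by rw [map_pow, hq]
  have h5 : Lat.la * Lat.la = -3 := by
    rw [← eq0_la, ← map_mul, Rec.la_sq, map_neg, map_ofNat]
  rw [h4, h1, ht]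
  linear_combination (3 * t) * h5

/-- the matrix -/
lemma aa_eq {k : ℕ} (hk : 1 ≤ k) (hpr : ∀ j, Pr (π j))
    (hN : ∀ j, (3 : ℤ) ^ (k + 1) ∣ nr (π j) - 1)
    {lam : ∀ j, MulChar (Ei ⧸ Ideal.span {π j}) ℂ} (hl : ∀ j, lam j ^ (3 ^ k) = 1)
    {z : ℂ} (hz : z ^ 3 ^ (k - 1) = toC w)
    (hres : ∀ j (x : Ei), ¬ π j ∣ x →
      lam j (Ideal.Quotient.mk _ x) ^ 3 ^ (k - 1) = toC w ^ (e j * cs (π j) x).val)
    {i j : J} (hij : ¬ π j ∣ π i) :
    aa z (fun j => eq0 (π j)) (fun j I => hc (lam j) (dn I)) i j = -(e j * cs (π j) (π i)) := by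
  have hk0 : k ≠ 0 := by omega
  have hprim := prim_of hk hz
  set μ := lam j (Ideal.Quotient.mk _ (π i)) with hμ
  have hμ1 : μ ^ 3 ^ k = 1 := by
    have h1 : hc (lam j) (Ideal.span {π i}) = μ := hc_span (hpr j).prime (hN j) hk0 (hl j) _
    have h2 : μ ≠ 0 := fun h => hij ((lam_zero (hpr j).prime).1 h)
    have h3 := hc_pow (hpr j).prime (hN j) (hl j) (I := Ideal.span {π i}) (by rw [h1]; exact h2)
    rwa [h1] at h3
  have hX : Xf (fun j I => hc (lam j) (dn I)) j (eq0 (π i)) = (starRingEnd ℂ) μ := by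
    show (starRingEnd ℂ) (hc (lam j) (dn (sp (eq0 (π i))))) = _
    rw [dn_sp, RingEquiv.symm_apply_apply, hc_span (hpr j).prime (hN j) hk0 (hl j)]
  obtain ⟨n, -, hn⟩ := hprim.eq_pow_of_pow_eq_one hμ1
  have h1 := hres j (π i) hij
  rw [← hμ, ← hn, ← pow_mul, mul_comm, pow_mul, hz] at h1
  have h2 := w_pow_mod h1
  rw [ZMod.natCast_zmod_val] at h2
  have hpos : 1 ≤ 3 ^ k := Nat.one_le_pow _ _ (by norm_num)
  have h4 : (starRingEnd ℂ) μ = z ^ (n * (3 ^ k - 1)) := by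
    have h5 := norm_root (by positivity : 3 ^ k ≠ 0) hμ1
    rw [h5, inv_eq_iff_eq_inv, ← hn, eq_comm, inv_eq_iff_eq_inv]
    apply eq_inv_of_mul_eq_one_left
    rw [← pow_add]
    have e1 : n * (3 ^ k - 1) + n = 3 ^ k * n := by
      obtain ⟨c, hc⟩ : ∃ c, 3 ^ k = c + 1 := ⟨3 ^ k - 1, by omega⟩
      rw [hc, Nat.add_sub_cancel]
      ring
    rw [e1, pow_mul, hprim.pow_eq_one, one_pow]
  unfold aa
  show LF.lg z (Xf (fun j I => hc (lam j) (dn I)) j (eq0 (π i))) = _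
  rw [hX, h4, lg_pow (by omega) hprim]
  have h6 : ((3 ^ k - 1 : ℕ) : ZMod 3) = -1 := by
    rw [Nat.cast_sub hpos]
    push_cast
    have : (3 : ZMod 3) = 0 := rfl
    rw [this, zero_pow hk0]
    ring
  rw [Nat.cast_mul, h6, h2]
  ring

/-! ### The values -/

theorem analytic {k : ℕ} (hk : 2 ≤ k) (hpr : ∀ j, Pr (π j))
    (hnd : ∀ i j, i ≠ j → ¬ π j ∣ π i)
    (hN : ∀ j, (3 : ℤ) ^ (k + 1) ∣ nr (π j) - 1) (he0 : ∀ j, e j ≠ 0)
    (hker : ∀ v : J → ZMod 3, (∀ j, ∑ i, Sel.aij π e i j * (v i - v j) = 0) → ∀ i j, v i = v j)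
    (hsum : ∀ q : J → eis, (∀ j, eq0 (π j) = 1 + 3 * Lat.la * q j) → ∑ j, e j * rd (q j) ≠ 0)
    {lam : ∀ j, MulChar (Ei ⧸ Ideal.span {π j}) ℂ} (hl : ∀ j, orderOf (lam j) = 3 ^ k)
    {z : ℂ} (hz : z ^ 3 ^ (k - 1) = toC w)
    (hres : ∀ j (x : Ei), ¬ π j ∣ x →
      lam j (Ideal.Quotient.mk _ x) ^ 3 ^ (k - 1) = toC w ^ (e j * cs (π j) x).val) :
    ∃ F : ℂ → ℂ, Differentiable ℂ F ∧
      (∀ s : ℂ, 3 / 2 < s.re → HasSum (fun α : {α : Ei // (3 : Ei) ∣ α - 1} => toC α *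
        (∏ j, lam j (Ideal.Quotient.mk _ α)) * ((nr α : ℤ) : ℂ) ^ (-s)) (F s)) ∧ F 1 ≠ 0 ∧
      ∀ (Γ : Type) [LinearOrderedCommGroupWithZero Γ] (v : Valuation ℂ Γ), v 3 < 1 →
        ∀ (L : PeriodPair) (Ω : ℝ) (ξ : ℂ), ξ ^ 12 = 1 → Cur L (Ω * ξ) →
          v (F 1 / Ω) = v (1 - z) ^ (Fintype.card J - 1) ∧
          v ((starRingEnd ℂ) (F 1) / Ω) = v (1 - z) ^ (Fintype.card J - 1) := by
  classical
  have hk0 : k ≠ 0 := by omega
  have hprim := prim_of (by omega : 1 ≤ k) hz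
  have hl1 : ∀ j, lam j ^ (3 ^ k) = 1 := fun j => by rw [← hl j]; exact pow_orderOf_eq_one _
  obtain ⟨q, hq⟩ := exists_q hpr
  have hne : Nonempty J := by
    by_contra hcon
    rw [not_nonempty_iff] at hcon
    apply hsum q hq
    rw [Finset.univ_eq_empty, Finset.sum_empty]
  have hch : Ch k (fun j => eq0 (π j)) q (fun j I => hc (lam j) (dn I)) := by
    refine ⟨hq, ?_, ?_, ?_, ?_, ?_⟩
    · intro j
      exact (MulEquiv.prime_iff (eq0 : Ei ≃* eis)).2 (hpr j).prime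
    · intro i j h
      by_contra hij
      apply hnd i j hij
      rw [eq0.injective h]
    · intro j
      have h1 := card_quo (π j)
      have h2 : Nat.card (eis ⧸ sp (eq0 (π j))) = Nat.card (Ei ⧸ Ideal.span {π j}) := by
        rw [← up_sp, card_up]
      show 3 ^ (k + 1) ∣ Nat.card (eis ⧸ sp (eq0 (π j))) - 1
      rw [h2]
      have h3 := hN j
      rw [← h1] at h3
      have hfin := fin_quo (hpr j).prime.ne_zero
      have h4 : 0 < Nat.card (Ei ⧸ Ideal.span {π j}) := Nat.card_pos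
      obtain ⟨c, hc⟩ := Nat.exists_eq_add_of_lt h4
      rw [hc] at h3 ⊢
      have h5 : ((0 + c + 1 : ℕ) : ℤ) - 1 = (c : ℤ) := by push_cast; ring
      rw [h5] at h3
      have h6 : 0 + c + 1 - 1 = c := by omega
      rw [h6]
      exact_mod_cast h3
    · intro j
      have h1 := (hk_of (hpr j).prime (hN j) hk0 (hl j)).hc
      rw [up_sp] at h1
      exact h1
    · intro j I hI
      exact hc_pow (hpr j).prime (hN j) (hl1 j) hI
  obtain ⟨F, hF1, hF2, hF3⟩ := val_eq hk hprim hch (S := Finset.univ) Finset.univ_nonempty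
  set A := aa z (fun j => eq0 (π j)) (fun j I => hc (lam j) (dn I)) with hA
  have hAij : ∀ i j, i ≠ j → A i j = -(e j * cs (π j) (π i)) := fun i j hij =>
    aa_eq (by omega) hpr hN hl1 hz hres (hnd i j hij)
  have hD : D A (fun i => rd (q i)) Finset.univ ≠ 0 := by
    refine D_ne (ε := e) Finset.univ_nonempty (fun i _ => he0 i) ?_ ?_ (hsum q hq)
    · intro i _ j _ hij
      rw [hAij i j hij, hAij j i hij.symm, RecC.cs_comm_all (hpr i) (hpr j) (hnd i j hij)]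
      ring
    · intro v hv i _ j _
      refine hker v (fun j => ?_) i j
      have h1 := hv j (Finset.mem_univ j)
      rw [← h1]
      refine Finset.sum_congr rfl fun i _ => ?_
      by_cases hij : i = j
      · rw [hij, sub_self, mul_zero, mul_zero]
      · unfold Sel.aij
        rw [hAij j i (Ne.symm hij), RecC.cs_comm_all (hpr i) (hpr j) (hnd i j hij)]
        ring
  have hval : ∀ {Γ : Type} [LinearOrderedCommGroupWithZero Γ] (v : Valuation ℂ Γ), v 3 < 1 →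
      ∀ (L : PeriodPair) (θ : ℂ), Cur L θ →
        v ((starRingEnd ℂ) (F 1) / θ) = v (1 - z) ^ (Fintype.card J - 1) := by
    intro Γ _ v hv L θ hL
    obtain ⟨s, hs1, hs2⟩ := hF3 v hv L θ hL
    rw [hs2, hs1.eq_one hv hD, mul_one, Finset.card_univ]
  refine ⟨F, hF1, ?_, ?_, ?_⟩
  · intro s hs
    exact (sum_iff hk0 (fun j => (hpr j).prime) hN hl1).1 (hF2 s hs)
  · intro h0
    obtain ⟨B, hB⟩ := exists_over_three
    obtain ⟨θ, hθ, hL⟩ := exists_cur
    have h1 := hval B.valuation hB _ _ hL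
    rw [h0, map_zero, zero_div, map_zero] at h1
    have h2 : B.valuation (1 - z) ≠ 0 := by
      rw [Valuation.ne_zero_iff, sub_ne_zero]
      exact (hprim.ne_one (Nat.one_lt_pow hk0 (by norm_num))).symm
    exact pow_ne_zero _ h2 h1.symm
  · intro Γ _ v hv L Ω ξ hξ hL
    have hξv : ∀ u : Valuation ℂ Γ, u ξ = 1 := fun u => z_pow (by norm_num : 0 < 12) hξ
    have key : ∀ u : Valuation ℂ Γ, u 3 < 1 →
        u ((starRingEnd ℂ) (F 1) / Ω) = u (1 - z) ^ (Fintype.card J - 1) := by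
      intro u hu
      have h1 := hval u hu L _ hL
      rw [map_div₀, map_mul, hξv u, mul_one, ← map_div₀] at h1
      exact h1
    refine ⟨?_, key v hv⟩
    have h1 := key (v.comap (starRingEnd ℂ)) (by
      rw [Valuation.comap_apply, map_ofNat]
      exact hv)
    rw [Valuation.comap_apply, Valuation.comap_apply, map_div₀, Complex.conj_conj,
      Complex.conj_ofReal, map_sub, map_one,
      star_fix v (by positivity : 3 ^ k ≠ 0) hprim.pow_eq_one] at h1
    exact h1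

end Pool.Agent.Y715.T.Fin
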