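import Mathlib
import Pool.Agent.W327.RK.FrobA
import Pool.Agent.Y715.T.Nr

/-!
# Frobenius elements
-/

set_option autoImplicit false
set_option linter.unusedSectionVars false

namespace Pool.Agent.Y715.T.Fro

open Pool.Agent.Y715.T.Nr Pool.Agent.Y715.T.Red

variable {p : ℕ} [Fact p.Prime]

lemma closed_eq (x y : PadicAlgCl p) : IsClosed {φ : Au p | φ x = y} := by
  by_cases h : ∃ φ₀ : Au p, φ₀ x = y
  · obtain ⟨φ₀, h0⟩ := h
    have h1 : IsClosed (MulAction.stabilizer (Au p) x : Set (Au p)) :=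
      Subgroup.isClosed_of_isOpen _ (stabilizer_isOpen_of_isIntegral x)
    have h2 : {φ : Au p | φ x = y} =
        (fun φ => φ₀⁻¹ * φ) ⁻¹' (MulAction.stabilizer (Au p) x : Set (Au p)) := by
      apply Set.ext
      intro φ
      rw [Set.mem_ofPred_eq, Set.mem_preimage, SetLike.mem_coe, MulAction.mem_stabilizer_iff,
        mul_smul, inv_smul_eq_iff]
      show φ x = y ↔ φ x = φ₀ x
      rw [h0]
    rw [h2]
    exact h1.preimage (continuous_const_mul _)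
  · have h2 : {φ : Au p | φ x = y} = ∅ := by
      apply Set.eq_empty_of_forall_notMem
      intro φ hφ
      exact h ⟨φ, hφ⟩
    rw [h2]
    exact isClosed_empty

/-- the automorphisms that act as the Frobenius map on roots of unity -/
def FS (p : ℕ) [Fact p.Prime] (M : ℕ) : Set (Au p) :=
  {φ | ∀ ζ : PadicAlgCl p, ζ ^ M = 1 → φ ζ = ζ ^ p}

lemma FS_closed (M : ℕ) : IsClosed (FS p M) := by
  have h : FS p M = ⋂ (ζ : PadicAlgCl p) (_ : ζ ^ M = 1), {φ : Au p | φ ζ = ζ ^ p} := by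
    apply Set.ext
    intro φ
    simp only [FS, Set.mem_ofPred_eq, Set.mem_iInter]
  rw [h]
  exact isClosed_iInter fun ζ => isClosed_iInter fun _ => closed_eq _ _

lemma FS_nonempty {M : ℕ} (hM : ¬ p ∣ M) : (FS p M).Nonempty := by
  have hM0 : M ≠ 0 := by
    rintro rfl
    exact hM (dvd_zero p)
  have : NeZero (M : PadicAlgCl p) := ⟨by exact_mod_cast hM0⟩
  obtain ⟨ζ, hζ⟩ := HasEnoughRootsOfUnity.exists_primitiveRoot (PadicAlgCl p) M
  obtain ⟨φ, hφ⟩ := Pool.Agent.W327.RK.exists_frob hM hζ.pow_eq_one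
  refine ⟨φ, fun ξ hξ => ?_⟩
  have : NeZero M := ⟨hM0⟩
  obtain ⟨i, -, rfl⟩ := hζ.eq_pow_of_pow_eq_one hξ
  rw [map_pow, hφ, ← pow_mul, ← pow_mul, mul_comm]

theorem exists_Frob (p : ℕ) [Fact p.Prime] : ∃ φ : Au p, ∀ M : ℕ, ¬ p ∣ M →
    ∀ ζ : PadicAlgCl p, ζ ^ M = 1 → φ ζ = ζ ^ p := by
  have hpp : p.Prime := Fact.out
  have : Nonempty {M : ℕ // ¬ p ∣ M} := ⟨⟨1, hpp.not_dvd_one⟩⟩
  obtain ⟨φ, hφ⟩ := IsCompact.nonempty_iInter_of_directed_nonempty_isCompact_isClosed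
    (fun M : {M : ℕ // ¬ p ∣ M} => FS p M.1) (fun M N => by
      refine ⟨⟨M.1 * N.1, fun h => ?_⟩, ?_, ?_⟩
      · rcases (hpp.dvd_mul).1 h with h | h
        · exact M.2 h
        · exact N.2 h
      · intro φ hφ ζ hζ
        exact hφ ζ (by rw [pow_mul, hζ, one_pow])
      · intro φ hφ ζ hζ
        have h1 : ζ ^ (M.1 * N.1) = 1 := by rw [mul_comm, pow_mul, hζ, one_pow]
        exact hφ ζ h1) (fun M => FS_nonempty M.2)
    (fun M => (FS_closed M.1).isCompact) (fun M => FS_closed M.1)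
  rw [Set.mem_iInter] at hφ
  exact ⟨φ, fun M hM => hφ ⟨M, hM⟩⟩

/-- acting as a power map on the residue field -/
def AsPow (τ : Au p) (q : ℕ) : Prop := ∀ z : PadicAlgCl p, ‖z‖ ≤ 1 → ‖τ z - z ^ q‖ < 1

theorem exists_pow (f : ℕ) : ∃ τ : Au p, AsPow τ (p ^ f) ∧
    ∀ M : ℕ, ¬ p ∣ M → ∀ ζ : PadicAlgCl p, ζ ^ M = 1 → τ ζ = ζ ^ (p ^ f) := by
  obtain ⟨φ, hφ⟩ := exists_Frob p
  have h1 : ∀ M : ℕ, ¬ p ∣ M → ∀ ζ : PadicAlgCl p, ζ ^ M = 1 → (φ ^ f) ζ = ζ ^ (p ^ f) := by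
    intro M hM ζ hζ
    induction f with
    | zero => rw [pow_zero, pow_zero, pow_one, AlgEquiv.one_apply]
    | succ f ih =>
      rw [pow_succ', AlgEquiv.mul_apply, ih, map_pow, hφ M hM ζ hζ, ← pow_mul, pow_succ']
  refine ⟨φ ^ f, fun z hz => ?_, h1⟩
  obtain ⟨c, hc, hzc⟩ := Pool.Agent.W571.RK.l3 p z hz
  have hpf : p ^ f ≠ 0 := pow_ne_zero f (Fact.out : p.Prime).ne_zero
  have h2 : (φ ^ f) c = c ^ (p ^ f) := by
    rcases hc with rfl | ⟨M, hM, hcM⟩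
    · rw [map_zero, zero_pow hpf]
    · exact h1 M hM c hcM
  have hc1 : ‖c‖ ≤ 1 := by
    have e : c = z - (z - c) := by ring
    rw [e]
    exact sub_le hz hzc.le
  have e : (φ ^ f) z - z ^ (p ^ f) = (φ ^ f) (z - c) - (z ^ (p ^ f) - c ^ (p ^ f)) := by
    rw [map_sub, h2]
    ring
  rw [e]
  refine sub_lt (by rwa [nrm]) ?_
  have e2 : z ^ (p ^ f) - c ^ (p ^ f) =
      (∑ i ∈ Finset.range (p ^ f), z ^ i * c ^ (p ^ f - 1 - i)) * (z - c) :=
    ((Commute.all z c).geom_sum₂_mul (p ^ f)).symm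
  rw [e2, norm_mul]
  have h3 : ‖∑ i ∈ Finset.range (p ^ f), z ^ i * c ^ (p ^ f - 1 - i)‖ ≤ 1 := by
    refine IsUltrametricDist.norm_sum_le_of_forall_le_of_nonneg zero_le_one fun i _ => ?_
    rw [norm_mul, norm_pow, norm_pow]
    exact mul_le_one₀ (pow_le_one₀ (norm_nonneg _) hz) (by positivity)
      (pow_le_one₀ (norm_nonneg _) hc1)
  calc ‖∑ i ∈ Finset.range (p ^ f), z ^ i * c ^ (p ^ f - 1 - i)‖ * ‖z - c‖ ≤ 1 * ‖z - c‖ := by
        gcongr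
    _ < 1 := by rwa [one_mul]

end Pool.Agent.Y715.T.Fro
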