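import Mathlib
import Pool.Agent.Y715.T.Fro
import Pool.Agent.Y715.T.RecG
import Pool.Agent.Y715.T.Sel2

/-!
# The ramification from the Frobenius elements
-/

set_option autoImplicit false
set_option linter.unusedSectionVars false

namespace Pool.Agent.Y715.T.Frb

open Pool.Agent.Y692.QS
open Pool.Agent.Y715.T.Gi Pool.Agent.Y715.T.Nr Pool.Agent.Y715.T.Red Pool.Agent.Y715.T.Df
open Pool.Agent.Y715.T.Odd Pool.Agent.Y715.T.Thr Pool.Agent.Y715.T.Rec
open Pool.Agent.Y715.T.Clp Pool.Agent.Y715.T.Md Pool.Agent.Y715.T.Fro Pool.Agent.Y715.T.Sel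
open Pool.Agent.Y715.T.RecC
open scoped Classical

variable {i₀ : QB} {hi : i₀ ^ 2 + i₀ + 1 = 0}

/-! ### Norms -/

lemma nr_p {ρ : Ei} (hρ : Prime ρ) {p : ℕ} [Fact p.Prime] (ι : QB →ₐ[ℚ] PadicAlgCl p)
    (hl : ‖ι (ev i₀ hi ρ)‖ < 1) : ∃ f : ℕ, (nr ρ).natAbs = p ^ f := by
  obtain ⟨l, hlp, hd, hn⟩ := exists_p hρ
  rw [iota_ev] at hl
  have h1 := (dvd_iff (iota_sq hi ι) hρ hl _).1 hd
  rw [map_natCast] at h1
  have h2 : p ∣ l := by
    by_contra h
    rw [Pool.Agent.W327.RK.norm_nat h] at h1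
    exact lt_irrefl _ h1
  have h3 : p = l := (Nat.prime_dvd_prime_iff_eq (Fact.out : p.Prime) hlp).1 h2
  subst h3
  rcases hn with hn | hn
  · exact ⟨1, by rw [hn, pow_one, Int.natAbs_natCast]⟩
  · exact ⟨2, by rw [hn, Int.natAbs_pow, Int.natAbs_natCast]⟩

lemma not_lam_of {ρ : Ei} (h3 : ¬ ρ ∣ 3) : ¬ Associated ρ lam := by
  intro h
  apply h3
  have e : (3 : Ei) = -(lam * lam) := by
    have := lam_sq
    rw [pow_two] at this
    rw [this, neg_neg]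
  rw [e]
  exact (dvd_neg).2 (Dvd.dvd.mul_right h.dvd _)

/-- the action of a Frobenius element on cube roots -/
theorem frob_root {ρ : Ei} (hρ : Prime ρ) (h3 : ¬ ρ ∣ 3) {p : ℕ} [Fact p.Prime]
    (ι : QB →ₐ[ℚ] PadicAlgCl p) (hl : ‖ι (ev i₀ hi ρ)‖ < 1) {τ : Au p} {σ : GK i₀}
    (hc : Cmp ι τ σ) (hτ : AsPow τ (nr ρ).natAbs) {z : Ei} (hz : ¬ ρ ∣ z) {h : GK i₀ → ZMod 3}
    (hzh : Kc hi z h) : h σ = cs ρ z := by
  obtain ⟨s, hs⟩ := ex_root (ev i₀ hi z)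
  have h1 := hzh s hs σ
  rw [iota_ev] at hl
  have hI := iota_sq hi ι
  have hys : (ι s) ^ 3 = ev (ι i₀) hI z := by rw [← map_pow, hs, iota_ev]
  have hy1 : ‖ι s‖ = 1 := by
    have h2 : ¬ ‖ev (ι i₀) hI z‖ < 1 := by rwa [← dvd_iff hI hρ hl]
    have h4 := eq_one_of_not_lt hI h2
    rw [← hys, norm_pow] at h4
    exact (pow_eq_one_iff_of_nonneg (norm_nonneg _) three_ne_zero).1 h4
  have h2 : τ (ι s) = (ι i₀) ^ (h σ).val * ι s := by
    rw [hc, h1, map_mul, map_pow]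
  have h4 := hτ (ι s) hy1.le
  rw [h2, nr_nn hρ h3, pow_succ, pow_mul, hys, ← sub_mul, norm_mul, hy1, mul_one] at h4
  symm
  refine RecG.cs_of hρ h3 ?_
  rw [dvd_iff hI hρ hl, map_sub, map_pow, map_pow, ev_w, norm_sub_rev]
  exact h4

/-! ### The relation at a prime -/

variable {J : Type} [Fintype J] [DecidableEq J] {π : J → Ei} {e : J → ZMod 3}
variable {k : ℕ} {a : GK i₀ → ZMod (3 ^ k)}

/-- the condition on the Frobenius elements -/
def FrobC (hk : k ≠ 0) (hi : i₀ ^ 2 + i₀ + 1 = 0) (π : J → Ei) (e : J → ZMod 3)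
    (a : GK i₀ → ZMod (3 ^ k)) : Prop :=
  ∀ (p : ℕ) [Fact p.Prime] (ι : QB →ₐ[ℚ] PadicAlgCl p) (ρ : Ei), Prime ρ →
    ‖ι (ev i₀ hi ρ)‖ < 1 → (∀ j, ¬ π j ∣ ρ) → ∀ (τ : Au p) (σ : GK i₀), Cmp ι τ σ →
      AsPow τ (nr ρ).natAbs → par hk (a σ) = ∑ j, e j * cs (π j) ρ

lemma not_dvd_of_nr {ρ ρ' : Ei} (hρ : Prime ρ) (hρ' : Prime ρ') (h : nr ρ ≠ nr ρ') : ¬ ρ ∣ ρ' :=
  fun h1 => h (nr_of_assoc hρ hρ' h1)

theorem rel_prime (hk : k ≠ 0) (hD : Dat0 k hi π a) (hF : FrobC hk hi π e a) {x : J → ℕ}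
    (hx : Kc hi (∏ j, π j ^ x j) (fun σ => par hk (a σ))) {ρ : Ei} (hρ : Prime ρ)
    (h3 : (3 : Ei) ∣ ρ - 1) (hn : ∀ j, nr ρ ≠ nr (π j)) :
    ∑ j, ((x j : ZMod 3) - e j) * cs (π j) ρ = 0 := by
  have hq : RecG.Pq ρ := ⟨hρ, h3⟩
  obtain ⟨p, hp, ι, hl⟩ := exists_emb hi hρ
  obtain ⟨f, hf⟩ := nr_p hρ ι hl
  have hpp : p.Prime := Fact.out
  have hp3 : p ≠ 3 := odd_of hi ι hρ hl (not_lam_of hq.norm)
  obtain ⟨τ, hτ, hτr⟩ := exists_pow (p := p) f
  have hI := iota_sq hi ι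
  have hI3 : (ι i₀) ^ 3 = 1 := by linear_combination (ι i₀ - 1) * hI
  have hfix : τ (ι i₀) = ι i₀ := by
    rw [hτr 3 (fun h => hp3 ((Nat.prime_dvd_prime_iff_eq hpp Nat.prime_three).1 h)) _ hI3,
      ← hf, nr_nn hρ hq.norm, pow_succ, pow_mul, hI3, one_pow, one_mul]
  obtain ⟨σ, hc⟩ := exists_cmp ι τ hfix
  have hd : ∀ j, ¬ ρ ∣ π j := fun j => not_dvd_of_nr hρ (hD.pr j).prime (hn j)
  have hd' : ∀ j, ¬ π j ∣ ρ := fun j => not_dvd_of_nr (hD.pr j).prime hρ (hn j).symm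
  rw [← hf] at hτ
  have h1 := hF p ι ρ hρ hl hd' τ σ hc hτ
  have h2 : par hk (a σ) = cs ρ (∏ j, π j ^ x j) := by
    refine frob_root hρ hq.norm ι hl hc hτ (fun h => ?_) hx
    obtain ⟨j, -, hj⟩ := (hρ.dvd_finsetProd_iff _).1 h
    exact hd j (hρ.dvd_of_dvd_pow hj)
  rw [RecG.cs_prod hρ hq.norm _ _ (fun j _ h => hd j (hρ.dvd_of_dvd_pow h)), h1] at h2
  have h4 : ∀ j, cs ρ (π j ^ x j) = x j * cs (π j) ρ := by
    intro j
    rw [RecG.cs_pow hρ hq.norm (hd j)]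
    congr 1
    have hpj : RecG.Pq (π j) := ⟨(hD.pr j).prime, dvd_trans three_dvd_la (hD.pr j).three⟩
    exact RecG.cs_comm hpj hq (hn j).symm
  rw [Finset.sum_congr rfl fun j _ => h4 j] at h2
  simp only [sub_mul]
  rw [Finset.sum_sub_distrib, ← h2, sub_self]

/-! ### All numbers -/

theorem rel_all (hk : k ≠ 0) (hD : Dat0 k hi π a) (hF : FrobC hk hi π e a) {x : J → ℕ}
    (hx : Kc hi (∏ j, π j ^ x j) (fun σ => par hk (a σ))) (α : Ei) (h0 : α ≠ 0)
    (hα : ∀ ρ : Ei, Prime ρ → ρ ∣ α → ¬ ρ ∣ 3 ∧ ∀ j, nr ρ ≠ nr (π j)) :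
    ∑ j, ((x j : ZMod 3) - e j) * cs (π j) α = 0 := by
  induction α using UniqueFactorizationMonoid.induction_on_prime with
  | h₁ => exact absurd rfl h0
  | h₂ u hu =>
    refine Finset.sum_eq_zero fun j _ => ?_
    rw [cs_unit (hD.pr j) hu, mul_zero]
  | h₃ β ρ hβ hρ ih =>
    have hβ0 : β ≠ 0 := hβ
    have ih' := ih hβ0 (fun r hr hd => hα r hr (Dvd.dvd.mul_left hd _))
    obtain ⟨h3, hn⟩ := hα ρ hρ (dvd_mul_right _ _)
    obtain ⟨u, hu, hu3⟩ := exists_prim hρ h3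
    have hup : Prime (u * ρ) := by
      obtain ⟨v, rfl⟩ := hu
      exact (Associated.prime_iff ⟨v, mul_comm _ _⟩).1 hρ
    have hnr : nr (u * ρ) = nr ρ := by rw [nr_mul, isUnit_iff.1 hu, one_mul]
    have h4 := rel_prime hk hD hF hx hup hu3 (fun j => by rw [hnr]; exact hn j)
    have hd' : ∀ j, ¬ π j ∣ ρ := fun j => not_dvd_of_nr (hD.pr j).prime hρ (hn j).symm
    have hdu : ∀ j, ¬ π j ∣ u := fun j h => (hD.pr j).prime.not_isUnit (isUnit_of_dvd_unit h hu)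
    have hdβ : ∀ j, ¬ π j ∣ β := fun j h =>
      (hα (π j) (hD.pr j).prime (Dvd.dvd.mul_left h _)).2 j rfl
    have h5 : ∀ j, cs (π j) (ρ * β) = cs (π j) (u * ρ) + cs (π j) β := by
      intro j
      have hj := hD.pr j
      rw [cs_mul hj.prime hj.norm (hd' j) (hdβ j), cs_mul hj.prime hj.norm (hdu j) (hd' j),
        cs_unit hj hu, zero_add]
    simp only [h5, mul_add]
    rw [Finset.sum_add_distrib, h4, ih', add_zero]

/-- the exponents -/
theorem exps (hk : k ≠ 0) (hD : Dat0 k hi π a) (hF : FrobC hk hi π e a) {x : J → ℕ}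
    (hx : Kc hi (∏ j, π j ^ x j) (fun σ => par hk (a σ))) (i : J)
    (hex : ∃ g : Ei, ¬ π i ∣ g ∧ cs (π i) g ≠ 0) : (x i : ZMod 3) = e i := by
  obtain ⟨g, hg, hgc⟩ := hex
  have hπ := hD.pr i
  -- the modulus
  set S : J → Ei := fun j => if π i ∣ star (π j) then 1 else star (π j) with hS
  set M : Ei := 3 * (∏ j ∈ Finset.univ.erase i, π j) * ∏ j, S j with hM
  have hMd : ¬ π i ∣ M := by
    intro h
    rcases hπ.prime.dvd_or_dvd h with h | h
    · rcases hπ.prime.dvd_or_dvd h with h | h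
      · exact three_ne hπ.prime hπ.norm h
      · obtain ⟨j, hj, h⟩ := (hπ.prime.dvd_finsetProd_iff _).1 h
        exact hD.nd j i (Finset.ne_of_mem_erase hj) h
    · obtain ⟨j, -, h⟩ := (hπ.prime.dvd_finsetProd_iff _).1 h
      rw [hS] at h
      beta_reduce at h
      split_ifs at h with h1
      · exact hπ.prime.not_isUnit (isUnit_of_dvd_one h)
      · exact h1 h
  have hcop : IsCoprime (π i) M := (hπ.prime.irreducible.coprime_iff_not_dvd).2 hMd
  obtain ⟨u, v, huv⟩ := hcop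
  set α : Ei := 1 + v * M * (g - 1) with hα
  have hα1 : M ∣ α - 1 := ⟨v * (g - 1), by rw [hα]; ring⟩
  have hαg : π i ∣ α - g := ⟨-(u * (g - 1)), by
    have : v * M = 1 - u * π i := by rw [← huv]; ring
    rw [hα, this]
    ring⟩
  have hαi : ¬ π i ∣ α := fun h => hg (by
    have e1 : g = α - (α - g) := by ring
    rw [e1]
    exact dvd_sub h hαg)
  have h0 : α ≠ 0 := by
    intro h
    exact hαi (h ▸ dvd_zero _)
  have hnotM : ∀ r : Ei, Prime r → r ∣ α → ¬ r ∣ M := by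
    intro r hr h1 h2
    have h4 := dvd_trans h2 hα1
    have h5 : r ∣ 1 := by
      have h6 := dvd_sub h1 h4
      rwa [sub_sub_cancel] at h6
    exact hr.not_isUnit (isUnit_of_dvd_one h5)
  have hrel := rel_all hk hD hF hx α h0 (fun r hr hd => ⟨fun h => hnotM r hr hd
    (by rw [hM, mul_assoc]; exact Dvd.dvd.mul_right h _), fun j hnj => ?_⟩)
  · -- conclusion
    have h1 : ∀ j, j ≠ i → cs (π j) α = 0 := by
      intro j hj
      have hjp := hD.pr j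
      have h2 : π j ∣ α - 1 := by
        refine dvd_trans ?_ hα1
        rw [hM]
        refine Dvd.dvd.mul_right (Dvd.dvd.mul_left ?_ _) _
        exact Finset.dvd_prod_of_mem (fun j => π j) (Finset.mem_erase.2 ⟨hj, Finset.mem_univ j⟩)
      have h4 : ¬ π j ∣ α := fun h5 => hjp.prime.not_isUnit (isUnit_of_dvd_one (by
        have h6 := dvd_sub h5 h2
        rwa [sub_sub_cancel] at h6))
      rw [cs_congr hjp.prime hjp.norm h4 h2, cs_one hjp.prime hjp.norm]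
    rw [Finset.sum_eq_single i (fun j _ hj => by rw [h1 j hj, mul_zero])
      (fun h => absurd (Finset.mem_univ i) h), cs_congr hπ.prime hπ.norm hαi hαg] at hrel
    rcases mul_eq_zero.1 hrel with h | h
    · exact sub_eq_zero.1 h
    · exact absurd h hgc
  · -- a prime factor of the norm
    have hjp := hD.pr j
    have h1 : r ∣ π j ∨ r ∣ star (π j) := by
      apply hr.dvd_or_dvd
      rw [mul_star, ← hnj, ← mul_star]
      exact dvd_mul_right _ _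
    rcases h1 with h1 | h1
    · have h2 := (hr.dvd_prime_iff_associated hjp.prime).1 h1
      by_cases hji : j = i
      · subst hji
        exact hαi (dvd_trans h2.symm.dvd hd)
      · refine hnotM r hr hd ?_
        rw [hM]
        refine Dvd.dvd.mul_right (Dvd.dvd.mul_left ?_ _) _
        exact dvd_trans h1 (Finset.dvd_prod_of_mem (fun j => π j)
          (Finset.mem_erase.2 ⟨hji, Finset.mem_univ j⟩))
    · have hsj := star_prime hjp.prime
      by_cases h2 : π i ∣ star (π j)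
      · have h4 := (hπ.prime.dvd_prime_iff_associated hsj).1 h2
        have h5 := (hr.dvd_prime_iff_associated hsj).1 h1
        exact hαi (dvd_trans (h4.trans h5.symm).dvd hd)
      · refine hnotM r hr hd ?_
        rw [hM]
        refine Dvd.dvd.mul_left ?_ _
        refine dvd_trans ?_ (Finset.dvd_prod_of_mem S (Finset.mem_univ j))
        rw [hS]
        beta_reduce
        rw [if_neg h2]
        exact h1

/-! ### The ramification -/

/-- the character modulo three -/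
theorem char_form (hk : k ≠ 0) (hk3 : 2 ≤ k) (hD : Dat0 k hi π a) :
    ∃ x : J → ℕ, Kc hi (∏ j, π j ^ x j) (fun σ => par hk (a σ)) := by
  obtain ⟨z, hz, hzh⟩ := kum hi (fun σ => par hk (a σ)) (hD.cont.comp (par hk))
    (fun σ τ => by rw [hD.mul, map_add])
  obtain ⟨u, g, x, hu, ez⟩ := fac (π := π) z hz.1 (support hD hz hzh
    (fun p _ ι _ τ σ _ _ h0 => by rw [h0, map_zero]))
  rw [ez] at hzh
  obtain ⟨ι⟩ := exists_emb3
  have hcase : (∀ (τ : Au 3) (σ : GK i₀), Cmp ι τ σ → par hk (a σ) = 0) ∨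
      ((∃ R ∈ MM (iota_sq hi ι) k, Star ι a (fun σ => par hk (a σ)) R) ∧
        ∃ (τ : Au 3) (σ : GK i₀), Cmp ι τ σ ∧ par hk (a σ) ≠ 0) := by
    by_cases h0 : ∀ (τ : Au 3) (σ : GK i₀), Cmp ι τ σ → par hk (a σ) = 0
    · exact Or.inl h0
    · right
      push Not at h0
      obtain ⟨τ, σ, h1, h2⟩ := h0
      refine ⟨⟨PT _ hk (-1), PT_mem hk hk3 _ _, ?_⟩, τ, σ, h1, h2⟩
      have h3 := star_PT (a := a) hk ι 1
      simpa only [one_mul] using h3
  exact ⟨x, no_lam hk hk3 hD ι hu hzh hcase⟩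

/-- **The data from the Frobenius elements.** -/
theorem dat (hk : k ≠ 0) (hk3 : 2 ≤ k) (hD : Dat0 k hi π a) (he : ∀ j, e j ≠ 0)
    (hF : FrobC hk hi π e a) (hex : ∀ i, ∃ g : Ei, ¬ π i ∣ g ∧ cs (π i) g ≠ 0)
    (hram : ∀ (j : J) (p : ℕ) [Fact p.Prime] (ι : QB →ₐ[ℚ] PadicAlgCl p),
      ‖ι (ev i₀ hi (π j))‖ < 1 → ∃ (τ : Au p) (σ : GK i₀), Cmp ι τ σ ∧ Inert τ ∧ a σ = 1) :
    Dat k hi π e a := by
  refine ⟨hD, he, fun j p _ ι hl => ?_⟩
  obtain ⟨x, hx⟩ := char_form hk hk3 hD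
  have hxe := fun i => exps hk hD hF hx i (hex i)
  obtain ⟨τ, σ, hc, hτ, haσ⟩ := hram j p ι hl
  refine ⟨τ, σ, hc, hτ, haσ, fun s hs => ?_⟩
  -- the action on `s`
  have h3 : (σ s) ^ 3 = s ^ 3 := by rw [← map_pow, hs, gk_ev]
  obtain ⟨n, hn⟩ := cube_eq hi h3
  rw [i₀_mod (hi := hi)] at hn
  have h1 : par hk (a σ) = x j * (n : ZMod 3) := by
    refine exp_at hD (u := 1) (g := 0) isUnit_one (h := fun σ => par hk (a σ)) ?_ j ι hl hc hτ
      (fun t ht => ?_)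
    · rw [pow_zero, mul_one, one_mul]
      exact hx
    · -- all cube roots
      obtain ⟨m, hm⟩ := cube_eq hi (ht.trans hs.symm)
      rw [hm, map_mul, map_pow, gk_fix, hn]
      ring
  rw [haσ, map_one, hxe j] at h1
  have h2 : (n : ZMod 3) = e j := by
    have h4 := he j
    revert h1 h4
    generalize (n : ZMod 3) = c
    generalize e j = d
    revert c d
    decide
  rw [hn, h2]

end Pool.Agent.Y715.T.Frb
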