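import Mathlib
import Pool.Agent.W520.Rect
import Pool.Agent.Y696.Hex
import Pool.Agent.H667R3.W6

/-!
# The period of the curve `y² + y = x³`
-/

set_option autoImplicit false
set_option linter.unusedSectionVars false

open Set Filter Topology MeasureTheory

namespace Pool.Agent.Y715.T.Om

open Pool.Agent.W520 Pool.Agent.Y696

/-- the hexagonal lattice -/
noncomputable abbrev H1 : PeriodPair := hex 1 one_ne_zero

theorem mem_hex {z : ℂ} : z ∈ H1.lattice ↔ ∃ m n : ℤ, (m : ℂ) + n * om = z := by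
  rw [PeriodPair.mem_lattice]
  constructor
  · rintro ⟨m, n, h⟩
    refine ⟨m, n, ?_⟩
    rw [← h]
    show _ = (m : ℂ) * 1 + n * (om * 1)
    ring
  · rintro ⟨m, n, h⟩
    refine ⟨m, n, ?_⟩
    rw [← h]
    show (m : ℂ) * 1 + n * (om * 1) = _
    ring

theorem hex_conj : ∀ l ∈ H1.lattice, (starRingEnd ℂ) l ∈ H1.lattice := by
  intro l hl
  obtain ⟨m, n, rfl⟩ := mem_hex.1 hl
  refine mem_hex.2 ⟨m - n, -n, ?_⟩
  rw [map_add, map_mul, conj_om]
  simp only [map_intCast]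
  push_cast
  linear_combination -(n : ℂ) * om_sq

theorem real_mem {x : ℝ} : (x : ℂ) ∈ H1.lattice ↔ ∃ m : ℤ, (m : ℝ) = x := by
  rw [mem_hex]
  constructor
  · rintro ⟨m, n, h⟩
    have h1 := congrArg Complex.im h
    simp at h1
    have h2 : n = 0 := h1.resolve_right om_im.ne'
    refine ⟨m, ?_⟩
    have h3 := congrArg Complex.re h
    rw [h2] at h3
    simpa using h3
  · rintro ⟨m, rfl⟩
    exact ⟨m, 0, by simp⟩

theorem wp_re (x : ℝ) : H1.weierstrassP x = ((H1.weierstrassP x).re : ℂ) := by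
  have h := Pool.Agent.H285R3.Str.P_conj H1 hex_conj (x : ℂ)
  rw [Complex.conj_ofReal] at h
  exact (Complex.conj_eq_iff_re.1 h.symm).symm

theorem wpd_re (x : ℝ) : H1.derivWeierstrassP x = ((H1.derivWeierstrassP x).re : ℂ) := by
  have h := Pool.Agent.H285R3.Str.P'_conj H1 hex_conj (x : ℂ)
  rw [Complex.conj_ofReal] at h
  exact (Complex.conj_eq_iff_re.1 h.symm).symm

/-- the Weierstrass function on the real axis -/
noncomputable def P (x : ℝ) : ℝ := (H1.weierstrassP x).re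

theorem P_spec (x : ℝ) : H1.weierstrassP x = (P x : ℂ) := wp_re x

theorem notMem_of {x : ℝ} (h0 : 0 < x) (h1 : x < 1) : (x : ℂ) ∉ H1.lattice := by
  intro h
  obtain ⟨m, hm⟩ := real_mem.1 h
  rw [← hm] at h0 h1
  have h4 : (0 : ℤ) < m := by exact_mod_cast h0
  have h5 : m < (1 : ℤ) := by exact_mod_cast h1
  omega

theorem P_cont : ContinuousOn P (Ioo 0 1) := by
  intro x hx
  have h1 : ContinuousAt H1.weierstrassP (x : ℂ) :=
    (H1.analyticOnNhd_weierstrassP _ (notMem_of hx.1 hx.2)).continuousAt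
  have h2 : ContinuousAt (fun x : ℝ => H1.weierstrassP (x : ℂ)) x :=
    ContinuousAt.comp (f := fun x : ℝ => (x : ℂ)) h1 Complex.continuous_ofReal.continuousAt
  exact (Complex.continuous_re.continuousAt.comp h2).continuousWithinAt

theorem P_inj {x y : ℝ} (hx : 0 < x) (hx' : x ≤ 1 / 2) (hy : 0 < y) (hy' : y ≤ 1 / 2)
    (h : P x = P y) : x = y := by
  have h1 : H1.weierstrassP x = H1.weierstrassP y := by
    rw [P_spec, P_spec, h]
  rcases Wg.wp_inj _ _ _ (notMem_of hx (by linarith)) (notMem_of hy (by linarith)) h1 with h2 | h2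
  · have h3 : ((x - y : ℝ) : ℂ) ∈ H1.lattice := by push_cast; exact h2
    obtain ⟨m, hm⟩ := real_mem.1 h3
    have a1 : (m : ℝ) < 1 := by linarith
    have a2 : (-1 : ℝ) < m := by linarith
    have b1 : m < (1 : ℤ) := by exact_mod_cast a1
    have b2 : (-1 : ℤ) < m := by exact_mod_cast a2
    have : m = 0 := by omega
    rw [this] at hm
    simp at hm
    linarith
  · have h3 : ((x + y : ℝ) : ℂ) ∈ H1.lattice := by push_cast; exact h2
    obtain ⟨m, hm⟩ := real_mem.1 h3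
    have a2 : (0 : ℝ) < m := by linarith
    have b2 : (0 : ℤ) < m := by exact_mod_cast a2
    have c2 : (1 : ℝ) ≤ m := by exact_mod_cast (by omega : (1 : ℤ) ≤ m)
    linarith

theorem P_tendsto : Tendsto P (𝓝[>] 0) atTop := by
  have h1 := Helper487.ECM.tendsto_norm_wp_zero H1
  rw [Helper487.ECM.wp_zero_eq] at h1
  have h2 : Tendsto (fun x : ℝ => (x : ℂ)) (𝓝[>] (0 : ℝ)) (𝓝[≠] (0 : ℂ)) := by
    refine tendsto_nhdsWithin_iff.2 ⟨?_, ?_⟩
    · have := Complex.continuous_ofReal.tendsto 0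
      rw [Complex.ofReal_zero] at this
      exact this.mono_left nhdsWithin_le_nhds
    · filter_upwards [self_mem_nhdsWithin] with x hx
      simpa using (ne_of_gt hx : x ≠ 0)
  have h3 := h1.comp h2
  have h4 : Tendsto (fun x : ℝ => x ^ 2 * P x) (𝓝[>] 0) (𝓝 1) := by
    have h5 := (Complex.continuous_re.tendsto _).comp h3
    rw [Complex.one_re] at h5
    refine h5.congr fun x => ?_
    simp only [Function.comp_apply]
    rw [P_spec]
    norm_cast
  have h5 : Tendsto (fun x : ℝ => (x ^ 2)⁻¹) (𝓝[>] 0) atTop := by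
    have h6 : Tendsto (fun x : ℝ => x ^ 2) (𝓝[>] 0) (𝓝[>] 0) := by
      refine tendsto_nhdsWithin_iff.2 ⟨?_, ?_⟩
      · have : Tendsto (fun x : ℝ => x ^ 2) (𝓝 0) (𝓝 (0 ^ 2)) := (continuous_pow 2).tendsto 0
        rw [zero_pow two_ne_zero] at this
        exact this.mono_left nhdsWithin_le_nhds
      · filter_upwards [self_mem_nhdsWithin] with x hx
        exact pow_pos (show 0 < x from hx) 2
    exact tendsto_inv_nhdsGT_zero.comp h6
  have h6 := h5.atTop_mul_pos one_pos h4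
  refine h6.congr' ?_
  filter_upwards [self_mem_nhdsWithin] with x hx
  have : x ≠ 0 := ne_of_gt hx
  field_simp

theorem P_gt {x : ℝ} (h0 : 0 < x) (h1 : x < 1 / 2) : P (1 / 2) < P x := by
  by_contra hc
  push Not at hc
  obtain ⟨y, hy1, hy0, hyx⟩ := (P_tendsto.eventually
    (eventually_gt_atTop (P (1 / 2)))).and
    (Ioo_mem_nhdsGT h0) |>.exists
  have hcont : ContinuousOn P (Icc y x) :=
    P_cont.mono fun t ht => ⟨lt_of_lt_of_le hy0 ht.1, by linarith [ht.2]⟩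
  obtain ⟨t, ht, hte⟩ := intermediate_value_Icc' hyx.le hcont ⟨hc, hy1.le⟩
  have := P_inj (x := t) (y := 1 / 2)
    (lt_of_lt_of_le hy0 ht.1) (by linarith [ht.2]) (by linarith) le_rfl hte
  linarith [ht.2]

theorem P_surj {X : ℝ} (hX : P (1 / 2) < X) : ∃ x, 0 < x ∧ x < 1 / 2 ∧ P x = X := by
  have hu2 : (0 : ℝ) < 1 / 2 := by norm_num
  obtain ⟨y, hy1, hy0, hyx⟩ := (P_tendsto.eventually
    (eventually_gt_atTop X)).and (Ioo_mem_nhdsGT hu2) |>.exists
  have hcont : ContinuousOn P (Icc y (1 / 2)) :=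
    P_cont.mono fun t ht => ⟨lt_of_lt_of_le hy0 ht.1, by linarith [ht.2]⟩
  obtain ⟨t, ht, hte⟩ := intermediate_value_Icc' hyx.le hcont ⟨hX.le, hy1.le⟩
  refine ⟨t, lt_of_lt_of_le hy0 ht.1, lt_of_le_of_ne ht.2 ?_, hte⟩
  rintro rfl
  exact absurd hte hX.ne

/-- the invariants -/
theorem base : ∃ e : ℝ, 0 < e ∧ P (1 / 2) = e ∧ H1.g₃ = ((4 * e ^ 3 : ℝ) : ℂ) := by
  have h2 : H1.g₂ = 0 := hex_g2 1 one_ne_zero
  have a1 := H1.derivWeierstrassP_sq _ H1.ω₁_div_two_notMem_lattice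
  rw [H667R3.wp'_half_eq_zero H1 H1.ω₁_mem_lattice, h2] at a1
  have e1 : H1.ω₁ / 2 = ((1 / 2 : ℝ) : ℂ) := by
    show (1 : ℂ) / 2 = _
    push_cast
    ring
  rw [e1, P_spec] at a1
  have hg : H1.g₃ = ((4 * P (1 / 2) ^ 3 : ℝ) : ℂ) := by
    push_cast
    push_cast at a1
    linear_combination a1
  refine ⟨P (1 / 2), ?_, rfl, hg⟩
  rcases lt_trichotomy (P (1 / 2)) 0 with h | h | h
  · exfalso
    obtain ⟨t, ht0, ht1, ht⟩ := P_surj h
    have h3 := wp_unit (hex_lat 1 one_ne_zero) omr_unit (t : ℂ)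
    have h4 : H1.weierstrassP (t : ℂ) = 0 := by rw [P_spec, ht]; norm_num
    have h5 : H1.weierstrassP ((omr : eis) * (t : ℂ)) = 0 := by
      have h6 := h3
      change H1.weierstrassP ((omr : eis) * (t : ℂ)) = _ at h6
      rw [h6]
      change _ * H1.weierstrassP (t : ℂ) = 0
      rw [h4, mul_zero]
    have ht' := notMem_of ht0 (by linarith : t < 1)
    have hot : ((omr : eis) : ℂ) * (t : ℂ) ∉ H1.lattice := by
      intro h6
      exact ht' ((lat_unit (hex_lat 1 one_ne_zero) omr_unit _).1 h6)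
    rcases Wg.wp_inj _ _ _ hot ht' (h5.trans h4.symm) with h6 | h6
    · obtain ⟨m, n, h7⟩ := mem_hex.1 h6
      rw [omr_coe] at h7
      have h8 := congrArg Complex.im h7
      simp at h8
      have h9 : (n : ℝ) = t := by
        have h10 : ((n : ℝ) - t) * om.im = 0 := by linarith
        have h11 := (mul_eq_zero.1 h10).resolve_right om_im.ne'
        linarith
      exact ht' (real_mem.2 ⟨n, h9⟩)
    · obtain ⟨m, n, h7⟩ := mem_hex.1 h6
      rw [omr_coe] at h7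
      have h8 := congrArg Complex.im h7
      simp at h8
      have h9 : (n : ℝ) = t := by
        have h10 : ((n : ℝ) - t) * om.im = 0 := by linarith
        have h11 := (mul_eq_zero.1 h10).resolve_right om_im.ne'
        linarith
      exact ht' (real_mem.2 ⟨n, h9⟩)
  · exfalso
    apply hex_g3 1 one_ne_zero
    rw [hg, h]
    norm_num
  · exact h

theorem P_deriv {x : ℝ} (h0 : 0 < x) (h1 : x < 1) :
    HasDerivAt P ((H1.derivWeierstrassP x).re) x := by
  have h := H667R3.hasDerivAt_weierstrassP H1 (z := (x : ℂ)) (notMem_of h0 h1)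
  exact h.real_of_complex

theorem P_sq {e : ℝ} (hg3 : H1.g₃ = ((4 * e ^ 3 : ℝ) : ℂ)) {x : ℝ} (h0 : 0 < x)
    (h1 : x < 1) : (H1.derivWeierstrassP x).re ^ 2 = 4 * P x ^ 3 - 4 * e ^ 3 := by
  have h4 := H1.derivWeierstrassP_sq (x : ℂ) (notMem_of h0 h1)
  have h5 : H1.weierstrassP (x : ℂ) = (P x : ℂ) := P_spec _
  have h2 : H1.g₂ = 0 := hex_g2 1 one_ne_zero
  rw [h2, hg3, h5, wpd_re] at h4
  have h6 : (H1.derivWeierstrassP (x : ℂ)).re ^ 2 =
      4 * P x ^ 3 - 0 * P x - 4 * e ^ 3 := by exact_mod_cast h4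
  linarith

/-- the integrand -/
noncomputable def gg (y : ℝ) : ℝ := 1 / 6 * y ^ (-5 / 6 : ℝ) * (1 - y) ^ (-1 / 2 : ℝ)

theorem integrand {e q p : ℝ} (he : 0 < e) (hq : e < q) (hp : p ^ 2 = 4 * q ^ 3 - 4 * e ^ 3) :
    |(-3 * e ^ 3 * p / q ^ 4)| * gg ((e / q) ^ 3) = √e := by
  have hq0 : 0 < q := he.trans hq
  have hx0 : 0 < e / q := div_pos he hq0
  have hx1 : e / q < 1 := (div_lt_one hq0).2 hq
  have hy1 : (e / q) ^ 3 < 1 := pow_lt_one₀ hx0.le hx1 three_ne_zero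
  have hy : 0 < 1 - (e / q) ^ 3 := by linarith
  have hn : 0 ≤ |(-3 * e ^ 3 * p / q ^ 4)| * gg ((e / q) ^ 3) := by
    unfold gg
    positivity
  rw [← Real.sqrt_sq hn]
  congr 1
  have e1 : (((e / q) ^ 3) ^ (-5 / 6 : ℝ)) ^ 2 = (q / e) ^ 5 := by
    rw [← Real.rpow_natCast, ← Real.rpow_mul (by positivity), ← Real.rpow_natCast (e / q),
      ← Real.rpow_mul hx0.le, ← Real.rpow_natCast (q / e), ← inv_div e q,
      Real.inv_rpow hx0.le, ← Real.rpow_neg hx0.le]
    congr 1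
    norm_num
  have e2 : ((1 - (e / q) ^ 3) ^ (-1 / 2 : ℝ)) ^ 2 = (1 - (e / q) ^ 3)⁻¹ := by
    rw [← Real.rpow_natCast, ← Real.rpow_mul hy.le, ← Real.rpow_neg_one]
    congr 1
    norm_num
  have e3 : (|(-3 * e ^ 3 * p / q ^ 4)| * gg ((e / q) ^ 3)) ^ 2 =
      9 * e ^ 6 * p ^ 2 / q ^ 8 * (1 / 36) * (((e / q) ^ 3) ^ (-5 / 6 : ℝ)) ^ 2 *
        ((1 - (e / q) ^ 3) ^ (-1 / 2 : ℝ)) ^ 2 := by
    rw [mul_pow, sq_abs]
    unfold gg
    ring
  rw [e3, e1, e2, hp]
  have h1 : (1 - (e / q) ^ 3) = (q ^ 3 - e ^ 3) / q ^ 3 := by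
    field_simp
  have h2 : q ^ 3 - e ^ 3 ≠ 0 := by
    have : e ^ 3 < q ^ 3 := pow_lt_pow_left₀ hq he.le three_ne_zero
    linarith
  rw [h1]
  have h3 : (4 * q ^ 3 - 4 * e ^ 3) = 4 * (q ^ 3 - e ^ 3) := by ring
  rw [h3]
  field_simp
  norm_num

theorem int_eq {e : ℝ} (he : 0 < e) (hP : P (1 / 2) = e)
    (hg3 : H1.g₃ = ((4 * e ^ 3 : ℝ) : ℂ)) : ∫ y in Ioo (0 : ℝ) 1, gg y = √e / 2 := by
  have hgt : ∀ x ∈ Ioo (0 : ℝ) (1 / 2), e < P x := fun x hx => by
    rw [← hP]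
    exact P_gt hx.1 hx.2
  have himg : (fun x => (e / P x) ^ 3) '' Ioo (0 : ℝ) (1 / 2) = Ioo (0 : ℝ) 1 := by
    ext y
    constructor
    · rintro ⟨x, hx, rfl⟩
      have h1 := hgt x hx
      have h2 : 0 < P x := he.trans h1
      exact ⟨by positivity, pow_lt_one₀ (by positivity) ((div_lt_one h2).2 h1) three_ne_zero⟩
    · rintro ⟨h0, h1⟩
      obtain ⟨s, hs, hs3⟩ : ∃ s : ℝ, 0 < s ∧ s ^ 3 = y := by
        refine ⟨y ^ (1 / 3 : ℝ), Real.rpow_pos_of_pos h0 _, ?_⟩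
        rw [← Real.rpow_natCast, ← Real.rpow_mul h0.le]
        norm_num
      have hs1 : s < 1 := by
        by_contra hcon
        push Not at hcon
        have := one_le_pow₀ hcon (n := 3)
        linarith
      obtain ⟨x, hx0, hx1, hx⟩ := P_surj (X := e / s) (by
          rw [hP, lt_div_iff₀ hs]
          nlinarith)
      refine ⟨x, ⟨hx0, hx1⟩, ?_⟩
      show (e / P x) ^ 3 = y
      rw [hx, div_div_eq_mul_div, mul_div_assoc, mul_comm, div_mul_cancel₀ _ he.ne', hs3]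
  rw [← himg, integral_image_eq_integral_abs_deriv_smul
    (f' := fun x => -3 * e ^ 3 * (H1.derivWeierstrassP x).re / P x ^ 4) measurableSet_Ioo]
  · have h1 : ∫ x in Ioo (0 : ℝ) (1 / 2), |(-3 * e ^ 3 * (H1.derivWeierstrassP x).re / P x ^ 4)| •
        gg ((e / P x) ^ 3) = ∫ x in Ioo (0 : ℝ) (1 / 2), √e := by
      refine setIntegral_congr_fun measurableSet_Ioo fun x hx => ?_
      exact integrand he (hgt x hx) (P_sq hg3 hx.1 (by linarith [hx.2]))
    rw [h1, setIntegral_const, Real.volume_real_Ioo_of_le (by norm_num), smul_eq_mul]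
    ring
  · intro x hx
    have h1 := hgt x hx
    have h2 : 0 < P x := he.trans h1
    have h3 := P_deriv hx.1 (by linarith [hx.2])
    have h4 := ((hasDerivAt_const x e).div h3 h2.ne').pow 3
    have h5 : ((3 : ℕ) : ℝ) * ((fun _ : ℝ => e) / P : ℝ → ℝ) x ^ (3 - 1) *
        ((0 * P x - e * (H1.derivWeierstrassP x).re) / P x ^ 2) =
        -3 * e ^ 3 * (H1.derivWeierstrassP x).re / P x ^ 4 := by
      rw [Pi.div_apply]
      push_cast
      field_simp
      ring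
    rw [h5] at h4
    exact h4.hasDerivWithinAt
  · intro x hx y hy hxy
    have h1 := hgt x hx
    have h2 := hgt y hy
    have h3 : 0 < P x := he.trans h1
    have h4 : 0 < P y := he.trans h2
    have h5 : e / P x = e / P y :=
      (pow_left_inj₀ (by positivity) (by positivity) three_ne_zero).1 hxy
    have h6 : P x = P y := by
      rw [div_eq_div_iff h3.ne' h4.ne'] at h5
      exact (mul_left_cancel₀ he.ne' h5).symm
    exact P_inj hx.1 hx.2.le hy.1 hy.2.le h6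

theorem beta_eq : Complex.betaIntegral (1 / 6) (1 / 2) =
    ((6 * ∫ y in Ioo (0 : ℝ) 1, gg y : ℝ) : ℂ) := by
  unfold Complex.betaIntegral
  rw [intervalIntegral.integral_of_le zero_le_one, integral_Ioc_eq_integral_Ioo,
    ← integral_const_mul, ← integral_complex_ofReal]
  refine setIntegral_congr_fun measurableSet_Ioo fun x hx => ?_
  show (x : ℂ) ^ ((1 / 6 : ℂ) - 1) * (1 - (x : ℂ)) ^ ((1 / 2 : ℂ) - 1) = ((6 * gg x : ℝ) : ℂ)
  unfold gg
  push_cast
  rw [Complex.ofReal_cpow hx.1.le, Complex.ofReal_cpow (by linarith [hx.2])]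
  push_cast
  have h1 : (1 / 6 : ℂ) - 1 = -5 / 6 := by norm_num
  have h2 : (1 / 2 : ℂ) - 1 = -1 / 2 := by norm_num
  rw [h1, h2]
  ring

/-- the absolute value of a generator of the period lattice -/
noncomputable def Om : ℝ := Real.Gamma (1 / 3) ^ 3 / (2 * Real.pi)

theorem Om_pos : 0 < Om := by
  unfold Om
  have h1 : 0 < Real.Gamma (1 / 3) := Real.Gamma_pos_of_pos (by norm_num)
  have h2 := Real.pi_pos
  positivity

theorem Om_six {e : ℝ} (he : 0 < e) (hI : ∫ y in Ioo (0 : ℝ) 1, gg y = √e / 2) :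
    Om ^ 6 = 4 * e ^ 3 := by
  have h1 := Complex.Gamma_mul_Gamma_eq_betaIntegral (s := 1 / 6) (t := 1 / 2) (by norm_num)
    (by norm_num)
  rw [beta_eq, hI] at h1
  have h2 : Real.Gamma (1 / 6) * Real.Gamma (1 / 2) = Real.Gamma (2 / 3) * (6 * (√e / 2)) := by
    have e1 : ((1 / 6 : ℝ) : ℂ) = 1 / 6 := by push_cast; ring
    have e2 : ((1 / 2 : ℝ) : ℂ) = 1 / 2 := by push_cast; ring
    have e3 : ((2 / 3 : ℝ) : ℂ) = 1 / 6 + 1 / 2 := by push_cast; ring
    rw [← e3, ← e1, ← e2, Complex.Gamma_ofReal, Complex.Gamma_ofReal, Complex.Gamma_ofReal] at h1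
    exact_mod_cast h1
  have h3 : Real.Gamma (1 / 3) * Real.Gamma (2 / 3) * √3 = 2 * Real.pi := by
    have h4 := Real.Gamma_mul_Gamma_one_sub (1 / 3)
    have e1 : (1 : ℝ) - 1 / 3 = 2 / 3 := by norm_num
    have e2 : Real.pi * (1 / 3) = Real.pi / 3 := by ring
    rw [e1, e2, Real.sin_pi_div_three] at h4
    rw [h4]
    have h5 : 0 < √3 := Real.sqrt_pos.2 (by norm_num)
    field_simp
  have h4 : Real.Gamma (1 / 6) * Real.Gamma (2 / 3) =
      Real.Gamma (1 / 3) * 2 ^ (2 / 3 : ℝ) * √Real.pi := by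
    have h5 := Real.Gamma_mul_Gamma_add_half (1 / 6)
    have e1 : (1 / 6 : ℝ) + 1 / 2 = 2 / 3 := by norm_num
    have e2 : 2 * (1 / 6 : ℝ) = 1 / 3 := by norm_num
    have e3 : (1 : ℝ) - 1 / 3 = 2 / 3 := by norm_num
    rw [e1, e2, e3] at h5
    exact h5
  rw [Real.Gamma_one_half_eq] at h2
  have hG : 0 < Real.Gamma (1 / 3) := Real.Gamma_pos_of_pos (by norm_num)
  have hH : 0 < Real.Gamma (2 / 3) := Real.Gamma_pos_of_pos (by norm_num)
  have hpi := Real.pi_pos
  have hsp : √Real.pi * √Real.pi = Real.pi := Real.mul_self_sqrt hpi.le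
  have hsp' : 0 < √Real.pi := Real.sqrt_pos.2 hpi
  have hs3 : √3 * √3 = 3 := Real.mul_self_sqrt (by norm_num)
  have hc3 : ((2 : ℝ) ^ (2 / 3 : ℝ)) ^ 3 = 4 := by
    rw [← Real.rpow_natCast, ← Real.rpow_mul (by norm_num)]
    norm_num
  have hse : √e * √e = e := Real.mul_self_sqrt he.le
  set c : ℝ := 2 ^ (2 / 3 : ℝ) with hc
  set G := Real.Gamma (1 / 3) with hGd
  set H := Real.Gamma (2 / 3) with hHd
  set K := Real.Gamma (1 / 6) with hKd
  set s := √e with hs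
  set p := √Real.pi with hp
  set π' := Real.pi with hπ'
  -- `3 s H² = G c π`
  have h5 : 3 * s * H ^ 2 = G * c * π' := by
    have h6 : (K * p) * H = (H * (6 * (s / 2))) * H := by rw [h2]
    have h7 : (K * H) * p = (G * c * p) * p := by rw [h4]
    have h8 : G * c * π' = G * c * (p * p) := by rw [hsp]
    rw [h8]
    linear_combination h7 - h6
  -- `G³ c = 4 s π`
  have h6 : G ^ 3 * c = 4 * s * π' := by
    have h7 : 3 * (G * H) ^ 2 = 4 * π' ^ 2 := by
      have h8 : (G * H * √3) ^ 2 = (2 * π') ^ 2 := by rw [h3]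
      have h9 : (G * H * √3) ^ 2 = (G * H) ^ 2 * (√3 * √3) := by ring
      rw [h9, hs3] at h8
      linarith
    have h10 : (G ^ 3 * c) * π' = (4 * s * π') * π' := by
      have h11 : G ^ 2 * (3 * s * H ^ 2) = G ^ 2 * (G * c * π') := by rw [h5]
      linear_combination -h11 + s * h7
    exact mul_right_cancel₀ hpi.ne' h10
  have hc0 : 0 < c := Real.rpow_pos_of_pos (by norm_num) _
  have h7 : Om * c = 2 * s := by
    unfold Om
    rw [div_mul_eq_mul_div, div_eq_iff (by positivity)]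
    rw [← hGd, ← hπ', h6]
    ring
  have h8 : Om ^ 3 = 2 * s ^ 3 := by
    have h9 : (Om * c) ^ 3 = (2 * s) ^ 3 := by rw [h7]
    rw [mul_pow, hc3] at h9
    linarith
  have h10 : Om ^ 6 = (Om ^ 3) ^ 2 := by ring
  rw [h10, h8]
  have h11 : (2 * s ^ 3) ^ 2 = 4 * (s * s) ^ 3 := by ring
  rw [h11, hse]

/-- **The lattice.** -/
theorem exists_lat : ∃ (L : PeriodPair) (ξ : ℂ), ξ ^ 12 = 1 ∧ Cur L (Om * ξ) := by
  obtain ⟨e, he, h1, h3⟩ := base
  have hI := int_eq he h1 h3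
  have hO := Om_six he hI
  have hne : (Om : ℂ) * Complex.I ≠ 0 :=
    mul_ne_zero (by exact_mod_cast Om_pos.ne') Complex.I_ne_zero
  refine ⟨hex _ hne, Complex.I, ?_, hex_lat _ hne, hex_g2 _ hne, ?_⟩
  · have : Complex.I ^ 12 = (Complex.I ^ 4) ^ 3 := by ring
    rw [this, Complex.I_pow_four, one_pow]
  · rw [hex_g3_scale hne, h3]
    have h4 : ((Om : ℂ) * Complex.I) ^ 6 = -((Om ^ 6 : ℝ) : ℂ) := by
      have h5 : Complex.I ^ 6 = -1 := by
        have : Complex.I ^ 6 = Complex.I ^ 4 * Complex.I ^ 2 := by ring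
        rw [this, Complex.I_pow_four, Complex.I_sq, one_mul]
      rw [mul_pow, h5]
      push_cast
      ring
    rw [h4, hO]
    have h6 : ((4 * e ^ 3 : ℝ) : ℂ) ≠ 0 := by
      have : (4 * e ^ 3 : ℝ) ≠ 0 := by positivity
      exact_mod_cast this
    rw [div_neg, div_self h6]

end Pool.Agent.Y715.T.Om
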