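import Mathlib
import Pool.Agent.Y715.T.Mw

/-!
# The torsion of order prime to three
-/

set_option autoImplicit false
set_option linter.unusedSectionVars false

namespace Pool.Agent.Y715.T.Ot

open WeierstrassCurve
open Pool.Agent.Y692.QS
open Pool.Agent.Y715.T.Gi Pool.Agent.Y715.T.Nr Pool.Agent.Y715.T.Df Pool.Agent.Y715.T.Ell
open Pool.Agent.Y715.T.Odd Pool.Agent.Y715.T.Sel Pool.Agent.Y715.T.Md Pool.Agent.Y715.T.Red
open Pool.Agent.Y715.T.Ar Pool.Agent.Y715.T.Mw Pool.Agent.Y715.T.Thr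

open scoped Classical

section loc

variable {I : PadicAlgCl 3} (hI : I ^ 2 + I + 1 = 0)

/-- fixed points -/
def G (I : PadicAlgCl 3) (Q : Pt (PadicAlgCl 3)) : Prop :=
  ∀ τ : Au 3, Inert τ → τ I = I → pm (lh τ) Q = Q

lemma G.x {x y : PadicAlgCl 3} {h : (W0.baseChange (PadicAlgCl 3)).toAffine.Nonsingular x y}
    (hQ : G I (.some x y h)) : x ∈ Lf I := by
  intro τ h1 h2
  have h3 := hQ τ h1 h2
  rw [pm_some, Affine.Point.some.injEq] at h3
  exact h3.1

include hI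

/-- `1 - ω` -/
noncomputable def DD (hI : I ^ 2 + I + 1 = 0) (Q : Pt (PadicAlgCl 3)) : Pt (PadicAlgCl 3) :=
  Q - im (isE _) hI Q

lemma G.DD {Q : Pt (PadicAlgCl 3)} (hQ : G I Q) : G I (DD hI Q) := by
  intro τ h1 h2
  unfold Ot.DD
  rw [map_sub, pm_im (lh τ) hI hI (by rw [lh_apply, h2]), hQ τ h1 h2]

lemma DD_smul {r : ℕ} {Q : Pt (PadicAlgCl 3)} (hQ : r • Q = 0) : r • DD hI Q = 0 := by
  unfold DD
  rw [smul_sub, ← map_nsmul, hQ, map_zero, sub_zero]

lemma DD_ne {r : ℕ} (hr : Nat.Coprime r 3) {Q : Pt (PadicAlgCl 3)} (h0 : Q ≠ 0)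
    (hQ : r • Q = 0) : DD hI Q ≠ 0 := by
  intro h
  have h3 : (3 : ℕ) • Q = 0 := by
    rcases ker_im (isE (PadicAlgCl 3)) hI h with h1 | h1 | h1
    · exact absurd h1 h0
    · rw [h1, T0_add3]
    · rw [h1, smul_neg, T0_add3, neg_zero]
  have h1 : addOrderOf Q ∣ Nat.gcd r 3 :=
    Nat.dvd_gcd (addOrderOf_dvd_of_nsmul_eq_zero hQ) (addOrderOf_dvd_of_nsmul_eq_zero h3)
  rw [hr, Nat.dvd_one, AddMonoid.addOrderOf_eq_one_iff] at h1
  exact h0 h1

/-- points of order prime to three have a nonzero abscissa -/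
lemma abs_ne {r : ℕ} (hr : Nat.Coprime r 3) {x y : PadicAlgCl 3}
    {h : (W0.baseChange (PadicAlgCl 3)).toAffine.Nonsingular x y}
    (hQ : r • (Affine.Point.some x y h : Pt (PadicAlgCl 3)) = 0) : x ≠ 0 := by
  rintro rfl
  apply DD_ne hI hr (Affine.Point.some_ne_zero h) hQ
  unfold DD
  rw [im_some, sub_eq_zero, Affine.Point.some.injEq]
  exact ⟨(mul_zero I).symm, rfl⟩

/-- `1 - ω` on points with nonzero abscissa -/
lemma step {x y : PadicAlgCl 3} {h : (W0.baseChange (PadicAlgCl 3)).toAffine.Nonsingular x y}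
    (hx : x ≠ 0) :
    ∃ (X Y : PadicAlgCl 3) (h' : (W0.baseChange (PadicAlgCl 3)).toAffine.Nonsingular X Y),
      DD hI (.some x y h) = .some X Y h' ∧ ‖X‖ = 3 * ‖x ^ 3 + 1‖ / ‖x‖ ^ 2 := by
  obtain ⟨X, h', e, e2⟩ := one_sub_im (isE (PadicAlgCl 3)) hI h hx
  refine ⟨X, _, h', e, ?_⟩
  have h1 := congrArg norm e2
  rw [norm_mul, norm_mul, norm_mul, norm_neg, norm_pow, norm_pow, norm_I hI, norm_three', one_pow,
    one_mul] at h1
  rw [eq_div_iff (pow_ne_zero 2 (norm_ne_zero_iff.2 hx)), ← h1]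
  ring

/-- growth -/
lemma grow {x y : PadicAlgCl 3} {h : (W0.baseChange (PadicAlgCl 3)).toAffine.Nonsingular x y}
    (hx : 1 < ‖x‖) :
    ∃ (X Y : PadicAlgCl 3) (h' : (W0.baseChange (PadicAlgCl 3)).toAffine.Nonsingular X Y),
      DD hI (.some x y h) = .some X Y h' ∧ ‖X‖ = 3 * ‖x‖ := by
  have hx0 : x ≠ 0 := by
    rintro rfl
    rw [norm_zero] at hx
    linarith
  obtain ⟨X, Y, h', e, e2⟩ := step hI (h := h) hx0
  refine ⟨X, Y, h', e, ?_⟩
  have h1 : ‖x ^ 3 + 1‖ = ‖x‖ ^ 3 := by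
    rw [eq_of_lt, norm_pow]
    rw [norm_one, norm_pow]
    exact one_lt_pow₀ hx three_ne_zero
  rw [e2, h1]
  have : ‖x‖ ≠ 0 := norm_ne_zero_iff.2 hx0
  field_simp

/-- the first step with a large abscissa -/
theorem exists_big {r : ℕ} (hr : Nat.Coprime r 3) {Q : Pt (PadicAlgCl 3)} (h0 : Q ≠ 0)
    (hG : G I Q) (hQ : r • Q = 0) :
    ∃ (n : ℕ) (x y : PadicAlgCl 3) (h : (W0.baseChange (PadicAlgCl 3)).toAffine.Nonsingular x y),
      (DD hI)^[n] Q = .some x y h ∧ 1 < ‖x‖ := by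
  rcases Q with _ | ⟨x, y, h⟩
  · exact absurd rfl h0
  have hx0 := abs_ne hI hr hQ
  have hxn : 0 < ‖x‖ := norm_pos_iff.2 hx0
  have hxL := hG.x
  obtain ⟨X, Y, h', e, hX⟩ := step hI (h := h) hx0
  rcases lt_trichotomy ‖x‖ 1 with h1 | h1 | h1
  · refine ⟨1, X, Y, h', e, ?_⟩
    have h2 : ‖x ^ 3 + 1‖ = 1 := by
      rw [add_comm, eq_of_lt, norm_one]
      rw [norm_one, norm_pow]
      exact pow_lt_one₀ (norm_nonneg _) h1 three_ne_zero
    rw [hX, h2, lt_div_iff₀ (by positivity)]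
    have h3 : ‖x‖ ^ 2 < 1 := pow_lt_one₀ (norm_nonneg _) h1 two_ne_zero
    linarith
  · by_cases h2 : ‖x + 1‖ < 1
    · -- the second step
      have hl := norm_lam hI
      have hl1 := norm_lam_lt hI
      have h3 : ‖x + 1‖ ≤ ‖1 + 2 * I‖ := le_lam hI (add_mem hxL (one_mem _)) h2
      have e3 : x ^ 3 + 1 = (x + 1) ^ 3 - 3 * (x * (x + 1)) := by ring
      have h4 : ‖x ^ 3 + 1‖ ≤ ‖1 + 2 * I‖ * 3⁻¹ := by
        rw [e3]
        refine sub_le ?_ ?_
        · rw [norm_pow]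
          calc ‖x + 1‖ ^ 3 ≤ ‖1 + 2 * I‖ ^ 3 := by gcongr
            _ = ‖1 + 2 * I‖ * ‖1 + 2 * I‖ ^ 2 := by ring
            _ = _ := by rw [hl]
        · rw [norm_mul, norm_mul, h1, one_mul, norm_three', mul_comm]
          gcongr
      have h5 : ‖X‖ < 1 := by
        rw [hX, h1]
        norm_num
        linarith
      have hG' := hG.DD hI
      have hQ' := DD_smul hI hQ
      rw [e] at hG' hQ'
      have hX0 := abs_ne hI hr hQ'
      obtain ⟨X2, Y2, h2', e2, hX2⟩ := step hI (h := h') hX0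
      refine ⟨2, X2, Y2, h2', ?_, ?_⟩
      · rw [Function.iterate_succ_apply, Function.iterate_one, e, e2]
      · have hXn : 0 < ‖X‖ := norm_pos_iff.2 hX0
        have h6 : ‖X ^ 3 + 1‖ = 1 := by
          rw [add_comm, eq_of_lt, norm_one]
          rw [norm_one, norm_pow]
          exact pow_lt_one₀ (norm_nonneg _) h5 three_ne_zero
        rw [hX2, h6, lt_div_iff₀ (by positivity)]
        have h7 : ‖X‖ ^ 2 < 1 := pow_lt_one₀ (norm_nonneg _) h5 two_ne_zero
        linarith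
    · refine ⟨1, X, Y, h', e, ?_⟩
      have h3 : ‖x + 1‖ = 1 := le_antisymm (add_le h1.le (by rw [norm_one])) (not_lt.1 h2)
      have e3 : x ^ 3 + 1 = (x + 1) ^ 3 + -(3 * (x * (x + 1))) := by ring
      have h4 : ‖x ^ 3 + 1‖ = 1 := by
        rw [e3, eq_of_lt, norm_pow, h3, one_pow]
        rw [norm_neg, norm_mul, norm_mul, norm_pow, h1, h3, norm_three']
        norm_num
      rw [hX, h4, h1]
      norm_num
  · exact ⟨0, x, y, h, rfl, h1⟩

/-- the abscissas grow -/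
theorem iter {x y : PadicAlgCl 3} {h : (W0.baseChange (PadicAlgCl 3)).toAffine.Nonsingular x y}
    (hx : 1 < ‖x‖) (n : ℕ) :
    ∃ (X Y : PadicAlgCl 3) (h' : (W0.baseChange (PadicAlgCl 3)).toAffine.Nonsingular X Y),
      (DD hI)^[n] (.some x y h) = .some X Y h' ∧ ‖X‖ = 3 ^ n * ‖x‖ := by
  induction n with
  | zero => exact ⟨x, y, h, rfl, by rw [pow_zero, one_mul]⟩
  | succ n ih =>
    obtain ⟨X, Y, h', e, e2⟩ := ih
    have hX : 1 < ‖X‖ := by
      rw [e2]
      have : (1 : ℝ) ≤ 3 ^ n := one_le_pow₀ (by norm_num)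
      nlinarith
    obtain ⟨X2, Y2, h2', e3, e4⟩ := grow hI (h := h') hX
    refine ⟨X2, Y2, h2', ?_, ?_⟩
    · rw [Function.iterate_succ_apply', e, e3]
    · rw [e4, e2, pow_succ]
      ring

end loc

section glob

variable {k : ℕ} {i₀ : QB} {hi : i₀ ^ 2 + i₀ + 1 = 0} {a : GK i₀ → ZMod (3 ^ k)}
variable {J : Type} [Fintype J] [DecidableEq J] {π : J → Ei} {e : J → ZMod 3}

/-- `1 - ω` on the functions -/
noncomputable def dd (hi : i₀ ^ 2 + i₀ + 1 = 0) (k : ℕ) (P : ZMod (3 ^ k) → Pt QB) :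
    ZMod (3 ^ k) → Pt QB := fun j => P j - im (isE QB) hi (P j)

lemma dd_mem {P : ZMod (3 ^ k) → Pt QB} (hP : P ∈ AK hi a) : dd hi k P ∈ AK hi a := by
  constructor
  · intro j
    show P (j - qu k) - im (isE QB) hi (P (j - qu k)) = im (isE QB) hi (P j - im (isE QB) hi (P j))
    rw [hP.1 j, map_sub]
  · intro σ
    ext1 j
    rw [act_apply]
    show pm (gh σ) (P (j - a σ) - im (isE QB) hi (P (j - a σ))) = P j - im (isE QB) hi (P j)
    rw [map_sub, pm_im (gh σ) hi hi (gk_fix σ), ← act_apply, hP.2]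

theorem odd_zero (hD : Dat k hi π e a) (hfin : Finite (AK hi a)) {r : ℕ} (hr : Nat.Coprime r 3)
    {P : ZMod (3 ^ k) → Pt QB} (hP : P ∈ AK hi a) (h : r • P = 0) : P = 0 := by
  obtain ⟨ι⟩ := exists_emb3
  ext1 j
  by_contra hne
  have hI := iota_sq hi ι
  have hmem : ∀ n, (dd hi k)^[n] P ∈ AK hi a := by
    intro n
    induction n with
    | zero => exact hP
    | succ n ih =>
      rw [Function.iterate_succ_apply']
      exact dd_mem ih
  have hG : G (ι i₀) (pm ι (P j)) := by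
    intro τ hτ hτI
    obtain ⟨σ, hc⟩ := exists_cmp ι τ hτI
    have haσ := unr_three hD.toDat0 ι hc hτ
    have h1 := congrFun (hP.2 σ) j
    rw [act_apply, haσ, sub_zero] at h1
    rw [pm_pm]
    have h2 : (lh τ).comp ι = ι.comp (gh σ) := AlgHom.ext fun x => hc x
    rw [h2, ← pm_pm, h1]
  have hsucc : ∀ n, pm ι ((dd hi k)^[n] P j) = (DD hI)^[n] (pm ι (P j)) := by
    intro n
    induction n with
    | zero => rfl
    | succ n ih =>
      rw [Function.iterate_succ_apply', Function.iterate_succ_apply', ← ih]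
      show pm ι ((dd hi k)^[n] P j - im (isE QB) hi ((dd hi k)^[n] P j)) = _
      rw [map_sub, pm_im ι hi hI rfl]
      rfl
  have hr' : r • pm ι (P j) = 0 := by
    have h1 : r • (P j) = 0 := congrFun h j
    rw [← map_nsmul, h1, map_zero]
  have hne' : pm ι (P j) ≠ 0 := fun h1 => hne (pm_inj ι (h1.trans (pm_zero ι).symm))
  obtain ⟨n, x, y, hn, e1, hx⟩ := exists_big hI hr hne' hG hr'
  have hinj : Function.Injective (fun m => (⟨(dd hi k)^[m + n] P, hmem _⟩ : AK hi a)) := by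
    intro m m' hmm
    have h1 : (dd hi k)^[m + n] P = (dd hi k)^[m' + n] P := congrArg Subtype.val hmm
    have h2 : ∀ l, pm ι ((dd hi k)^[l + n] P j) = (DD hI)^[l] (.some x y hn) := by
      intro l
      rw [hsucc, Function.iterate_add_apply, e1]
    obtain ⟨X, Y, h3, e3, e4⟩ := iter hI (h := hn) hx m
    obtain ⟨X', Y', h3', e3', e4'⟩ := iter hI (h := hn) hx m'
    have h4 := h2 m
    rw [h1, h2 m', e3, e3', Affine.Point.some.injEq] at h4
    rw [h4.1, e4] at e4'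
    have h5 : (3 : ℝ) ^ m = 3 ^ m' := mul_right_cancel₀ (by linarith : ‖x‖ ≠ 0) e4'
    exact pow_right_injective₀ (by norm_num) (by norm_num) h5
  exact not_injective_infinite_finite _ hinj

/-- **The group of points.** -/
theorem AK_eq (hk : k ≠ 0) (hk3 : 2 ≤ k) (hD : Dat k hi π e a)
    (hker : ∀ v : J → ZMod 3, (∀ j, ∑ i, aij π e i j * (v i - v j) = 0) → ∀ i j, v i = v j)
    (hodd : ¬ (9 : Ei) ∣ ∏ j, π j ^ (e j).val - 1) {P : ZMod (3 ^ k) → Pt QB}
    (hP : P ∈ AK hi a) : ∃ c, P = ct QB k c := by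
  have hfin := AK_finite hk hk3 hD hker hodd
  have h1 : Nat.card (AK hi a) • P = 0 := by
    have h2 : Nat.card (AK hi a) • (⟨P, hP⟩ : AK hi a) = 0 := card_nsmul_eq_zero'
    exact congrArg Subtype.val h2
  have h0 : Nat.card (AK hi a) ≠ 0 := Nat.card_pos.ne'
  obtain ⟨n, r, hr, e⟩ := Nat.exists_eq_pow_mul_and_not_dvd h0 3 (by norm_num)
  have hr' : Nat.Coprime r 3 := ((Nat.prime_three.coprime_iff_not_dvd).2 hr).symm
  have h2 : (3 ^ n) • P = 0 := by
    apply odd_zero hD hfin hr' (nsmul_mem hP _)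
    rw [smul_smul, mul_comm, ← e, h1]
  exact AK_two hk hk3 hD hker hodd hP n h2

end glob

end Pool.Agent.Y715.T.Ot
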