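import Mathlib

/-!
# Reduced Laplacians over a field

For a square matrix `a` and a vector `b` over a field, the sum over `r` of `b r` times the principal
minor of the Laplacian with the row and column `r` deleted.
-/

set_option autoImplicit false

namespace Pool.Agent.Y715.T.Comb

open Finset Matrix

variable {ι κ F : Type*} [DecidableEq ι] [Field F]

/-- the alternating sum over all subsets of a product of few linear forms -/
lemma sum_prod_zero (S : Finset ι) (I : Finset κ) [DecidableEq κ] (c : κ → ι → F)
    (h : I.card < S.card) : ∑ T ∈ S.powerset, (-1) ^ T.card * ∏ i ∈ I, ∑ j ∈ T, c i j = 0 := by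
  have h1 : ∀ T ∈ S.powerset, (-1) ^ T.card * ∏ i ∈ I, ∑ j ∈ T, c i j =
      ∑ g ∈ I.pi (fun _ => S), (if (∀ i (hi : i ∈ I), g i hi ∈ T) then (-1 : F) ^ T.card else 0) *
        ∏ i ∈ I.attach, c i.1 (g i.1 i.2) := by
    intro T hT
    rw [mem_powerset] at hT
    rw [prod_sum, mul_sum]
    simp only [ite_mul, zero_mul]
    rw [← sum_filter]
    refine sum_congr ?_ fun g _ => rfl
    ext g
    simp only [mem_pi, mem_filter]
    exact ⟨fun hg => ⟨fun i hi => hT (hg i hi), hg⟩, fun hg => hg.2⟩
  rw [sum_congr rfl h1, sum_comm]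
  refine sum_eq_zero fun g hg => ?_
  rw [mem_pi] at hg
  rw [← sum_mul, ← sum_filter]
  -- an element of `S` that is not in the image
  obtain ⟨s, hs, hsg⟩ : ∃ s ∈ S, ∀ i (hi : i ∈ I), g i hi ≠ s := by
    by_contra hcon
    push Not at hcon
    have h2 : S ⊆ I.attach.image (fun i => g i.1 i.2) := by
      intro s hs
      obtain ⟨i, hi, e⟩ := hcon s hs
      exact mem_image.2 ⟨⟨i, hi⟩, mem_attach _ _, e⟩
    have h3 := card_le_card h2
    have h4 : (I.attach.image (fun i => g i.1 i.2)).card ≤ I.card := by
      refine card_image_le.trans ?_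
      rw [card_attach]
    omega
  have h7 : ∑ T ∈ S.powerset.filter (fun T => ∀ i (hi : i ∈ I), g i hi ∈ T),
      (-1 : F) ^ T.card = 0 := by
    set G := S.powerset.filter (fun T => ∀ i (hi : i ∈ I), g i hi ∈ T) with hG
    have hinv : ∀ T ∈ G, (if s ∈ T then T.erase s else insert s T) ∈ G := by
      intro T hT
      rw [hG, mem_filter, mem_powerset] at hT ⊢
      split_ifs with h6
      · refine ⟨(erase_subset _ _).trans hT.1, fun i hi => mem_erase.2 ⟨hsg i hi, hT.2 i hi⟩⟩
      · refine ⟨insert_subset hs hT.1, fun i hi => mem_insert_of_mem (hT.2 i hi)⟩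
    refine sum_involution (fun T _ => if s ∈ T then T.erase s else insert s T) ?_ ?_ ?_ ?_
    · intro T _
      split_ifs with h6
      · have h8 : T.card = (T.erase s).card + 1 := by
          rw [card_erase_of_mem h6]
          have := card_pos.2 ⟨s, h6⟩
          omega
        rw [h8, pow_succ]
        ring
      · rw [card_insert_of_notMem h6, pow_succ]
        ring
    · intro T _ _
      split_ifs with h6
      · intro h8
        rw [← h8] at h6
        exact (notMem_erase s T) h6
      · intro h8
        apply h6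
        rw [← h8]
        exact mem_insert_self _ _
    · exact hinv
    · intro T _
      split_ifs with h6 h8 h8
      · exact absurd h8 (notMem_erase s T)
      · exact insert_erase h6
      · exact erase_insert h6
      · exact absurd (mem_insert_self s T) h8
  rw [h7, zero_mul]

variable [Fintype ι]

/-- the matrix with the rows of the Laplacian of `T` for the indices in `S` other than `r`, and rows
of the identity matrix for the others -/
def V (a : ι → ι → F) (S T : Finset ι) (r : ι) : Matrix ι ι F :=
  Matrix.of fun i j => if i = r ∨ i ∉ S then (if i = j then 1 else 0) else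
    (if i = j then ∑ l ∈ T, (if l = i then 0 else a i l) else if j ∈ T then -a i j else 0)

/-- the principal minor -/
def w (a : ι → ι → F) (T : Finset ι) (r : ι) : F := (V a T T r).det

/-- the sum of `b r` times the principal minors -/
def D (a : ι → ι → F) (b : ι → F) (T : Finset ι) : F := ∑ r ∈ T, b r * w a T r

lemma sum_V (a : ι → ι → F) (S : Finset ι) {r : ι} (hr : r ∈ S) :
    ∑ T ∈ S.powerset, (-1) ^ T.card * (V a S T r).det = 0 := by
  simp only [Matrix.det_apply, mul_sum]
  rw [sum_comm]
  refine sum_eq_zero fun σ _ => ?_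
  simp only [mul_smul_comm]
  rw [← Finset.smul_sum]
  have key : ∑ T ∈ S.powerset, (-1) ^ T.card * ∏ i, V a S T r (σ i) i = 0 := by
    have h1 : ∀ T : Finset ι, ∏ i, V a S T r (σ i) i =
        (∏ i ∈ univ.filter (fun i => i = r ∨ i ∉ S), (if i = σ.symm i then (1 : F) else 0)) *
        ∏ i ∈ S.erase r, ∑ l ∈ T, (if i = σ.symm i then (if l = i then 0 else a i l) else
          if l = σ.symm i then -a i l else 0) := by
      intro T
      have h2 : ∏ i, V a S T r (σ i) i = ∏ i, V a S T r i (σ.symm i) := by
        rw [← Equiv.prod_comp σ (fun i => V a S T r i (σ.symm i))]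
        refine prod_congr rfl fun i _ => ?_
        rw [Equiv.symm_apply_apply]
      rw [h2, ← prod_filter_mul_prod_filter_not univ (fun i => i = r ∨ i ∉ S)]
      congr 1
      · refine prod_congr rfl fun i hi => ?_
        rw [mem_filter] at hi
        unfold V
        rw [Matrix.of_apply, if_pos hi.2]
      · have h3 : univ.filter (fun i => ¬ (i = r ∨ i ∉ S)) = S.erase r := by
          ext i
          simp only [mem_filter, mem_univ, true_and, mem_erase]
          tauto
        rw [h3]
        refine prod_congr rfl fun i hi => ?_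
        rw [mem_erase] at hi
        unfold V
        rw [Matrix.of_apply, if_neg (by tauto)]
        split_ifs with h4
        · rfl
        · rw [sum_ite_eq' , if_pos ‹_›]
        · rw [sum_ite_eq', if_neg ‹_›]
    simp only [h1]
    have h5 : ∀ (x : F) (T : Finset ι) (y : F), (-1) ^ T.card * (x * y) =
        x * ((-1) ^ T.card * y) := fun x T y => by ring
    simp only [h5]
    rw [← mul_sum, sum_prod_zero, mul_zero]
    rw [card_erase_of_mem hr]
    have := card_pos.2 ⟨r, hr⟩
    omega
  rw [key, smul_zero]

/-- a column with one non-zero entry -/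
lemma det_col {M : Matrix ι ι F} {i : ι} (h : ∀ j, j ≠ i → M j i = 0) :
    M.det = M i i * (M.updateRow i (Pi.single i 1)).det := by
  have h1 := congrFun (congrFun (Matrix.adjugate_mul M) i) i
  rw [Matrix.mul_apply, sum_eq_single i] at h1
  · rw [Matrix.adjugate_apply, Matrix.smul_apply, Matrix.one_apply_eq, smul_eq_mul, mul_one] at h1
    rw [← h1, mul_comm]
  · intro j _ hj
    rw [h j hj, mul_zero]
  · intro h2
    exact absurd (mem_univ i) h2

/-- the rows of the indices in `U` are replaced by rows of the identity matrix -/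
def rep (M : Matrix ι ι F) (U : Finset ι) : Matrix ι ι F :=
  Matrix.of fun i j => if i ∈ U then (if i = j then 1 else 0) else M i j

lemma det_rep {M : Matrix ι ι F} (U : Finset ι) (h : ∀ i ∈ U, ∀ j, j ≠ i → M j i = 0) :
    M.det = (∏ i ∈ U, M i i) * (rep M U).det := by
  classical
  induction U using Finset.induction_on with
  | empty =>
    rw [prod_empty, one_mul]
    congr 1
  | insert u U hu ih =>
    rw [ih fun i hi => h i (mem_insert_of_mem hi), prod_insert hu]
    have h1 : (rep M U).det = M u u * (rep M (insert u U)).det := by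
      rw [det_col (i := u)]
      · congr 1
        · simp [rep, hu]
        · congr 1
          ext i j
          by_cases hi : i = u
          · subst hi
            simp [rep, Pi.single_apply, eq_comm]
          · simp [rep, hi]
      · intro j hj
        unfold rep
        rw [Matrix.of_apply]
        split_ifs with h2
        · rfl
        · exact h u (mem_insert_self _ _) j hj
    rw [h1]
    ring

lemma V_col (a : ι → ι → F) {S T : Finset ι} {r i : ι} (hi : i ∉ T) (j : ι)
    (hj : j ≠ i) : V a S T r j i = 0 := by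
  unfold V
  rw [Matrix.of_apply]
  simp [hj, hi]

/-- the kernel -/
lemma V_kernel (a : ι → ι → F) {T : Finset ι} {r : ι} (hr : r ∉ T) (hT : T.Nonempty) :
    (rep (V a T T r) {r}).det = 0 := by
  rw [← Matrix.exists_mulVec_eq_zero_iff]
  refine ⟨fun j => if j ∈ T then 1 else 0, ?_, ?_⟩
  · obtain ⟨t, ht⟩ := hT
    intro h
    have := congrFun h t
    simp [ht] at this
  · ext i
    rw [Matrix.mulVec, dotProduct]
    simp only [mul_ite, mul_one, mul_zero, Pi.zero_apply]
    rw [← sum_filter]
    have h1 : univ.filter (fun j => j ∈ T) = T := by ext; simp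
    rw [h1]
    by_cases hi : i ∈ T
    · have hir : i ≠ r := fun h => hr (h ▸ hi)
      have h2 : ∀ j ∈ T, rep (V a T T r) {r} i j =
          if i = j then ∑ l ∈ T, (if l = i then 0 else a i l) else -a i j := by
        intro j hj
        unfold rep V
        rw [Matrix.of_apply, Matrix.of_apply]
        simp [hir, hi, hj]
      rw [sum_congr rfl h2, ← add_sum_erase T _ hi, if_pos rfl,
        ← add_sum_erase T (fun l => if l = i then 0 else a i l) hi, if_pos rfl, zero_add]
      have h3 : ∑ l ∈ T.erase i, (if l = i then 0 else a i l) = ∑ l ∈ T.erase i, a i l :=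
        sum_congr rfl fun l hl => if_neg (ne_of_mem_erase hl)
      have h4 : ∀ z : F, ∑ j ∈ T.erase i, (if i = j then z else -a i j) =
          -∑ l ∈ T.erase i, a i l := by
        intro z
        rw [← sum_neg_distrib]
        exact sum_congr rfl fun l hl => if_neg (ne_of_mem_erase hl).symm
      rw [h3, h4]
      ring
    · refine sum_eq_zero fun j hj => ?_
      have hij : i ≠ j := fun h => hi (h ▸ hj)
      unfold rep V
      rw [Matrix.of_apply, Matrix.of_apply]
      simp [hi, hij]

lemma det_V (a : ι → ι → F) {S T : Finset ι} (hTS : T ⊆ S) {r : ι} (hr : r ∈ S)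
    (hS : 2 ≤ S.card) :
    (V a S T r).det = if r ∈ T then w a T r * ∏ i ∈ S \ T, ∑ j ∈ T, a i j else 0 := by
  classical
  have hdiag : ∀ i ∈ S \ T, i ≠ r → V a S T r i i = ∑ j ∈ T, a i j := by
    intro i hi hir
    rw [mem_sdiff] at hi
    unfold V
    rw [Matrix.of_apply, if_neg (by tauto), if_pos rfl]
    refine sum_congr rfl fun l hl => if_neg ?_
    rintro rfl
    exact hi.2 hl
  split_ifs with hrT
  · rw [det_rep (S \ T) fun i hi j hj => V_col a (mem_sdiff.1 hi).2 j hj, mul_comm]
    congr 1
    · unfold w
      congr 1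
      ext i j
      simp only [rep, V, Matrix.of_apply]
      by_cases h1 : i ∈ T
      · have h2 : i ∈ S := hTS h1
        simp [h1, h2]
      · by_cases h2 : i ∈ S
        · simp [h1, h2]
        · simp [h1, h2]
    · refine prod_congr rfl fun i hi => hdiag i hi ?_
      rintro rfl
      exact (mem_sdiff.1 hi).2 hrT
  · rw [det_rep ((S \ T).erase r) fun i hi j hj =>
      V_col a (mem_sdiff.1 (mem_of_mem_erase hi)).2 j hj]
    rcases T.eq_empty_or_nonempty with hT | hT
    · have h1 : ((S \ T).erase r).Nonempty := by
        rw [← card_pos, hT, sdiff_empty, card_erase_of_mem hr]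
        omega
      obtain ⟨i, hi⟩ := h1
      rw [prod_eq_zero hi, zero_mul]
      rw [hdiag i (mem_of_mem_erase hi) (ne_of_mem_erase hi), hT, sum_empty]
    · have h1 : rep (V a S T r) ((S \ T).erase r) = rep (V a T T r) {r} := by
        ext i j
        unfold rep V
        rw [Matrix.of_apply, Matrix.of_apply, Matrix.of_apply, Matrix.of_apply]
        by_cases hir : i = r
        · subst hir
          simp
        · by_cases h1 : i ∈ T
          · have h2 : i ∈ S := hTS h1
            simp [h1, h2, hir]
          · by_cases h2 : i ∈ S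
            · simp [h1, h2, hir]
            · simp [h1, h2, hir]
      rw [h1, V_kernel a hrT hT, mul_zero]

/-- **The recursion.** -/
theorem D_rec (a : ι → ι → F) (b : ι → F) (S : Finset ι) (hS : 2 ≤ S.card) :
    ∑ T ∈ S.powerset, (-1) ^ T.card * (D a b T * ∏ i ∈ S \ T, ∑ j ∈ T, a i j) = 0 := by
  have h1 : ∑ r ∈ S, b r * ∑ T ∈ S.powerset, (-1) ^ T.card * (V a S T r).det = 0 :=
    sum_eq_zero fun r hr => by rw [sum_V a S hr, mul_zero]
  rw [← h1]
  simp only [mul_sum]
  rw [sum_comm]
  refine sum_congr rfl fun T hT => ?_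
  rw [mem_powerset] at hT
  unfold D
  rw [sum_mul, mul_sum]
  have h2 : ∀ r ∈ S, b r * ((-1) ^ T.card * (V a S T r).det) =
      if r ∈ T then (-1) ^ T.card * (b r * w a T r * ∏ i ∈ S \ T, ∑ j ∈ T, a i j) else 0 := by
    intro r hr
    rw [det_V a hT hr hS]
    split_ifs
    · ring
    · ring
  rw [sum_congr rfl h2, ← sum_filter]
  refine sum_congr ?_ fun _ _ => rfl
  ext r
  rw [mem_filter]
  exact ⟨fun h => ⟨hT h, h⟩, fun h => h.2⟩

lemma D_one (a : ι → ι → F) (b : ι → F) (i : ι) : D a b {i} = b i := by
  unfold D w
  rw [sum_singleton]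
  have h1 : V a {i} {i} i = 1 := by
    ext j l
    unfold V
    rw [Matrix.of_apply, Matrix.one_apply]
    by_cases h : j = i
    · simp [h]
    · simp [h]
  rw [h1, Matrix.det_one, mul_one]

/-- the full Laplacian of `S`, with rows of the identity matrix outside of `S` -/
def M (a : ι → ι → F) (S : Finset ι) : Matrix ι ι F :=
  Matrix.of fun i j => if i ∉ S then (if i = j then 1 else 0) else
    (if i = j then ∑ l ∈ S, (if l = i then 0 else a i l) else if j ∈ S then -a i j else 0)

lemma V_eq (a : ι → ι → F) (S : Finset ι) (r : ι) :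
    V a S S r = (M a S).updateRow r (Pi.single r 1) := by
  ext i j
  unfold V M
  rw [Matrix.of_apply]
  by_cases h : i = r
  · subst h
    simp [Pi.single_apply, eq_comm]
  · simp [h]

/-- the Laplacian applied to a vector supported on `S` -/
lemma M_apply (a : ι → ι → F) (S : Finset ι) (e : ι → F) (i : ι) (hi : i ∈ S) :
    (M a S).mulVec (fun j => if j ∈ S then e j else 0) i = ∑ j ∈ S, a i j * (e i - e j) := by
  rw [Matrix.mulVec, dotProduct]
  simp only [mul_ite, mul_zero]
  rw [← sum_filter]
  have h1 : univ.filter (fun j => j ∈ S) = S := by ext; simp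
  rw [h1, ← add_sum_erase S _ hi, ← add_sum_erase S _ hi]
  have e1 : M a S i i = ∑ l ∈ S.erase i, a i l := by
    unfold M
    rw [Matrix.of_apply, if_neg (by simpa using hi), if_pos rfl, ← add_sum_erase S _ hi, if_pos rfl,
      zero_add]
    exact sum_congr rfl fun l hl => if_neg (ne_of_mem_erase hl)
  rw [sub_self, mul_zero, zero_add, e1, sum_mul, ← sum_add_distrib]
  refine sum_congr rfl fun j hj => ?_
  have e2 : M a S i j = -a i j := by
    unfold M
    rw [Matrix.of_apply, if_neg (by simpa using hi), if_neg (ne_of_mem_erase hj).symm,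
      if_pos (mem_of_mem_erase hj)]
  rw [e2]
  ring

lemma M_out (a : ι → ι → F) (S : Finset ι) (v : ι → F) (i : ι) (hi : i ∉ S) :
    (M a S).mulVec v i = v i := by
  rw [Matrix.mulVec, dotProduct, sum_eq_single i]
  · unfold M
    rw [Matrix.of_apply, if_pos hi, if_pos rfl, one_mul]
  · intro j _ hj
    unfold M
    rw [Matrix.of_apply, if_pos hi, if_neg hj.symm, zero_mul]
  · intro h
    exact absurd (mem_univ i) h

lemma M_one (a : ι → ι → F) (S : Finset ι) :
    (M a S).mulVec (fun j => if j ∈ S then 1 else 0) = 0 := by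
  ext i
  by_cases hi : i ∈ S
  · have := M_apply a S (fun _ => 1) i hi
    rw [this]
    refine sum_eq_zero fun j _ => ?_
    rw [sub_self, mul_zero]
  · rw [M_out a S _ i hi, if_neg hi]
    rfl

/-- the entries of a column of the adjugate matrix are equal -/
lemma adj_eq (a : ι → ι → F) (S : Finset ι) {j s : ι} (hj : j ∈ S) (hs : s ∈ S) (r : ι) :
    (M a S).adjugate j r = (M a S).adjugate s r := by
  set N := (M a S).updateRow r (Pi.single j 1) with hN
  have h1 : N.mulVec (fun l => if l ∈ S then 1 else 0) = Pi.single r 1 := by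
    ext i
    by_cases hi : i = r
    · subst hi
      rw [Matrix.mulVec, hN, Matrix.updateRow_self, single_dotProduct, one_mul, if_pos hj,
        Pi.single_eq_same]
    · rw [Matrix.mulVec, hN, Matrix.updateRow_ne hi, Pi.single_eq_of_ne hi]
      exact congrFun (M_one a S) i
  have h2 := congrArg (fun v => N.adjugate.mulVec v s) h1
  simp only [Matrix.mulVec_mulVec, Matrix.adjugate_mul, Matrix.smul_mulVec, Matrix.one_mulVec,
    Pi.smul_apply, if_pos hs, smul_eq_mul, mul_one, Matrix.mulVec_single_one, Matrix.col_apply] at h2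
  rw [Matrix.adjugate_apply, Matrix.adjugate_apply]
  rw [Matrix.adjugate_apply, hN, Matrix.updateRow_idem] at h2
  exact h2

/-- the kernel of the Laplacian of `S` consists of the constants -/
def Ker (a : ι → ι → F) (S : Finset ι) : Prop :=
  ∀ e : ι → F, (∀ i ∈ S, ∑ j ∈ S, a i j * (e i - e j) = 0) → ∀ i ∈ S, ∀ j ∈ S, e i = e j

/-- symmetric matrices -/
def Sym (a : ι → ι → F) : Prop := ∀ i j, i ≠ j → a i j = a j i

omit [Fintype ι] in
lemma sum_sym {a : ι → ι → F} (ha : Sym a) (S : Finset ι) (e : ι → F) :
    ∑ i ∈ S, ∑ j ∈ S, a i j * (e i - e j) = 0 := by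
  have h1 : ∑ i ∈ S, ∑ j ∈ S, a i j * (e i - e j) = ∑ i ∈ S, ∑ j ∈ S, a i j * e i -
      ∑ i ∈ S, ∑ j ∈ S, a i j * e j := by
    rw [← sum_sub_distrib]
    refine sum_congr rfl fun i _ => ?_
    rw [← sum_sub_distrib]
    exact sum_congr rfl fun j _ => by ring
  rw [h1, sum_comm (f := fun i j => a i j * e j), ← sum_sub_distrib]
  refine sum_eq_zero fun i _ => ?_
  rw [← sum_sub_distrib]
  refine sum_eq_zero fun j _ => ?_
  by_cases h : i = j
  · rw [h, sub_self]
  · rw [ha i j h, sub_self]

/-- the minors of a symmetric Laplacian do not vanish if the kernel consists of the constants -/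
lemma w_ne {a : ι → ι → F} {S : Finset ι} (ha : Sym a) (hk : Ker a S) {r : ι} (hr : r ∈ S) :
    w a S r ≠ 0 := by
  intro h0
  unfold w at h0
  rw [V_eq, ← Matrix.exists_mulVec_eq_zero_iff] at h0
  obtain ⟨v, hv, hv0⟩ := h0
  have hvr : v r = 0 := by
    have := congrFun hv0 r
    rwa [Matrix.mulVec, Matrix.updateRow_self, single_dotProduct, one_mul] at this
  have hrow : ∀ i, i ≠ r → (M a S).mulVec v i = 0 := by
    intro i hi
    have := congrFun hv0 i
    rwa [Matrix.mulVec, Matrix.updateRow_ne hi] at this
  have hout : ∀ i, i ∉ S → v i = 0 := by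
    intro i hi
    have h1 := hrow i (fun h => hi (h ▸ hr))
    rwa [M_out a S v i hi] at h1
  have hvS : v = fun j => if j ∈ S then v j else 0 := by
    funext j
    split_ifs with h
    · rfl
    · exact hout j h
  have hS : ∀ i ∈ S, (M a S).mulVec v i = ∑ j ∈ S, a i j * (v i - v j) := by
    intro i hi
    conv_lhs => rw [hvS]
    exact M_apply a S v i hi
  have hall : ∀ i ∈ S, ∑ j ∈ S, a i j * (v i - v j) = 0 := by
    intro i hi
    by_cases hir : i = r
    · subst hir
      have h1 := sum_sym ha S v
      rw [← add_sum_erase S _ hi] at h1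
      have h2 : ∑ x ∈ S.erase i, ∑ j ∈ S, a x j * (v x - v j) = 0 := by
        refine sum_eq_zero fun x hx => ?_
        rw [← hS x (mem_of_mem_erase hx)]
        exact hrow x (ne_of_mem_erase hx)
      rw [h2, add_zero] at h1
      exact h1
    · rw [← hS i hi]
      exact hrow i hir
  apply hv
  funext i
  by_cases hi : i ∈ S
  · rw [hk v hall i hi r hr, hvr]
    rfl
  · exact hout i hi

/-- the minors of a symmetric Laplacian are equal -/
lemma w_eq {a : ι → ι → F} {S : Finset ι} (ha : Sym a) {r s : ι} (hr : r ∈ S) (hs : s ∈ S) :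
    w a S r = w a S s := by
  have h1 : ∀ r, w a S r = (M a S).adjugate r r := by
    intro r
    unfold w
    rw [V_eq, ← Matrix.adjugate_apply]
  rw [h1, h1]
  -- the symmetric matrix with the same minors
  set N : Matrix ι ι F := Matrix.of fun i j => if i ∈ S ∧ j ∈ S then M a S i j else
    if i = j then 1 else 0 with hN
  have hMN : M a S = N := by
    ext i j
    rw [hN, Matrix.of_apply]
    unfold M
    rw [Matrix.of_apply]
    by_cases hi : i ∈ S
    · by_cases hj : j ∈ S
      · simp [hi, hj]
      · have hij : i ≠ j := fun h => hj (h ▸ hi)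
        simp [hi, hj, hij]
    · simp [hi]
  have hsym : (M a S).transpose = M a S := by
    rw [hMN]
    ext i j
    rw [Matrix.transpose_apply, hN, Matrix.of_apply, Matrix.of_apply]
    by_cases hi : i ∈ S
    · by_cases hj : j ∈ S
      · rw [if_pos ⟨hj, hi⟩, if_pos ⟨hi, hj⟩]
        by_cases hij : i = j
        · rw [hij]
        · unfold M
          simp [hi, hj, hij, Ne.symm hij, ha i j hij]
      · have hij : i ≠ j := fun h => hj (h ▸ hi)
        simp [hi, hj, hij, Ne.symm hij]
    · by_cases hij : i = j
      · subst hij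
        simp [hi]
      · simp [hi, hij, Ne.symm hij]
  have hadj : ∀ i j, (M a S).adjugate i j = (M a S).adjugate j i := by
    intro i j
    have := congrFun (congrFun (Matrix.adjugate_transpose (M a S)) i) j
    rw [Matrix.transpose_apply, hsym] at this
    exact this.symm
  rw [adj_eq a S hr hs r, hadj s r, adj_eq a S hr hs s]

/-- **Non-vanishing of the sum of the minors.** -/
theorem D_ne {a : ι → ι → F} {b ε : ι → F} {S : Finset ι} (hS : S.Nonempty)
    (hε : ∀ i ∈ S, ε i ≠ 0) (ha : ∀ i ∈ S, ∀ j ∈ S, i ≠ j → ε i * a i j = ε j * a j i)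
    (hk : Ker a S) (hb : ∑ i ∈ S, ε i * b i ≠ 0) : D a b S ≠ 0 := by
  classical
  set a' : ι → ι → F := fun i j => if i ∈ S ∧ j ∈ S then ε i * a i j else 0 with ha'
  have hsym : Sym a' := by
    intro i j hij
    rw [ha']
    by_cases h : i ∈ S ∧ j ∈ S
    · simp only [if_pos h, if_pos h.symm]
      exact ha i h.1 j h.2 hij
    · simp only [if_neg h, if_neg (fun h' : j ∈ S ∧ i ∈ S => h h'.symm)]
  have hk' : Ker a' S := by
    intro e he
    refine hk e fun i hi => ?_
    have h1 := he i hi
    have h2 : ∑ j ∈ S, a' i j * (e i - e j) = ε i * ∑ j ∈ S, a i j * (e i - e j) := by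
      rw [mul_sum]
      refine sum_congr rfl fun j hj => ?_
      rw [ha']
      simp only [if_pos (And.intro hi hj)]
      ring
    rw [h2] at h1
    exact (mul_eq_zero.1 h1).resolve_left (hε i hi)
  -- comparison of the minors
  have hw : ∀ r ∈ S, (∏ i ∈ S.erase r, ε i) * w a S r = w a' S r := by
    intro r hr
    unfold w
    have h1 : V a' S S r = Matrix.diagonal (fun i => if i ∈ S.erase r then ε i else 1) *
        V a S S r := by
      ext i j
      rw [Matrix.diagonal_mul]
      unfold V
      rw [Matrix.of_apply, Matrix.of_apply]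
      by_cases hir : i = r
      · subst hir
        simp
      · by_cases hi : i ∈ S
        · have h2 : i ∈ S.erase r := mem_erase.2 ⟨hir, hi⟩
          have hc : ¬ (i = r ∨ i ∉ S) := by tauto
          simp only [if_neg hc, if_pos h2]
          by_cases hij : i = j
          · rw [if_pos hij, if_pos hij, mul_sum]
            refine sum_congr rfl fun l hl => ?_
            split_ifs
            · rw [mul_zero]
            · rw [ha']
              simp only [if_pos (And.intro hi hl)]
          · rw [if_neg hij, if_neg hij]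
            by_cases hj : j ∈ S
            · rw [if_pos hj, if_pos hj, ha']
              simp only [if_pos (And.intro hi hj)]
              ring
            · rw [if_neg hj, if_neg hj, mul_zero]
        · have h2 : i ∉ S.erase r := fun h => hi (mem_of_mem_erase h)
          rw [if_pos (Or.inr hi), if_pos (Or.inr hi), if_neg h2, one_mul]
    rw [h1, Matrix.det_mul, Matrix.det_diagonal]
    congr 1
    rw [prod_ite_mem, univ_inter]
  obtain ⟨s, hs⟩ := hS
  have hp : ∏ i ∈ S, ε i ≠ 0 := prod_ne_zero_iff.2 hε
  have hD : (∏ i ∈ S, ε i) * D a b S = w a' S s * ∑ i ∈ S, ε i * b i := by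
    unfold D
    rw [mul_sum, mul_sum]
    refine sum_congr rfl fun r hr => ?_
    rw [← mul_prod_erase S ε hr]
    have h1 := hw r hr
    rw [w_eq hsym hr hs] at h1
    rw [← h1]
    ring
  intro h0
  rw [h0, mul_zero] at hD
  exact mul_ne_zero (w_ne hsym hk' hs) hb hD.symm

end Pool.Agent.Y715.T.Comb
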