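import Pool.Agent.Y715.T.Lat
import Pool.Agent.Y715.T.Comb

/-!
# Congruences modulo the maximal ideal
-/

set_option autoImplicit false

namespace Pool.Agent.Y715.T.Cg

open Pool.Agent.Y715.Two (v_nat v_int v_unit v_mul_le_of)
open Pool.Agent.Y715.T.Three

variable {Γ : Type*} [LinearOrderedCommGroupWithZero Γ] {v : Valuation ℂ Γ}

/-- `s` is congruent to `d` modulo the maximal ideal -/
structure Cg (v : Valuation ℂ Γ) (s : ℂ) (d : ZMod 3) : Prop where
  le : v s ≤ 1
  lt : v (s - (d.val : ℂ)) < 1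

variable (h3 : v 3 < 1)

lemma Cg.of_sub {s t : ℂ} {d : ZMod 3} (h : v (s - t) < 1) (ht : Cg v t d) : Cg v s d := by
  constructor
  · have e : s = (s - t) + t := by ring
    rw [e]
    exact v.map_add_le h.le ht.le
  · have e : s - (d.val : ℂ) = (s - t) + (t - (d.val : ℂ)) := by ring
    rw [e]
    exact v.map_add_lt h ht.lt

lemma Cg.zero {s : ℂ} (h : v s < 1) : Cg v s 0 := by
  refine ⟨h.le, ?_⟩
  rw [ZMod.val_zero, Nat.cast_zero, sub_zero]
  exact h

lemma Cg.one {s : ℂ} (h : v (s - 1) < 1) : Cg v s 1 := by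
  refine ⟨(v_unit h).le, ?_⟩
  have : ((1 : ZMod 3).val : ℂ) = 1 := by
    rw [show (1 : ZMod 3).val = 1 from rfl, Nat.cast_one]
  rw [this]
  exact h

include h3 in
/-- two numbers congruent modulo three -/
lemma Cg.of_int {s : ℂ} {d : ZMod 3} {m n : ℤ} (hn : ((d.val : ℤ)) = n) (hm : ∃ q, m - n = 3 * q)
    (hs : v (s - m) < 1) (hs' : v s ≤ 1) : Cg v s d := by
  refine ⟨hs', ?_⟩
  obtain ⟨q, hq⟩ := hm
  have e : s - (d.val : ℂ) = (s - m) + 3 * (q : ℂ) := by
    have h1 : ((d.val : ℤ) : ℂ) = n := by rw [hn]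
    push_cast at h1
    have h2 : (m : ℂ) - n = 3 * q := by exact_mod_cast hq
    rw [h1, ← h2]
    ring
  rw [e]
  exact v.map_add_lt hs ((v_mul_le_of le_rfl (v_int q)).trans_lt h3)

include h3 in
lemma Cg.add {s t : ℂ} {d e : ZMod 3} (hs : Cg v s d) (ht : Cg v t e) : Cg v (s + t) (d + e) := by
  have h1 : ∀ d e : ZMod 3, ∃ q : ℤ, (d.val : ℤ) + e.val - (d + e).val = 3 * q := by
    intro d e
    fin_cases d <;> fin_cases e
    · exact ⟨0, rfl⟩
    · exact ⟨0, rfl⟩
    · exact ⟨0, rfl⟩
    · exact ⟨0, rfl⟩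
    · exact ⟨0, rfl⟩
    · exact ⟨1, rfl⟩
    · exact ⟨0, rfl⟩
    · exact ⟨1, rfl⟩
    · exact ⟨1, rfl⟩
  refine Cg.of_int h3 rfl (h1 d e) ?_ (v.map_add_le hs.le ht.le)
  have e1 : s + t - (((d.val : ℤ) + e.val : ℤ) : ℂ) = (s - d.val) + (t - e.val) := by
    push_cast
    ring
  rw [e1]
  exact v.map_add_lt hs.lt ht.lt

include h3 in
lemma Cg.mul {s t : ℂ} {d e : ZMod 3} (hs : Cg v s d) (ht : Cg v t e) : Cg v (s * t) (d * e) := by
  have h1 : ∀ d e : ZMod 3, ∃ q : ℤ, (d.val : ℤ) * e.val - (d * e).val = 3 * q := by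
    intro d e
    fin_cases d <;> fin_cases e
    · exact ⟨0, rfl⟩
    · exact ⟨0, rfl⟩
    · exact ⟨0, rfl⟩
    · exact ⟨0, rfl⟩
    · exact ⟨0, rfl⟩
    · exact ⟨0, rfl⟩
    · exact ⟨0, rfl⟩
    · exact ⟨0, rfl⟩
    · exact ⟨1, rfl⟩
  refine Cg.of_int h3 rfl (h1 d e) ?_ (v_mul_le_of hs.le ht.le)
  have e1 : s * t - (((d.val : ℤ) * e.val : ℤ) : ℂ) =
      (t - e.val) * s + (s - d.val) * e.val := by
    push_cast
    ring
  rw [e1]
  refine v.map_add_lt ?_ ?_
  · exact (v_mul_le_of le_rfl hs.le).trans_lt ht.lt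
  · exact (v_mul_le_of le_rfl (v_nat _)).trans_lt hs.lt

include h3 in
lemma Cg.neg {s : ℂ} {d : ZMod 3} (hs : Cg v s d) : Cg v (-s) (-d) := by
  have h1 : ∀ d : ZMod 3, ∃ q : ℤ, -(d.val : ℤ) - (-d).val = 3 * q := by
    intro d
    fin_cases d
    · exact ⟨0, rfl⟩
    · exact ⟨-1, rfl⟩
    · exact ⟨-1, rfl⟩
  refine Cg.of_int h3 rfl (h1 d) ?_ (by rw [v.map_neg]; exact hs.le)
  have e1 : -s - ((-(d.val : ℤ) : ℤ) : ℂ) = -(s - d.val) := by
    push_cast
    ring
  rw [e1, v.map_neg]
  exact hs.lt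

include h3 in
lemma Cg.sign {s : ℂ} {d : ZMod 3} (hs : Cg v s d) (n : ℕ) : Cg v ((-1) ^ n * s) ((-1) ^ n * d) := by
  rcases Nat.even_or_odd n with h | h
  · rw [h.neg_one_pow, h.neg_one_pow, one_mul, one_mul]
    exact hs
  · rw [h.neg_one_pow, h.neg_one_pow, neg_one_mul, neg_one_mul]
    exact hs.neg h3

include h3 in
lemma Cg.sum {κ : Type*} (S : Finset κ) {s : κ → ℂ} {d : κ → ZMod 3}
    (h : ∀ i ∈ S, Cg v (s i) (d i)) : Cg v (∑ i ∈ S, s i) (∑ i ∈ S, d i) := by
  classical
  induction S using Finset.induction_on with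
  | empty =>
    rw [Finset.sum_empty, Finset.sum_empty]
    exact Cg.zero (by rw [map_zero]; exact zero_lt_one)
  | insert j S hj ih =>
    rw [Finset.sum_insert hj, Finset.sum_insert hj]
    exact (h j (Finset.mem_insert_self _ _)).add h3
      (ih fun i hi => h i (Finset.mem_insert_of_mem hi))

include h3 in
lemma Cg.prod {κ : Type*} (S : Finset κ) {s : κ → ℂ} {d : κ → ZMod 3}
    (h : ∀ i ∈ S, Cg v (s i) (d i)) : Cg v (∏ i ∈ S, s i) (∏ i ∈ S, d i) := by
  classical
  induction S using Finset.induction_on with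
  | empty =>
    rw [Finset.prod_empty, Finset.prod_empty]
    exact Cg.one (by rw [sub_self, map_zero]; exact zero_lt_one)
  | insert j S hj ih =>
    rw [Finset.prod_insert hj, Finset.prod_insert hj]
    exact (h j (Finset.mem_insert_self _ _)).mul h3
      (ih fun i hi => h i (Finset.mem_insert_of_mem hi))

lemma Cg.lt_one {s : ℂ} (hs : Cg v s 0) : v s < 1 := by
  have h := hs.lt
  rwa [ZMod.val_zero, Nat.cast_zero, sub_zero] at h

include h3 in
lemma Cg.eq_one {s : ℂ} {d : ZMod 3} (hs : Cg v s d) (hd : d ≠ 0) : v s = 1 := by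
  have h := hs.mul h3 hs
  have h1 : ∀ d : ZMod 3, d ≠ 0 → d * d = 1 := by decide
  rw [h1 d hd] at h
  have h2 : v (s * s) = 1 := by
    have h4 := h.lt
    have : ((1 : ZMod 3).val : ℂ) = 1 := by
      rw [show (1 : ZMod 3).val = 1 from rfl, Nat.cast_one]
    rw [this] at h4
    exact v_unit h4
  rw [map_mul] at h2
  refine le_antisymm hs.le ?_
  by_contra hcon
  push Not at hcon
  have h5 : v s * v s < 1 := by
    calc v s * v s ≤ v s * 1 := mul_le_mul' le_rfl hs.le
      _ = v s := mul_one _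
      _ < 1 := hcon
  exact h5.ne h2

/-! ### the root of unity -/

/-- the properties of the root of unity -/
structure Zt (v : Valuation ℂ Γ) (z : ℂ) : Prop where
  one : v z = 1
  lt : v (1 - z) < 1
  ne : 1 - z ≠ 0
  three : v 3 < v (1 - z)

variable {z : ℂ} (hz : Zt v z)

include hz in
lemma Zt.pow (n : ℕ) : v (z ^ n - 1) < 1 := by
  have h : z ^ n - 1 = -(1 - z) * ∑ i ∈ Finset.range n, z ^ i := by
    have := geom_sum_mul z n
    linear_combination -this
  rw [h]
  refine (v_mul_le_of (g := v (1 - z)) (by rw [v.map_neg]) ?_).trans_lt hz.lt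
  refine v.map_sum_le fun i _ => ?_
  rw [map_pow, hz.one, one_pow]

include hz in
lemma Zt.pow_le (n : ℕ) : v (1 - z ^ n) ≤ v (1 - z) := by
  have h : 1 - z ^ n = (1 - z) * ∑ i ∈ Finset.range n, z ^ i := by
    have := geom_sum_mul z n
    linear_combination this
  rw [h]
  refine v_mul_le_of le_rfl ?_
  refine v.map_sum_le fun i _ => ?_
  rw [map_pow, hz.one, one_pow]

include h3 in
lemma Cg.nat (n : ℕ) : Cg v (n : ℂ) (n : ZMod 3) := by
  induction n with
  | zero =>
    rw [Nat.cast_zero, Nat.cast_zero]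
    exact Cg.zero (by rw [map_zero]; exact zero_lt_one)
  | succ n ih =>
    rw [Nat.cast_succ, Nat.cast_succ]
    exact ih.add h3 (Cg.one (by rw [sub_self, map_zero]; exact zero_lt_one))

include h3 in
lemma Cg.int (n : ℤ) : Cg v (n : ℂ) (n : ZMod 3) := by
  obtain ⟨m, rfl | rfl⟩ := n.eq_nat_or_neg
  · exact_mod_cast Cg.nat h3 m
  · push_cast
    exact (Cg.nat h3 m).neg h3

include h3 hz in
lemma Zt.quot (n : ℕ) : Cg v ((1 - z ^ n) / (1 - z)) (n : ZMod 3) := by
  have h : (1 - z ^ n) / (1 - z) = ∑ i ∈ Finset.range n, z ^ i := by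
    rw [div_eq_iff hz.ne]
    have := geom_sum_mul z n
    linear_combination this
  rw [h]
  refine (Cg.nat h3 n).of_sub ?_
  have h4 : ∑ i ∈ Finset.range n, z ^ i - (n : ℂ) = ∑ i ∈ Finset.range n, (z ^ i - 1) := by
    rw [Finset.sum_sub_distrib, Finset.sum_const, Finset.card_range, nsmul_eq_mul, mul_one]
  rw [h4]
  exact v.map_sum_lt one_ne_zero fun i _ => hz.pow i

lemma z_pow {z : ℂ} {k : ℕ} (hk : 0 < k) (h : z ^ k = 1) : v z = 1 := by
  have h1 : v z ^ k = 1 := by rw [← map_pow, h, map_one]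
  rcases lt_trichotomy (v z) 1 with h2 | h2 | h2
  · exact absurd h1 (pow_lt_one' h2 hk.ne').ne
  · exact h2
  · exact absurd h1 (one_lt_pow' h2 hk.ne').ne'

include h3 in
lemma cube_lt {a : ℂ} (ha : v (1 - a ^ 3) < 1) (ha1 : v a = 1) : v (1 - a) < 1 := by
  have h4 : (1 - a) * ((1 - a) * (1 - a)) = (1 - a ^ 3) - 3 * (a * (1 - a)) := by ring
  have h5 : v (1 - a) ≤ 1 := v.map_sub_le (by rw [map_one]) ha1.le
  have h6 : v ((1 - a) * ((1 - a) * (1 - a))) < 1 := by
    rw [h4]
    refine v.map_sub_lt ha ?_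
    exact (v_mul_le_of le_rfl (v_mul_le_of ha1.le h5)).trans_lt h3
  rw [map_mul, map_mul] at h6
  by_contra hcon
  have h7 : v (1 - a) = 1 := le_antisymm h5 (not_lt.1 hcon)
  rw [h7, mul_one, mul_one] at h6
  exact lt_irrefl _ h6

include h3 in
lemma pow_three_lt {z : ℂ} {k : ℕ} (h : z ^ 3 ^ k = 1) : v (1 - z) < 1 := by
  induction k generalizing z with
  | zero =>
    rw [pow_zero, pow_one] at h
    rw [h, sub_self, map_zero]
    exact zero_lt_one
  | succ k ih =>
    refine cube_lt h3 (ih ?_) (z_pow (pow_pos (by norm_num) (k + 1)) h)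
    rw [← pow_mul, ← pow_succ']
    exact h

include h3 in
/-- primitive roots of unity of order `3 ^ k`, `k ≥ 1` -/
theorem zt_of_prim {z : ℂ} {k : ℕ} (hk : 1 ≤ k) (h : IsPrimitiveRoot z (3 ^ k)) : Zt v z := by
  have h1 := z_pow (v := v) (pow_pos (by norm_num : 0 < 3) k) h.pow_eq_one
  have hlt := pow_three_lt h3 h.pow_eq_one
  have hne : 1 - z ≠ 0 := by
    intro h4
    have h5 : z = 1 := by linear_combination -h4
    have h6 := h.eq_orderOf
    rw [h5, orderOf_one] at h6
    have : 3 ^ 1 ≤ 3 ^ k := Nat.pow_le_pow_right (by norm_num) hk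
    omega
  refine ⟨h1, hlt, hne, ?_⟩
  obtain ⟨j, rfl⟩ : ∃ j, k = j + 1 := ⟨k - 1, by omega⟩
  have hc : IsPrimitiveRoot (z ^ 3 ^ j) 3 := by
    refine h.pow (pow_pos (by norm_num) _) ?_
    rw [pow_succ]
  set c := z ^ 3 ^ j with hcd
  have hc3 : c ^ 3 = 1 := hc.pow_eq_one
  have hc1 : c ≠ 1 := hc.ne_one (by norm_num)
  have hcs : c ^ 2 + c + 1 = 0 := by
    have h4 : (c - 1) * (c ^ 2 + c + 1) = 0 := by linear_combination hc3
    exact (mul_eq_zero.1 h4).resolve_left (sub_ne_zero.2 hc1)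
  have h4 : (1 - c) * (1 - c) = -(3 * c) := by linear_combination hcs
  have h5 : v (1 - c) * v (1 - c) = v 3 := by
    rw [← map_mul, h4, v.map_neg, map_mul, z_pow (by norm_num) hc3, mul_one]
  have h6 : v (1 - c) ≤ v (1 - z) := by
    have e : 1 - z ^ 3 ^ j = (1 - z) * ∑ i ∈ Finset.range (3 ^ j), z ^ i := by
      have := geom_sum_mul z (3 ^ j)
      linear_combination this
    rw [hcd, e]
    refine v_mul_le_of le_rfl ?_
    refine v.map_sum_le fun i _ => ?_
    rw [map_pow, h1, one_pow]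
  have h7 : v (1 - c) < 1 := h6.trans_lt hlt
  have h8 : 0 < v (1 - c) := by
    rw [zero_lt_iff]
    intro h9
    rw [h9, mul_zero] at h5
    exact three_ne h5.symm
  rw [← h5]
  calc v (1 - c) * v (1 - c) < v (1 - c) * 1 := mul_lt_mul_of_pos_left h7 h8
    _ = v (1 - c) := mul_one _
    _ ≤ v (1 - z) := h6

/-! ### sums over orbits of order three -/

/-- sums of functions invariant under a free action of the group of order three -/
theorem sum_tri {A : Type*} [CommRing A] [Nontrivial A] [Fintype A] {u : A} (hu : u ^ 2 + u + 1 = 0)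
    (hA : IsUnit (3 : A)) {W : A → ℂ} (hW : ∀ x, W (u * x) = W x) (h0 : ∀ x, ¬ IsUnit x → W x = 0)
    {g : Γ} (hg : ∀ x, v (W x) ≤ g) : v (∑ x, W x) ≤ v 3 * g := by
  classical
  have hu3 : u ^ 3 = 1 := by linear_combination (u - 1) * hu
  have hWk : ∀ (k : ℕ) (x : A), W (u ^ k * x) = W x := by
    intro k
    induction k with
    | zero => intro x; rw [pow_zero, one_mul]
    | succ k ih => intro x; rw [pow_succ', mul_assoc, hW, ih]
  let r : Setoid A := ⟨fun x y => ∃ k : ℕ, y = u ^ k * x, ⟨fun x => ⟨0, by rw [pow_zero, one_mul]⟩,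
    by
      rintro x y ⟨k, rfl⟩
      refine ⟨2 * k, ?_⟩
      rw [← mul_assoc, ← pow_add]
      have : 2 * k + k = 3 * k := by ring
      rw [this, pow_mul, hu3, one_pow, one_mul], by
      rintro x y w ⟨k, rfl⟩ ⟨m, rfl⟩
      exact ⟨m + k, by rw [pow_add, mul_assoc]⟩⟩⟩
  rw [Finset.sum_partition r]
  refine v.map_sum_le fun q hq => ?_
  obtain ⟨x, -, rfl⟩ := Finset.mem_image.1 hq
  have h1 : ∀ y ∈ Finset.univ.filter (fun y : A => (Quotient.mk r y) = Quotient.mk r x),
      W y = W x := by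
    intro y hy
    rw [Finset.mem_filter] at hy
    obtain ⟨k, hk⟩ := Quotient.exact hy.2
    rw [hk, hWk]
  have hsum : ∑ y ∈ Finset.univ.filter (fun y : A => (Quotient.mk r y) = Quotient.mk r x), W y =
      (Finset.univ.filter (fun y : A => (Quotient.mk r y) = Quotient.mk r x)).card • W x := by
    rw [Finset.sum_congr rfl h1, Finset.sum_const]
  rw [hsum]
  by_cases hx : IsUnit x
  · have hcard : (Finset.univ.filter (fun y : A => (Quotient.mk r y) = Quotient.mk r x)).card
        = 3 := by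
      have himg : Finset.univ.filter (fun y : A => (Quotient.mk r y) = Quotient.mk r x) =
          (Finset.range 3).image (fun k => u ^ k * x) := by
        ext y
        simp only [Finset.mem_filter, Finset.mem_univ, true_and, Finset.mem_image,
          Finset.mem_range]
        constructor
        · intro hy
          obtain ⟨k, hk⟩ := Quotient.exact hy.symm
          refine ⟨k % 3, Nat.mod_lt _ (by norm_num), ?_⟩
          rw [hk]
          congr 1
          conv_rhs => rw [← Nat.div_add_mod k 3, pow_add, pow_mul, hu3, one_pow, one_mul]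
        · rintro ⟨k, -, rfl⟩
          have hr : r x (u ^ k * x) := ⟨k, rfl⟩
          exact (Quotient.sound hr).symm
      rw [himg, Finset.card_image_of_injOn, Finset.card_range]
      -- injectivity
      have hux : ∀ m : ℕ, 0 < m → m < 3 → u ^ m * x ≠ x := by
        intro m hm0 hm3 hm
        have h3 : u ^ m = 1 := by
          have h4 : (u ^ m - 1) * x = 0 := by linear_combination hm
          obtain ⟨w, rfl⟩ := hx
          have h5 : u ^ m - 1 = 0 := by
            have := congrArg (· * (↑w⁻¹ : A)) h4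
            simpa [mul_assoc] using this
          linear_combination h5
        have h6 : (3 : A) = 0 := by
          interval_cases m
          · rw [pow_one] at h3
            rw [h3] at hu
            linear_combination hu
          · have h7 : u = 1 := by linear_combination hu3 - u * h3
            rw [h7] at hu
            linear_combination hu
        rw [h6] at hA
        exact not_isUnit_zero hA
      intro i hi j hj hij
      have hi' : i < 3 := Finset.mem_range.1 hi
      have hj' : j < 3 := Finset.mem_range.1 hj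
      have hij' : u ^ i * x = u ^ j * x := hij
      by_contra hne
      have hgen : ∀ i j : ℕ, i < j → j < 3 → u ^ i * x = u ^ j * x → False := by
        intro i j hlt hj3 h8
        apply hux (j - i) (by omega) (by omega)
        have h9 : u ^ (3 - i) * (u ^ i * x) = x := by
          rw [← mul_assoc, ← pow_add]
          have : 3 - i + i = 3 := by omega
          rw [this, hu3, one_mul]
        have h10 : u ^ (3 - i) * (u ^ j * x) = u ^ (j - i) * x := by
          rw [← mul_assoc, ← pow_add]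
          have : 3 - i + j = 3 + (j - i) := by omega
          rw [this, pow_add, hu3, one_mul]
        rw [← h10, ← h8, h9]
      rcases lt_or_gt_of_ne hne with h11 | h11
      · exact hgen i j h11 hj' hij'
      · exact hgen j i h11 hi' hij'.symm
    rw [hcard, nsmul_eq_mul, map_mul]
    push_cast
    exact mul_le_mul' le_rfl (hg x)
  · rw [h0 x hx, smul_zero, map_zero]
    exact zero_le

end Pool.Agent.Y715.T.Cg
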