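import Mathlib
import Pool.Agent.Y715.T.Cg

/-!
# Products of values
-/

set_option autoImplicit false
set_option linter.unusedSectionVars false

namespace Pool.Agent.Y715.T.Pv

open Pool.Agent.Y715.T.Cg

variable {Γ : Type} [LinearOrderedCommGroupWithZero Γ] {v : Valuation ℂ Γ} (h3 : v 3 < 1)

include h3

lemma v_le {k : ℕ} (hk : 1 ≤ k) {z μ : ℂ} (hz : IsPrimitiveRoot z (3 ^ k))
    (hμ : IsPrimitiveRoot μ (3 ^ k)) : v (1 - μ) ≤ v (1 - z) := by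
  obtain ⟨n, -, rfl⟩ := hz.eq_pow_of_pow_eq_one hμ.pow_eq_one
  exact (zt_of_prim h3 hk hz).pow_le n

lemma v_three {k : ℕ} (hk : 1 ≤ k) {z : ℂ} (hz : IsPrimitiveRoot z (3 ^ k)) :
    v (1 - z) ^ (2 * 3 ^ (k - 1)) = v 3 := by
  have h1 := Polynomial.cyclotomic_eq_prod_X_sub_primitiveRoots hz
  obtain ⟨j, rfl⟩ : ∃ j, k = j + 1 := ⟨k - 1, by omega⟩
  have h3' : Polynomial.eval 1 (Polynomial.cyclotomic (3 ^ (j + 1)) ℂ) = ((3 : ℕ) : ℂ) := by
    have : Fact (Nat.Prime 3) := ⟨Nat.prime_three⟩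
    exact Polynomial.eval_one_cyclotomic_prime_pow (R := ℂ) (p := 3) j
  rw [h1, Polynomial.eval_prod] at h3'
  have h4 : (∏ μ ∈ primitiveRoots (3 ^ (j + 1)) ℂ, (1 - μ)) = 3 := by
    have h5 : ((3 : ℕ) : ℂ) = 3 := by norm_num
    rw [h5] at h3'
    rw [← h3']
    refine Finset.prod_congr rfl fun μ _ => ?_
    rw [Polynomial.eval_sub, Polynomial.eval_X, Polynomial.eval_C]
  rw [← h4, map_prod]
  have h5 : ∀ μ ∈ primitiveRoots (3 ^ (j + 1)) ℂ, v (1 - μ) = v (1 - z) := by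
    intro μ hμ
    have h6 := (mem_primitiveRoots (by positivity)).1 hμ
    exact le_antisymm (v_le h3 hk hz h6) (v_le h3 hk h6 hz)
  rw [Finset.prod_congr rfl h5, Finset.prod_const]
  congr 1
  rw [Complex.card_primitiveRoots, Nat.totient_prime_pow_succ Nat.prime_three, Nat.add_sub_cancel]
  norm_num
  ring

omit h3 in
/-- the classes `1` modulo `3` -/
def T3 (k : ℕ) : Finset ℕ := (Finset.range (3 ^ k)).filter (fun t => t % 3 = 1)

omit h3 in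
lemma card_T3 {k : ℕ} (hk : 1 ≤ k) : (T3 k).card = 3 ^ (k - 1) := by
  obtain ⟨j, rfl⟩ : ∃ j, k = j + 1 := ⟨k - 1, by omega⟩
  have h1 : T3 (j + 1) = (Finset.range (3 ^ j)).image (fun s => 3 * s + 1) := by
    ext t
    unfold T3
    rw [Finset.mem_filter, Finset.mem_range, Finset.mem_image]
    have h4 : 3 ^ (j + 1) = 3 * 3 ^ j := by ring
    constructor
    · rintro ⟨h5, h6⟩
      refine ⟨t / 3, ?_, by omega⟩
      rw [Finset.mem_range]
      omega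
    · rintro ⟨s, h5, rfl⟩
      rw [Finset.mem_range] at h5
      constructor <;> omega
  rw [h1, Finset.card_image_of_injective, Finset.card_range, Nat.add_sub_cancel]
  intro a b h
  have h' : 3 * a + 1 = 3 * b + 1 := h
  omega

omit h3 in
lemma cop_T3 {k t : ℕ} (h : t ∈ T3 k) : ¬ 3 ∣ t := by
  unfold T3 at h
  rw [Finset.mem_filter] at h
  omega

theorem prod_val {k m : ℕ} (hk : 1 ≤ k) {z : ℂ} (hz : IsPrimitiveRoot z (3 ^ k)) {Ω : ℂ}
    {f : ℕ → ℂ} (h : ∀ t, ¬ 3 ∣ t → v (f t / Ω) = v (1 - z) ^ m)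
    (h' : ∀ t, ¬ 3 ∣ t → v ((starRingEnd ℂ) (f t) / Ω) = v (1 - z) ^ m) :
    v ((∏ t ∈ T3 k, f t * (starRingEnd ℂ) (f t)) / Ω ^ (2 * 3 ^ (k - 1))) = v 3 ^ m := by
  have e : (∏ t ∈ T3 k, f t * (starRingEnd ℂ) (f t)) / Ω ^ (2 * 3 ^ (k - 1)) =
      ∏ t ∈ T3 k, (f t / Ω) * ((starRingEnd ℂ) (f t) / Ω) := by
    have h1 : Ω ^ (2 * 3 ^ (k - 1)) = ∏ t ∈ T3 k, Ω * Ω := by
      rw [Finset.prod_const, card_T3 hk, ← pow_two, ← pow_mul]
    rw [h1, ← Finset.prod_div_distrib]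
    refine Finset.prod_congr rfl fun t _ => ?_
    rw [div_mul_div_comm]
  rw [e, map_prod]
  have h1 : ∀ t ∈ T3 k, v ((f t / Ω) * ((starRingEnd ℂ) (f t) / Ω)) = v (1 - z) ^ (2 * m) := by
    intro t ht
    rw [map_mul, h t (cop_T3 ht), h' t (cop_T3 ht), ← pow_add, two_mul]
  rw [Finset.prod_congr rfl h1, Finset.prod_const, card_T3 hk, ← v_three h3 hk hz, ← pow_mul,
    ← pow_mul]
  congr 1
  ring

end Pool.Agent.Y715.T.Pv
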