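import Mathlib

/-!
# Definitions for the theorem on twists of order a power of three

`K = ℚ(ω)`, `E : y² + y = x³`, and `a` is a character of the absolute Galois group of `K` of order
`3 ^ k`. The abelian variety `A` over `K` of dimension `3 ^ (k - 1)` is the twist of
`E ⊗ ℤ[ζ]`, `ζ` of order `3 ^ k`, by `a`.
-/

set_option autoImplicit false

namespace Pool.Agent.Y715.T.St

open WeierstrassCurve
open scoped Classical

/-! ### The `L`-functions -/

/-- The Eisenstein integers `ℤ[w]`, `w ^ 2 = -1 - w`. -/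
abbrev Eis : Type := QuadraticAlgebra ℤ (-1) (-1)

/-- The Eisenstein integer `z` as an element of `L`, where `w` is mapped to `I`. -/
def emb {L : Type} [Ring L] (I : L) (z : Eis) : L := (z.re : L) + (z.im : L) * I

/-- The cube root of unity `exp (2 π i / 3)`. -/
noncomputable def omega : ℂ := ⟨-1 / 2, √3 / 2⟩

/-- The norm. -/
def nrm (z : Eis) : ℤ := z.re ^ 2 - z.re * z.im + z.im ^ 2

/-- The Eisenstein integers congruent to `1` modulo `3`. They are representatives of the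
nonzero ideals prime to `3`, and `(α) ↦ α` is the Hecke character `ψ` of `E`. -/
abbrev Primary : Type := {α : Eis // (3 : Eis) ∣ α - 1}

/-- The value at `α` of the product `χ` of the characters `lam j` of the rings `ℤ[w] / (π j)`. -/
noncomputable def chi {m : ℕ} {π : Fin m → Eis}
    (lam : ∀ j, MulChar (Eis ⧸ Ideal.span {π j}) ℂ) (α : Eis) : ℂ :=
  ∏ j, lam j (Ideal.Quotient.mk (Ideal.span {π j}) α)

/-- `F` is the entire continuation of the `L`-series of the Hecke character `ψ χ ^ t`: it is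
entire, and it is the sum of `α χ(α) ^ t N(α) ^ (-s)` over the primary `α` for `Re s > 3 / 2`. -/
def IsLFunction {m : ℕ} {π : Fin m → Eis}
    (lam : ∀ j, MulChar (Eis ⧸ Ideal.span {π j}) ℂ) (t : ℕ) (F : ℂ → ℂ) : Prop :=
  Differentiable ℂ F ∧ ∀ s : ℂ, 3 / 2 < s.re →
    HasSum (fun α : Primary => emb omega α * chi lam α ^ t * (nrm α : ℂ) ^ (-s)) (F s)

/-- The product over the `t < 3 ^ k`, `t ≡ 1` modulo `3`, of `F t (s)` and of its complex
conjugate `conj (F t (conj s))`. If `F t` is the `L`-function of `ψ χ ^ t` for all these `t`, this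
is the `L`-function of `A` over `K`, that is, of its restriction of scalars to `ℚ`. -/
noncomputable def LA (k : ℕ) (F : ℕ → ℂ → ℂ) (s : ℂ) : ℂ :=
  ∏ t ∈ (Finset.range (3 ^ k)).filter (fun t => t % 3 = 1),
    F t s * (starRingEnd ℂ) (F t ((starRingEnd ℂ) s))

/-- `u` is a unit at all places above `3`: it is not zero, and for some `n` prime to `3` the
numbers `n u` and `n / u` are algebraic integers. -/
def ThreeUnit (u : ℂ) : Prop :=
  u ≠ 0 ∧ ∃ n : ℤ, IsCoprime 3 n ∧ IsIntegral ℤ ((n : ℂ) * u) ∧ IsIntegral ℤ ((n : ℂ) * u⁻¹)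

/-- `√3` times this number is the smallest positive period of `E`, and the period lattice is this
number times `i ℤ[w]` (`3.0598...`). -/
noncomputable def Omega : ℝ := Real.Gamma (1 / 3) ^ 3 / (2 * Real.pi)

/-! ### The curve and the modules -/

/-- An algebraic closure of `ℚ`. -/
abbrev QBar : Type := AlgebraicClosure ℚ

/-- The curve `E : y² + y = x³`. -/
def E : WeierstrassCurve ℚ := ⟨0, 0, 1, 0, 0⟩

/-- The group `E(L)`. -/
abbrev Pts (L : Type) [Field L] [Algebra ℚ L] : Type := (E.baseChange L).toAffine.Point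

/-- `Q = [w] P`, where `[w] (x, y) = (I x, y)` for the primitive cube root of unity `I`. -/
def MulW {L : Type} [Field L] [Algebra ℚ L] (I : L) (P Q : Pts L) : Prop :=
  (P = 0 ∧ Q = 0) ∨ ∃ (x y : L) (h : (E.baseChange L).toAffine.Nonsingular x y)
    (h' : (E.baseChange L).toAffine.Nonsingular (I * x) y),
    P = .some x y h ∧ Q = .some (I * x) y h'

/-- The group `A(L)` for an algebraically closed field `L`: the functions `P` from `ℤ / 3 ^ k` to
`E(L)` with `P (j - 3 ^ (k - 1)) = [w] P (j)`. It is `E(L) ⊗ ℤ[ζ]` over `ℤ[w]`, where `ζ` has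
order `3 ^ k` and acts as the shift `P ↦ P (· - 1)`. -/
def InA {L : Type} [Field L] [Algebra ℚ L] (k : ℕ) (I : L) (P : ZMod (3 ^ k) → Pts L) : Prop :=
  ∀ j, MulW I (P j) (P (j - ((3 ^ (k - 1) : ℕ) : ZMod (3 ^ k))))

/-- The twisted action: the homomorphism of fields `φ` acts on the points and the shift by `s`
acts on the functions. -/
noncomputable def twist {L M : Type} [Field L] [Field M] [Algebra ℚ L] [Algebra ℚ M] {k : ℕ}
    (φ : L →ₐ[ℚ] M) (s : ZMod (3 ^ k)) (P : ZMod (3 ^ k) → Pts L) : ZMod (3 ^ k) → Pts M :=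
  fun j => WeierstrassCurve.Affine.Point.map (W' := E.toAffine) φ (P (j - s))

/-- The absolute Galois group of `K = ℚ(i₀)`. -/
abbrev GalK (i₀ : QBar) : Type := QBar ≃ₐ[IntermediateField.adjoin ℚ {i₀}] QBar

/-- An element of the absolute Galois group of `K` as a homomorphism over `ℚ`. -/
noncomputable def homK {i₀ : QBar} (σ : GalK i₀) : QBar →ₐ[ℚ] QBar :=
  σ.toAlgHom.restrictScalars ℚ

/-- A local automorphism as a homomorphism over `ℚ`. -/
noncomputable def homL {p : ℕ} [Fact p.Prime] (τ : PadicAlgCl p ≃ₐ[ℚ_[p]] PadicAlgCl p) :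
    PadicAlgCl p →ₐ[ℚ] PadicAlgCl p :=
  τ.toAlgHom.restrictScalars ℚ

/-- `σ` is the restriction of the automorphism `τ` of the algebraic closure of `ℚ_p`, along the
embedding `ι`. These `τ` form the decomposition group of `K` at the place given by `ι`. -/
def Restricts {p : ℕ} [Fact p.Prime] {i₀ : QBar} (ι : QBar →ₐ[ℚ] PadicAlgCl p)
    (τ : PadicAlgCl p ≃ₐ[ℚ_[p]] PadicAlgCl p) (σ : GalK i₀) : Prop :=
  ∀ x, τ (ι x) = ι (σ x)

/-- `τ` acts as `z ↦ z ^ q` on the residue field of the algebraic closure of `ℚ_p`. For `q = 1`: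
`τ` is in the inertia group. -/
def ActsAs {p : ℕ} [Fact p.Prime] (τ : PadicAlgCl p ≃ₐ[ℚ_[p]] PadicAlgCl p) (q : ℕ) : Prop :=
  ∀ z : PadicAlgCl p, ‖z‖ ≤ 1 → ‖τ z - z ^ q‖ < 1

/-- The character `a` of the absolute Galois group of `K` corresponds by class field theory to the
character `(α) ↦ χ(α)` of the ideals prime to all `π j`: it is a continuous homomorphism; it is
trivial on the inertia groups of the primes different from all `π j` (`unram`); some element of
each inertia group at `π j` is mapped to `1`, so that `a` maps this group onto `ℤ / 3 ^ k`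
(`ram`); and `ζ ^ a (σ) = χ(ρ)` if `σ` is a Frobenius element at the prime `ρ` different from all
`π j` (`frob`). -/
structure Corresponds {k m : ℕ} (ζ : ℂ) {π : Fin m → Eis}
    (lam : ∀ j, MulChar (Eis ⧸ Ideal.span {π j}) ℂ) {i₀ : QBar}
    (a : GalK i₀ → ZMod (3 ^ k)) : Prop where
  hom : ∀ σ τ, a (σ * τ) = a σ + a τ
  cont : IsLocallyConstant a
  unram : ∀ (p : ℕ) [Fact p.Prime] (ι : QBar →ₐ[ℚ] PadicAlgCl p),
    (∀ j, ¬ ‖ι (emb i₀ (π j))‖ < 1) → ∀ τ σ, Restricts ι τ σ → ActsAs τ 1 → a σ = 0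
  ram : ∀ (j : Fin m) (p : ℕ) [Fact p.Prime] (ι : QBar →ₐ[ℚ] PadicAlgCl p),
    ‖ι (emb i₀ (π j))‖ < 1 → ∃ τ σ, Restricts ι τ σ ∧ ActsAs τ 1 ∧ a σ = 1
  frob : ∀ (p : ℕ) [Fact p.Prime] (ι : QBar →ₐ[ℚ] PadicAlgCl p) (ρ : Eis), Prime ρ →
    ‖ι (emb i₀ ρ)‖ < 1 → (∀ j, ¬ π j ∣ ρ) → ∀ τ σ, Restricts ι τ σ →
      ActsAs τ (nrm ρ).natAbs → ζ ^ (a σ).val = chi lam ρ

/-- The group `A(K)`. -/
def pointsK {k : ℕ} {i₀ : QBar} (a : GalK i₀ → ZMod (3 ^ k)) : Set (ZMod (3 ^ k) → Pts QBar) :=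
  {P | InA k i₀ P ∧ ∀ σ, twist (homK σ) (a σ) P = P}

/-- The continuous `1`-cocycles of the absolute Galois group of `K` with values in `A`. -/
def IsCocycle {k : ℕ} {i₀ : QBar} (a : GalK i₀ → ZMod (3 ^ k))
    (f : GalK i₀ → ZMod (3 ^ k) → Pts QBar) : Prop :=
  IsLocallyConstant f ∧ (∀ σ, InA k i₀ (f σ)) ∧
    ∀ σ τ, f (σ * τ) = f σ + twist (homK σ) (a σ) (f τ)

/-- The coboundaries. -/
def IsCoboundary {k : ℕ} {i₀ : QBar} (a : GalK i₀ → ZMod (3 ^ k))
    (f : GalK i₀ → ZMod (3 ^ k) → Pts QBar) : Prop :=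
  ∃ P, InA k i₀ P ∧ ∀ σ, f σ = twist (homK σ) (a σ) P - P

/-- The cocycle `f` becomes a coboundary over the completion of `K` at every finite place (given by
the embedding `ι`). The infinite place of `K` is complex and gives no condition. -/
def LocallyTrivial {k : ℕ} {i₀ : QBar} (a : GalK i₀ → ZMod (3 ^ k))
    (f : GalK i₀ → ZMod (3 ^ k) → Pts QBar) : Prop :=
  ∀ (p : ℕ) [Fact p.Prime] (ι : QBar →ₐ[ℚ] PadicAlgCl p), ∃ R, InA k (ι i₀) R ∧
    ∀ τ σ, Restricts ι τ σ → twist ι 0 (f σ) = twist (homL τ) (a σ) R - R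

end Pool.Agent.Y715.T.St
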