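import Mathlib

/-!
# Units at three
-/

set_option autoImplicit false
set_option linter.unusedSectionVars false

namespace Pool.Agent.Y715.T.Tu

/-- `u` is a unit at all places above `3`: up to integers prime to three, `u` and its inverse are algebraic
integers -/
def ThreeUnit (u : ℂ) : Prop :=
  u ≠ 0 ∧ ∃ n : ℤ, IsCoprime 3 n ∧ IsIntegral ℤ ((n : ℂ) * u) ∧ IsIntegral ℤ ((n : ℂ) * u⁻¹)

theorem int_of_val {u : ℂ}
    (h : ∀ B : ValuationSubring ℂ, B.valuation 3 < 1 → B.valuation u ≤ 1) :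
    ∃ n : ℤ, IsCoprime 3 n ∧ IsIntegral ℤ ((n : ℂ) * u) := by
  by_cases hu : u = 0
  · refine ⟨1, isCoprime_one_right, ?_⟩
    rw [hu, mul_zero]
    exact isIntegral_zero
  have hx : u⁻¹ ≠ 0 := inv_ne_zero hu
  let _ : Invertible u⁻¹ := invertibleOfNonzero hx
  have hinv : ⅟(u⁻¹) = u := by
    rw [invOf_eq_inv, inv_inv]
  let A := Algebra.adjoin ℤ {u⁻¹}
  let y : A := ⟨u⁻¹, Algebra.subset_adjoin rfl⟩
  let I : Ideal ℤ := Ideal.span {3}
  have hI : I ≠ ⊤ := by
    intro h1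
    rw [Ideal.span_singleton_eq_top, Int.isUnit_iff] at h1
    omega
  by_cases htop : I.map (algebraMap ℤ A) ⊔ Ideal.span {y} = ⊤
  · obtain ⟨p, hp, hp0⟩ :=
      Algebra.exists_aeval_invOf_eq_zero_of_idealMap_adjoin_sup_span_eq_top u⁻¹ I hI htop
    rw [hinv] at hp0
    refine ⟨p.leadingCoeff, ?_, ?_⟩
    · rw [Ideal.mem_span_singleton] at hp
      obtain ⟨c, hc⟩ := hp
      exact ⟨-c, 1, by linarith⟩
    · have h1 := isIntegral_leadingCoeff_smul p u hp0
      rwa [zsmul_eq_mul] at h1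
  · obtain ⟨V, -, hV2⟩ := Ideal.image_subset_nonunits_valuationSubring (A := A.toSubring) _ htop
    have h2 : V.valuation 3 < 1 := by
      apply V.mem_nonunits_iff.1
      apply hV2
      refine ⟨algebraMap ℤ A 3, le_sup_left (α := Ideal A)
        (Ideal.mem_map_of_mem _ (Ideal.mem_span_singleton_self 3)), ?_⟩
      show ((algebraMap ℤ A 3 : A) : ℂ) = 3
      rw [map_ofNat]
      rfl
    have h3 : V.valuation u⁻¹ < 1 := by
      apply V.mem_nonunits_iff.1
      apply hV2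
      exact ⟨y, le_sup_right (α := Ideal A) (Ideal.mem_span_singleton_self y), rfl⟩
    have h4 := h V h2
    rw [map_inv₀] at h3
    have h5 : V.valuation u ≠ 0 := (Valuation.ne_zero_iff _).2 hu
    have h6 : (1 : V.ValueGroup) ≤ (V.valuation u)⁻¹ :=
      (one_le_inv₀ (zero_lt_iff.2 h5)).2 h4
    exact absurd h3 (not_lt.2 h6)

theorem unit_of_val {u : ℂ} (h0 : u ≠ 0)
    (h : ∀ B : ValuationSubring ℂ, B.valuation 3 < 1 → B.valuation u = 1) : ThreeUnit u := by
  obtain ⟨n, hn, h1⟩ := int_of_val (fun B hB => (h B hB).le)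
  obtain ⟨m, hm, h2⟩ := int_of_val (u := u⁻¹) (fun B hB => by rw [map_inv₀, h B hB, inv_one])
  refine ⟨h0, n * m, hn.mul_right hm, ?_, ?_⟩
  · have h3 : ((n * m : ℤ) : ℂ) * u = ((m : ℤ) : ℂ) * ((n : ℂ) * u) := by push_cast; ring
    rw [h3]
    exact (isIntegral_algebraMap (x := m)).mul h1
  · have h3 : ((n * m : ℤ) : ℂ) * u⁻¹ = ((n : ℤ) : ℂ) * ((m : ℂ) * u⁻¹) := by push_cast; ring
    rw [h3]
    exact (isIntegral_algebraMap (x := n)).mul h2

end Pool.Agent.Y715.T.Tu
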