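import Mathlib
import Pool.Agent.Y715.T.St
import Pool.Agent.Y715.T.Fin
import Pool.Agent.Y715.T.Ot
import Pool.Agent.Y715.T.Pv
import Pool.Agent.Y715.T.Om
import Pool.Agent.Y715.T.Tu
import Pool.Agent.Y715.T.Frb

/-!
# The proof of the theorem on twists of order a power of three
-/

set_option autoImplicit false

namespace Pool.Agent.Y715.T.Pf

open WeierstrassCurve Pool.Agent.Y715.T.St
open scoped Classical

/-! ### Comparison with the library -/

section compare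

open Pool.Agent.Y692.QS hiding chi
open Pool.Agent.Y696 (Cur)
open Pool.Agent.Y715.T Pool.Agent.Y715.T.Ell Pool.Agent.Y715.T.Df Pool.Agent.Y715.T.Gi
open Pool.Agent.Y715.T.Nr Pool.Agent.Y715.T.Ar Pool.Agent.Y715.T.Md Pool.Agent.Y715.T.Rec

lemma nrm_eq (z : Eis) : nrm z = nr z := rfl

lemma emb_eq {L : Type} [CommRing L] {I : L} (hI : I ^ 2 + I + 1 = 0) (z : Eis) :
    emb I z = ev I hI z := (ev_apply I hI z).symm

lemma emb_C (z : Eis) : emb omega z = toC z := (toC_apply z).symm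

lemma omega_eq : omega = toC w := by
  have h := toC_apply w
  rw [w_re, w_im, Int.cast_zero, Int.cast_one, zero_add, one_mul] at h
  exact h.symm

lemma mulW_iff {L : Type} [Field L] [Algebra ℚ L] [CharZero L] {I : L} (hI : I ^ 2 + I + 1 = 0)
    (P Q : Pts L) : MulW I P Q ↔ Q = im (isE L) hI P := by
  constructor
  · rintro (⟨rfl, rfl⟩ | ⟨x, y, h, h', rfl, rfl⟩)
    · exact (map_zero (im (isE L) hI)).symm
    · exact (im_some (isE L) hI h).symm
  · rintro rfl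
    rcases P with _ | ⟨x, y, h⟩
    · exact Or.inl ⟨rfl, map_zero (im (isE L) hI)⟩
    · exact Or.inr ⟨x, y, h, (isE L).im_nons hI h, rfl, im_some (isE L) hI h⟩

lemma inA_iff {L : Type} [Field L] [Algebra ℚ L] [CharZero L] {k : ℕ} {I : L}
    (hI : I ^ 2 + I + 1 = 0)
    (P : ZMod (3 ^ k) → Pts L) : InA k I P ↔ P ∈ MM hI k :=
  forall_congr' fun _ => mulW_iff hI _ _

lemma actsAs_one {p : ℕ} [Fact p.Prime] (τ : PadicAlgCl p ≃ₐ[ℚ_[p]] PadicAlgCl p) :
    ActsAs τ 1 ↔ Inert τ := by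
  unfold ActsAs Inert
  simp only [pow_one]

lemma points_eq {k : ℕ} {i₀ : QBar} (hi : i₀ ^ 2 + i₀ + 1 = 0) (a : GalK i₀ → ZMod (3 ^ k))
    (P : ZMod (3 ^ k) → Pts QBar) : P ∈ pointsK a ↔ P ∈ AK hi a :=
  and_congr (inA_iff hi P) Iff.rfl

lemma cocycle_iff {k : ℕ} {i₀ : QBar} (hi : i₀ ^ 2 + i₀ + 1 = 0) (a : GalK i₀ → ZMod (3 ^ k))
    (f : GalK i₀ → ZMod (3 ^ k) → Pts QBar) : IsCocycle a f ↔ Coc hi a f :=
  and_congr Iff.rfl (and_congr (forall_congr' fun σ => inA_iff hi _) Iff.rfl)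

lemma coboundary_iff {k : ℕ} {i₀ : QBar} (hi : i₀ ^ 2 + i₀ + 1 = 0) (a : GalK i₀ → ZMod (3 ^ k))
    (f : GalK i₀ → ZMod (3 ^ k) → Pts QBar) : IsCoboundary a f ↔ Cob hi a f :=
  exists_congr fun P => and_congr (inA_iff hi P) Iff.rfl

lemma local_iff {k : ℕ} {i₀ : QBar} (hi : i₀ ^ 2 + i₀ + 1 = 0) (a : GalK i₀ → ZMod (3 ^ k))
    (f : GalK i₀ → ZMod (3 ^ k) → Pts QBar) : LocallyTrivial a f ↔ LocT hi a f :=
  forall_congr' fun _ => forall_congr' fun _ => forall_congr' fun ι =>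
    exists_congr fun R => and_congr (inA_iff (Sel.iota_sq hi ι) R) Iff.rfl

/-! ### The primes -/

lemma pr_of {k : ℕ} (hk : 2 ≤ k) {ρ : Eis} (hρ : Prime ρ) (h3 : (3 : Eis) ∣ ρ - 1)
    (hn : (3 : ℤ) ^ (k + 1) ∣ nrm ρ - 1) : Pr ρ := by
  have h9 : (9 : ℤ) ∣ nr ρ - 1 := by
    refine dvd_trans ?_ hn
    have : (9 : ℤ) = 3 ^ 2 := by norm_num
    rw [this]
    exact pow_dvd_pow 3 (by omega)
  refine ⟨hρ, ?_, h9⟩
  obtain ⟨q, hq⟩ := h3
  have hρq : ρ = 1 + 3 * q := by rw [← hq]; ring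
  have e3re : (3 : Ei).re = 3 := rfl
  have e3im : (3 : Ei).im = 0 := rfl
  have e1re : (1 : Ei).re = 1 := rfl
  have e1im : (1 : Ei).im = 0 := rfl
  have hre : ρ.re = 1 + 3 * q.re := by
    rw [hρq, QuadraticAlgebra.re_add, mul_re, e3re, e3im, e1re]
    ring
  have him : ρ.im = 3 * q.im := by
    rw [hρq, QuadraticAlgebra.im_add, mul_im, e3re, e3im, e1im]
    ring
  have h1 : (3 : ℤ) ∣ 2 * q.re - q.im := by
    unfold nr at h9
    rw [hre, him] at h9
    obtain ⟨c, hc⟩ := h9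
    exact ⟨c - (q.re ^ 2 - q.re * q.im + q.im ^ 2), by linarith⟩
  obtain ⟨c, hc⟩ := h1
  rw [hq]
  refine mul_dvd_mul_left 3 ⟨⟨q.re - 2 * c, -c⟩, ?_⟩
  have elre : la.re = 1 := rfl
  have elim : la.im = 2 := rfl
  ext
  · rw [mul_re, elre, elim]
    ring
  · rw [mul_im, elre, elim]
    linarith

section lam

variable {k m : ℕ} (hk : 2 ≤ k) {π : Fin m → Eis} (hprime : ∀ j, Prime (π j))
  (hpr : ∀ j, Pr (π j)) {e : Fin m → ZMod 3}
  {lam : ∀ j, MulChar (Eis ⧸ Ideal.span {π j}) ℂ}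
  (hlam : ∀ j, orderOf (lam j) = 3 ^ k)
  (hres : ∀ j (x : Eis) (c : ℕ), π j ∣ x ^ (((nrm (π j)).natAbs - 1) / 3) - ⟨0, 1⟩ ^ c →
    lam j (Ideal.Quotient.mk _ x) ^ 3 ^ (k - 1) = omega ^ (c * (e j).val))

include hpr hres in
lemma res_cs (j : Fin m) {x : Eis} (hx : ¬ π j ∣ x) :
    lam j (Ideal.Quotient.mk _ x) ^ 3 ^ (k - 1) = toC w ^ (e j * cs (π j) x).val := by
  have h1 := cs_spec (hpr j).prime (hpr j).norm hx
  have h2 := hres j x _ h1
  rw [h2, omega_eq]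
  have h3 : toC w ^ ((cs (π j) x).val * (e j).val) = toC w ^ ((cs (π j) x).val * (e j).val % 3) := by
    conv_lhs => rw [← Nat.div_add_mod ((cs (π j) x).val * (e j).val) 3]
    rw [pow_add, pow_mul, Fin.toC_w_cube, one_pow, one_mul]
  rw [h3, ZMod.val_mul, mul_comm]

include hk hpr hlam hres in
lemma exists_g (j : Fin m) : e j ≠ 0 ∧ ∃ g : Eis, ¬ π j ∣ g ∧ cs (π j) g ≠ 0 := by
  have h1 : lam j ^ 3 ^ (k - 1) ≠ 1 := by
    intro h
    have h2 := orderOf_dvd_of_pow_eq_one h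
    rw [hlam j] at h2
    have h3 := (Nat.pow_dvd_pow_iff_le_right (by norm_num : 1 < 3)).1 h2
    omega
  obtain ⟨g, hg, hg1⟩ := Ex.exists_ne (hpr j).prime h1
  rw [res_cs hpr hres j hg] at hg1
  refine ⟨fun h => hg1 ?_, g, hg, fun h => hg1 ?_⟩
  · rw [h, zero_mul, ZMod.val_zero, pow_zero]
  · rw [h, mul_zero, ZMod.val_zero, pow_zero]

end lam

/-! ### The splitting condition -/

section split

variable {m : ℕ} {π : Fin m → Eis} {e : Fin m → ZMod 3}

/-- the parts of a partition -/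
noncomputable def part (π : Fin m → Eis) (e v : Fin m → ZMod 3) (c : ZMod 3) : Eis :=
  ∏ i ∈ Finset.univ.filter (fun i => v i = c), π i ^ (e i).val

lemma prod_part (v : Fin m → ZMod 3) : ∏ c, part π e v c = ∏ i, π i ^ (e i).val := by
  unfold part
  exact Finset.prod_fiberwise (s := Finset.univ) (g := v) (f := fun i => π i ^ (e i).val)

lemma ker_of_split (hpr : ∀ j, Pr (π j)) (hnd : ∀ i j, i ≠ j → ¬ π j ∣ π i)
    (he : ∀ j, e j ≠ 0)
    (hsplit : ∀ d : ZMod 3 → Eis, ∏ c, d c = ∏ j, π j ^ (e j).val →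
      (∀ c c', c ≠ c' → IsCoprime (d c) (d c')) →
      (∀ c j, π j ∣ d c → ∃ x, π j ∣ d (c + 1) * d (c + 2) ^ 2 - x ^ 3) →
      ∃ c, ∀ c', c' ≠ c → IsUnit (d c')) :
    ∀ v : Fin m → ZMod 3, (∀ j, ∑ i, Sel.aij π e i j * (v i - v j) = 0) →
      ∀ i j, v i = v j := by
  intro v hv
  have hdiv : ∀ (c : ZMod 3) (j : Fin m), π j ∣ part π e v c → v j = c := by
    intro c j h
    obtain ⟨i, hi, h1⟩ := ((hpr j).prime.dvd_finsetProd_iff _).1 h
    have h2 := (hpr j).prime.dvd_of_dvd_pow h1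
    have h3 : i = j := by
      by_contra hij
      exact hnd i j hij h2
    rw [← h3]
    exact (Finset.mem_filter.1 hi).2
  have hdiv' : ∀ j : Fin m, π j ∣ part π e v (v j) := by
    intro j
    refine dvd_trans (dvd_pow_self _ ?_) (Finset.dvd_prod_of_mem (fun i => π i ^ (e i).val)
      (Finset.mem_filter.2 ⟨Finset.mem_univ j, rfl⟩))
    intro h
    exact he j ((ZMod.val_eq_zero _).1 h)
  have hc1 : ∀ c c' : ZMod 3, c ≠ c' → IsCoprime (part π e v c) (part π e v c') := by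
    intro c c' hcc
    refine IsCoprime.prod_left fun i hi => IsCoprime.prod_right fun j hj => IsCoprime.pow ?_
    refine ((hpr i).prime.irreducible.coprime_iff_not_dvd).2 ?_
    have hij : j ≠ i := by
      rintro rfl
      exact hcc ((Finset.mem_filter.1 hi).2.symm.trans (Finset.mem_filter.1 hj).2)
    exact hnd j i hij
  have hc2 : ∀ (c : ZMod 3) (j : Fin m), π j ∣ part π e v c →
      ∃ x, π j ∣ part π e v (c + 1) * part π e v (c + 2) ^ 2 - x ^ 3 := by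
    intro c j hj
    have hjc := hdiv c j hj
    have hj1 := (hpr j).prime
    have hj9 := (hpr j).norm
    have key : ∀ c' : ZMod 3, c' ≠ v j → ¬ π j ∣ part π e v c' := fun c' hc' h =>
      hc' (hdiv c' j h).symm
    have hval : ∀ c' : ZMod 3, c' ≠ v j → cs (π j) (part π e v c') =
        ∑ i, if v i = c' then e i * cs (π j) (π i) else 0 := by
      intro c' hc'
      unfold part
      rw [cs_prod hj1 hj9, ← Finset.sum_filter]
      · refine Finset.sum_congr rfl fun i hi => ?_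
        have hi1 := (Finset.mem_filter.1 hi).2
        rw [cs_pow hj1 hj9, ZMod.natCast_zmod_val]
        exact hnd i j (fun h => hc' (by rw [← hi1, h]))
      · intro i hi h
        have hi1 := (Finset.mem_filter.1 hi).2
        exact hnd i j (fun h => hc' (by rw [← hi1, h])) (hj1.dvd_of_dvd_pow h)
    have hne1 : c + 1 ≠ v j := by
      rw [hjc]
      exact (by decide : ∀ x : ZMod 3, x + 1 ≠ x) c
    have hne2 : c + 2 ≠ v j := by
      rw [hjc]
      exact (by decide : ∀ x : ZMod 3, x + 2 ≠ x) c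
    have hk1 := key _ hne1
    have hk2 := key _ hne2
    have hk22 : ¬ π j ∣ part π e v (c + 2) ^ 2 := fun h => hk2 (hj1.dvd_of_dvd_pow h)
    have hk : ¬ π j ∣ part π e v (c + 1) * part π e v (c + 2) ^ 2 := fun h => by
      rcases hj1.dvd_or_dvd h with h | h
      · exact hk1 h
      · exact hk22 h
    refine (cs_zero_iff hj1 hj9 hk).1 ?_
    rw [cs_mul hj1 hj9 hk1 hk22, cs_pow hj1 hj9 hk2, hval _ hne1, hval _ hne2, Finset.mul_sum,
      ← Finset.sum_add_distrib]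
    refine (Finset.sum_congr rfl fun i _ => ?_).trans (hv j)
    unfold Sel.aij
    rw [hjc]
    exact (by decide : ∀ c x y : ZMod 3, (if x = c + 1 then y else 0) +
      ((2 : ℕ) : ZMod 3) * (if x = c + 2 then y else 0) = y * (x - c)) c (v i)
        (e i * cs (π j) (π i))
  obtain ⟨c, hc⟩ := hsplit (part π e v) (prod_part v) hc1 hc2
  have h1 : ∀ j, v j = c := by
    intro j
    by_contra hj
    exact (hpr j).prime.not_isUnit (isUnit_of_dvd_unit (hdiv' j) (hc (v j) hj))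
  intro i j
  rw [h1 i, h1 j]

end split

lemma dat_of {k m : ℕ} (hk : 2 ≤ k) {π : Fin m → Eis} (hpr : ∀ j, Pr (π j))
    (hnd : ∀ i j, i ≠ j → ¬ π j ∣ π i) {e : Fin m → ZMod 3}
    {lam : ∀ j, MulChar (Eis ⧸ Ideal.span {π j}) ℂ}
    (hlam : ∀ j, orderOf (lam j) = 3 ^ k)
    (hres : ∀ j (x : Eis) (c : ℕ), π j ∣ x ^ (((nrm (π j)).natAbs - 1) / 3) - ⟨0, 1⟩ ^ c →
      lam j (Ideal.Quotient.mk _ x) ^ 3 ^ (k - 1) = omega ^ (c * (e j).val))
    {ζ : ℂ} (hζ : ζ ^ 3 ^ (k - 1) = omega)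
    {i₀ : QBar} (hi : i₀ ^ 2 + i₀ + 1 = 0) {a : GalK i₀ → ZMod (3 ^ k)}
    (ha : Corresponds ζ lam a) : Sel.Dat k hi π e a := by
  have hk0 : k ≠ 0 := by omega
  have hE : ∀ z : Eis, emb i₀ z = ev i₀ hi z := emb_eq hi
  have hD0 : Sel.Dat0 k hi π a :=
    { pr := hpr
      nd := hnd
      mul := ha.hom
      cont := ha.cont
      unr := fun p _ ι h τ σ hc hτ => ha.unram p ι (fun j => by rw [hE]; exact h j) τ σ hc
        ((actsAs_one τ).2 hτ) }
  refine Frb.dat hk0 hk hD0 (fun j => (exists_g hk hpr hlam hres j).1) ?_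
    (fun j => (exists_g hk hpr hlam hres j).2) ?_
  · intro p _ ι ρ hρ hl hd τ σ hc hτ
    have h1 := ha.frob p ι ρ hρ (by rw [hE]; exact hl) hd τ σ hc hτ
    have h2 := congrArg (fun x : ℂ => x ^ 3 ^ (k - 1)) h1
    beta_reduce at h2
    rw [← pow_mul, mul_comm, pow_mul, hζ, omega_eq] at h2
    unfold chi at h2
    rw [← Finset.prod_pow, Finset.prod_congr rfl fun j _ => res_cs hpr hres j (hd j),
      Finset.prod_pow_eq_pow_sum] at h2
    have h3 := Fin.w_pow_mod h2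
    have h4 : par hk0 (a σ) = ((a σ).val : ZMod 3) := by
      unfold par
      rw [ZMod.castHom_apply, ZMod.natCast_val]
    rw [h4, h3]
    push_cast
    refine Finset.sum_congr rfl fun j _ => ?_
    rw [ZMod.natCast_zmod_val]
  · intro j p _ ι hl
    obtain ⟨τ, σ, h1, h2, h3⟩ := ha.ram j p ι (by rw [hE]; exact hl)
    exact ⟨τ, σ, h1, (actsAs_one τ).1 h2, h3⟩

/-- the values of one `L`-function -/
lemma one_value {k m : ℕ} (hk : 2 ≤ k) {π : Fin m → Eis} (hpr : ∀ j, Pr (π j))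
    (hnd : ∀ i j, i ≠ j → ¬ π j ∣ π i)
    (hnorm : ∀ j, (3 : ℤ) ^ (k + 1) ∣ nrm (π j) - 1) {e : Fin m → ZMod 3}
    (hker : ∀ v : Fin m → ZMod 3, (∀ j, ∑ i, Sel.aij π e i j * (v i - v j) = 0) →
      ∀ i j, v i = v j)
    (hodd : ¬ (9 : Eis) ∣ ∏ j, π j ^ (e j).val - 1)
    {lam : ∀ j, MulChar (Eis ⧸ Ideal.span {π j}) ℂ}
    (hlam : ∀ j, orderOf (lam j) = 3 ^ k)
    (hres : ∀ j (x : Eis) (c : ℕ), π j ∣ x ^ (((nrm (π j)).natAbs - 1) / 3) - ⟨0, 1⟩ ^ c →
      lam j (Ideal.Quotient.mk _ x) ^ 3 ^ (k - 1) = omega ^ (c * (e j).val))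
    {ζ : ℂ} (hζ : ζ ^ 3 ^ (k - 1) = omega) {t : ℕ} (ht : ¬ 3 ∣ t) :
    ∃ F : ℂ → ℂ, (IsLFunction lam t F ∧ F 1 ≠ 0) ∧
      ∀ (Γ : Type) [LinearOrderedCommGroupWithZero Γ] (v : Valuation ℂ Γ), v 3 < 1 →
        ∀ (L : PeriodPair) (Ω : ℝ) (ξ : ℂ), ξ ^ 12 = 1 → Cur L (Ω * ξ) →
          v (F 1 / Ω) = v (1 - ζ) ^ (m - 1) ∧
            v ((starRingEnd ℂ) (F 1) / Ω) = v (1 - ζ) ^ (m - 1) := by
  have hk0 : k ≠ 0 := by omega
  have ht0 : t ≠ 0 := by
    rintro rfl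
    exact ht (dvd_zero 3)
  have ht3 : (t : ZMod 3) ≠ 0 := fun h => ht ((ZMod.natCast_eq_zero_iff _ _).1 h)
  have htc : Nat.Coprime 3 t := (Nat.prime_three.coprime_iff_not_dvd).2 ht
  have hlt : ∀ j, orderOf (lam j ^ t) = 3 ^ k := by
    intro j
    rw [Nat.Coprime.orderOf_pow, hlam]
    rw [hlam]
    exact htc.pow_left k
  have hlt1 : ∀ j, (lam j ^ t) ^ (3 ^ k) = 1 := fun j => by
    rw [← hlt j]
    exact pow_orderOf_eq_one _
  have hwm : ∀ n : ℕ, toC w ^ n = toC w ^ ((n : ZMod 3)).val := by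
    intro n
    rw [ZMod.val_natCast]
    conv_lhs => rw [← Nat.div_add_mod n 3]
    rw [pow_add, pow_mul, Fin.toC_w_cube, one_pow, one_mul]
  have haij : ∀ i j, Sel.aij π (fun j => (t : ZMod 3) * e j) i j = t * Sel.aij π e i j := by
    intro i j
    unfold Sel.aij
    rw [mul_assoc]
  obtain ⟨F, h1, h2, h3, h4⟩ := Fin.analytic (e := fun j => (t : ZMod 3) * e j) hk hpr hnd hnorm
    (fun j => mul_ne_zero ht3 (exists_g hk hpr hlam hres j).1)
    (fun v hv => hker v fun j => by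
      have h5 := hv j
      simp only [haij, mul_assoc] at h5
      rw [← Finset.mul_sum] at h5
      exact (mul_eq_zero.1 h5).resolve_left ht3)
    (fun q hq => by
      simp only [mul_assoc]
      rw [← Finset.mul_sum]
      exact mul_ne_zero ht3 (Fin.sum_ne hodd hq))
    (lam := fun j => lam j ^ t) hlt (z := ζ) (by rw [hζ, omega_eq])
    (fun j x hx => by
      rw [MulChar.pow_apply' _ ht0, pow_right_comm, res_cs hpr hres j hx, ← pow_mul, hwm]
      congr 2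
      push_cast
      rw [ZMod.natCast_zmod_val]
      ring)
  refine ⟨F, ⟨⟨h1, fun s hs => ?_⟩, h3⟩, ?_⟩
  · have h5 := h2 s hs
    have e1 : (fun α : Primary => emb omega α * St.chi lam α ^ t *
        (nrm (α : Eis) : ℂ) ^ (-s)) = fun α : {α : Ei // (3 : Ei) ∣ α - 1} =>
        toC α * (∏ j, (lam j ^ t) (Ideal.Quotient.mk _ α)) * ((nr α : ℤ) : ℂ) ^ (-s) := by
      funext α
      have h6 : St.chi lam (α : Eis) ^ t =
          ∏ j, (lam j ^ t) (Ideal.Quotient.mk _ (α : Eis)) := by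
        unfold St.chi
        rw [← Finset.prod_pow]
        refine Finset.prod_congr rfl fun j _ => ?_
        rw [MulChar.pow_apply' _ ht0]
      rw [h6, emb_C, nrm_eq]
    rw [e1]
    exact h5
  · intro Γ _ v hv L Ω ξ hξ hL
    have h5 := h4 Γ v hv L Ω ξ hξ hL
    rw [Fintype.card_fin] at h5
    exact h5

end compare

/-- from valuations to units -/
lemma unit_of {x y : ℂ} (hx : x ≠ 0) (hy : y ≠ 0)
    (h : ∀ (Γ : Type) [LinearOrderedCommGroupWithZero Γ] (v : Valuation ℂ Γ), v 3 < 1 →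
      v x = v y) : ∃ u, ThreeUnit u ∧ x = y * u := by
  refine ⟨x / y, ?_, by field_simp⟩
  have h1 : x / y ≠ 0 := div_ne_zero hx hy
  obtain ⟨-, h2⟩ := Pool.Agent.Y715.T.Tu.unit_of_val h1 (fun B hB => by
    rw [map_div₀, h _ B.valuation hB, div_self]
    exact (Valuation.ne_zero_iff _).2 hy)
  exact ⟨h1, h2⟩

theorem main (k m : ℕ) (hk : 2 ≤ k) (π : Fin m → Eis)
    (hprime : ∀ j, Prime (π j)) (hinj : Function.Injective π)
    (hthree : ∀ j, (3 : Eis) ∣ π j - 1)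
    (hnorm : ∀ j, (3 : ℤ) ^ (k + 1) ∣ nrm (π j) - 1)
    (lam : ∀ j, MulChar (Eis ⧸ Ideal.span {π j}) ℂ)
    (hlam : ∀ j, orderOf (lam j) = 3 ^ k)
    (e : Fin m → ZMod 3)
    (hres : ∀ j (x : Eis) (c : ℕ), π j ∣ x ^ (((nrm (π j)).natAbs - 1) / 3) - ⟨0, 1⟩ ^ c →
      lam j (Ideal.Quotient.mk _ x) ^ 3 ^ (k - 1) = omega ^ (c * (e j).val))
    (hsplit : ∀ d : ZMod 3 → Eis, ∏ c, d c = ∏ j, π j ^ (e j).val →
      (∀ c c', c ≠ c' → IsCoprime (d c) (d c')) →
      (∀ c j, π j ∣ d c → ∃ x, π j ∣ d (c + 1) * d (c + 2) ^ 2 - x ^ 3) →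
      ∃ c, ∀ c', c' ≠ c → IsUnit (d c'))
    (hodd : ¬ (9 : Eis) ∣ ∏ j, π j ^ (e j).val - 1)
    (ζ : ℂ) (hζ : ζ ^ 3 ^ (k - 1) = omega) :
    (∃ F : ℕ → ℂ → ℂ, (∀ t, ¬ 3 ∣ t → IsLFunction lam t (F t)) ∧
      (∀ t, ¬ 3 ∣ t → ∃ u, ThreeUnit u ∧ F t 1 = Omega * (1 - ζ) ^ (m - 1) * u) ∧
      ∃ u, ThreeUnit u ∧ LA k F 1 = (Omega : ℂ) ^ (2 * 3 ^ (k - 1)) * 3 ^ (m - 1) * u) ∧
    ∀ (i₀ : QBar), i₀ ^ 2 + i₀ + 1 = 0 → ∀ a : GalK i₀ → ZMod (3 ^ k), Corresponds ζ lam a →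
      (∃ (T : Pts QBar) (h : (E.baseChange QBar).toAffine.Nonsingular 0 0),
        T = .some 0 0 h ∧ pointsK a = {0, fun _ => T, fun _ => -T}) ∧
      ∀ (f : GalK i₀ → ZMod (3 ^ k) → Pts QBar) (n : ℕ), IsCocycle a f → LocallyTrivial a f →
        IsCoboundary a (fun σ => (3 ^ n) • f σ) → IsCoboundary a f := by
  have hk0 : k ≠ 0 := by omega
  have hpr : ∀ j, Pool.Agent.Y715.T.Rec.Pr (π j) :=
    fun j => pr_of hk (hprime j) (hthree j) (hnorm j)
  have hnd : ∀ i j, i ≠ j → ¬ π j ∣ π i := fun i j hij h =>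
    hij (hinj (Pool.Agent.Y715.T.RecC.eq_of_dvd (hpr i) (hpr j) h)).symm
  have hker := ker_of_split hpr hnd (fun j => (exists_g hk hpr hlam hres j).1) hsplit
  have hprim := Pool.Agent.Y715.T.Fin.prim_of (by omega : 1 ≤ k) (hζ.trans omega_eq)
  have hz1 : 1 - ζ ≠ 0 := sub_ne_zero.2 (hprim.ne_one (Nat.one_lt_pow hk0 (by norm_num))).symm
  refine ⟨?_, ?_⟩
  · obtain ⟨L, ξ, hξ, hL⟩ := Pool.Agent.Y715.T.Om.exists_lat
    have hΩ : Pool.Agent.Y715.T.Om.Om = Omega := rfl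
    have hpos := Pool.Agent.Y715.T.Om.Om_pos
    rw [hΩ] at hL hpos
    have hΩ0 : (Omega : ℂ) ≠ 0 := by exact_mod_cast hpos.ne'
    have hex : ∀ t : ℕ, ∃ F : ℂ → ℂ, ¬ 3 ∣ t → (IsLFunction lam t F ∧ F 1 ≠ 0) ∧
      ∀ (Γ : Type) [LinearOrderedCommGroupWithZero Γ] (v : Valuation ℂ Γ), v 3 < 1 →
        v (F 1 / Omega) = v (1 - ζ) ^ (m - 1) ∧
            v ((starRingEnd ℂ) (F 1) / Omega) = v (1 - ζ) ^ (m - 1) := by
      intro t
      by_cases ht : ¬ 3 ∣ t
      · obtain ⟨F, hF1, hF2⟩ := one_value hk hpr hnd hnorm hker hodd hlam hres hζ ht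
        exact ⟨F, fun _ => ⟨hF1, fun Γ _ v hv => hF2 Γ v hv L Omega ξ hξ hL⟩⟩
      · exact ⟨0, fun h => absurd h ht⟩
    choose F hF using hex
    refine ⟨F, fun t ht => (hF t ht).1.1, ?_, ?_⟩
    · intro t ht
      obtain ⟨u, hu, e⟩ := unit_of (x := F t 1 / Omega) (y := (1 - ζ) ^ (m - 1))
        (div_ne_zero (hF t ht).1.2 hΩ0) (pow_ne_zero _ hz1) (fun Γ _ v hv => by
          rw [((hF t ht).2 Γ v hv).1, map_pow])
      refine ⟨u, hu, ?_⟩
      rw [div_eq_iff hΩ0] at e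
      rw [e]
      ring
    · have hval : ∀ (Γ : Type) [LinearOrderedCommGroupWithZero Γ] (v : Valuation ℂ Γ), v 3 < 1 →
          v (LA k F 1 / (Omega : ℂ) ^ (2 * 3 ^ (k - 1))) = v (3 ^ (m - 1)) := by
        intro Γ _ v hv
        have h1 := Pool.Agent.Y715.T.Pv.prod_val hv (by omega : 1 ≤ k) hprim (Ω := (Omega : ℂ))
          (f := fun t => F t 1) (m := m - 1)
          (fun t ht => ((hF t ht).2 Γ v hv).1)
          (fun t ht => ((hF t ht).2 Γ v hv).2)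
        unfold LA
        rw [map_one, map_pow]
        exact h1
      have h2 : (3 : ℂ) ^ (m - 1) ≠ 0 := pow_ne_zero _ three_ne_zero
      have h3 : LA k F 1 / (Omega : ℂ) ^ (2 * 3 ^ (k - 1)) ≠ 0 := by
        refine div_ne_zero ?_ (pow_ne_zero _ hΩ0)
        unfold LA
        refine Finset.prod_ne_zero_iff.2 fun t ht => ?_
        have ht3 : ¬ 3 ∣ t := by
          rw [Finset.mem_filter] at ht
          omega
        have h4 := (hF t ht3).1.2
        rw [map_one]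
        exact mul_ne_zero h4 ((map_ne_zero _).2 h4)
      obtain ⟨u, hu, e⟩ := unit_of h3 h2 hval
      refine ⟨u, hu, ?_⟩
      rw [div_eq_iff (pow_ne_zero _ hΩ0)] at e
      rw [e]
      ring
  · intro i₀ hi a ha
    have hD := dat_of hk hpr hnd hlam hres hζ hi ha
    refine ⟨⟨Pool.Agent.Y715.T.Ell.T0 (Pool.Agent.Y715.T.Df.isE QBar),
      Pool.Agent.Y715.T.Ell.T0_nons (Pool.Agent.Y715.T.Df.isE QBar), rfl, ?_⟩, ?_⟩
    · apply Set.ext
      intro P
      rw [points_eq hi a P]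
      constructor
      · intro hP
        obtain ⟨c, hc⟩ := Pool.Agent.Y715.T.Ot.AK_eq hk0 hk hD hker hodd hP
        rcases Pool.Agent.Y715.T.Df.z3 c with rfl | rfl | rfl
        · left
          rw [hc]
          funext j
          exact Pool.Agent.Y715.T.Df.tt_zero
        · right
          left
          rw [hc]
          funext j
          exact Pool.Agent.Y715.T.Df.tt_one
        · right
          right
          rw [Set.mem_singleton_iff, hc]
          funext j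
          exact Pool.Agent.Y715.T.Df.tt_neg_one
      · rintro (h | h | h)
        · rw [h]
          exact zero_mem _
        · have h1 : P = Pool.Agent.Y715.T.Ar.ct QBar k 1 := by
            rw [h]
            funext j
            exact Pool.Agent.Y715.T.Df.tt_one.symm
          rw [h1]
          exact Pool.Agent.Y715.T.Mw.ct_mem 1
        · have h1 : P = Pool.Agent.Y715.T.Ar.ct QBar k (-1) := by
            rw [Set.mem_singleton_iff.1 h]
            funext j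
            exact Pool.Agent.Y715.T.Df.tt_neg_one.symm
          rw [h1]
          exact Pool.Agent.Y715.T.Mw.ct_mem (-1)
    · intro f n h1 h2 h3
      rw [coboundary_iff hi]
      exact Pool.Agent.Y715.T.Ar.sha_zero hk0 hk hD hker hodd n ((cocycle_iff hi a f).1 h1)
        ((local_iff hi a f).1 h2) ((coboundary_iff hi a _).1 h3)

end Pool.Agent.Y715.T.Pf
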