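import Pool.Agent.Y715.T.Cg

/-!
# The `3`-adic valuation of the sums
-/

set_option autoImplicit false

open Filter
open scoped Topology PeriodPair

namespace Pool.Agent.Y715.T.Ana

open H667R3 Pool.Agent.W192.HK Pool.Agent.TH936.CM Pool.Agent.TH936.PU
open Pool.Agent.Y715.Dist Pool.Agent.Y715.Idn Pool.Agent.Y715.T.Lat Pool.Agent.Y696
open Pool.Agent.Y715.Two (v_nat v_int v_unit v_mul_le_of)
open Pool.Agent.Y715.T.Three Pool.Agent.Y715.T.Cg Pool.Agent.Y715.T.Comb

variable {Γ : Type*} [LinearOrderedCommGroupWithZero Γ] {v : Valuation ℂ Γ}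
  {L : PeriodPair} {Ω : ℂ} {ι : Type*} [DecidableEq ι]

/-- the family with all the data -/
structure Fx (v : Valuation ℂ Γ) (π : ι → eis) (X : ι → eis → ℂ) (z : ℂ)
    (a : ι → ι → ZMod 3) (b : ι → ZMod 3) : Prop extends Fm π X where
  two : ∀ i, IsCoprime (2 : eis) (π i)
  three : ∀ i, IsCoprime (3 : eis) (π i)
  max : ∀ i, (sp (π i)).IsMaximal
  val : ∀ i x, x ∉ sp (π i) → ∃ n : ℕ, X i x = z ^ n
  unit : ∀ i, X i omr = 1
  cub : ∀ i j, i ≠ j → ∃ n : ℕ, X j (π i) = z ^ n ∧ (n : ZMod 3) = a i j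
  lin : ∀ i, Cg v (((π i : ℂ) - 1) / (3 * lam)) (b i)
  card : ∀ i, v ((Nat.card (eis ⧸ sp (π i)) : ℂ) - 1) ≤ v 3 ^ 3

variable {π : ι → eis} {X : ι → eis → ℂ} {z : ℂ} {a : ι → ι → ZMod 3} {b : ι → ZMod 3}

lemma sum_ind (hfin : ∀ q : eis, q ≠ 0 → Finite (eis ⧸ sp q)) (h : Fx v π X z a b) (i : ι) :
    Sm (π i) (fun x => ind (π i) x - X i x) = (Nat.card (eis ⧸ sp (π i)) : ℂ) - 1 := by
  classical
  have : Fintype (eis ⧸ sp (π i)) := @Fintype.ofFinite _ (hfin _ (h.ne i))
  have h1 : Sm (π i) (fun x => ind (π i) x - X i x) = Sm (π i) (ind (π i)) - Sm (π i) (X i) :=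
    Finset.sum_sub_distrib _ _
  rw [h1, h.sum, sub_zero, Sm_eq]
  have h2 : ∀ x : eis ⧸ sp (π i), ind (π i) x.out = 1 - (if x = 0 then 1 else 0) := by
    intro x
    by_cases hx : x = 0
    · rw [if_pos hx, sub_self]
      apply ind_mem
      rw [hx]
      have := out_mk (sp (π i)) (0 : eis)
      rw [map_zero, zero_sub] at this
      exact neg_mem_iff.1 this
    · rw [if_neg hx, sub_zero, ind_notMem (out_notMem hx)]
  rw [Finset.sum_congr rfl fun x _ => h2 x, Finset.sum_sub_distrib, Finset.sum_const,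
    Finset.sum_ite_eq' , if_pos (Finset.mem_univ _), Finset.card_univ, nsmul_eq_mul, mul_one,
    Nat.card_eq_fintype_card]

lemma Fx.cop_iff (h : Fx v π X z a b) {S : Finset ι} {x : eis} :
    IsCoprime x (cc π S) ↔ ∀ i ∈ S, x ∉ sp (π i) := by
  constructor
  · intro hx i hi hxi
    have h1 : IsCoprime x (π i) := by
      have h2 : cc π S = π i * cc π (S.erase i) := by
        rw [← cc_insert (Finset.notMem_erase i S), Finset.insert_erase hi]
      rw [h2] at hx
      exact hx.of_mul_right_left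
    exact notMem_of_cop (h.max i).ne_top h1 hxi
  · intro hx
    refine IsCoprime.prod_right fun i hi => ?_
    obtain ⟨y, t, ht, hyt⟩ := (h.max i).exists_inv (hx i hi)
    obtain ⟨w, hw⟩ := Ideal.mem_span_singleton'.1 ht
    exact ⟨y, w, by rw [hw]; exact hyt⟩

section est

variable (h3 : v 3 < 1) (hC : Cur L Ω)
  (hfin : ∀ q : eis, q ≠ 0 → Finite (eis ⧸ sp q)) (h : Fx v π X z a b) (hz : Zt v z)

lemma Fx.two_cc (h : Fx v π X z a b) (S : Finset ι) : IsCoprime (2 : eis) (cc π S) :=
  IsCoprime.prod_right fun i _ => h.two i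

lemma Fx.three_cc (h : Fx v π X z a b) (S : Finset ι) : IsCoprime (3 : eis) (cc π S) :=
  IsCoprime.prod_right fun i _ => h.three i

lemma Fx.cc_top (h : Fx v π X z a b) {S : Finset ι} (hS : S.Nonempty) :
    sp (cc π S) ≠ ⊤ := by
  obtain ⟨i, hi⟩ := hS
  intro h1
  apply (h.max i).ne_top
  rw [Ideal.eq_top_iff_one] at h1 ⊢
  exact cc_mem hi h1

/-- the products of `1 - X i x` -/
noncomputable def PX (π : ι → eis) (X : ι → eis → ℂ) (S : Finset ι) (x : eis) : ℂ :=
  ∏ i ∈ S, (ind (π i) x - X i x)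

omit [DecidableEq ι] in
lemma PX_per (h : Fx v π X z a b) {S : Finset ι} {x y : eis} (hxy : x - y ∈ sp (cc π S)) :
    PX π X S x = PX π X S y := by
  classical
  exact Finset.prod_congr rfl fun i hi => by
    rw [ind_per (cc_mem hi hxy), h.per i x y (cc_mem hi hxy)]

lemma PX_zero (h : Fx v π X z a b) {S : Finset ι} {x : eis} (hx : ¬ IsCoprime x (cc π S)) :
    PX π X S x = 0 := by
  rw [h.cop_iff] at hx
  push Not at hx
  obtain ⟨i, hi, hxi⟩ := hx
  refine Finset.prod_eq_zero hi ?_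
  rw [ind_mem hxi, h.zero i x hxi, sub_zero]

include hz in
lemma PX_le (h : Fx v π X z a b) {S : Finset ι} (x : eis) :
    v (PX π X S x) ≤ v (1 - z) ^ S.card := by
  classical
  by_cases hx : IsCoprime x (cc π S)
  · rw [h.cop_iff] at hx
    unfold PX
    rw [map_prod]
    refine Finset.prod_le_pow_card _ _ _ fun i hi => ?_
    obtain ⟨n, hn⟩ := h.val i x (hx i hi)
    rw [ind_notMem (hx i hi), hn]
    exact hz.pow_le n
  · rw [PX_zero h hx, map_zero]
    exact zero_le

lemma PX_om (h : Fx v π X z a b) {S : Finset ι} (x : eis) :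
    PX π X S (omr * x) = PX π X S x := by
  refine Finset.prod_congr rfl fun i _ => ?_
  have h1 : IsCoprime omr (π i) :=
    ⟨omr ^ 2, 0, by linear_combination omr_cube⟩
  rw [ind_mul h1, h.mul, h.unit, one_mul]

include h3 in
lemma pow_bound (hz : Zt v z) (m : ℕ) :
    (v 3 ^ 3) ^ (m + 1) ≤ v 3 * v lam * v (1 - z) ^ (m + 1) := by
  have h1 : v 3 ≤ 1 := h3.le
  have h2 : v lam ≤ 1 := (lam_lt h3).le
  have h4 : v 3 ≤ v lam := by
    rw [← sq_three]
    calc v lam * v lam ≤ v lam * 1 := mul_le_mul' le_rfl h2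
      _ = v lam := mul_one _
  calc (v 3 ^ 3) ^ (m + 1) = (v 3 * v 3 * v 3 ^ (m + 1)) * v 3 ^ (2 * m) := by
        rw [← pow_mul, ← pow_two, ← pow_add, ← pow_add]
        congr 1
        ring
    _ ≤ (v 3 * v lam * v (1 - z) ^ (m + 1)) * 1 :=
        mul_le_mul' (mul_le_mul' (mul_le_mul' le_rfl h4) (pow_le_pow_left' hz.three.le _))
          (pow_le_one' h1 _)
    _ = _ := mul_one _

include h3 hC hfin h hz in
/-- the estimate -/
theorem est {S : Finset ι} (hS : S.Nonempty) :
    v (Sm (cc π S) (fun x => PX π X S x * FF (℘'[L] (Ω * x / cc π S) ^ 2))) ≤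
      v 3 * v lam * v (1 - z) ^ S.card := by
  classical
  have hc := h.cc_ne S
  have hct := h.cc_top hS
  have hD := dat hC hc (h.two_cc S) (h.three_cc S) hct hfin
  have : Fintype (eis ⧸ sp (cc π S)) := @Fintype.ofFinite _ (hfin _ hc)
  have : Nontrivial (eis ⧸ sp (cc π S)) := Ideal.Quotient.nontrivial_iff.2 hct
  have e1 : Sm (cc π S) (fun x => PX π X S x * FF (℘'[L] (Ω * x / cc π S) ^ 2)) =
      (-1) * Sm (cc π S) (fun x => PX π X S x) +
        Sm (cc π S) (fun x => PX π X S x * (FF (℘'[L] (Ω * x / cc π S) ^ 2) + 1)) := by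
    rw [← Sm_mul_left, ← Sm_add]
    exact Finset.sum_congr rfl fun x _ => by ring
  have hcardpos : 0 < S.card := Finset.card_pos.2 hS
  rw [e1]
  refine v.map_add_le ?_ ?_
  · have e2 : Sm (cc π S) (fun x => PX π X S x) =
        ∏ i ∈ S, ((Nat.card (eis ⧸ sp (π i)) : ℂ) - 1) := by
      have h3 := Sm_prod hfin h.ne h.cop (g := fun i x => ind (π i) x - X i x)
        (fun i x y hxy => by
          show ind (π i) x - X i x = ind (π i) y - X i y
          rw [ind_per hxy, h.per i x y hxy]) S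
      rw [Finset.prod_congr rfl fun i _ => sum_ind hfin h i] at h3
      exact h3
    rw [e2, neg_one_mul, v.map_neg, map_prod]
    have h4 : ∏ i ∈ S, v ((Nat.card (eis ⧸ sp (π i)) : ℂ) - 1) ≤ (v 3 ^ 3) ^ S.card :=
      Finset.prod_le_pow_card _ _ _ fun i _ => h.card i
    refine h4.trans ?_
    obtain ⟨m, hm⟩ : ∃ m, S.card = m + 1 := ⟨S.card - 1, by omega⟩
    rw [hm]
    exact pow_bound h3 hz m
  · rw [Sm_eq]
    have hu : Ideal.Quotient.mk (sp (cc π S)) omr ^ 2 + Ideal.Quotient.mk (sp (cc π S)) omr + 1 = 0 := by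
      rw [← map_pow, ← map_add, ← map_one (Ideal.Quotient.mk (sp (cc π S))), ← map_add, omr_sq,
        map_zero]
    have hA : IsUnit (3 : eis ⧸ sp (cc π S)) := by
      obtain ⟨s, t, hst⟩ := h.three_cc S
      refine IsUnit.of_mul_eq_one (Ideal.Quotient.mk (sp (cc π S)) s) ?_
      have e3 : (3 : eis ⧸ sp (cc π S)) = Ideal.Quotient.mk (sp (cc π S)) 3 :=
        (map_ofNat _ 3).symm
      rw [e3, ← map_mul, ← map_one (Ideal.Quotient.mk (sp (cc π S))),
        Ideal.Quotient.mk_eq_mk_iff_sub_mem, Ideal.mem_span_singleton']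
      exact ⟨-t, by linear_combination -hst⟩
    have hFper : ∀ x y : eis, x - y ∈ sp (cc π S) →
        ℘'[L] (Ω * x / cc π S) = ℘'[L] (Ω * y / cc π S) := by
      intro x y hxy
      apply dwp_per
      have h3 := (div_mem_iff hC.lat hc (x - y)).2 hxy
      convert h3 using 1
      push_cast
      ring
    rw [mul_assoc]
    refine sum_tri hu hA (W := fun q => PX π X S q.out *
      (FF (℘'[L] (Ω * q.out / cc π S) ^ 2) + 1)) ?_ ?_ ?_
    · intro q
      have h3 : (Ideal.Quotient.mk (sp (cc π S)) omr * q).out - omr * q.out ∈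
          sp (cc π S) := by
        rw [← Ideal.Quotient.mk_eq_mk_iff_sub_mem, Ideal.Quotient.mk_out, map_mul,
          Ideal.Quotient.mk_out]
      show PX π X S _ * (FF (℘'[L] (Ω * _ / cc π S) ^ 2) + 1) = _
      rw [PX_per h h3, PX_om h, hFper _ _ h3]
      have e4 : Ω * ((omr * q.out : eis) : ℂ) / cc π S = (omr : ℂ) * (Ω * q.out / cc π S) := by
        push_cast
        ring
      rw [e4, dwp_unit hC.lat omr_unit, omr_coe, om_cube, inv_one, one_mul]
    · intro q hq
      have h3 : ¬ IsCoprime q.out (cc π S) := by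
        rintro ⟨s, t, hst⟩
        apply hq
        refine IsUnit.of_mul_eq_one (Ideal.Quotient.mk (sp (cc π S)) s) ?_
        conv_lhs => rw [← Ideal.Quotient.mk_out q]
        rw [← map_mul, ← map_one (Ideal.Quotient.mk (sp (cc π S))),
          Ideal.Quotient.mk_eq_mk_iff_sub_mem, Ideal.mem_span_singleton']
        exact ⟨-t, by linear_combination -hst⟩
      show PX π X S q.out * _ = 0
      rw [PX_zero h h3, zero_mul]
    · intro q
      show v (PX π X S q.out * _) ≤ _
      by_cases hq : IsCoprime q.out (cc π S)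
      · rw [mul_comm (v lam), map_mul]
        exact mul_le_mul' (PX_le hz h _) (FF_one h3 (X_le h3 hD ⟨q.out, hq⟩))
      · rw [PX_zero h hq, zero_mul, map_zero]
        exact zero_le

/-- the normalized sums -/
noncomputable def sT (L : PeriodPair) (Ω : ℂ) [Fintype (eis ⧸ (sp 3 : Ideal eis))]
    (π : ι → eis) (X : ι → eis → ℂ) (z : ℂ) (T : Finset ι) : ℂ :=
  SP L Ω 3 (ee psi) (kap L Ω) π X T / (kap L Ω * (3 * lam * (1 - z) ^ (T.card - 1)))

variable [Fintype (eis ⧸ (sp 3 : Ideal eis))]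
  (h3π : ∀ i, π i - 1 ∈ (sp 3 : Ideal eis))

include hC in
lemma kap_ne : kap L Ω ≠ 0 := by
  have h1 := hC.x0
  have h2 := hC.y0
  unfold kap
  refine mul_ne_zero (mul_ne_zero two_ne_zero (pow_ne_zero _ ?_)) ?_
  · intro h
    rw [h] at h1
    norm_num at h1
  · intro h
    rw [h] at h2
    norm_num at h2

include hC hfin h h3π in
/-- the identity in terms of the values of `℘'` -/
theorem idn {S : Finset ι} (hS : S.Nonempty) :
    kap L Ω * Sm (cc π S) (fun x => PX π X S x * FF (℘'[L] (Ω * x / cc π S) ^ 2)) =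
      ∑ T ∈ S.powerset, (-1) ^ T.card * ((∏ i ∈ S \ T, ((π i : ℂ) - XT X T (π i))) *
        SP L Ω 3 (ee psi) (kap L Ω) π X T) := by
  have h0 := lim_const hC
  have hfπ : ∀ i, IsCoprime (3 : eis) (π i) := h.three
  have heπ : ∀ i, ee psi (π i) = 1 := by
    intro i
    rw [eo.per _ _ (h3π i), ee_u isUnit_one]
    rfl
  rw [← Idn.main hC.lat hfin three_ne h.toFm hfπ eo heπ h0 S, ← Sm_mul_left]
  refine Finset.sum_congr rfl fun x _ => ?_
  show kap L Ω * (PX π X S x * FF (℘'[L] (Ω * x / cc π S) ^ 2)) =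
    PX π X S x * Ph L Ω 3 (ee psi) (kap L Ω) (cc π S) x
  by_cases hx : IsCoprime x (cc π S)
  · have hx' : x ∉ sp (cc π S) := notMem_of_cop (h.cc_top hS) hx
    rw [Ph_of_notMem hx', HH_eq hC]
    · ring
    · rwa [div_mem_iff hC.lat (h.cc_ne S)]
    · intro k
      exact cop_notMem hC.lat three_ne (h.cc_ne S) (Fm.cop_f hfπ S) hx'
  · rw [PX_zero h hx]
    ring

include h3 hC hfin h hz h3π in
/-- **The sums modulo the maximal ideal.** -/
theorem sT_cg [Fintype ι] (S : Finset ι) (hS : S.Nonempty) : Cg v (sT L Ω π X z S) (D a b S) := by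
  classical
  induction S using Finset.strongInduction with
  | H S ih =>
  have hκ := kap_ne hC
  have hz1 := hz.ne
  have hl0 := lam_ne'
  obtain ⟨m, hm⟩ : ∃ m, S.card = m + 1 := ⟨S.card - 1, by
    have := Finset.card_pos.2 hS
    omega⟩
  have hid := idn hC hfin h h3π hS
  set N : ℂ := kap L Ω * (3 * lam * (1 - z) ^ m) with hN
  have hN0 : N ≠ 0 := mul_ne_zero hκ (mul_ne_zero (mul_ne_zero (by norm_num) hl0)
    (pow_ne_zero _ hz1))
  -- the terms
  set E : Finset ι → ℂ := fun T => (∏ i ∈ S \ T, ((π i : ℂ) - XT X T (π i))) *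
    SP L Ω 3 (ee psi) (kap L Ω) π X T / N with hE
  have hsum : ∑ T ∈ S.powerset, (-1) ^ T.card * E T =
      Sm (cc π S) (fun x => PX π X S x * FF (℘'[L] (Ω * x / cc π S) ^ 2)) /
        (3 * lam * (1 - z) ^ m) := by
    have h4 : ∑ T ∈ S.powerset, (-1) ^ T.card * E T = (∑ T ∈ S.powerset, (-1) ^ T.card *
        ((∏ i ∈ S \ T, ((π i : ℂ) - XT X T (π i))) *
        SP L Ω 3 (ee psi) (kap L Ω) π X T)) / N := by
      rw [Finset.sum_div]
      exact Finset.sum_congr rfl fun T _ => by rw [hE]; ring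
    rw [h4, ← hid, hN]
    field_simp
  have hv3l : v (3 * lam) ≠ 0 := by
    rw [map_mul]
    exact mul_ne_zero three_ne lam_ne
  -- `v (3 lam) < v (1 - z)`
  have hlz : v (3 * lam) < v (1 - z) := by
    rw [map_mul]
    calc v 3 * v lam ≤ v 3 * 1 := mul_le_mul' le_rfl (lam_lt h3).le
      _ = v 3 := mul_one _
      _ < v (1 - z) := hz.three
  have hsmall : v (∑ T ∈ S.powerset, (-1) ^ T.card * E T) < 1 := by
    rw [hsum, map_div₀, map_mul (f := v) (3 * lam), map_mul, map_pow]
    have h4 := est h3 hC hfin h hz hS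
    have h5 : v 3 * v lam * v (1 - z) ^ m ≠ 0 := by
      refine mul_ne_zero (mul_ne_zero three_ne lam_ne) (pow_ne_zero _ ?_)
      rwa [Ne, map_eq_zero]
    rw [div_lt_one₀ (zero_lt_iff.2 h5)]
    refine h4.trans_lt ?_
    rw [hm, pow_succ, ← mul_assoc]
    calc v 3 * v lam * v (1 - z) ^ m * v (1 - z) < v 3 * v lam * v (1 - z) ^ m * 1 :=
          mul_lt_mul_of_pos_left hz.lt (zero_lt_iff.2 h5)
      _ = _ := mul_one _
  have hES : E S = sT L Ω π X z S := by
    rw [hE]
    show (∏ i ∈ S \ S, _) * _ / N = _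
    unfold sT
    rw [Finset.sdiff_self, Finset.prod_empty, one_mul, hm, Nat.add_sub_cancel]
  -- the other terms
  have hET : ∀ T ∈ S.powerset.erase S, T.Nonempty → Cg v (E T)
      (D a b T * ∏ i ∈ S \ T, ∑ j ∈ T, a i j) := by
    intro T hT hTne
    rw [Finset.mem_erase, Finset.mem_powerset] at hT
    have hssub : T ⊂ S := Finset.ssubset_iff_subset_ne.2 ⟨hT.2, hT.1⟩
    have h4 := ih T hssub hTne
    have hTc : 0 < T.card := Finset.card_pos.2 hTne
    have h5 : (S \ T).card + (T.card - 1) = m := by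
      rw [Finset.card_sdiff_of_subset hT.2, hm]
      have := Finset.card_le_card hT.2
      omega
    have h6 : E T = sT L Ω π X z T *
        ∏ i ∈ S \ T, (((π i : ℂ) - XT X T (π i)) / (1 - z)) := by
      rw [hE]
      show (∏ i ∈ S \ T, _) * _ / N = _
      unfold sT
      rw [Finset.prod_div_distrib, Finset.prod_const, hN, ← h5, pow_add]
      field_simp
    rw [h6]
    refine h4.mul h3 (Cg.prod h3 _ fun i hi => ?_)
    rw [Finset.mem_sdiff] at hi
    -- the quotient
    have h7 : ∀ j ∈ T, ∃ n : ℕ, X j (π i) = z ^ n ∧ (n : ZMod 3) = a i j := fun j hj =>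
      h.cub i j fun hij => hi.2 (hij ▸ hj)
    choose! n hn1 hn2 using h7
    have h8 : XT X T (π i) = z ^ (∑ j ∈ T, n j) := by
      unfold XT
      rw [← Finset.prod_pow_eq_pow_sum]
      exact Finset.prod_congr rfl fun j hj => hn1 j hj
    have h9 : ((π i : ℂ) - XT X T (π i)) / (1 - z) =
        ((π i : ℂ) - 1) / (1 - z) + (1 - z ^ (∑ j ∈ T, n j)) / (1 - z) := by
      rw [h8]
      ring
    rw [h9]
    have h10 : (∑ j ∈ T, a i j) = 0 + ((∑ j ∈ T, n j : ℕ) : ZMod 3) := by
      rw [zero_add]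
      push_cast
      exact Finset.sum_congr rfl fun j hj => (hn2 j hj).symm
    rw [h10]
    refine (Cg.zero ?_).add h3 (Zt.quot h3 hz _)
    have h11 : ((π i : ℂ) - 1) / (1 - z) = (3 * lam) / (1 - z) * (((π i : ℂ) - 1) / (3 * lam)) := by
      field_simp
    rw [h11]
    refine (v_mul_le_of le_rfl (h.lin i).le).trans_lt ?_
    rw [map_div₀]
    have h12 : 0 < v (1 - z) := zero_lt_iff.2 (by rwa [Ne, map_eq_zero])
    rw [div_lt_one₀ h12]
    exact hlz
  have hE0 : Cg v (E ∅) (if S.card = 1 then ∑ i ∈ S, b i else 0) := by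
    have h4 : E ∅ = (∏ i ∈ S, ((π i : ℂ) - 1)) / (3 * lam * (1 - z) ^ m) := by
      rw [hE]
      show (∏ i ∈ S \ ∅, _) * _ / N = _
      rw [SP_empty hfin, Finset.sdiff_empty, hN]
      unfold XT
      simp only [Finset.prod_empty]
      field_simp
    rw [h4]
    split_ifs with h5
    · obtain ⟨i, rfl⟩ := Finset.card_eq_one.1 h5
      rw [Finset.card_singleton] at hm
      have hm0 : m = 0 := by omega
      rw [hm0, pow_zero, mul_one, Finset.prod_singleton, Finset.sum_singleton]
      exact h.lin i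
    · apply Cg.zero
      have hm0 : m ≠ 0 := by omega
      have h6 : (∏ i ∈ S, ((π i : ℂ) - 1)) =
          (3 * lam) ^ (m + 1) * ∏ i ∈ S, (((π i : ℂ) - 1) / (3 * lam)) := by
        rw [← hm, ← Finset.prod_const, ← Finset.prod_mul_distrib]
        exact Finset.prod_congr rfl fun i _ => by field_simp
      have h7 : (∏ i ∈ S, ((π i : ℂ) - 1)) / (3 * lam * (1 - z) ^ m) =
          ((3 * lam) / (1 - z)) ^ m * ∏ i ∈ S, (((π i : ℂ) - 1) / (3 * lam)) := by
        rw [h6, div_pow, pow_succ]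
        field_simp
      rw [h7]
      refine (v_mul_le_of le_rfl ?_).trans_lt ?_
      · rw [map_prod]
        exact Finset.prod_le_one' fun i _ => (h.lin i).le
      · rw [map_pow]
        refine pow_lt_one' ?_ hm0
        rw [map_div₀]
        have h11 : 0 < v (1 - z) := zero_lt_iff.2 (by rwa [Ne, map_eq_zero])
        rw [div_lt_one₀ h11]
        exact hlz
  -- conclusion
  have hSmem : S ∈ S.powerset := Finset.mem_powerset_self S
  have hsplit := Finset.add_sum_erase S.powerset (fun T => (-1) ^ T.card * E T) hSmem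
  have h0mem : ∅ ∈ S.powerset.erase S := Finset.mem_erase.2 ⟨hS.ne_empty.symm,
    Finset.empty_mem_powerset S⟩
  have hrest : Cg v (∑ T ∈ S.powerset.erase S, (-1) ^ T.card * E T)
      (-((-1) ^ S.card * D a b S)) := by
    have h4 : -((-1) ^ S.card * D a b S) = ∑ T ∈ S.powerset.erase S, (-1) ^ T.card * (if T = ∅ then
        (if S.card = 1 then ∑ i ∈ S, b i else 0) else D a b T * ∏ i ∈ S \ T, ∑ j ∈ T, a i j) := by
      by_cases h5 : S.card = 1
      · obtain ⟨i, rfl⟩ := Finset.card_eq_one.1 h5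
        rw [D_one]
        have h6 : ({i} : Finset ι).powerset.erase {i} = {∅} := by
          ext T
          rw [Finset.mem_erase, Finset.mem_powerset, Finset.subset_singleton_iff,
            Finset.mem_singleton]
          constructor
          · rintro ⟨h7, h8 | h8⟩
            · exact h8
            · exact absurd h8 h7
          · rintro rfl
            exact ⟨(Finset.singleton_ne_empty i).symm, Or.inl rfl⟩
        rw [h6, Finset.sum_singleton, if_pos rfl, if_pos h5, Finset.sum_singleton,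
          Finset.card_singleton, Finset.card_empty]
        ring
      · have h6 := D_rec a b S (by omega)
        rw [← Finset.add_sum_erase _ _ hSmem, Finset.sdiff_self, Finset.prod_empty, mul_one] at h6
        have h7 : -((-1) ^ S.card * D a b S) =
            ∑ T ∈ S.powerset.erase S, (-1) ^ T.card * (D a b T * ∏ i ∈ S \ T, ∑ j ∈ T, a i j) := by
          linear_combination -h6
        rw [h7]
        refine Finset.sum_congr rfl fun T hT => ?_
        split_ifs with h8
        · rw [h8]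
          unfold D
          rw [Finset.sum_empty, zero_mul]
        · rfl
    rw [h4]
    refine Cg.sum h3 _ fun T hT => Cg.sign h3 ?_ _
    split_ifs with h5 h6 h6
    · rw [h5]
      rw [if_pos h6] at hE0
      exact hE0
    · rw [h5]
      rw [if_neg h6] at hE0
      exact hE0
    · exact hET T hT (Finset.nonempty_iff_ne_empty.2 h5)
  have hES2 : Cg v ((-1) ^ S.card * E S) ((-1) ^ S.card * D a b S) := by
    have h4 : (-1) ^ S.card * E S = (∑ T ∈ S.powerset, (-1) ^ T.card * E T) -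
        ∑ T ∈ S.powerset.erase S, (-1) ^ T.card * E T := by
      rw [← hsplit]
      ring
    rw [h4]
    have h5 := hrest.neg h3
    rw [neg_neg] at h5
    refine Cg.of_sub (t := -(∑ T ∈ S.powerset.erase S, (-1) ^ T.card * E T)) ?_ h5
    rw [sub_neg_eq_add, sub_add_cancel]
    exact hsmall
  have h4 := hES2.sign h3 S.card
  rw [← mul_assoc, ← mul_pow, neg_one_mul, neg_neg, one_pow, one_mul, hES, ← mul_assoc, ← mul_pow,
    neg_one_mul, neg_neg, one_pow, one_mul] at h4
  exact h4

end est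

end Pool.Agent.Y715.T.Ana
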