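import Pool.Agent.Y715.Two

/-!
# The `3`-adic valuation of the values of `℘'` at torsion points, abstract form
-/

set_option autoImplicit false

namespace Pool.Agent.Y715.T.Three

open Pool.Agent.Y715.Two

variable {Γ : Type*} [LinearOrderedCommGroupWithZero Γ] {v : Valuation ℂ Γ}

/-- the square root of `-3` -/
noncomputable def lam : ℂ := ⟨0, √3⟩

lemma lam_sq : lam * lam = -3 := by
  have h3 : √3 * √3 = 3 := Real.mul_self_sqrt (by norm_num)
  apply Complex.ext
  · simp [lam, h3]
  · simp [lam]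

lemma sq_three : v lam * v lam = v 3 := by
  rw [← map_mul, lam_sq, v.map_neg]

lemma three_ne : v (3 : ℂ) ≠ 0 := by
  rw [Ne, map_eq_zero]
  norm_num

lemma lam_ne : v lam ≠ 0 := by
  intro h
  have := sq_three (v := v)
  rw [h, mul_zero] at this
  exact three_ne this.symm

lemma lam_ne' : lam ≠ 0 := by
  intro h
  have h1 := lam_sq
  rw [h, mul_zero] at h1
  norm_num at h1

lemma lam_pos : 0 < v lam := zero_lt_iff.2 lam_ne

variable (h3 : v 3 < 1)

include h3 in
lemma lam_lt : v lam < 1 := by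
  by_contra h
  push Not at h
  have h1 : 1 ≤ v lam * v lam := by
    calc (1 : Γ) = 1 * 1 := (one_mul 1).symm
      _ ≤ v lam * v lam := mul_le_mul' h h
  rw [sq_three] at h1
  exact absurd h3 (not_lt.2 h1)

include h3 in
lemma v_two : v 2 = 1 := by
  have h : v (-2 : ℂ) = 1 := by
    apply v_unit
    have : (-2 : ℂ) - 1 = -3 := by norm_num
    rw [this, v.map_neg]
    exact h3
  rwa [v.map_neg] at h

include h3 in
lemma v_six : v 6 = v 3 := by
  have : (6 : ℂ) = 2 * 3 := by norm_num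
  rw [this, map_mul, v_two h3, one_mul]

lemma v_nine : v 9 = v lam ^ 4 := by
  have : (9 : ℂ) = 3 * 3 := by norm_num
  rw [this, map_mul, ← sq_three]
  simp only [pow_succ, pow_zero, one_mul, mul_assoc]

lemma v_27 : v 27 = v lam ^ 6 := by
  have : (27 : ℂ) = 3 * (3 * 3) := by norm_num
  rw [this, map_mul, map_mul, ← sq_three]
  simp only [pow_succ, pow_zero, one_mul, mul_assoc]

/-- the relation between the squares of the values of `℘'` at `u` and at `√-3 u` -/
structure Dat {ι : Type*} (X : ι → ℂ) (s : ι → ι) : Prop where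
  fin : (Set.range X).Finite
  rel : ∀ a, 27 * (X a - 1) ^ 2 * X (s a) = -(X a * (X a - 9) ^ 2)

variable {ι : Type*} {X : ι → ℂ} {s : ι → ι} (h : Dat X s)

include h3 h in
lemma X_le (b : ι) : v (X b) ≤ v lam ^ 3 := by
  have : Nonempty ι := ⟨b⟩
  obtain ⟨a, ha⟩ := exists_max (v := v) h.fin
  refine (ha b).trans ?_
  by_contra hcon
  push Not at hcon
  have hl1 : v lam ≤ 1 := (lam_lt h3).le
  have hpos : 0 < v (X a) := zero_le.trans_lt hcon
  have h9 : v 9 < v (X a) := by
    rw [v_nine]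
    refine lt_of_le_of_lt ?_ hcon
    calc v lam ^ 4 = v lam ^ 3 * v lam := pow_succ _ _
      _ ≤ v lam ^ 3 * 1 := mul_le_mul' le_rfl hl1
      _ = v lam ^ 3 := mul_one _
  have h10 : v (X a - 9) = v (X a) := v.map_sub_eq_of_lt_left h9
  have hrel := congrArg v (h.rel a)
  rw [map_mul, map_mul, map_pow, v_27, v.map_neg, map_mul, map_pow, h10] at hrel
  -- `v (X a - 1) ≤ max 1 (v (X a))`
  have hmax := ha (s a)
  rcases le_or_gt (v (X a)) 1 with h1 | h1
  · have h2 : v (X a - 1) ≤ 1 := v.map_sub_le h1 (by rw [map_one])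
    have h4 : v (X a) * v (X a) ^ 2 ≤ v lam ^ 6 * v (X a) := by
      rw [← hrel]
      calc v lam ^ 6 * v (X a - 1) ^ 2 * v (X (s a)) ≤ v lam ^ 6 * 1 * v (X a) :=
            mul_le_mul' (mul_le_mul' le_rfl (pow_le_one' h2 2)) hmax
        _ = v lam ^ 6 * v (X a) := by rw [mul_one]
    rw [mul_comm (v (X a)) (v (X a) ^ 2)] at h4
    have h5 := le_of_mul_le_mul_right h4 hpos
    have h6 : (v lam ^ 3) ^ 2 < v (X a) ^ 2 := pow_lt_pow_left₀ hcon zero_le two_ne_zero
    rw [← pow_mul] at h6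
    exact absurd h5 (not_le.2 h6)
  · have h2 : v (X a - 1) = v (X a) := v.map_sub_eq_of_lt_left (by rw [map_one]; exact h1)
    rw [h2] at hrel
    have h4 : v (X a) * v (X a) ^ 2 ≤ v lam ^ 6 * v (X a) ^ 2 * v (X a) := by
      rw [← hrel]
      exact mul_le_mul' le_rfl hmax
    have h5 : v (X a) ^ 3 * 1 ≤ v (X a) ^ 3 * v lam ^ 6 := by
      calc v (X a) ^ 3 * 1 = v (X a) * v (X a) ^ 2 := by rw [mul_one, pow_succ']
        _ ≤ _ := h4
        _ = v (X a) ^ 3 * v lam ^ 6 := by
          rw [pow_succ (v (X a)) 2, mul_assoc, mul_comm]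
    have h6 := le_of_mul_le_mul_left h5 (pow_pos hpos 3)
    exact absurd h6 (not_le.2 (pow_lt_one' (lam_lt h3) (by norm_num)))

/-- the function -/
noncomputable def FF (t : ℂ) : ℂ := (t - 3) / (t + 3)

include h3 in
lemma add_ne {t : ℂ} (ht : v t ≤ v lam ^ 3) : v (t + 3) = v 3 := by
  have h1 : v t < v 3 := by
    refine ht.trans_lt ?_
    rw [← sq_three]
    calc v lam ^ 3 = v lam * v lam * v lam := by
          rw [pow_succ, pow_two]
      _ < v lam * v lam * 1 := mul_lt_mul_of_pos_left (lam_lt h3) (mul_pos lam_pos lam_pos)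
      _ = v lam * v lam := mul_one _
  rw [add_comm]
  exact v.map_add_eq_of_lt_left h1

include h3 in
lemma FF_one {t : ℂ} (ht : v t ≤ v lam ^ 3) : v (FF t + 1) ≤ v lam := by
  have h1 := add_ne h3 ht
  have h2 : t + 3 ≠ 0 := by
    intro h0
    rw [h0, map_zero] at h1
    exact three_ne h1.symm
  have e : FF t + 1 = 2 * t / (t + 3) := by
    unfold FF
    field_simp
    ring
  rw [e, map_div₀, map_mul, v_two h3, one_mul, h1]
  refine div_le_of_le_mul₀ zero_le zero_le ?_
  rw [← sq_three]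
  calc v t ≤ v lam ^ 3 := ht
    _ = v lam * (v lam * v lam) := by rw [pow_succ', pow_two]

end Pool.Agent.Y715.T.Three
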