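import Pool.Agent.Y715.Idn
import Pool.Agent.Y715.T.Three
import Pool.Agent.Y696.Ell2

/-!
# The hexagonal lattice with `g₃ = -1`
-/

set_option autoImplicit false

open Filter
open scoped Topology PeriodPair

namespace Pool.Agent.Y715.T.Lat

open H667R3 Pool.Agent.W192.HK Pool.Agent.TH936.CM Pool.Agent.TH936.PU
open Pool.Agent.Y715.Dist Pool.Agent.Y715.Idn
open Pool.Agent.Y715.T.Three Pool.Agent.Y696

variable {L : PeriodPair} {Ω : ℂ}

/-- the element `a + b ω` -/
noncomputable def ez (a b : ℤ) : eis := (a : eis) + b * omr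

lemma ez_coe (a b : ℤ) : ((ez a b : eis) : ℂ) = a + b * om := by
  unfold ez
  push_cast
  rw [omr_coe]

lemma ez_ex (r : eis) : ∃ a b : ℤ, r = ez a b := eis_rep r

lemma ez_inj {a b c d : ℤ} (h : ez a b = ez c d) : a = c ∧ b = d := by
  have h0 := congrArg (fun r : eis => (r : ℂ)) h
  simp only [ez_coe] at h0
  have h1 := congrArg Complex.im h0
  simp at h1
  have h2 : b = d := by
    rcases h1 with h1 | h1
    · exact h1
    · exact absurd h1 om_im.ne'
  subst h2
  have h3 : (a : ℂ) = c := add_right_cancel h0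
  exact ⟨by exact_mod_cast h3, rfl⟩

lemma ez_mul (a b c d : ℤ) : ez a b * ez c d = ez (a * c - b * d) (a * d + b * c - b * d) := by
  unfold ez
  push_cast
  linear_combination (b * d : eis) * omr_sq

lemma ez_add (a b c d : ℤ) : ez a b + ez c d = ez (a + c) (b + d) := by
  unfold ez
  push_cast
  ring

lemma ez_sub (a b c d : ℤ) : ez a b - ez c d = ez (a - c) (b - d) := by
  unfold ez
  push_cast
  ring

lemma ez_one : ez 1 0 = 1 := by
  unfold ez
  push_cast
  ring

lemma ez_zero : ez 0 0 = 0 := by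
  unfold ez
  push_cast
  ring

lemma ez_omr : ez 0 1 = omr := by
  unfold ez
  push_cast
  ring

lemma ez_int (n : ℤ) : ez n 0 = (n : eis) := by
  unfold ez
  push_cast
  ring

lemma mem_three {a b : ℤ} : ez a b ∈ (sp 3 : Ideal eis) ↔ 3 ∣ a ∧ 3 ∣ b := by
  have h3 : (3 : eis) = ez 3 0 := by
    rw [ez_int]
    norm_num
  rw [Ideal.mem_span_singleton', h3]
  constructor
  · rintro ⟨t, ht⟩
    obtain ⟨x, y, rfl⟩ := ez_ex t
    rw [ez_mul] at ht
    obtain ⟨h1, h2⟩ := ez_inj ht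
    omega
  · rintro ⟨⟨x, hx⟩, ⟨y, hy⟩⟩
    refine ⟨ez x y, ?_⟩
    rw [ez_mul, hx, hy]
    congr 1 <;> ring

/-- the square root of `-3` -/
noncomputable def la : eis := ez 1 2

lemma la_coe : ((la : eis) : ℂ) = lam := by
  unfold la
  rw [ez_coe]
  apply Complex.ext
  · simp [om, lam]
    norm_num
  · simp [om, lam]
    ring

lemma la_eq : la = omr - omr ^ 2 := by
  unfold la ez
  push_cast
  linear_combination (1 : eis) * omr_sq

lemma la_sq : la * la = -3 := by
  apply Subtype.ext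
  push_cast
  rw [la_coe, lam_sq]
  rfl

variable (hC : Cur L Ω)

include hC in
/-- multiplication by the square root of `-3` -/
theorem wp_la {u : ℂ} (hu : 2 * u ∉ L.lattice) (hl : lam * u ∉ L.lattice) :
    3 * ℘[L] u ^ 2 * ℘[L] (lam * u) = -(℘[L] u ^ 3 + 1) := by
  have hu0 := two_mul_notMem_of L hu
  have hou : IsUnit omr := omr_unit
  have hou2 : IsUnit (omr ^ 2) := hou.pow 2
  have z1 : 2 * (om * u) ∉ L.lattice := by
    have e : 2 * (om * u) = (omr : eis) * (2 * u) := by rw [omr_coe]; ring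
    rw [e, lat_unit hC.lat hou]
    exact hu
  have z2 : -(om ^ 2 * u) ∉ L.lattice := by
    rw [neg_mem_iff]
    have e : om ^ 2 * u = ((omr ^ 2 : eis) : ℂ) * u := by push_cast; rw [omr_coe]
    rw [e, lat_unit hC.lat hou2]
    exact hu0
  have elam : lam = om - om ^ 2 := by
    rw [← la_coe, la_eq]
    push_cast
    rw [omr_coe]
  have e3 : om * u + -(om ^ 2 * u) = lam * u := by rw [elam]; ring
  have e4 : om * u - -(om ^ 2 * u) = -u := by linear_combination u * om_sq
  have h1 : om * u + -(om ^ 2 * u) ∉ L.lattice := by rwa [e3]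
  have h2 : om * u - -(om ^ 2 * u) ∉ L.lattice := by rwa [e4, neg_mem_iff]
  have h4 := wp_add L z1 z2 h1 h2
  have h3 := wp_sub_ne (two_mul_notMem_of L z1) z2 h1 h2
  have i1 : (om ^ 2)⁻¹ = om :=
    (eq_inv_of_mul_eq_one_left (by linear_combination om_cube)).symm
  have i2 : (om ^ 3)⁻¹ = 1 := by rw [om_cube, inv_one]
  have w1 : ℘[L] (om * u) = om * ℘[L] u := by
    have := wp_unit hC.lat hou u
    rwa [omr_coe, i1] at this
  have w1' : ℘'[L] (om * u) = ℘'[L] u := by
    have := dwp_unit hC.lat hou u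
    rwa [omr_coe, i2, one_mul] at this
  have w2 : ℘[L] (-(om ^ 2 * u)) = om ^ 2 * ℘[L] u := by
    rw [L.weierstrassP_neg]
    have := wp_unit hC.lat hou2 u
    push_cast at this
    rw [omr_coe] at this
    rw [this]
    have i3 : ((om ^ 2) ^ 2)⁻¹ = om ^ 2 :=
      (eq_inv_of_mul_eq_one_left (by linear_combination (om ^ 3 + 1) * om_cube)).symm
    rw [i3]
  have w2' : ℘'[L] (-(om ^ 2 * u)) = -℘'[L] u := by
    rw [L.derivWeierstrassP_neg]
    have := dwp_unit hC.lat hou2 u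
    push_cast at this
    rw [omr_coe] at this
    rw [this]
    have i3 : ((om ^ 2) ^ 3)⁻¹ = 1 := by
      rw [← pow_mul, mul_comm, pow_mul, om_cube, one_pow, inv_one]
    rw [i3, one_mul]
  rw [e3, w1, w1', w2, w2', hC.g2] at h4
  rw [w1, w2] at h3
  have h5 := hC.ode hu0
  rw [h4]
  set x := ℘[L] u
  set y := ℘'[L] u
  have hx : x ≠ 0 := by
    intro h
    apply h3
    rw [h]
    ring
  have hd : (om * x - om ^ 2 * x) ^ 2 = -3 * x ^ 2 := by
    linear_combination (x ^ 2 * (om ^ 2 - 3 * om + 3)) * om_sq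
  rw [hd]
  have e5 : 3 * x ^ 2 * (om * x - ((6 * (om * x) ^ 2 - 0 / 2) * (om * x - om ^ 2 * x) -
      (y - -y) * y) / (2 * (-3 * x ^ 2))) = 3 * om * x ^ 3 +
      ((6 * (om * x) ^ 2 - 0 / 2) * (om * x - om ^ 2 * x) - (y - -y) * y) / 2 := by
    field_simp
    ring
  rw [e5]
  linear_combination (3 * x ^ 3 - 3 * om * x ^ 3) * om_cube - h5

include hC in
/-- the relation between the values of the square of `℘'` -/
theorem rel_la {u : ℂ} (hu : 2 * u ∉ L.lattice) (hl : lam * u ∉ L.lattice) :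
    27 * (℘'[L] u ^ 2 - 1) ^ 2 * ℘'[L] (lam * u) ^ 2 =
      -(℘'[L] u ^ 2 * (℘'[L] u ^ 2 - 9) ^ 2) := by
  have h1 := wp_la hC hu hl
  have h2 := hC.ode (two_mul_notMem_of L hu)
  have h3 := hC.ode hl
  rw [h2, h3]
  set x := ℘[L] u
  set X := ℘[L] (lam * u)
  have h4 : 27 * x ^ 6 * X ^ 3 = -(x ^ 3 + 1) ^ 3 := by
    have : 27 * x ^ 6 * X ^ 3 = (3 * x ^ 2 * X) ^ 3 := by ring
    rw [this, h1]
    ring
  linear_combination 64 * h4

/-! ### points prime to three -/

section dat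

variable {c : eis} (hc : c ≠ 0) (h2c : IsCoprime 2 c) (h3c : IsCoprime 3 c) (hct : sp c ≠ ⊤)
  (hfin : ∀ q : eis, q ≠ 0 → Finite (eis ⧸ sp q))

include h3c in
lemma cop_la : IsCoprime la c := by
  have h : (3 : eis) = la * -la := by
    rw [mul_neg, la_sq, neg_neg]
  rw [h] at h3c
  exact h3c.of_mul_left_left

/-- multiplication by the square root of `-3` on the elements prime to `c` -/
noncomputable def sL (x : {x : eis // IsCoprime x c}) : {x : eis // IsCoprime x c} :=
  ⟨la * x.1, (cop_la h3c).mul_left x.2⟩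

include hct in
lemma notMem_of_cop {x : eis} (hx : IsCoprime x c) : x ∉ sp c := by
  intro h
  apply hct
  obtain ⟨u, w, huw⟩ := hx
  rw [Ideal.eq_top_iff_one, ← huw]
  exact add_mem (Ideal.mul_mem_left _ _ h) (Ideal.mul_mem_left _ _ (Ideal.mem_span_singleton_self c))

/-- the squares of the values of `℘'` -/
noncomputable def XX (L : PeriodPair) (Ω : ℂ) (c : eis) (x : {x : eis // IsCoprime x c}) : ℂ :=
  ℘'[L] (Ω * x.1 / c) ^ 2

include hC hc hfin in
lemma XX_fin : (Set.range (XX L Ω c)).Finite := by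
  have : Finite (eis ⧸ sp c) := hfin c hc
  have h1 : Set.range (XX L Ω c) ⊆
      Set.range (fun q : eis ⧸ sp c => ℘'[L] (Ω * q.out / c) ^ 2) := by
    rintro _ ⟨x, rfl⟩
    refine ⟨Ideal.Quotient.mk _ x.1, ?_⟩
    show ℘'[L] _ ^ 2 = ℘'[L] _ ^ 2
    congr 1
    have h2 := out_mk (sp c) x.1
    rw [← neg_mem_iff, neg_sub, ← div_mem_iff hC.lat hc] at h2
    apply dwp_per
    convert h2 using 1
    push_cast
    ring
  exact (Set.finite_range _).subset h1

include hC hc hct hfin h2c in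
/-- the data for the `3`-adic estimates -/
theorem dat : Dat (XX L Ω c) (sL h3c) := by
  refine ⟨XX_fin hC hc hfin, fun x => ?_⟩
  have hu : 2 * (Ω * x.1 / c) ∉ L.lattice := by
    have h1 : IsCoprime (2 * x.1) c := h2c.mul_left x.2
    have h3 := notMem_of_cop hct h1
    rw [← div_mem_iff hC.lat hc] at h3
    have e2 : ((2 : eis) : ℂ) = 2 := rfl
    convert h3 using 2
    push_cast
    rw [e2]
    ring
  have hl : lam * (Ω * x.1 / c) ∉ L.lattice := by
    have h3 := notMem_of_cop hct ((cop_la h3c).mul_left x.2)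
    rw [← div_mem_iff hC.lat hc] at h3
    convert h3 using 2
    push_cast
    rw [la_coe]
    ring
  have h4 := rel_la hC hu hl
  unfold XX
  rw [← h4]
  congr 3
  unfold sL
  push_cast
  rw [la_coe]
  ring

end dat

/-! ### the function `HH` for `f = 3` -/

/-- the constant -/
noncomputable def kap (L : PeriodPair) (Ω : ℂ) : ℂ := 2 * ℘[L] (Ω / 3) ^ 2 * ℘'[L] (Ω / 3)

include hC in
/-- the function `HH` -/
theorem HH_eq [Fintype (eis ⧸ (sp 3 : Ideal eis))] {u : ℂ} (hu : u ∉ L.lattice)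
    (h1 : ∀ z : eis, Ω * z / (3 : eis) + u ∉ L.lattice ∧ Ω * z / (3 : eis) - u ∉ L.lattice) :
    HH L Ω 3 (ee psi) u + kap L Ω = kap L Ω * FF (℘'[L] u ^ 2) := by
  have e3 : ((3 : eis) : ℂ) = 3 := rfl
  have hw := hC.third
  have key : ∀ v : eis, IsUnit v → ((v : ℂ) ^ 2)⁻¹ * ℘[L] (Ω / 3) - ℘[L] u ≠ 0 := by
    intro v hv
    have h2 := h1 v
    rw [e3] at h2
    have e4 : Ω * v / 3 = v * (Ω / 3) := by ring
    rw [e4] at h2
    have h5 : (v : ℂ) * (Ω / 3) ∉ L.lattice := by rwa [lat_unit hC.lat hv]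
    have h6 := wp_sub_ne h5 hu h2.1 h2.2
    rwa [wp_unit hC.lat hv] at h6
  have i1 : (om ^ 2)⁻¹ = om :=
    (eq_inv_of_mul_eq_one_left (by linear_combination om_cube)).symm
  have i3 : ((om ^ 2) ^ 2)⁻¹ = om ^ 2 :=
    (eq_inv_of_mul_eq_one_left (by linear_combination (om ^ 3 + 1) * om_cube)).symm
  have k0 := key 1 isUnit_one
  have k1 := key omr omr_unit
  have k2 := key (omr ^ 2) (omr_unit.pow 2)
  push_cast at k0 k1 k2
  rw [omr_coe] at k1 k2
  rw [i1] at k1
  rw [i3] at k2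
  rw [one_pow, inv_one, one_mul] at k0
  have hne : 1 + ℘[L] u ^ 3 ≠ 0 := by
    intro h0
    apply mul_ne_zero (mul_ne_zero k0 k1) k2
    have hx0 := hC.x0
    set x := ℘[L] (Ω / 3)
    set X := ℘[L] u
    linear_combination (om ^ 3) * hx0 + (X ^ 2 * x - x ^ 2 * X * om) * om_sq + (-1) * om_cube - h0
  rw [hC.hh hne]
  have h5 := hC.ode hu
  unfold kap FF
  rw [h5]
  set x := ℘[L] (Ω / 3)
  set Y := ℘'[L] (Ω / 3)
  set X := ℘[L] u
  have h6 : 4 * X ^ 3 + 1 + 3 = 4 * (1 + X ^ 3) := by ring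
  rw [h6]
  field_simp
  ring

/-- multiplication by a unit -/
lemma EE_unit {u : eis} (hu : IsUnit u) (Ω : ℂ) (δ : ℝ) (z : ℂ) :
    EE eis Ω δ (u * z) = (u : ℂ)⁻¹ * EE eis Ω δ z := by
  unfold EE
  have hu0 : (u : ℂ) ≠ 0 := coe_ne hu.ne_zero
  obtain ⟨w, rfl⟩ := hu
  rw [← (Units.mulLeft w).tsum_eq, ← tsum_mul_left]
  refine tsum_congr fun β => ?_
  have e1 : ((w : eis) : ℂ) * z + Ω * ((Units.mulLeft w β : eis) : ℂ) = (w : eis) * (z + Ω * β) := by
    rw [Units.mulLeft_apply]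
    push_cast
    ring
  rw [e1, fd_mul, (isUnit_iff' _).1 w.isUnit, mul_one]

include hC in
lemma la_mem_iff (r : eis) : Ω * r / 3 ∈ L.lattice ↔ r ∈ (sp 3 : Ideal eis) :=
  hC.mem_third rfl

include hC in
lemma wp_la_third : ℘[L] (lam * (Ω / 3)) = 0 := by
  have h1 : om * (lam * (Ω / 3)) - lam * (Ω / 3) ∈ L.lattice := by
    rw [hC.mem_third (r := (omr - 1) * la) (by push_cast; rw [omr_coe, la_coe]; ring)]
    have e : (omr - 1) * la = ez (-3) (-3) := by
      rw [← ez_omr, ← ez_one, ez_sub]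
      unfold la
      rw [ez_mul]
      norm_num
    rw [e, mem_three]
    norm_num
  have h3 := wp_per h1
  have h4 := wp_unit hC.lat omr_unit (lam * (Ω / 3))
  have i1 : (om ^ 2)⁻¹ = om :=
    (eq_inv_of_mul_eq_one_left (by linear_combination om_cube)).symm
  rw [omr_coe, i1, h3] at h4
  have h5 : (1 - om) * ℘[L] (lam * (Ω / 3)) = 0 := by linear_combination h4
  refine (mul_eq_zero.1 h5).resolve_left ?_
  intro h6
  have h7 := congrArg Complex.im h6
  simp at h7
  exact om_im.ne' h7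

include hC in
/-- the constant term -/
theorem lim_const [Fintype (eis ⧸ (sp 3 : Ideal eis))] :
    Tendsto (fun δ : ℝ => ∑ y : eis ⧸ (sp 3 : Ideal eis), ee psi y.out *
      EE eis Ω δ (Ω * y.out / (3 : eis))) (𝓝[>] 0) (𝓝 (kap L Ω)) := by
  have hw := hC.third
  have e3 : ((3 : eis) : ℂ) = 3 := rfl
  have hla : lam * (Ω / 3) ∉ L.lattice := by
    rw [hC.mem_third (r := la) (by rw [la_coe]; ring)]
    unfold la
    rw [mem_three]
    norm_num
  have hn1 : Ω / 3 + lam * (Ω / 3) ∉ L.lattice := by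
    rw [hC.mem_third (r := 1 + la) (by push_cast; rw [la_coe]; ring)]
    unfold la
    rw [← ez_one, ez_add, mem_three]
    norm_num
  have hn2 : Ω / 3 - lam * (Ω / 3) ∉ L.lattice := by
    rw [hC.mem_third (r := 1 - la) (by push_cast; rw [la_coe]; ring)]
    unfold la
    rw [← ez_one, ez_sub, mem_three]
    norm_num
  have hlim := lim_Dd hC.lat hw hla hn1 hn2
  have hx0 := hC.x0
  have hxne : ℘[L] (Ω / 3) ≠ 0 := by
    intro h
    rw [h] at hx0
    norm_num at hx0
  have e0 : Dd L (Ω / 3) (lam * (Ω / 3)) = -(1 / 2) * kap L Ω := by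
    unfold Dd kap
    rw [wp_la_third hC, sub_zero]
    field_simp
    linear_combination ℘'[L] (Ω / 3) * hx0
  rw [e0] at hlim
  have h3 := hlim.const_mul (-2)
  have e1 : (-2 : ℂ) * (-(1 / 2) * kap L Ω) = kap L Ω := by ring
  rw [e1] at h3
  refine h3.congr fun δ => ?_
  have hper : ∀ x y : eis, x - y ∈ (sp 3 : Ideal eis) →
      ee psi x * EE eis Ω δ (Ω * x / (3 : eis)) = ee psi y * EE eis Ω δ (Ω * y / (3 : eis)) := by
    intro x y hxy
    rw [eo.per x y hxy]
    congr 1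
    apply EE_per hC.lat
    have := (div_mem_iff hC.lat three_ne (x - y)).2 hxy
    convert this using 1
    push_cast
    ring
  rw [six_sum (fun y => ee psi y * EE eis Ω δ (Ω * y / (3 : eis)))
    (fun x hx => by rw [ee_ncop hx, zero_mul]) hper]
  have hterm : ∀ u : eis, IsUnit u → ee psi u * EE eis Ω δ (Ω * u / (3 : eis)) =
      EE eis Ω δ (Ω / 3) := by
    intro u hu
    have hu0 : (u : ℂ) ≠ 0 := coe_ne hu.ne_zero
    have e : Ω * (u : ℂ) / ((3 : eis) : ℂ) = u * (Ω / 3) := by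
      rw [e3]
      ring
    rw [ee_u hu, e, EE_unit hu, mul_inv_cancel_left₀ hu0]
  have hu : ∀ v ∈ ({1, -1, omr, -omr, omr ^ 2, -omr ^ 2} : Set eis), IsUnit v := fun v hv =>
    (unit_list v).2 hv
  rw [hterm 1 (hu _ (by simp)), hterm (-1) (hu _ (by simp)), hterm omr (hu _ (by simp)),
    hterm (-omr) (hu _ (by simp)), hterm (omr ^ 2) (hu _ (by simp)),
    hterm (-omr ^ 2) (hu _ (by simp))]
  -- the two translates
  have i1 : om⁻¹ = om ^ 2 :=
    (eq_inv_of_mul_eq_one_left (by linear_combination om_cube)).symm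
  have i2 : (om ^ 2)⁻¹ = om :=
    (eq_inv_of_mul_eq_one_left (by linear_combination om_cube)).symm
  have e5 : EE eis Ω δ (Ω / 3 + lam * (Ω / 3)) = om * EE eis Ω δ (Ω / 3) := by
    have e6 := EE_unit (omr_unit.pow 2) Ω δ (Ω / 3)
    push_cast at e6
    rw [omr_coe, i2] at e6
    rw [← e6]
    apply EE_per hC.lat
    rw [hC.mem_third (r := 1 + la - omr ^ 2) (by push_cast; rw [la_coe, omr_coe]; ring)]
    have e : 1 + la - omr ^ 2 = ez 3 3 := by
      unfold la ez
      push_cast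
      linear_combination (-1 : eis) * omr_sq
    rw [e, mem_three]
    norm_num
  have e7 : EE eis Ω δ (Ω / 3 - lam * (Ω / 3)) = om ^ 2 * EE eis Ω δ (Ω / 3) := by
    have e6 := EE_unit omr_unit Ω δ (Ω / 3)
    rw [omr_coe, i1] at e6
    rw [← e6]
    apply EE_per hC.lat
    rw [hC.mem_third (r := 1 - la - omr) (by push_cast; rw [la_coe, omr_coe]; ring)]
    have e : 1 - la - omr = ez 0 (-3) := by
      unfold la ez
      push_cast
      ring
    rw [e, mem_three]
    norm_num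
  rw [e5, e7]
  linear_combination (-2 * EE eis Ω δ (Ω / 3)) * om_sq

end Pool.Agent.Y715.T.Lat
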